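import Pool.Agent.Lib.MP_49224a_al.ListProd

section

/-!
# Greedy extension of the product `b`
-/

set_option autoImplicit false

namespace Pool.Agent.Lib.MP_49224a_al

open PowerSeries Finset

theorem LD_two {A G : PowerSeries ℝ} {K : ℕ} (h : LD A G) (hG0 : coeff 0 G = 1)
    (hG : ∀ j, 1 ≤ j → j < K → coeff j G = 0) :
    (∀ i, i < K → coeff i A = 0) ∧
      ∀ k, k < 2 * K → (k : ℝ) * coeff k G = - coeff k A := by
  have hA : ∀ i, i < K → coeff i A = 0 := by
    intro i hi
    have h1 := h.coeff i
    have h2 : ∑ p ∈ antidiagonal i, coeff p.1 A * coeff p.2 G = coeff i A := by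
      rw [Finset.sum_eq_single (i, 0)]
      · simp only; rw [hG0, mul_one]
      · intro p hp hne
        rw [HasAntidiagonal.mem_antidiagonal] at hp
        have : 1 ≤ p.2 := by
          rcases Nat.eq_zero_or_pos p.2 with h3 | h3
          · exfalso; apply hne; ext
            · simp; omega
            · exact h3
          · exact h3
        rw [hG p.2 this (by omega), mul_zero]
      · intro hn; exact absurd (by simp) hn
    rw [h2] at h1
    rcases Nat.eq_zero_or_pos i with rfl | hi0
    · simp at h1 ⊢; linarith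
    · rw [hG i hi0 hi, mul_zero] at h1
      linarith
  refine ⟨hA, fun k hk => ?_⟩
  have h1 := h.coeff k
  have h2 : ∑ p ∈ antidiagonal k, coeff p.1 A * coeff p.2 G = coeff k A := by
    rw [Finset.sum_eq_single (k, 0)]
    · simp only; rw [hG0, mul_one]
    · intro p hp hne
      rw [HasAntidiagonal.mem_antidiagonal] at hp
      have : 1 ≤ p.2 := by
        rcases Nat.eq_zero_or_pos p.2 with h3 | h3
        · exfalso; apply hne; ext
          · simp; omega
          · exact h3
        · exact h3
      by_cases h4 : p.2 < K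
      · rw [hG p.2 this h4, mul_zero]
      · rw [hA p.1 (by omega), zero_mul]
    · intro hn; exact absurd (by simp) hn
  rw [h1, h2]

/-- coefficients in a subring -/
theorem coeff_mul_mem {S : Subring ℝ} {φ ψ : PowerSeries ℝ} (h1 : ∀ k, coeff k φ ∈ S)
    (h2 : ∀ k, coeff k ψ ∈ S) (k : ℕ) : coeff k (φ * ψ) ∈ S := by
  rw [coeff_mul]
  exact S.sum_mem fun p _ => S.mul_mem (h1 _) (h2 _)

theorem facs_mem {S : Subring ℝ} {l : List (ℕ × ℝ)} (hl : ∀ p ∈ l, p.2 ∈ S) (k : ℕ) :
    coeff k (facs l) ∈ S := by
  induction l generalizing k with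
  | nil =>
    rw [facs_nil, coeff_one]
    split_ifs
    · exact S.one_mem
    · exact S.zero_mem
  | cons p l ih =>
    rw [facs_cons]
    refine coeff_mul_mem (fun j => ?_) (fun j => ih (fun q hq => hl q (by simp [hq])) j) k
    rw [map_sub, coeff_one, coeff_C_mul, coeff_X_pow]
    refine S.sub_mem ?_ (S.mul_mem (hl p (by simp)) ?_)
    · split_ifs
      · exact S.one_mem
      · exact S.zero_mem
    · split_ifs
      · exact S.one_mem
      · exact S.zero_mem

theorem facs_const {k : ℕ} (hk : 1 ≤ k) (cs : List ℝ) :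
    coeff 0 (facs (cs.map fun c => (k, c))) = 1 ∧
    (∀ j, 1 ≤ j → j < k → coeff j (facs (cs.map fun c => (k, c))) = 0) ∧
    coeff k (facs (cs.map fun c => (k, c))) = - cs.sum := by
  induction cs with
  | nil =>
    refine ⟨by simp [facs], fun j hj _ => ?_, ?_⟩
    · rw [List.map_nil, facs_nil, coeff_one, if_neg (by omega)]
    · rw [List.map_nil, facs_nil, coeff_one, if_neg (by omega)]; simp
  | cons c cs ih =>
    obtain ⟨h0, h1, h2⟩ := ih
    have e : ∀ j, coeff j (facs ((c :: cs).map fun c => (k, c)))
        = coeff j (facs (cs.map fun c => (k, c))) - c * (if k ≤ j then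
          coeff (j - k) (facs (cs.map fun c => (k, c))) else 0) := by
      intro j
      rw [List.map_cons, facs_cons, sub_mul, one_mul, mul_assoc, map_sub, coeff_C_mul,
        coeff_X_pow_mul']
    refine ⟨?_, fun j hj hjk => ?_, ?_⟩
    · rw [e, if_neg (by omega), h0]; ring
    · rw [e, if_neg (by omega), h1 j hj hjk]; ring
    · rw [e, if_pos le_rfl, Nat.sub_self, h0, h2]; simp; ring

theorem wB_const (k : ℕ) (cs : List ℝ) (j : ℕ) :
    wB (cs.map fun c => (k, c)) j = if k = j then cs.sum else 0 := by
  induction cs with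
  | nil => simp [wB]
  | cons c cs ih =>
    rw [List.map_cons, wB_cons, ih]
    simp only
    split_ifs <;> simp

theorem wB_eq_zero {l : List (ℕ × ℝ)} {k : ℕ} (hl : ∀ p ∈ l, p.1 < k) : wB l k = 0 := by
  induction l with
  | nil => simp [wB]
  | cons p l ih =>
    rw [wB_cons, ih (fun q hq => hl q (by simp [hq])), if_neg (hl p (by simp)).ne, add_zero]

/-- the greedy extension -/
theorem exists_list {S : Subring ℝ} {lam σ τ₀ C₁ : ℝ} {K : ℕ} (hK : 2 ≤ K)
    (hσ : 0 ≤ σ) (hlam : 0 < lam) (hτ0 : 0 < τ₀) (hτ1 : τ₀ ≤ 1) (hστ : σ = lam * τ₀ ^ 2)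
    (hC : 0 ≤ C₁)
    (hdec : ∀ k : ℕ, 1 ≤ k → ∀ g ∈ S, 0 ≤ g → ∃ cs : List ℝ,
      (∀ c ∈ cs, c ∈ S ∧ 0 ≤ c ∧ c ≤ σ ^ k) ∧ cs.sum = g)
    {f : PowerSeries ℝ} (hfS : ∀ k, coeff k f ∈ S) {s : ℕ → ℝ}
    (hfs : LD (PowerSeries.mk s) f) (hs1 : ∀ k, 1 ≤ k → s k ≤ C₁ * lam ^ k)
    {l₀ : List (ℕ × ℝ)}
    (hl₀ : ∀ p ∈ l₀, 1 ≤ p.1 ∧ p.1 < K ∧ p.2 ∈ S ∧ 0 ≤ p.2 ∧ p.2 ≤ σ ^ p.1)
    (hl₀f : ∀ k, k < K → coeff k (facs l₀) = coeff k f)
    {H : PowerSeries ℝ} (hHS : ∀ k, coeff k H ∈ S) (hH0 : ∀ k, k < K → coeff k H = 0)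
    (hH1 : ∀ k, K ≤ k → k < 2 * K → 0 ≤ coeff k H ∧ (k : ℝ) * coeff k H ≤ 3 / 4 * lam ^ k)
    (hbig : ∀ k, K ≤ k → k < 2 * K → C₁ * k * (lam * τ₀) ^ k ≤ s k - 3 / 4 * lam ^ k) :
    ∀ k, K ≤ k → k ≤ 2 * K → ∃ l : List (ℕ × ℝ),
      (∀ p ∈ l, 1 ≤ p.1 ∧ p.1 < k ∧ p.2 ∈ S ∧ 0 ≤ p.2 ∧ p.2 ≤ σ ^ p.1) ∧
      (∀ j, j < k → coeff j (facs l * (1 - H)) = coeff j f) ∧
      (∀ j, 1 ≤ j → j < k → (j : ℝ) * wB l j ≤ C₁ * lam ^ j) := by
  intro k hKk
  induction k, hKk using Nat.le_induction with
  | base =>
    intro _
    have hf : ∀ j, j < K → coeff j (facs l₀ * (1 - H)) = coeff j f := by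
      intro j hj
      rw [mul_sub, mul_one, map_sub, hl₀f j hj, mul_comm, conv_zero hH0 j hj, sub_zero]
    refine ⟨l₀, hl₀, hf, fun j hj1 hjK => ?_⟩
    -- compare logarithmic derivatives
    have h1 := LD_facs (l := l₀) (fun p hp => (hl₀ p hp).1)
    obtain ⟨b, hb, _⟩ := facs_inv (l := []) (σ := 0) (r := 1) le_rfl one_pos (by norm_num)
      (by simp)
    have hu : coeff 0 (facs l₀) = 1 := facs_coeff_zero fun p hp => (hl₀ p hp).1
    have hcu : constantCoeff (facs l₀) ≠ 0 := by
      rw [← coeff_zero_eq_constantCoeff_apply, hu]; exact one_ne_zero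
    have hinv : facs l₀ * (facs l₀)⁻¹ = 1 := PowerSeries.mul_inv_cancel _ hcu
    have h2 := hfs.mul (h1.inv hinv)
    have hG : ∀ j, j < K → coeff j (f * (facs l₀)⁻¹) = coeff j (1 : PowerSeries ℝ) := by
      intro j hj
      have : coeff j ((f - facs l₀) * (facs l₀)⁻¹) = 0 :=
        conv_zero (m := K) (fun i hi => by rw [map_sub, hl₀f i hi, sub_self]) j hj
      rw [sub_mul, hinv, map_sub] at this
      linarith
    have h3 := (LD_two (K := K) h2 (by rw [hG 0 (by omega)]; simp)
      (fun i hi1 hiK => by rw [hG i hiK, coeff_one, if_neg (by omega)])).1 j hjK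
    rw [map_add, map_neg, coeff_mk, coeff_mk] at h3
    have h4 := wB_le_sB (l := l₀) (fun p hp => (hl₀ p hp).2.2.2.1) hj1
    linarith [hs1 j hj1]
  | succ k hKk ih =>
    intro hk2
    obtain ⟨l, hl, hlf, hlw⟩ := ih (by omega)
    have hu : coeff 0 (facs l) = 1 := facs_coeff_zero fun p hp => (hl p hp).1
    have hcu : constantCoeff (facs l) ≠ 0 := by
      rw [← coeff_zero_eq_constantCoeff_apply, hu]; exact one_ne_zero
    have hinv : facs l * (facs l)⁻¹ = 1 := PowerSeries.mul_inv_cancel _ hcu
    set b := (facs l)⁻¹ with hb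
    have hb0 : coeff 0 b = 1 := by
      have := congrArg (coeff 0) hinv
      rw [coeff_zero_eq_constantCoeff_apply, map_mul] at this
      rw [coeff_zero_eq_constantCoeff_apply] at hu ⊢
      rw [hu, one_mul] at this
      rw [this]; simp
    set D : PowerSeries ℝ := facs l * (1 - H) - f with hD
    have hD0 : ∀ j, j < k → coeff j D = 0 := fun j hj => by
      rw [hD, map_sub, hlf j hj, sub_self]
    have hDb : D * b = (1 - H) - f * b := by
      rw [hD]; linear_combination (1 - H) * hinv
    set d := coeff k D with hd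
    have hDbk : coeff k (D * b) = d := by
      rw [coeff_mul, Finset.sum_eq_single (k, 0)]
      · simp only; rw [hb0, mul_one]
      · intro p hp hne
        rw [HasAntidiagonal.mem_antidiagonal] at hp
        have : p.1 < k := by
          rcases Nat.eq_zero_or_pos p.2 with h3 | h3
          · exfalso; apply hne; ext
            · simp; omega
            · exact h3
          · omega
        rw [hD0 _ this, zero_mul]
      · intro hn; exact absurd (by simp) hn
    have hG : ∀ j, j < k → coeff j (f * b) = coeff j (1 - H) := by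
      intro j hj
      have := conv_zero (b := b) hD0 j hj
      rw [hDb, map_sub] at this
      linarith
    have hGk : coeff k (f * b) = - coeff k H - d := by
      rw [hDb, map_sub, map_sub, coeff_one, if_neg (by omega)] at hDbk
      linarith
    have h1 := LD_facs (l := l) (fun p hp => (hl p hp).1)
    have h2 := hfs.mul (h1.inv hinv)
    have h3 := (LD_two (K := K) h2 (by
        rw [hG 0 (by omega), map_sub, hH0 0 (by omega)]; simp)
      (fun i hi1 hiK => by
        rw [hG i (by omega), map_sub, hH0 i hiK, coeff_one, if_neg (by omega), sub_zero])).2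
        k (by omega)
    rw [hGk, map_add, map_neg, coeff_mk, coeff_mk] at h3
    have hsB : sB l k ≤ C₁ * k * (lam * τ₀) ^ k :=
      sB_le hσ hlam hτ0 hτ1 hστ hC (fun p hp => ⟨(hl p hp).1, (hl p hp).2.1,
        (hl p hp).2.2.2.1, (hl p hp).2.2.2.2⟩) hlw
    have hkpos : (0 : ℝ) < k := by exact_mod_cast (by omega : 0 < k)
    obtain ⟨hHk0, hHk1⟩ := hH1 k hKk (by omega)
    have hdk : (k : ℝ) * d = s k - sB l k - k * coeff k H := by linarith
    have hd0 : 0 ≤ d := by
      have : 0 ≤ (k : ℝ) * d := by rw [hdk]; linarith [hbig k hKk (by omega)]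
      exact nonneg_of_mul_nonneg_right this hkpos
    have hdS : d ∈ S := by
      rw [hd, hD, map_sub]
      refine S.sub_mem (coeff_mul_mem (facs_mem fun p hp => (hl p hp).2.2.1) (fun j => ?_) k)
        (hfS k)
      rw [map_sub, coeff_one]
      refine S.sub_mem ?_ (hHS j)
      split_ifs
      · exact S.one_mem
      · exact S.zero_mem
    obtain ⟨cs, hcs, hsum⟩ := hdec k (by omega) d hdS hd0
    obtain ⟨g0, g1, g2⟩ := facs_const (k := k) (by omega) cs
    refine ⟨l ++ cs.map (fun c => (k, c)), ?_, ?_, ?_⟩
    · intro p hp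
      rw [List.mem_append] at hp
      rcases hp with hp | hp
      · obtain ⟨a1, a2, a3⟩ := hl p hp
        exact ⟨a1, by omega, a3⟩
      · rw [List.mem_map] at hp
        obtain ⟨c, hc, rfl⟩ := hp
        exact ⟨by simp only; omega, by simp, hcs c hc⟩
    · intro j hj
      rw [facs_append]
      have e : facs l * facs (cs.map fun c => (k, c)) * (1 - H)
          = (facs l * (1 - H)) * facs (cs.map fun c => (k, c)) := by ring
      rw [e, coeff_mul]
      by_cases hjk : j = k
      · subst hjk
        -- two terms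
        have hz : ∀ p ∈ antidiagonal j, p ≠ (j, 0) → p ≠ (0, j) →
            coeff p.1 (facs l * (1 - H)) * coeff p.2 (facs (cs.map fun c => (j, c))) = 0 := by
          intro p hp hp1 hp2
          rw [HasAntidiagonal.mem_antidiagonal] at hp
          have h5 : 1 ≤ p.2 := by
            rcases Nat.eq_zero_or_pos p.2 with h3 | h3
            · exfalso; apply hp1; ext
              · simp; omega
              · exact h3
            · exact h3
          have h6 : p.2 < j := by
            rcases Nat.eq_zero_or_pos p.1 with h3 | h3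
            · exfalso; apply hp2; ext
              · exact h3
              · simp; omega
            · omega
          rw [g1 _ h5 h6, mul_zero]
        have hsplit : ∑ p ∈ antidiagonal j, coeff p.1 (facs l * (1 - H))
            * coeff p.2 (facs (cs.map fun c => (j, c)))
            = coeff j (facs l * (1 - H)) * coeff 0 (facs (cs.map fun c => (j, c)))
              + coeff 0 (facs l * (1 - H)) * coeff j (facs (cs.map fun c => (j, c))) := by
          have hne : ((j, 0) : ℕ × ℕ) ≠ (0, j) := by
            intro h; have := congrArg Prod.fst h; simp at this; omega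
          rw [← Finset.sum_subset (s₁ := {((j, 0) : ℕ × ℕ), (0, j)})]
          · rw [Finset.sum_pair hne]
          · intro p hp
            simp only [Finset.mem_insert, Finset.mem_singleton] at hp
            rw [HasAntidiagonal.mem_antidiagonal]
            rcases hp with rfl | rfl <;> simp
          · intro p hp hpn
            simp only [Finset.mem_insert, Finset.mem_singleton, not_or] at hpn
            exact hz p hp hpn.1 hpn.2
        rw [hsplit, g0, g2, hsum]
        have h0 : coeff 0 (facs l * (1 - H)) = 1 := by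
          rw [hlf 0 (by omega)]
          have := hG 0 (by omega)
          have hh : coeff 0 (f * b) = coeff 0 f * coeff 0 b := by
            simp
          rw [hh, hb0, mul_one, map_sub, hH0 0 (by omega)] at this
          rw [this]; simp
        rw [h0]
        have : coeff j (facs l * (1 - H)) = d + coeff j f := by
          rw [hd, hD, map_sub]; ring
        rw [this]; ring
      · rw [Finset.sum_eq_single (j, 0)]
        · simp only; rw [g0, mul_one]; exact hlf j (by omega)
        · intro p hp hne
          rw [HasAntidiagonal.mem_antidiagonal] at hp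
          have : 1 ≤ p.2 := by
            rcases Nat.eq_zero_or_pos p.2 with h3 | h3
            · exfalso; apply hne; ext
              · simp; omega
              · exact h3
            · exact h3
          rw [g1 _ this (by omega), mul_zero]
        · intro hn; exact absurd (by simp) hn
    · intro j hj1 hjk
      rw [wB_append, wB_const]
      by_cases h5 : k = j
      · subst h5
        rw [if_pos rfl, hsum, wB_eq_zero fun p hp => (hl p hp).2.1, zero_add, hdk]
        have h6 := sB_nonneg (l := l) (fun p hp => (hl p hp).2.2.2.1) k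
        have h7 : 0 ≤ (k : ℝ) * coeff k H := by positivity
        linarith [hs1 k hj1]
      · rw [if_neg h5, add_zero]
        exact hlw j hj1 (by omega)

end Pool.Agent.Lib.MP_49224a_al
end

section

/-!
# Basic facts on strong shift equivalence
-/

set_option autoImplicit false

namespace Pool.Agent.Lib.MP_49224a_al

open Matrix Polynomial

theorem SSE.refl' {n : Type} [Fintype n] {R : Type} [CommRing R] (M : Matrix n n R) : SSE M M :=
  Relation.ReflTransGen.refl

theorem EStep.symm' {R : Type} [CommRing R] {X Y : Σ d : ℕ, Matrix (Fin d) (Fin d) R}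
    (h : EStep R X Y) : EStep R Y X := by
  obtain ⟨U, V, h1, h2⟩ := h
  exact ⟨V, U, h2, h1⟩

theorem SSE.symm {n m : Type} [Fintype n] [Fintype m] {R : Type} [CommRing R]
    {M : Matrix n n R} {M' : Matrix m m R} (h : SSE M M') : SSE M' M := by
  unfold SSE at *
  generalize toSig M = X at h
  generalize toSig M' = Y at h
  induction h with
  | refl => exact Relation.ReflTransGen.refl
  | tail _ h2 ih => exact Relation.ReflTransGen.head (EStep.symm' h2) ih

theorem SSE.trans {n m k : Type} [Fintype n] [Fintype m] [Fintype k] {R : Type} [CommRing R]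
    {M : Matrix n n R} {M' : Matrix m m R} {M'' : Matrix k k R} (h : SSE M M') (h' : SSE M' M'') :
    SSE M M'' := Relation.ReflTransGen.trans h h'

theorem SSE.of_mul {n m : Type} [Fintype n] [Fintype m] {R : Type} [CommRing R]
    (U : Matrix n m R) (V : Matrix m n R) : SSE (U * V) (V * U) := by
  refine Relation.ReflTransGen.single ?_
  refine ⟨U.submatrix (Fintype.equivFin n).symm (Fintype.equivFin m).symm,
    V.submatrix (Fintype.equivFin m).symm (Fintype.equivFin n).symm, ?_, ?_⟩
  · exact (Matrix.submatrix_mul_equiv U V _ (Fintype.equivFin m).symm _).symm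
  · exact (Matrix.submatrix_mul_equiv V U _ (Fintype.equivFin n).symm _).symm

theorem SSE.of_conj {n : Type} [Fintype n] [DecidableEq n] {R : Type} [CommRing R]
    {M M' K K' : Matrix n n R} (h1 : K * K' = 1) (h : M * K = K * M') : SSE M M' := by
  have h2 : K' * K = 1 := mul_eq_one_comm.1 h1
  have hM : M = K * (M' * K') := by
    rw [← Matrix.mul_assoc, ← h, Matrix.mul_assoc, h1, Matrix.mul_one]
  have hM' : M' = (M' * K') * K := by
    rw [Matrix.mul_assoc, h2, Matrix.mul_one]
  have := SSE.of_mul K (M' * K')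
  rwa [← hM, ← hM'] at this

theorem SSE.reindex {n m : Type} [Fintype n] [Fintype m] {R : Type} [CommRing R]
    (e : m ≃ n) (M : Matrix n n R) : SSE (M.submatrix e e) M := by
  classical
  have h := SSE.of_mul ((1 : Matrix n n R).submatrix e id) (M.submatrix id e)
  have h1 : (1 : Matrix n n R).submatrix e id * M.submatrix id e = M.submatrix e e := by
    have := Matrix.submatrix_mul_equiv (1 : Matrix n n R) M e (Equiv.refl n) e
    simpa using this
  have h2 : M.submatrix id e * (1 : Matrix n n R).submatrix e id = M := by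
    have := Matrix.submatrix_mul_equiv M (1 : Matrix n n R) id e id
    simpa using this
  rwa [h1, h2] at h

theorem SSE.fromBlocks_zero {n m : Type} [Fintype n] [Fintype m] {R : Type} [CommRing R]
    (Y : Matrix n m R) (M : Matrix m m R) : SSE (fromBlocks 0 Y 0 M) M := by
  classical
  have h := SSE.of_mul (fromRows Y M) (fromCols (0 : Matrix m n R) (1 : Matrix m m R))
  rw [fromRows_mul_fromCols, fromCols_mul_fromRows] at h
  simpa using h

theorem SSEBasic_nil {n m : Type} [Fintype n] [Fintype m] {R : Type} [CommRing R]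
    (x y : n → R) (hxy : y ⬝ᵥ x = 0) (M : Matrix m m R) :
    SSE (fromBlocks (vecMulVec x y) 0 0 M) M := by
  classical
  have h := SSE.of_mul
    (fromBlocks (replicateCol Unit x) 0 0 (1 : Matrix m m R))
    (fromBlocks (replicateRow Unit y) 0 0 M)
  have h1 : fromBlocks (replicateCol Unit x) 0 0 (1 : Matrix m m R) *
      fromBlocks (replicateRow Unit y) 0 0 M = fromBlocks (vecMulVec x y) 0 0 M := by
    rw [fromBlocks_multiply]
    simp [vecMulVec_eq Unit]
  have h2 : fromBlocks (replicateRow Unit y) 0 0 M *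
      fromBlocks (replicateCol Unit x) 0 0 (1 : Matrix m m R) = fromBlocks 0 0 0 M := by
    rw [fromBlocks_multiply]
    congr 1
    · ext a b
      simp [Matrix.mul_apply, dotProduct] at *
      exact hxy
    · simp
    · simp
    · simp
  rw [h1, h2] at h
  exact h.trans (SSE.fromBlocks_zero 0 M)

theorem SSEBasic_sq {n : Type} [Fintype n] {R : Type} [CommRing R]
    (x y : n → R) (hxy : y ⬝ᵥ x = 0) : vecMulVec x y * vecMulVec x y = 0 := by
  rw [vecMulVec_mul_vecMulVec, hxy]
  simp

theorem SSE.fromBlocks_nil_left {n m : Type} [Fintype n] [Fintype m] {R : Type} [CommRing R]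
    (x y : n → R) (hxy : y ⬝ᵥ x = 0) (Y : Matrix n m R) (M : Matrix m m R) :
    SSE (fromBlocks (vecMulVec x y) Y 0 M) M := by
  classical
  have step : ∀ Y : Matrix n m R, SSE (fromBlocks (vecMulVec x y) Y 0 M)
      (fromBlocks (vecMulVec x y) (vecMulVec x y * Y) 0 M) := by
    intro Y
    have h := SSE.of_mul (fromBlocks (1 : Matrix n n R) Y 0 M)
      (fromBlocks (vecMulVec x y) 0 0 (1 : Matrix m m R))
    rw [fromBlocks_multiply, fromBlocks_multiply] at h
    simpa using h
  have h1 := (step Y).trans (step _)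
  rw [← Matrix.mul_assoc, SSEBasic_sq x y hxy, Matrix.zero_mul] at h1
  exact h1.trans (SSEBasic_nil x y hxy M)

theorem SSE.fromBlocks_nil_right {n m : Type} [Fintype n] [Fintype m] {R : Type} [CommRing R]
    (x y : n → R) (hxy : y ⬝ᵥ x = 0) (Y : Matrix m n R) (M : Matrix m m R) :
    SSE (fromBlocks M Y 0 (vecMulVec x y)) M := by
  classical
  have step : ∀ Y : Matrix m n R, SSE (fromBlocks M Y 0 (vecMulVec x y))
      (fromBlocks M (Y * vecMulVec x y) 0 (vecMulVec x y)) := by
    intro Y
    have h := SSE.of_mul (fromBlocks (1 : Matrix m m R) 0 0 (vecMulVec x y))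
      (fromBlocks M Y 0 (1 : Matrix n n R))
    rw [fromBlocks_multiply, fromBlocks_multiply] at h
    simpa using h
  have h1 := (step Y).trans (step _)
  rw [Matrix.mul_assoc, SSEBasic_sq x y hxy, Matrix.mul_zero] at h1
  refine h1.trans ?_
  have h2 := SSE.reindex (Equiv.sumComm n m) (fromBlocks M 0 0 (vecMulVec x y))
  have h3 : (fromBlocks M 0 0 (vecMulVec x y)).submatrix (Equiv.sumComm n m) (Equiv.sumComm n m)
      = fromBlocks (vecMulVec x y) 0 0 M := by
    ext (a | a) (b | b) <;> simp
  rw [h3] at h2
  exact h2.symm.trans (SSEBasic_nil x y hxy M)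

end Pool.Agent.Lib.MP_49224a_al
end

section

/-!
# Realization by nonnegative block Hessenberg matrices

A polynomial matrix `F = (1 - Q) P₁`, where `P₁` is a product of diagonal matrices `1 - Q_j` and
`Q` has nonnegative coefficients, has a block companion matrix that is similar to a nonnegative
primitive matrix.
-/

set_option autoImplicit false

namespace Pool.Agent.Lib.MP_49224a_al

open Matrix Polynomial

namespace Hess

section chain

variable {ι : Type} [Fintype ι] [DecidableEq ι] {R : Type} [CommRing R]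

/-- The chain relation: `P i t` is the coefficient of degree `t` of the `i`-th polynomial
matrix. -/
structure Chain (N : ℕ) (P M : ℕ → ℕ → Matrix ι ι R) : Prop where
  zero : P 0 0 = 1
  zero' : ∀ t, 0 < t → P 0 t = 0
  step : ∀ i < N, ∀ t, P (i + 1) t
    = P i t - ∑ k ∈ Finset.Icc 1 (min (i + 1) t), M i k * P (i + 1 - k) (t - k)

theorem Chain.const {N : ℕ} {P M : ℕ → ℕ → Matrix ι ι R} (h : Chain N P M) :
    ∀ i ≤ N, P i 0 = 1 := by
  intro i
  induction i with
  | zero => intro _; exact h.zero
  | succ i ih =>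
    intro hi
    rw [h.step i (by omega) 0, ih (by omega)]
    simp

theorem Chain.deg {N : ℕ} {P M : ℕ → ℕ → Matrix ι ι R} (h : Chain N P M) :
    ∀ i ≤ N, ∀ t, i < t → P i t = 0 := by
  intro i
  induction i using Nat.strong_induction_on with
  | _ i ih =>
    intro hi t ht
    rcases Nat.eq_zero_or_pos i with rfl | hpos
    · exact h.zero' t ht
    · obtain ⟨j, rfl⟩ : ∃ j, i = j + 1 := ⟨i - 1, by omega⟩
      rw [h.step j (by omega) t, ih j (by omega) (by omega) t (by omega), zero_sub, neg_eq_zero]
      refine Finset.sum_eq_zero fun k hk => ?_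
      rw [Finset.mem_Icc] at hk
      rw [ih (j + 1 - k) (by omega) (by omega) (t - k) (by omega), Matrix.mul_zero]

/-- The unitriangular matrix of the coefficients. -/
def Kmat (N : ℕ) (P : ℕ → ℕ → Matrix ι ι R) : Matrix (Fin N × ι) (Fin N × ι) R :=
  fun p q => if q.1.val ≤ p.1.val then P p.1.val (p.1.val - q.1.val) p.2 q.2 else 0

/-- The block Hessenberg matrix. -/
def Hmat (N : ℕ) (M : ℕ → ℕ → Matrix ι ι R) : Matrix (Fin N × ι) (Fin N × ι) R :=
  fun p q => (if p.1.val + 1 = q.1.val ∧ p.2 = q.2 then 1 else 0)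
    + (if q.1.val ≤ p.1.val then M p.1.val (p.1.val + 1 - q.1.val) p.2 q.2 else 0)

omit [DecidableEq ι] in
theorem sum_prod_range {N : ℕ} (g : ℕ → ι → R) :
    ∑ x : Fin N × ι, g x.1.val x.2 = ∑ l ∈ Finset.range N, ∑ c, g l c := by
  rw [Fintype.sum_prod_type, Finset.sum_range]

theorem chain_mul {N : ℕ} {P M : ℕ → ℕ → Matrix ι ι R} (h : Chain N P M) (F : Matrix ι ι R[X])
    (hF : ∀ t, 1 ≤ t → ∀ a b, (F a b).coeff t = P N t a b) :
    Hmat N M * Kmat N P = Kmat N P * blockCompanion F N := by
  ext ⟨i, a⟩ ⟨j, b⟩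
  have hi := i.2
  have hj := j.2
  -- right-hand side
  have hR : (Kmat N P * blockCompanion F N) (i, a) (j, b)
      = (if 1 ≤ j.val ∧ j.val ≤ i.val + 1 then P i.val (i.val + 1 - j.val) a b else 0)
        - (if i.val + 1 = N then P N (N - j.val) a b else 0) := by
    rw [Matrix.mul_apply]
    obtain ⟨g, hg⟩ : ∃ g : ℕ → ι → R, g = fun (l : ℕ) (c : ι) =>
        (if l ≤ i.val then P i.val (i.val - l) a c else 0)
          * (if l + 1 = j.val ∧ c = b then 1 else 0)
          - (if l ≤ i.val then P i.val (i.val - l) a c else 0)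
            * (if l + 1 = N then (F c b).coeff (N - j.val) else 0) := ⟨_, rfl⟩
    have e1 : ∀ x : Fin N × ι, Kmat N P (i, a) x * blockCompanion F N x (j, b)
        = g x.1.val x.2 := by
      intro x
      rw [hg]
      simp only [Kmat, blockCompanion, mul_sub]
    rw [Finset.sum_congr rfl (fun x _ => e1 x), sum_prod_range g, hg]
    simp only [Finset.sum_sub_distrib]
    congr 1
    · by_cases hj1 : 1 ≤ j.val
      · rw [Finset.sum_eq_single (j.val - 1)]
        · rw [Finset.sum_eq_single b]
          · have : j.val - 1 + 1 = j.val := by omega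
            simp only [this, and_self, if_true, mul_one]
            by_cases hji : j.val ≤ i.val + 1
            · have e4 : i.val - (j.val - 1) = i.val + 1 - j.val := by omega
              rw [if_pos (by omega), if_pos ⟨hj1, hji⟩, e4]
            · rw [if_neg (by omega), if_neg (by omega)]
          · intro c _ hc
            rw [if_neg (by tauto : ¬ (j.val - 1 + 1 = j.val ∧ c = b)), mul_zero]
          · intro hb
            exact absurd (Finset.mem_univ _) hb
        · intro l _ hl
          refine Finset.sum_eq_zero fun c _ => ?_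
          rw [if_neg (by omega : ¬ (l + 1 = j.val ∧ c = b)), mul_zero]
        · intro hb
          exact absurd (Finset.mem_range.2 (by omega)) hb
      · rw [if_neg (by omega)]
        refine Finset.sum_eq_zero fun l _ => Finset.sum_eq_zero fun c _ => ?_
        rw [if_neg (by omega : ¬ (l + 1 = j.val ∧ c = b)), mul_zero]
    · by_cases hiN : i.val + 1 = N
      · rw [if_pos hiN, Finset.sum_eq_single i.val]
        · simp only [le_refl, if_true, hiN, Nat.sub_self]
          rw [h.const i.val (by omega), Finset.sum_eq_single a]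
          · rw [Matrix.one_apply_eq, one_mul, hF _ (by omega)]
          · intro c _ hc
            rw [Matrix.one_apply_ne (Ne.symm hc), zero_mul]
          · intro hb
            exact absurd (Finset.mem_univ _) hb
        · intro l _ hl
          refine Finset.sum_eq_zero fun c _ => ?_
          rw [if_neg (by omega : ¬ (l + 1 = N)), mul_zero]
        · intro hb
          exact absurd (Finset.mem_range.2 (by omega)) hb
      · rw [if_neg hiN]
        refine Finset.sum_eq_zero fun l _ => Finset.sum_eq_zero fun c _ => ?_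
        by_cases hl : l + 1 = N
        · rw [if_neg (by omega : ¬ (l ≤ i.val)), zero_mul]
        · rw [if_neg hl, mul_zero]
  -- left-hand side
  have hL : (Hmat N M * Kmat N P) (i, a) (j, b)
      = (if i.val + 1 < N ∧ j.val ≤ i.val + 1 then P (i.val + 1) (i.val + 1 - j.val) a b else 0)
        + (∑ k ∈ Finset.Icc 1 (i.val + 1 - j.val),
            M i.val k * P (i.val + 1 - k) (i.val + 1 - j.val - k)) a b := by
    rw [Matrix.mul_apply]
    obtain ⟨g, hg⟩ : ∃ g : ℕ → ι → R, g = fun (l : ℕ) (c : ι) =>
        (if i.val + 1 = l ∧ a = c then 1 else 0)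
            * (if j.val ≤ l then P l (l - j.val) c b else 0)
          + (if l ≤ i.val then M i.val (i.val + 1 - l) a c else 0)
            * (if j.val ≤ l then P l (l - j.val) c b else 0) := ⟨_, rfl⟩
    have e1 : ∀ x : Fin N × ι, Hmat N M (i, a) x * Kmat N P x (j, b)
        = g x.1.val x.2 := by
      intro x
      rw [hg]
      simp only [Kmat, Hmat, add_mul]
    rw [Finset.sum_congr rfl (fun x _ => e1 x), sum_prod_range g, hg]
    simp only [Finset.sum_add_distrib]
    congr 1
    · by_cases hiN : i.val + 1 < N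
      · rw [Finset.sum_eq_single (i.val + 1)]
        · rw [Finset.sum_eq_single a]
          · simp only [and_self, if_true, one_mul]
            by_cases hji : j.val ≤ i.val + 1
            · rw [if_pos hji, if_pos ⟨hiN, hji⟩]
            · rw [if_neg hji, if_neg (by tauto)]
          · intro c _ hc
            rw [if_neg (by tauto : ¬ (i.val + 1 = i.val + 1 ∧ a = c)), zero_mul]
          · intro hb
            exact absurd (Finset.mem_univ _) hb
        · intro l _ hl
          refine Finset.sum_eq_zero fun c _ => ?_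
          rw [if_neg (by omega : ¬ (i.val + 1 = l ∧ a = c)), zero_mul]
        · intro hb
          exact absurd (Finset.mem_range.2 (by omega)) hb
      · rw [if_neg (by tauto)]
        refine Finset.sum_eq_zero fun l hl => Finset.sum_eq_zero fun c _ => ?_
        rw [Finset.mem_range] at hl
        rw [if_neg (by omega : ¬ (i.val + 1 = l ∧ a = c)), zero_mul]
    · rw [Matrix.sum_apply]
      simp only [Matrix.mul_apply]
      -- restrict the range
      have hsub : (Finset.Icc j.val i.val) ⊆ Finset.range N := by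
        intro l hl
        rw [Finset.mem_Icc] at hl
        rw [Finset.mem_range]; omega
      rw [← Finset.sum_subset hsub]
      · refine Finset.sum_nbij' (fun l => i.val + 1 - l) (fun k => i.val + 1 - k) ?_ ?_ ?_ ?_ ?_
        · intro l hl
          rw [Finset.mem_Icc] at *; omega
        · intro l hl
          rw [Finset.mem_Icc] at *; omega
        · intro l hl
          simp only [Finset.mem_Icc] at *; omega
        · intro l hl
          simp only [Finset.mem_Icc] at *; omega
        · intro l hl
          simp only [Finset.mem_Icc] at *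
          refine Finset.sum_congr rfl fun c _ => ?_
          rw [if_pos (by omega), if_pos (by omega)]
          have e2 : i.val + 1 - (i.val + 1 - l) = l := by omega
          have e3 : i.val + 1 - j.val - (i.val + 1 - l) = l - j.val := by omega
          rw [e2, e3]
      · intro l _ hl
        rw [Finset.mem_Icc] at hl
        refine Finset.sum_eq_zero fun c _ => ?_
        by_cases hl1 : l ≤ i.val
        · rw [if_neg (by omega : ¬ (j.val ≤ l)), mul_zero]
        · rw [if_neg hl1, zero_mul]
  rw [hR, hL]
  by_cases hji : j.val ≤ i.val + 1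
  · have hs := h.step i.val hi (i.val + 1 - j.val)
    have hmin : min (i.val + 1) (i.val + 1 - j.val) = i.val + 1 - j.val := by omega
    rw [hmin] at hs
    have hs2 : (∑ k ∈ Finset.Icc 1 (i.val + 1 - j.val),
            M i.val k * P (i.val + 1 - k) (i.val + 1 - j.val - k))
        = P i.val (i.val + 1 - j.val) - P (i.val + 1) (i.val + 1 - j.val) := by
      rw [hs]; abel
    rw [hs2, Matrix.sub_apply]
    have hdeg : ¬ 1 ≤ j.val → P i.val (i.val + 1 - j.val) = 0 := fun hj1 =>
      h.deg i.val (by omega) _ (by omega)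
    by_cases hiN : i.val + 1 = N
    · rw [if_neg (by omega), if_pos hiN, zero_add]
      have : i.val + 1 - j.val = N - j.val := by omega
      by_cases hj1 : 1 ≤ j.val
      · rw [if_pos ⟨hj1, hji⟩, hiN]
      · rw [if_neg (by tauto), hdeg hj1, hiN, Matrix.zero_apply]
    · rw [if_pos ⟨by omega, hji⟩, if_neg hiN]
      by_cases hj1 : 1 ≤ j.val
      · rw [if_pos ⟨hj1, hji⟩]; ring
      · rw [if_neg (by tauto), hdeg hj1, Matrix.zero_apply]; ring
  · rw [if_neg (by tauto), if_neg (by tauto), if_neg (by omega)]
    have : i.val + 1 - j.val = 0 := by omega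
    rw [this]
    simp

theorem det_Kmat {N : ℕ} {P M : ℕ → ℕ → Matrix ι ι R} (h : Chain N P M) :
    (Kmat N P).det = 1 := by
  have hb : Matrix.BlockTriangular (Kmat N P) (fun p : Fin N × ι => OrderDual.toDual p.1) := by
    intro p q hpq
    have : p.1 < q.1 := hpq
    unfold Kmat
    rw [if_neg (by simpa using this)]
  rw [hb.det]
  refine Finset.prod_eq_one fun a _ => ?_
  have : (Kmat N P).toSquareBlock (fun p : Fin N × ι => OrderDual.toDual p.1) a = 1 := by
    ext ⟨p, hp⟩ ⟨q, hq⟩
    have hpq : p.1 = q.1 := by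
      have := hp.trans hq.symm
      simpa using this
    have hpN := p.1.2
    rw [Matrix.toSquareBlock_def, Matrix.of_apply]
    unfold Kmat
    rw [hpq, if_pos le_rfl, Nat.sub_self, h.const _ (by rw [← hpq]; omega)]
    rw [Matrix.one_apply, Matrix.one_apply]
    congr 1
    simp only [Subtype.mk.injEq, eq_iff_iff]
    constructor
    · intro h2; exact Prod.ext hpq h2
    · intro h2; rw [h2]
  rw [this, Matrix.det_one]

theorem exists_inv_Kmat {N : ℕ} {P M : ℕ → ℕ → Matrix ι ι R} (h : Chain N P M) :
    ∃ K' : Matrix (Fin N × ι) (Fin N × ι) R, Kmat N P * K' = 1 ∧ K' * Kmat N P = 1 := by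
  have hu : IsUnit (Kmat N P).det := by rw [det_Kmat h]; exact isUnit_one
  exact ⟨(Kmat N P)⁻¹, Matrix.mul_nonsing_inv _ hu, Matrix.nonsing_inv_mul _ hu⟩

end chain

section prim

variable {ι : Type} [Fintype ι] [DecidableEq ι] {R : Type} [CommRing R] [LinearOrder R]
  [IsStrictOrderedRing R]

theorem pow_nonneg_entries {m : Type} [Fintype m] [DecidableEq m] {H : Matrix m m R}
    (h : ∀ i j, 0 ≤ H i j) (k : ℕ) : ∀ i j, 0 ≤ (H ^ k) i j := by
  induction k with
  | zero =>
    intro i j
    rw [pow_zero, Matrix.one_apply]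
    split_ifs
    · exact zero_le_one
    · exact le_rfl
  | succ k ih =>
    intro i j
    rw [pow_succ, Matrix.mul_apply]
    exact Finset.sum_nonneg fun l _ => mul_nonneg (ih i l) (h l j)

theorem pow_pos_trans {m : Type} [Fintype m] [DecidableEq m] {H : Matrix m m R}
    (h : ∀ i j, 0 ≤ H i j) {s t : ℕ} {i j k : m} (h1 : 0 < (H ^ s) i j) (h2 : 0 < (H ^ t) j k) :
    0 < (H ^ (s + t)) i k := by
  rw [pow_add, Matrix.mul_apply]
  refine Finset.sum_pos' (fun l _ => mul_nonneg (pow_nonneg_entries h s i l)
    (pow_nonneg_entries h t l k)) ⟨j, Finset.mem_univ _, mul_pos h1 h2⟩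

theorem primitive_of {N : ℕ} {H : Matrix (Fin N × ι) (Fin N × ι) R}
    (h : ∀ i j, 0 ≤ H i j)
    (hup : ∀ (i j : Fin N) (a : ι), i.val + 1 = j.val → 0 < H (i, a) (j, a))
    (last zer : Fin N) (hlast : last.val + 1 = N) (hzer : zer.val = 0)
    (hlast0 : ∀ a c, 0 < H (last, a) (zer, c))
    (k₀ : ℕ) (hk0 : 1 ≤ k₀) (hk0N : k₀ + 1 ≤ N)
    (hret : ∀ (j : Fin N) (a c : ι), (j.val + k₀ = N ∨ j.val + (k₀ + 1) = N) →
      0 < H (last, a) (j, c)) :
    ∃ k : ℕ, 0 < k ∧ ∀ i j, 0 < (H ^ k) i j := by
  -- going up
  have up : ∀ (s : ℕ) (i j : Fin N) (a : ι), i.val + s = j.val → 0 < (H ^ s) (i, a) (j, a) := by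
    intro s
    induction s with
    | zero =>
      intro i j a hij
      have : i = j := Fin.ext (by omega)
      rw [this, pow_zero, Matrix.one_apply_eq]
      exact zero_lt_one
    | succ s ih =>
      intro i j a hij
      have hj := j.2
      refine pow_pos_trans h (j := ((⟨j.val - 1, by omega⟩ : Fin N), a)) (ih i _ a ?_) ?_
      · show i.val + s = j.val - 1
        omega
      · rw [pow_one]
        apply hup
        show j.val - 1 + 1 = j.val
        omega
  -- return walks
  have ret : ∀ k, (k = k₀ ∨ k = k₀ + 1) → ∀ a c, 0 < (H ^ k) (last, a) (last, c) := by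
    intro k hk a c
    have hk1 : k = 1 + (k - 1) := by omega
    rw [hk1]
    refine pow_pos_trans h (j := ((⟨N - k, by omega⟩ : Fin N), c)) ?_ (up _ _ _ _ ?_)
    · rw [pow_one]
      apply hret
      show N - k + k₀ = N ∨ N - k + (k₀ + 1) = N
      omega
    · show N - k + (k - 1) = last.val
      omega
  have ret2 : ∀ x y, 1 ≤ x + y → ∀ a c, 0 < (H ^ (x * k₀ + y * (k₀ + 1))) (last, a) (last, c) := by
    intro x
    induction x with
    | zero =>
      intro y
      induction y with
      | zero => intro hxy; omega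
      | succ y ih =>
        intro _ a c
        rcases Nat.eq_zero_or_pos y with rfl | hy
        · have := ret (k₀ + 1) (Or.inr rfl) a c
          simpa using this
        · have h1 := ih (by omega) a c
          have h2 := ret (k₀ + 1) (Or.inr rfl) c c
          have := pow_pos_trans h h1 h2
          have e1 : 0 * k₀ + y * (k₀ + 1) + (k₀ + 1) = 0 * k₀ + (y + 1) * (k₀ + 1) := by ring
          rwa [e1] at this
    | succ x ih =>
      intro y _ a c
      by_cases hxy : 1 ≤ x + y
      · have h1 := ih y hxy a c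
        have h2 := ret k₀ (Or.inl rfl) c c
        have := pow_pos_trans h h1 h2
        have e1 : x * k₀ + y * (k₀ + 1) + k₀ = (x + 1) * k₀ + y * (k₀ + 1) := by ring
        rwa [e1] at this
      · have hx : x = 0 := by omega
        have hy : y = 0 := by omega
        subst hx hy
        have := ret k₀ (Or.inl rfl) a c
        simpa using this
  have ret3 : ∀ T, k₀ * k₀ ≤ T → ∀ a c, 0 < (H ^ T) (last, a) (last, c) := by
    intro T hT a c
    have hq : k₀ ≤ T / k₀ := (Nat.le_div_iff_mul_le (by omega)).2 hT
    have hr : T % k₀ < k₀ := Nat.mod_lt _ (by omega)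
    have hT2 := Nat.div_add_mod T k₀
    have h1 := ret2 (T / k₀ - T % k₀) (T % k₀) (by omega) a c
    have e1 : (T / k₀ - T % k₀) * k₀ + T % k₀ * (k₀ + 1) = T := by
      zify [(by omega : T % k₀ ≤ T / k₀)]
      have : (k₀ : ℤ) * ((T / k₀ : ℕ) : ℤ) + ((T % k₀ : ℕ) : ℤ) = T := by exact_mod_cast hT2
      push_cast at this
      linear_combination this
    rwa [e1] at h1
  refine ⟨N + (k₀ * k₀ + (1 + N)) , by omega, ?_⟩
  rintro ⟨i, a⟩ ⟨j, b⟩
  have hi := i.2
  have hj := j.2
  have e1 : N + (k₀ * k₀ + (1 + N)) = (last.val - i.val)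
      + ((k₀ * k₀ + (N - (last.val - i.val)) + (N - j.val)) + (1 + j.val)) := by omega
  rw [e1]
  refine pow_pos_trans h (j := (last, a)) (up _ _ _ _ (by omega)) ?_
  refine pow_pos_trans h (j := (last, a)) (ret3 _ (by omega) _ _) ?_
  refine pow_pos_trans h (j := (zer, b)) ?_ (up _ _ _ _ (by omega))
  rw [pow_one]
  exact hlast0 a b

end prim

section phases

variable {R : Type} [CommRing R]

/-- Total length of the phases. -/
def sL {A : Type} (L : List (ℕ × A)) : ℕ := (L.map Prod.fst).sum

/-- Product of the factors. -/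
noncomputable def Pi (L : List (ℕ × PowerSeries R)) : PowerSeries R :=
  (L.map fun t => 1 - t.2).prod

/-- The chain of one column. -/
noncomputable def pf : List (ℕ × PowerSeries R) → ℕ → PowerSeries R
  | [], _ => 1
  | (t :: L), i => if i < sL (t :: L) then pf L i else Pi (t :: L)

/-- The coefficients in the chain of one column. -/
noncomputable def Mf : List (ℕ × PowerSeries R) → ℕ → ℕ → R
  | [], _, _ => 0
  | (t :: L), i, k => if i + 1 < sL (t :: L) then Mf L i k
      else if i + 1 = sL (t :: L) then PowerSeries.coeff k t.2 else 0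

/-- Conditions on the factors. -/
def Good (L : List (ℕ × PowerSeries R)) : Prop :=
  ∀ t ∈ L, 1 ≤ t.1 ∧ PowerSeries.coeff 0 t.2 = 0 ∧ ∀ k, t.1 < k → PowerSeries.coeff k t.2 = 0

theorem sL_cons {A : Type} (t : ℕ × A) (L : List (ℕ × A)) : sL (t :: L) = t.1 + sL L := by
  simp [sL]

theorem Pi_cons (t : ℕ × PowerSeries R) (L : List (ℕ × PowerSeries R)) :
    Pi (t :: L) = (1 - t.2) * Pi L := by
  simp [Pi]

theorem Good.tail {t : ℕ × PowerSeries R} {L : List (ℕ × PowerSeries R)} (h : Good (t :: L)) :
    Good L := fun u hu => h u (List.mem_cons_of_mem _ hu)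

theorem pf_of_le {L : List (ℕ × PowerSeries R)} {i : ℕ} (h : sL L ≤ i) : pf L i = Pi L := by
  cases L with
  | nil => simp [pf, Pi]
  | cons t L =>
    rw [pf, if_neg (by omega)]

theorem pf_cons_lt (t : ℕ × PowerSeries R) (L : List (ℕ × PowerSeries R)) {i : ℕ}
    (h : i < sL (t :: L)) : pf (t :: L) i = pf L i := by
  rw [pf, if_pos h]

theorem pf_zero {L : List (ℕ × PowerSeries R)} (h : Good L) : pf L 0 = 1 := by
  induction L with
  | nil => rfl
  | cons t L ih =>
    rw [pf_cons_lt _ _ (by have := (h t (by simp)).1; rw [sL_cons]; omega), ih h.tail]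

theorem coeff_Pi {L : List (ℕ × PowerSeries R)} (h : Good L) :
    ∀ k, sL L < k → PowerSeries.coeff k (Pi L) = 0 := by
  induction L with
  | nil =>
    intro k hk
    have : k ≠ 0 := by simp [sL] at hk; omega
    simp [Pi, PowerSeries.coeff_one, this]
  | cons t L ih =>
    intro k hk
    rw [sL_cons] at hk
    rw [Pi_cons, sub_mul, one_mul, map_sub, ih h.tail k (by omega), zero_sub, neg_eq_zero,
      PowerSeries.coeff_mul]
    refine Finset.sum_eq_zero fun p hp => ?_
    rw [Finset.HasAntidiagonal.mem_antidiagonal] at hp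
    by_cases h1 : t.1 < p.1
    · rw [(h t (by simp)).2.2 _ h1, zero_mul]
    · rw [ih h.tail p.2 (by omega), mul_zero]

/-- Multiplication by a series supported on a finite set. -/
theorem coeff_mul_supp (A B : PowerSeries R) (s : ℕ) (T : Finset ℕ)
    (hT : ∀ k ∉ T, k ≤ s → PowerSeries.coeff k A = 0) :
    PowerSeries.coeff s (A * B)
      = ∑ k ∈ T, if k ≤ s then PowerSeries.coeff k A * PowerSeries.coeff (s - k) B else 0 := by
  rw [PowerSeries.coeff_mul,
    Finset.Nat.sum_antidiagonal_eq_sum_range_succ
      (fun i j => PowerSeries.coeff i A * PowerSeries.coeff j B) s, ← Finset.sum_filter]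
  symm
  refine Finset.sum_subset_zero_on_sdiff ?_ ?_ ?_
  · intro k hk
    rw [Finset.mem_filter] at hk
    rw [Finset.mem_range]; omega
  · intro k hk
    rw [Finset.mem_sdiff, Finset.mem_filter, Finset.mem_range] at hk
    have hkT : k ∉ T := fun h => hk.2 ⟨h, by omega⟩
    rw [hT k hkT (by omega), zero_mul]
  · intro k _; rfl

theorem pf_step {L : List (ℕ × PowerSeries R)} (h : Good L) (i s : ℕ) :
    PowerSeries.coeff s (pf L (i + 1)) = PowerSeries.coeff s (pf L i)
      - ∑ k ∈ Finset.Icc 1 (min (i + 1) s), Mf L i k * PowerSeries.coeff (s - k)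
        (pf L (i + 1 - k)) := by
  induction L with
  | nil => simp [pf, Mf]
  | cons t L ih =>
    have ht := h t (by simp)
    have hs := sL_cons t L
    rcases lt_trichotomy (i + 1) (sL (t :: L)) with h1 | h1 | h1
    · rw [pf_cons_lt _ _ h1, pf_cons_lt _ _ (by omega), ih h.tail]
      congr 1
      refine Finset.sum_congr rfl fun k _ => ?_
      rw [pf_cons_lt _ _ (by omega), Mf, if_pos h1]
    · have e1 : pf (t :: L) (i + 1) = (1 - t.2) * Pi L := by
        rw [pf_of_le (by omega), Pi_cons]
      have e2 : pf (t :: L) i = Pi L := by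
        rw [pf_cons_lt _ _ (by omega), pf_of_le (by omega)]
      have e3 : ∀ k ∈ Finset.Icc 1 (min (i + 1) s), Mf (t :: L) i k * PowerSeries.coeff (s - k)
          (pf (t :: L) (i + 1 - k)) = if k ≤ s then
            PowerSeries.coeff k t.2 * PowerSeries.coeff (s - k) (Pi L) else 0 := by
        intro k hk
        rw [Finset.mem_Icc] at hk
        rw [Mf, if_neg (by omega), if_pos h1, if_pos (by omega)]
        by_cases hk2 : t.1 < k
        · rw [ht.2.2 k hk2, zero_mul, zero_mul]
        · rw [pf_cons_lt _ _ (by omega), pf_of_le (by omega)]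
      rw [e1, e2, Finset.sum_congr rfl e3, ← coeff_mul_supp, sub_mul, one_mul, map_sub]
      intro k hk hks
      rw [Finset.mem_Icc] at hk
      rcases Nat.eq_zero_or_pos k with rfl | hk0
      · exact ht.2.1
      · exact ht.2.2 k (by omega)
    · rw [pf_of_le (by omega), pf_of_le (by omega)]
      rw [Finset.sum_eq_zero, sub_zero]
      intro k _
      rw [Mf, if_neg (by omega), if_neg (by omega), zero_mul]

end phases

section tail

variable {R : Type} [CommRing R] [LinearOrder R] [IsStrictOrderedRing R]

/-- The part of degree larger than `m`. -/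
noncomputable def tr (m : ℕ) (A : PowerSeries R) : PowerSeries R :=
  PowerSeries.mk fun k => if k ≤ m then 0 else PowerSeries.coeff k A

omit [LinearOrder R] [IsStrictOrderedRing R] in
theorem coeff_tr (m k : ℕ) (A : PowerSeries R) :
    PowerSeries.coeff k (tr m A) = if k ≤ m then 0 else PowerSeries.coeff k A := by
  rw [tr, PowerSeries.coeff_mk]

/-- The conditions on a column. -/
def Cond (n₀ n : ℕ) : List (ℕ × PowerSeries R) → PowerSeries R → Prop
  | [], A => ∀ k, n < k → PowerSeries.coeff k A = 0
  | (t :: L), A => (∀ k, n₀ ≤ k → 0 < PowerSeries.coeff k A) ∧ 1 ≤ t.1 ∧ n₀ + t.1 ≤ n ∧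
      (∀ k, 0 ≤ PowerSeries.coeff k t.2) ∧ PowerSeries.coeff 0 t.2 = 0 ∧
      (∀ k, t.1 < k → PowerSeries.coeff k t.2 = 0) ∧
      (L = [] → 0 < PowerSeries.coeff t.1 t.2) ∧
      Cond n₀ n L (A * (1 - t.2))

omit [IsStrictOrderedRing R] in
theorem Cond.nonneg {n₀ n : ℕ} {L : List (ℕ × PowerSeries R)} {A : PowerSeries R}
    (h : Cond n₀ n L A) : ∀ k, n < k → 0 ≤ PowerSeries.coeff k A := by
  intro k hk
  cases L with
  | nil => exact (h k hk).ge
  | cons t L => exact (h.1 k (by have := h.2.2.1; omega)).le

omit [LinearOrder R] [IsStrictOrderedRing R] in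
/-- The coefficients of the truncated product. -/
theorem coeff_tr_mul (m k d : ℕ) (A q : PowerSeries R)
    (hqd : ∀ k, d < k → PowerSeries.coeff k q = 0) (hk : m < k) :
    PowerSeries.coeff k (tr m A * (1 - q)) = PowerSeries.coeff k (A * (1 - q))
      + ∑ i ∈ Finset.range (m + 1), if k ≤ i + d then
        PowerSeries.coeff i A * PowerSeries.coeff (k - i) q else 0 := by
  have e1 : A * (1 - q) = tr m A * (1 - q) + (A - tr m A) * (1 - q) := by ring
  have e2 : PowerSeries.coeff k ((A - tr m A) * (1 - q))
      = - ∑ i ∈ Finset.range (m + 1), if k ≤ i + d then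
        PowerSeries.coeff i A * PowerSeries.coeff (k - i) q else 0 := by
    rw [coeff_mul_supp _ _ _ (Finset.range (m + 1))]
    · rw [← Finset.sum_neg_distrib]
      refine Finset.sum_congr rfl fun i hi => ?_
      rw [Finset.mem_range] at hi
      have hne : k - i ≠ 0 := by omega
      rw [if_pos (by omega), map_sub, coeff_tr, if_pos (by omega), sub_zero, map_sub,
        PowerSeries.coeff_one, if_neg hne, zero_sub]
      by_cases hd : k ≤ i + d
      · rw [if_pos hd]; ring
      · rw [if_neg hd, hqd _ (by omega)]; ring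
    · intro i hi _
      rw [Finset.mem_range] at hi
      rw [map_sub, coeff_tr, if_neg (by omega), sub_self]
  rw [e1, map_add, e2]
  ring

omit [LinearOrder R] [IsStrictOrderedRing R] in
theorem coeff_tr_mul_low (m k : ℕ) (A q : PowerSeries R) (hk : k ≤ m) :
    PowerSeries.coeff k (tr m A * (1 - q)) = 0 := by
  rw [PowerSeries.coeff_mul]
  refine Finset.sum_eq_zero fun p hp => ?_
  rw [Finset.HasAntidiagonal.mem_antidiagonal] at hp
  rw [coeff_tr, if_pos (by omega), zero_mul]

theorem tail_exists (n₀ n : ℕ) : ∀ (L : List (ℕ × PowerSeries R)) (A : PowerSeries R) (m : ℕ),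
    n ≤ m → Cond n₀ n L A → ∃ M : ℕ → R, (∀ k, 0 ≤ M k) ∧ (L ≠ [] → 0 < M (m + sL L)) ∧
      ∀ s, PowerSeries.coeff s (tr m A * Pi L) = ∑ k ∈ Finset.Ioc m (m + sL L),
        if k ≤ s then M k * PowerSeries.coeff (s - k) (pf L (m + sL L - k)) else 0 := by
  intro L
  induction L with
  | nil =>
    intro A m hm hC
    refine ⟨fun _ => 0, fun _ => le_rfl, fun h => absurd rfl h, fun s => ?_⟩
    have : Pi ([] : List (ℕ × PowerSeries R)) = 1 := by simp [Pi]
    rw [this, mul_one, coeff_tr]
    have e : sL ([] : List (ℕ × PowerSeries R)) = 0 := by simp [sL]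
    rw [e, add_zero, Finset.Ioc_self, Finset.sum_empty]
    split_ifs with h
    · rfl
    · exact hC s (by omega)
  | cons t L ih =>
    intro A m hm hC
    obtain ⟨hpos, ht1, htn, hq, hq0, hqd, hqt, hC'⟩ := hC
    obtain ⟨M', hM'0, hM't, hM's⟩ := ih (A * (1 - t.2)) (m + t.1) (by omega) hC'
    have hs := sL_cons t L
    -- nonnegativity of the new coefficients
    obtain ⟨c, hc⟩ : ∃ c : ℕ → R, ∀ k, c k = PowerSeries.coeff k (tr m A * (1 - t.2)) :=
      ⟨_, fun _ => rfl⟩
    have hnn : ∀ k, m < k → 0 ≤ c k := by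
      intro k hk
      rw [hc, coeff_tr_mul m k t.1 A t.2 hqd hk]
      refine add_nonneg (hC'.nonneg k (by omega)) (Finset.sum_nonneg fun i hi => ?_)
      split_ifs with h
      · exact mul_nonneg (hpos i (by omega)).le (hq _)
      · exact le_rfl
    refine ⟨fun k => if k ≤ m then 0 else if k ≤ m + t.1 then c k else M' k, ?_, ?_, ?_⟩
    · intro k
      dsimp only
      split_ifs with h1 h2
      · exact le_rfl
      · exact hnn k (by omega)
      · exact hM'0 k
    · intro _
      dsimp only
      rw [if_neg (by omega)]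
      by_cases hL : L = []
      · have hs0 : sL L = 0 := by rw [hL]; simp [sL]
        rw [if_pos (by omega), hc, coeff_tr_mul m _ t.1 A t.2 hqd (by omega)]
        refine add_pos_of_nonneg_of_pos (hC'.nonneg _ (by omega)) ?_
        refine Finset.sum_pos' (fun i hi => ?_) ⟨m, Finset.mem_range.2 (by omega), ?_⟩
        · split_ifs with h
          · exact mul_nonneg (hpos i (by omega)).le (hq _)
          · exact le_rfl
        · rw [if_pos (by omega)]
          have e : m + sL (t :: L) - m = t.1 := by omega
          rw [e]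
          exact mul_pos (hpos m (by omega)) (hqt hL)
      · have hs1 : 0 < sL L := by
          obtain ⟨t', L', rfl⟩ := List.exists_cons_of_ne_nil hL
          rw [sL_cons]
          have := hC'.2.1
          omega
        rw [if_neg (by omega)]
        have e : m + sL (t :: L) = m + t.1 + sL L := by omega
        rw [e]
        exact hM't hL
    · intro s
      have hsplit : tr m A * (1 - t.2)
          = (PowerSeries.mk fun k => if m < k ∧ k ≤ m + t.1 then c k else 0)
            + tr (m + t.1) (A * (1 - t.2)) := by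
        ext k
        rw [map_add, PowerSeries.coeff_mk, coeff_tr]
        by_cases h1 : k ≤ m
        · rw [if_neg (by omega), if_pos (by omega), coeff_tr_mul_low _ _ _ _ h1, add_zero]
        · by_cases h2 : k ≤ m + t.1
          · rw [if_pos (by omega), if_pos h2, add_zero, hc]
          · rw [if_neg (by omega), if_neg h2, zero_add,
              coeff_tr_mul m k t.1 A t.2 hqd (by omega), Finset.sum_eq_zero, add_zero]
            intro i hi
            rw [Finset.mem_range] at hi
            rw [if_neg (by omega)]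
      rw [Pi_cons, ← mul_assoc, hsplit, add_mul, map_add, hM's s,
        coeff_mul_supp _ _ _ (Finset.Ioc m (m + t.1))]
      · rw [← Finset.sum_Ioc_consecutive _ (by omega : m ≤ m + t.1)
          (by omega : m + t.1 ≤ m + sL (t :: L))]
        congr 1
        · refine Finset.sum_congr rfl fun k hk => ?_
          rw [Finset.mem_Ioc] at hk
          dsimp only
          by_cases hks : k ≤ s
          · rw [if_pos hks, if_pos hks, pf_cons_lt _ _ (by omega), pf_of_le (by omega),
              PowerSeries.coeff_mk, if_pos (by omega), if_neg (by omega), if_pos (by omega)]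
          · rw [if_neg hks, if_neg hks]
        · have e : m + sL (t :: L) = m + t.1 + sL L := by omega
          rw [e]
          refine Finset.sum_congr rfl fun k hk => ?_
          rw [Finset.mem_Ioc] at hk
          dsimp only
          by_cases hks : k ≤ s
          · rw [if_pos hks, if_pos hks, pf_cons_lt _ _ (by omega), if_neg (by omega),
              if_neg (by omega)]
          · rw [if_neg hks, if_neg hks]
      · intro k hk _
        rw [Finset.mem_Ioc] at hk
        rw [PowerSeries.coeff_mk, if_neg hk]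

end tail

section final

variable {R : Type} [CommRing R]

theorem Pi_append (A B : List (ℕ × PowerSeries R)) : Pi (A ++ B) = Pi A * Pi B := by
  simp [Pi]

theorem sL_append {A : Type} (L L' : List (ℕ × A)) : sL (L ++ L') = sL L + sL L' := by
  simp [sL]

theorem le_sL {A : Type} {L : List (ℕ × A)} {t : ℕ × A} (h : t ∈ L) : t.1 ≤ sL L := by
  unfold sL
  exact List.le_sum_of_mem (List.mem_map_of_mem h)

theorem Mf_nonneg [LinearOrder R] [IsStrictOrderedRing R] {L : List (ℕ × PowerSeries R)}
    (h : ∀ t ∈ L, ∀ k, 0 ≤ PowerSeries.coeff k t.2) (i k : ℕ) : 0 ≤ Mf L i k := by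
  induction L with
  | nil => exact le_rfl
  | cons t L ih =>
    rw [Mf]
    split_ifs with h1 h2
    · exact ih fun u hu => h u (List.mem_cons_of_mem _ hu)
    · exact h t (by simp) k
    · exact le_rfl

/-- One factor, for the column `c`. -/
noncomputable def fac {ι : Type} [DecidableEq ι] (e c : ι) (p : ℕ × R) : ℕ × PowerSeries R :=
  (p.1, if c = e then PowerSeries.C p.2 * PowerSeries.X ^ p.1 else 0)

theorem Pi_fac {ι : Type} [DecidableEq ι] (e c : ι) (l : List (ℕ × R)) :
    Pi (l.map (fac e c))
      = if c = e then (l.map fun p => 1 - PowerSeries.C p.2 * PowerSeries.X ^ p.1).prod else 1 := by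
  unfold Pi
  rw [List.map_map]
  by_cases h : c = e
  · rw [if_pos h]
    congr 1
    refine List.map_congr_left fun p _ => ?_
    simp [fac, h]
  · rw [if_neg h]
    refine List.prod_eq_one fun u hu => ?_
    rw [List.mem_map] at hu
    obtain ⟨p, _, rfl⟩ := hu
    simp [fac, h]

end final

end Hess

open Hess in
theorem realize {R : Type} [CommRing R] [LinearOrder R] [IsStrictOrderedRing R]
    {ι : Type} [Fintype ι] [DecidableEq ι] (e : ι)
    (l : List (ℕ × R)) (hl : ∀ p ∈ l, 1 ≤ p.1 ∧ 0 ≤ p.2)
    (D : ℕ) (hD : 1 ≤ D) (x : ι → PowerSeries R)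
    (hx0 : ∀ c, PowerSeries.coeff 0 (x c) = 0) (hx : ∀ c k, 0 ≤ PowerSeries.coeff k (x c))
    (hxD : ∀ c, 0 < PowerSeries.coeff D (x c))
    (hxdeg : ∀ c k, D < k → PowerSeries.coeff k (x c) = 0)
    (F : Matrix ι ι R[X]) (Q : Matrix ι ι (PowerSeries R))
    (hF : F.map (fun p => (p : PowerSeries R)) = (1 - Q) * diagonal (fun c =>
      (if c = e then (l.map fun p => 1 - PowerSeries.C p.2 * PowerSeries.X ^ p.1).prod else 1)
        * (1 - x c)))
    (hQ0 : ∀ a c, PowerSeries.coeff 0 (Q a c) = 0)
    (hQ : ∀ a c k, 0 ≤ PowerSeries.coeff k (Q a c))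
    (k₁ : ℕ) (hQpos : ∀ a c k, k₁ ≤ k → 0 < PowerSeries.coeff k (Q a c))
    (n₀ : ℕ) (hpre : ∀ l', l' <+: l → ∀ a k, n₀ ≤ k → 0 < PowerSeries.coeff k
      (Q a e * (l'.map fun p => 1 - PowerSeries.C p.2 * PowerSeries.X ^ p.1).prod)) :
    ∃ N : ℕ, 1 ≤ N ∧ (∀ i j, (F i j).natDegree ≤ N) ∧
      ∃ H K K' : Matrix (Fin N × ι) (Fin N × ι) R, K * K' = 1 ∧ K' * K = 1 ∧
        H * K = K * blockCompanion F N ∧ (∀ i j, 0 ≤ H i j) ∧
        ∃ k : ℕ, 0 < k ∧ ∀ i j, 0 < (H ^ k) i j := by
  classical
  -- the lists of the columns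
  obtain ⟨Lc, hLc⟩ : ∃ Lc : ι → List (ℕ × PowerSeries R),
      ∀ c, Lc c = l.map (fac e c) ++ [(D, x c)] := ⟨_, fun _ => rfl⟩
  have hPi : ∀ c, Pi (Lc c) =
      (if c = e then (l.map fun p => 1 - PowerSeries.C p.2 * PowerSeries.X ^ p.1).prod else 1)
        * (1 - x c) := by
    intro c
    rw [hLc, Pi_append, Pi_fac]
    congr 1
    simp [Pi]
  obtain ⟨s₀, hs₀⟩ : ∃ s₀ : ℕ, s₀ = sL l + D := ⟨_, rfl⟩
  have hsL : ∀ c, sL (Lc c) = s₀ := by
    intro c
    have h1 : sL (l.map (fac e c)) = sL l := by
      unfold sL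
      rw [List.map_map]
      rfl
    have h2 : sL [(D, x c)] = D := by simp [sL]
    rw [hLc, sL_append, hs₀, h1, h2]
  have hfac : ∀ c, ∀ p ∈ l, PowerSeries.coeff 0 (fac e c p).2 = 0 ∧
      (∀ k, p.1 < k → PowerSeries.coeff k (fac e c p).2 = 0) ∧
      ∀ k, 0 ≤ PowerSeries.coeff k (fac e c p).2 := by
    intro c p hp
    have hp1 := hl p hp
    unfold fac
    by_cases hce : c = e
    · simp only [hce, if_true]
      refine ⟨?_, ?_, ?_⟩
      · rw [PowerSeries.coeff_C_mul_X_pow, if_neg (by omega)]
      · intro k hk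
        rw [PowerSeries.coeff_C_mul_X_pow, if_neg (by omega)]
      · intro k
        rw [PowerSeries.coeff_C_mul_X_pow]
        split_ifs
        · exact hp1.2
        · exact le_rfl
    · simp only [hce, if_false, map_zero]
      exact ⟨trivial, fun _ _ => trivial, fun _ => le_rfl⟩
  have hgood : ∀ c, Good (Lc c) := by
    intro c t ht
    rw [hLc, List.mem_append, List.mem_map, List.mem_singleton] at ht
    rcases ht with ⟨p, hp, rfl⟩ | rfl
    · exact ⟨(hl p hp).1, (hfac c p hp).1, (hfac c p hp).2.1⟩
    · exact ⟨hD, hx0 c, hxdeg c⟩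
  have hnn : ∀ c, ∀ t ∈ Lc c, ∀ k, 0 ≤ PowerSeries.coeff k t.2 := by
    intro c t ht
    rw [hLc, List.mem_append, List.mem_map, List.mem_singleton] at ht
    rcases ht with ⟨p, hp, rfl⟩ | rfl
    · exact (hfac c p hp).2.2
    · exact hx c
  -- coefficients of `F`
  have hF' : ∀ a c s, (F a c).coeff s = (if a = c then PowerSeries.coeff s (Pi (Lc c)) else 0)
      - PowerSeries.coeff s (Q a c * Pi (Lc c)) := by
    intro a c s
    have h1 := congrFun (congrFun hF a) c
    rw [Matrix.map_apply, Matrix.mul_diagonal, ← hPi c, Matrix.sub_apply, Matrix.one_apply] at h1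
    rw [← Polynomial.coeff_coe, h1, sub_mul, map_sub]
    congr 1
    split_ifs
    · rw [one_mul]
    · rw [zero_mul, map_zero]
  -- the choice of the length
  obtain ⟨n0', hn0'⟩ : ∃ n0' : ℕ, n0' = max n₀ k₁ := ⟨_, rfl⟩
  obtain ⟨n, hn⟩ : ∃ n : ℕ, n = n0' + s₀ + (∑ a, ∑ c, (F a c).natDegree) + k₁ + 2 := ⟨_, rfl⟩
  have hdegF : ∀ a c, (F a c).natDegree ≤ n := by
    intro a c
    have h1 : (F a c).natDegree ≤ ∑ c, (F a c).natDegree :=
      Finset.single_le_sum (f := fun c => (F a c).natDegree) (fun _ _ => Nat.zero_le _)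
        (Finset.mem_univ c)
    have h2 : ∑ c, (F a c).natDegree ≤ ∑ a, ∑ c, (F a c).natDegree :=
      Finset.single_le_sum (f := fun a => ∑ c, (F a c).natDegree) (fun _ _ => Nat.zero_le _)
        (Finset.mem_univ a)
    omega
  have hDs : D ≤ s₀ := by omega
  -- the conditions
  have hcond : ∀ a c, Cond n0' n (Lc c) (Q a c) := by
    intro a c
    have hpre' : ∀ l', l' <+: l → ∀ k, n0' ≤ k →
        0 < PowerSeries.coeff k (Q a c * Pi (l'.map (fac e c))) := by
      intro l' hl' k hk
      rw [Pi_fac]
      by_cases hce : c = e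
      · rw [if_pos hce, hce]
        exact hpre l' hl' a k (by omega)
      · rw [if_neg hce, mul_one]
        exact hQpos a c k (by omega)
    have aux : ∀ (l2 l1 : List (ℕ × R)), l1 ++ l2 = l →
        Cond n0' n (l2.map (fac e c) ++ [(D, x c)]) (Q a c * Pi (l1.map (fac e c))) := by
      intro l2
      induction l2 with
      | nil =>
        intro l1 h1
        rw [List.append_nil] at h1
        subst h1
        refine ⟨hpre' l1 (List.prefix_refl _), hD, by show n0' + D ≤ n; omega, hx c, hx0 c,
          hxdeg c, fun _ => hxD c, ?_⟩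
        intro k hk
        have e1 : Q a c * Pi (l1.map (fac e c)) * (1 - (D, x c).2) = Q a c * Pi (Lc c) := by
          rw [mul_assoc, hPi c, Pi_fac]
        rw [e1]
        have h2 := hF' a c k
        rw [Polynomial.coeff_eq_zero_of_natDegree_lt (lt_of_le_of_lt (hdegF a c) hk),
          coeff_Pi (hgood c) k (by rw [hsL]; omega), ite_self, zero_sub] at h2
        exact (neg_eq_zero.1 h2.symm)
      | cons p l2 ih =>
        intro l1 h1
        have hp : p ∈ l := by rw [← h1]; simp
        have hps : p.1 ≤ sL l := le_sL hp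
        have h3 := ih (l1 ++ [p]) (by simpa using h1)
        rw [List.map_append, Pi_append, ← mul_assoc] at h3
        have e2 : Pi ([p].map (fac e c)) = 1 - (fac e c p).2 := by simp [Pi]
        rw [e2] at h3
        refine ⟨hpre' l1 ⟨_, h1⟩, (hl p hp).1, by show n0' + p.1 ≤ n; omega, (hfac c p hp).2.2,
          (hfac c p hp).1, (hfac c p hp).2.1, ?_, h3⟩
        intro h4
        simp at h4
    have := aux l [] rfl
    rw [hLc]
    simpa [Pi] using this
  choose MM hMM0 hMMt hMMs using
    fun a c => tail_exists n0' n (Lc c) (Q a c) n le_rfl (hcond a c)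
  obtain ⟨N, hN⟩ : ∃ N : ℕ, N = n + s₀ := ⟨_, rfl⟩
  obtain ⟨M, hM⟩ : ∃ M : ℕ → ℕ → Matrix ι ι R, ∀ i k a c, M i k a c =
      if i + 1 = N then (if k ≤ n then PowerSeries.coeff k (Q a c) else MM a c k)
      else if a = c then Mf (Lc c) i k else 0 := ⟨fun i k a c => _, fun _ _ _ _ => rfl⟩
  obtain ⟨P, hP⟩ : ∃ P : ℕ → ℕ → Matrix ι ι R, ∀ i t a c, P i t a c =
      if i = N then (F a c).coeff t
      else if a = c then PowerSeries.coeff t (pf (Lc c) i) else 0 :=
    ⟨fun i t a c => _, fun _ _ _ _ => rfl⟩
  have hchain : Chain N P M := by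
    refine ⟨?_, ?_, ?_⟩
    · ext a c
      rw [hP, if_neg (by omega), pf_zero (hgood c), PowerSeries.coeff_one,
        if_pos (rfl : (0 : ℕ) = 0), Matrix.one_apply]
    · intro t ht
      ext a c
      rw [hP, if_neg (by omega), pf_zero (hgood c), PowerSeries.coeff_one,
        if_neg (by omega : ¬ t = 0), ite_self, Matrix.zero_apply]
    · intro i hi t
      ext a b
      rw [Matrix.sub_apply, Matrix.sum_apply]
      have hPi' : P i t a b = if a = b then PowerSeries.coeff t (pf (Lc b) i) else 0 := by
        rw [hP, if_neg (by omega)]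
      have hterm : ∀ k ∈ Finset.Icc 1 (min (i + 1) t), (M i k * P (i + 1 - k) (t - k)) a b
          = M i k a b * PowerSeries.coeff (t - k) (pf (Lc b) (i + 1 - k)) := by
        intro k hk
        rw [Finset.mem_Icc] at hk
        rw [Matrix.mul_apply, Finset.sum_eq_single b]
        · rw [hP, if_neg (by omega), if_pos rfl]
        · intro c _ hc
          rw [hP (i + 1 - k), if_neg (by omega), if_neg hc, mul_zero]
        · intro hb
          exact absurd (Finset.mem_univ _) hb
      rw [Finset.sum_congr rfl hterm, hPi']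
      by_cases hiN : i + 1 = N
      · rw [hP, if_pos hiN, hF', pf_of_le (by rw [hsL]; omega)]
        congr 1
        have hsplit : Q a b = (PowerSeries.mk fun k => if k ≤ n then
            PowerSeries.coeff k (Q a b) else 0) + tr n (Q a b) := by
          ext k
          rw [map_add, PowerSeries.coeff_mk, coeff_tr]
          split_ifs
          · rw [add_zero]
          · rw [zero_add]
        have e1 : PowerSeries.coeff t (Q a b * Pi (Lc b))
            = ∑ k ∈ Finset.Ioc 0 N, if k ≤ t then
              M i k a b * PowerSeries.coeff (t - k) (pf (Lc b) (i + 1 - k)) else 0 := by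
          rw [← Finset.sum_Ioc_consecutive _ (Nat.zero_le n) (by omega : n ≤ N)]
          have e2 : PowerSeries.coeff t (Q a b * Pi (Lc b)) = PowerSeries.coeff t
              (((PowerSeries.mk fun k => if k ≤ n then PowerSeries.coeff k (Q a b) else 0)
                + tr n (Q a b)) * Pi (Lc b)) := by rw [← hsplit]
          rw [e2, add_mul, map_add, hMMs a b t, coeff_mul_supp _ _ _ (Finset.Ioc 0 n)]
          · congr 1
            · refine Finset.sum_congr rfl fun k hk => ?_
              rw [Finset.mem_Ioc] at hk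
              by_cases hkt : k ≤ t
              · rw [if_pos hkt, if_pos hkt, PowerSeries.coeff_mk, if_pos hk.2, hM, if_pos hiN,
                  if_pos hk.2, pf_of_le (by rw [hsL]; omega)]
              · rw [if_neg hkt, if_neg hkt]
            · rw [hsL, ← hN]
              refine Finset.sum_congr rfl fun k hk => ?_
              rw [Finset.mem_Ioc] at hk
              by_cases hkt : k ≤ t
              · rw [if_pos hkt, if_pos hkt, hM, if_pos hiN, if_neg (by omega), hiN]
              · rw [if_neg hkt, if_neg hkt]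
          · intro k hk _
            rw [Finset.mem_Ioc] at hk
            rw [PowerSeries.coeff_mk]
            split_ifs with h5
            · have : k = 0 := by omega
              rw [this]
              exact hQ0 a b
            · rfl
        rw [e1, ← Finset.sum_filter]
        refine Finset.sum_congr ?_ fun _ _ => rfl
        ext k
        rw [Finset.mem_filter, Finset.mem_Ioc, Finset.mem_Icc]
        omega
      · rw [hP, if_neg hiN]
        have hterm2 : ∀ k ∈ Finset.Icc 1 (min (i + 1) t),
            M i k a b * PowerSeries.coeff (t - k) (pf (Lc b) (i + 1 - k))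
              = if a = b then Mf (Lc b) i k * PowerSeries.coeff (t - k)
                (pf (Lc b) (i + 1 - k)) else 0 := by
          intro k _
          rw [hM, if_neg hiN]
          split_ifs
          · rfl
          · rw [zero_mul]
        rw [Finset.sum_congr rfl hterm2]
        by_cases hab : a = b
        · simp only [if_pos hab]
          exact pf_step (hgood b) i t
        · simp only [if_neg hab, Finset.sum_const_zero, sub_zero]
  obtain ⟨K', hK1, hK2⟩ := exists_inv_Kmat hchain
  have hM0 : ∀ i k a c, 0 ≤ M i k a c := by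
    intro i k a c
    rw [hM]
    split_ifs
    · exact hQ a c k
    · exact hMM0 a c k
    · exact Mf_nonneg (hnn c) i k
    · exact le_rfl
  have hH0 : ∀ i j, 0 ≤ Hmat N M i j := by
    intro i j
    unfold Hmat
    refine add_nonneg ?_ ?_
    · split_ifs
      · exact zero_le_one
      · exact le_rfl
    · split_ifs
      · exact hM0 _ _ _ _
      · exact le_rfl
  refine ⟨N, by omega, fun i j => (hdegF i j).trans (by omega), Hmat N M, Kmat N P, K', hK1, hK2,
    chain_mul hchain F (fun t _ a b => by rw [hP, if_pos rfl]), hH0, ?_⟩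
  refine primitive_of hH0 ?_ ⟨N - 1, by omega⟩ ⟨0, by omega⟩
    (by show N - 1 + 1 = N; omega) rfl ?_ (k₁ + 1) (by omega) (by omega) ?_
  · intro i j a hij
    unfold Hmat
    rw [if_pos ⟨hij, rfl⟩, if_neg (by show ¬ (j.val ≤ i.val); omega), add_zero]
    exact zero_lt_one
  · intro a c
    unfold Hmat
    refine add_pos_of_nonneg_of_pos ?_ ?_
    · split_ifs <;> first | exact zero_le_one | exact le_rfl
    · rw [if_pos (by show 0 ≤ N - 1; omega)]
      have e1 : N - 1 + 1 - 0 = n + sL (Lc c) := by rw [hsL]; omega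
      show 0 < M (N - 1) (N - 1 + 1 - 0) a c
      rw [e1, hM, if_pos (by omega), if_neg (by rw [hsL]; omega)]
      refine hMMt a c ?_
      rw [hLc]
      simp
  · intro j a c hj
    unfold Hmat
    refine add_pos_of_nonneg_of_pos ?_ ?_
    · split_ifs <;> first | exact zero_le_one | exact le_rfl
    · have hjN := j.2
      rw [if_pos (by show j.val ≤ N - 1; omega)]
      show 0 < M (N - 1) (N - 1 + 1 - j.val) a c
      rw [hM, if_pos (by omega), if_pos (by omega)]
      exact hQpos a c _ (by omega)

end Pool.Agent.Lib.MP_49224a_al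
end
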