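import Mathlib

section

/-!
# Coefficientwise inequalities between real power series, and logarithmic derivatives
-/

set_option autoImplicit false

namespace Pool.Agent.Lib.MP_49224a_al

open PowerSeries Finset

/-- coefficientwise inequality -/
def CLE (φ ψ : PowerSeries ℝ) : Prop := ∀ k, coeff k φ ≤ coeff k ψ

/-- the series of absolute values -/
noncomputable def absS (φ : PowerSeries ℝ) : PowerSeries ℝ := mk fun k => |coeff k φ|

theorem CLE.rfl' {φ : PowerSeries ℝ} : CLE φ φ := fun _ => le_rfl

theorem CLE.trans {φ ψ χ : PowerSeries ℝ} (h1 : CLE φ ψ) (h2 : CLE ψ χ) : CLE φ χ :=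
  fun k => (h1 k).trans (h2 k)

theorem CLE.add {φ ψ φ' ψ' : PowerSeries ℝ} (h1 : CLE φ ψ) (h2 : CLE φ' ψ') :
    CLE (φ + φ') (ψ + ψ') := fun k => by
  rw [map_add, map_add]; exact add_le_add (h1 k) (h2 k)

theorem CLE.neg {φ ψ : PowerSeries ℝ} (h1 : CLE φ ψ) : CLE (-ψ) (-φ) := fun k => by
  rw [map_neg, map_neg]; exact neg_le_neg (h1 k)

theorem CLE.sub {φ ψ φ' ψ' : PowerSeries ℝ} (h1 : CLE φ ψ) (h2 : CLE φ' ψ') :
    CLE (φ - ψ') (ψ - φ') := fun k => by
  rw [map_sub, map_sub]; exact sub_le_sub (h1 k) (h2 k)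

theorem CLE.mul_left {φ ψ χ : PowerSeries ℝ} (h0 : CLE 0 χ) (h : CLE φ ψ) :
    CLE (χ * φ) (χ * ψ) := fun k => by
  rw [coeff_mul, coeff_mul]
  refine Finset.sum_le_sum fun p _ => mul_le_mul_of_nonneg_left (h _) ?_
  have := h0 p.1; simpa using this

theorem CLE.mul_right {φ ψ χ : PowerSeries ℝ} (h0 : CLE 0 χ) (h : CLE φ ψ) :
    CLE (φ * χ) (ψ * χ) := by
  rw [mul_comm φ, mul_comm ψ]; exact CLE.mul_left h0 h

theorem CLE.mul_nonneg {φ ψ : PowerSeries ℝ} (h1 : CLE 0 φ) (h2 : CLE 0 ψ) : CLE 0 (φ * ψ) := by
  have := CLE.mul_left h1 h2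
  simpa using this

theorem CLE.add_nonneg {φ ψ : PowerSeries ℝ} (h1 : CLE 0 φ) (h2 : CLE 0 ψ) : CLE 0 (φ + ψ) := by
  have := CLE.add h1 h2
  simpa using this

theorem CLE.C_mul {φ ψ : PowerSeries ℝ} {c : ℝ} (hc : 0 ≤ c) (h : CLE φ ψ) :
    CLE (C c * φ) (C c * ψ) := fun k => by
  rw [coeff_C_mul, coeff_C_mul]; exact mul_le_mul_of_nonneg_left (h k) hc

theorem CLE.C_nonneg {c : ℝ} (hc : 0 ≤ c) : CLE 0 (C c) := fun k => by
  rw [coeff_C]; split_ifs <;> simp [hc]

theorem CLE.X_pow_nonneg (n : ℕ) : CLE 0 (X ^ n : PowerSeries ℝ) := fun k => by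
  rw [coeff_X_pow]; split_ifs <;> simp

theorem CLE.C_mul_mono {φ : PowerSeries ℝ} {c d : ℝ} (hcd : c ≤ d) (h : CLE 0 φ) :
    CLE (C c * φ) (C d * φ) := fun k => by
  rw [coeff_C_mul, coeff_C_mul]
  have := h k
  exact mul_le_mul_of_nonneg_right hcd (by simpa using this)

theorem absS_nonneg (φ : PowerSeries ℝ) : CLE 0 (absS φ) := fun k => by
  simp [absS]

theorem le_absS (φ : PowerSeries ℝ) : CLE φ (absS φ) := fun k => by
  simp only [absS, coeff_mk]; exact le_abs_self _

theorem neg_absS_le (φ : PowerSeries ℝ) : CLE (-absS φ) φ := fun k => by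
  simp only [absS, coeff_mk, map_neg]; exact neg_abs_le _

theorem absS_mul_le (φ ψ : PowerSeries ℝ) : CLE (absS (φ * ψ)) (absS φ * absS ψ) := fun k => by
  simp only [absS, coeff_mk, coeff_mul]
  refine (Finset.abs_sum_le_sum_abs _ _).trans (le_of_eq ?_)
  refine Finset.sum_congr rfl fun p _ => ?_
  rw [abs_mul]

/-- a power series with nonnegative first factor of positive constant term -/
theorem coeff_mul_ge {φ ψ : PowerSeries ℝ} (h1 : CLE 0 φ) (h2 : CLE 0 ψ) (i j : ℕ) :
    coeff i φ * coeff j ψ ≤ coeff (i + j) (φ * ψ) := by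
  rw [coeff_mul]
  have := Finset.single_le_sum (f := fun p : ℕ × ℕ => coeff p.1 φ * coeff p.2 ψ)
    (s := antidiagonal (i + j)) (fun p _ => ?_) (a := (i, j)) (by simp)
  · simpa using this
  · have a := h1 p.1
    have b := h2 p.2
    simp only [map_zero] at a b
    positivity

/-- `LD A φ`: the logarithmic derivative relation `X φ' = - A φ`. -/
def LD (A φ : PowerSeries ℝ) : Prop := X * (derivative ℝ φ) = -(A * φ)

theorem LD.mul {A B φ ψ : PowerSeries ℝ} (h1 : LD A φ) (h2 : LD B ψ) : LD (A + B) (φ * ψ) := by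
  unfold LD at *
  rw [Derivation.leibniz, smul_eq_mul, smul_eq_mul]
  linear_combination φ * h2 + ψ * h1

theorem LD.one : LD 0 1 := by
  simp [LD]

theorem LD.inv {B ψ χ : PowerSeries ℝ} (h2 : LD B ψ) (h : ψ * χ = 1) : LD (-B) χ := by
  unfold LD at *
  have h3 : (derivative ℝ (ψ * χ) : PowerSeries ℝ) = 0 := by rw [h]; simp
  rw [Derivation.leibniz, smul_eq_mul, smul_eq_mul] at h3
  linear_combination (X * χ) * h3 - χ * χ * h2 - (X * (derivative ℝ χ) - B * χ) * h

theorem LD.coeff {A φ : PowerSeries ℝ} (h : LD A φ) (k : ℕ) :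
    (k : ℝ) * coeff k φ = - ∑ p ∈ antidiagonal k, coeff p.1 A * coeff p.2 φ := by
  have := congrArg (PowerSeries.coeff k) h
  rw [map_neg, coeff_mul _ A] at this
  rw [← this]
  cases k with
  | zero => simp
  | succ k =>
    rw [coeff_succ_X_mul, coeff_derivative]
    push_cast; ring

theorem LD.of_coeff {A φ : PowerSeries ℝ} (h : ∀ k : ℕ,
    (k : ℝ) * PowerSeries.coeff k φ = - ∑ p ∈ antidiagonal k,
      PowerSeries.coeff p.1 A * PowerSeries.coeff p.2 φ) : LD A φ := by
  unfold LD
  ext k
  rw [map_neg, coeff_mul _ A, ← h]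
  cases k with
  | zero => simp
  | succ k =>
    rw [coeff_succ_X_mul, coeff_derivative]
    push_cast; ring

end Pool.Agent.Lib.MP_49224a_al
end

section

/-!
# Elementary matrices

Products of transvections, as an inductive predicate, with the closure properties that we need.
-/

set_option autoImplicit false

namespace Pool.Agent.Lib.MP_49224a_al

open Matrix

/-- `IsEl M`: the square matrix `M` is a product of transvections. -/
inductive IsEl {n : Type*} [Fintype n] [DecidableEq n] {R : Type*} [CommRing R] :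
    Matrix n n R → Prop
  | one : IsEl 1
  | mul (i j : n) (h : i ≠ j) (c : R) (M : Matrix n n R) (hM : IsEl M) :
      IsEl (transvection i j c * M)

section

variable {n m : Type*} [Fintype n] [DecidableEq n] [Fintype m] [DecidableEq m]
  {R S : Type*} [CommRing R] [CommRing S]

theorem IsEl.transvection {i j : n} (h : i ≠ j) (c : R) : IsEl (transvection i j c) := by
  have := IsEl.mul i j h c 1 IsEl.one
  simpa using this

theorem IsEl.mul_mul {M N : Matrix n n R} (hM : IsEl M) (hN : IsEl N) : IsEl (M * N) := by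
  induction hM with
  | one => simpa using hN
  | mul i j h c M _ ih =>
    rw [Matrix.mul_assoc]
    exact IsEl.mul i j h c _ ih

theorem IsEl.exists_inv {M : Matrix n n R} (hM : IsEl M) :
    ∃ N : Matrix n n R, IsEl N ∧ M * N = 1 ∧ N * M = 1 := by
  induction hM with
  | one => exact ⟨1, IsEl.one, by simp, by simp⟩
  | mul i j h c M _ ih =>
    obtain ⟨N, hN, h1, h2⟩ := ih
    refine ⟨N * Matrix.transvection i j (-c), hN.mul_mul (IsEl.transvection h _), ?_, ?_⟩
    · have : Matrix.transvection i j c * Matrix.transvection i j (-c) = 1 := by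
        rw [transvection_mul_transvection_same _ _ h]; simp
      calc _ = Matrix.transvection i j c * (M * N) * Matrix.transvection i j (-c) := by
            simp only [Matrix.mul_assoc]
        _ = 1 := by rw [h1, Matrix.mul_one, this]
    · have : Matrix.transvection i j (-c) * Matrix.transvection i j c = 1 := by
        rw [transvection_mul_transvection_same _ _ h]; simp
      calc _ = N * (Matrix.transvection i j (-c) * Matrix.transvection i j c) * M := by
            simp only [Matrix.mul_assoc]
        _ = 1 := by rw [this, Matrix.mul_one, h2]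

theorem IsEl.det {M : Matrix n n R} (hM : IsEl M) : M.det = 1 := by
  induction hM with
  | one => simp
  | mul i j h c M _ ih => rw [det_mul, det_transvection_of_ne _ _ h, ih, one_mul]

theorem IsEl.map {M : Matrix n n R} (hM : IsEl M) (f : R →+* S) : IsEl (M.map f) := by
  induction hM with
  | one => simpa using IsEl.one
  | mul i j h c M _ ih =>
    have : (Matrix.transvection i j c * M).map f
        = Matrix.transvection i j (f c) * M.map f := by
      rw [Matrix.map_mul]
      congr 1
      simp [Matrix.transvection, Matrix.map_add, Matrix.map_one]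
    rw [this]
    exact IsEl.mul i j h _ _ ih

theorem IsEl.submatrix {M : Matrix n n R} (hM : IsEl M) (e : m ≃ n) :
    IsEl (M.submatrix e e) := by
  induction hM with
  | one => simpa using IsEl.one
  | mul i j h c M _ ih =>
    have : (Matrix.transvection i j c * M).submatrix e e
        = Matrix.transvection (e.symm i) (e.symm j) c * M.submatrix e e := by
      rw [Matrix.submatrix_mul_equiv (Matrix.transvection i j c) M e e e |>.symm]
      congr 1
      ext a b
      simp [Matrix.transvection, Matrix.single, Matrix.one_apply, Equiv.symm_apply_eq]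
    rw [this]
    exact IsEl.mul _ _ (by simpa using h) _ _ ih

theorem IsEl.fromBlocks_left {M : Matrix n n R} (hM : IsEl M) :
    IsEl (fromBlocks M 0 0 (1 : Matrix m m R)) := by
  induction hM with
  | one => simpa using IsEl.one
  | mul i j h c M _ ih =>
    have : fromBlocks (Matrix.transvection i j c * M) 0 0 (1 : Matrix m m R)
        = Matrix.transvection (Sum.inl i) (Sum.inl j) c * fromBlocks M 0 0 1 := by
      have h2 : Matrix.transvection (Sum.inl i) (Sum.inl j) c
          = fromBlocks (Matrix.transvection i j c) 0 0 (1 : Matrix m m R) := by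
        ext (a | a) (b | b) <;> simp [Matrix.transvection, Matrix.single, Matrix.one_apply]
      rw [h2, fromBlocks_multiply]
      simp
    rw [this]
    exact IsEl.mul _ _ (by simpa using h) _ _ ih

theorem IsEl.fromBlocks_right {M : Matrix n n R} (hM : IsEl M) :
    IsEl (fromBlocks (1 : Matrix m m R) 0 0 M) := by
  have h := (hM.fromBlocks_left (m := m)).submatrix (Equiv.sumComm m n)
  convert h using 1
  ext (a | a) (b | b) <;> simp

theorem IsEl.fromBlocks_upper (X : Matrix n m R) :
    IsEl (fromBlocks (1 : Matrix n n R) X 0 (1 : Matrix m m R)) := by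
  classical
  -- induct over the finite set of columns and rows
  have key : ∀ s : Finset (n × m), IsEl (fromBlocks (1 : Matrix n n R)
      (fun a b => if (a, b) ∈ s then X a b else 0) 0 (1 : Matrix m m R)) := by
    intro s
    induction s using Finset.induction_on with
    | empty =>
      have : (fromBlocks (1 : Matrix n n R) (fun (a : n) (b : m) =>
          if (a, b) ∈ (∅ : Finset (n × m)) then X a b else 0) 0 (1 : Matrix m m R)) = 1 := by
        ext (a | a) (b | b) <;> simp [Matrix.one_apply]
      rw [this]; exact IsEl.one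
    | insert p s hp ih =>
      have : (fromBlocks (1 : Matrix n n R) (fun (a : n) (b : m) =>
          if (a, b) ∈ insert p s then X a b else 0) 0 (1 : Matrix m m R))
          = Matrix.transvection (Sum.inl p.1) (Sum.inr p.2) (X p.1 p.2) *
            (fromBlocks (1 : Matrix n n R) (fun a b => if (a, b) ∈ s then X a b else 0) 0
              (1 : Matrix m m R)) := by
        have h2 : Matrix.transvection (Sum.inl p.1) (Sum.inr p.2) (X p.1 p.2)
            = fromBlocks (1 : Matrix n n R) (fun a b => if (a, b) = p then X a b else 0) 0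
              (1 : Matrix m m R) := by
          ext (a | a) (b | b)
          · simp [Matrix.transvection, Matrix.single, Matrix.one_apply]
          · simp only [Matrix.transvection, Matrix.single, Matrix.add_apply, Matrix.of_apply,
              Matrix.one_apply, fromBlocks_apply₁₂]
            by_cases hab : (a, b) = p
            · subst hab; simp
            · have : ¬ (p.1 = a ∧ p.2 = b) := fun h => hab (Prod.ext h.1.symm h.2.symm)
              simp [hab, this]
          · simp [Matrix.transvection, Matrix.single, Matrix.one_apply]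
          · simp [Matrix.transvection, Matrix.single, Matrix.one_apply]
        rw [h2, fromBlocks_multiply]
        congr 1
        · simp
        · ext a b
          simp only [Matrix.one_mul, Matrix.mul_one, Matrix.add_apply, Finset.mem_insert]
          by_cases hab : (a, b) = p
          · subst hab; simp [hp]
          · simp [hab]
        · simp
        · simp
      rw [this]
      exact IsEl.mul _ _ (by simp) _ _ ih
  have := key Finset.univ
  convert this using 2
  ext a b; simp

theorem IsEl.fromBlocks_lower (X : Matrix m n R) :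
    IsEl (fromBlocks (1 : Matrix n n R) 0 X (1 : Matrix m m R)) := by
  have h := (IsEl.fromBlocks_upper (n := m) (m := n) X).submatrix (Equiv.sumComm n m)
  convert h using 1
  ext (a | a) (b | b) <;> simp

/-- Whitehead's lemma: `diag(u at i, v at j)` is elementary when `u * v = 1`. -/
theorem IsEl.whitehead {i j : n} (h : i ≠ j) (u v : R) (huv : u * v = 1) :
    IsEl (diagonal (Function.update (Function.update (1 : n → R) i u) j v)) := by
  have e : diagonal (Function.update (Function.update (1 : n → R) i u) j v)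
      = Matrix.transvection j i (v - 1) * (Matrix.transvection i j 1 *
        (Matrix.transvection j i (u - 1) * Matrix.transvection i j (-v))) := by
    have hji : j ≠ i := h.symm
    ext a b
    have hv : v * u = 1 := by rw [mul_comm]; exact huv
    simp only [Matrix.transvection, Matrix.add_mul, Matrix.mul_add, Matrix.one_mul,
      Matrix.mul_one, Matrix.single_mul_single_same, Matrix.add_apply,
      Matrix.single_mul_single_of_ne _ _ _ _ hji, Matrix.single_mul_single_of_ne _ _ _ _ h]
    simp only [Matrix.single, Matrix.of_apply, Matrix.diagonal_apply, Matrix.one_apply,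
      Matrix.zero_apply, Function.update_apply, Pi.one_apply, Matrix.add_apply]
    by_cases hai : a = i <;> by_cases haj : a = j <;> by_cases hbi : b = i <;>
      by_cases hbj : b = j <;> by_cases hab : a = b <;>
      first
      | (exfalso; subst_vars; simp_all; done)
      | (subst_vars
         simp_all [eq_comm]
         try linear_combination (1 - u) * huv
         done)
      | (subst_vars
         simp_all [eq_comm]
         try linear_combination huv
         done)
      | (subst_vars
         simp_all [eq_comm]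
         ring_nf
         linear_combination (-1 : R) * hv)
      | (subst_vars
         simp_all [eq_comm]
         ring_nf
         linear_combination v * hv)
  rw [e]
  exact (IsEl.transvection h.symm _).mul_mul ((IsEl.transvection h _).mul_mul
    ((IsEl.transvection h.symm _).mul_mul (IsEl.transvection h _)))

end

end Pool.Agent.Lib.MP_49224a_al
end

section

/-!
# Definitions shared by the modules of the proof

* strong shift equivalence over a commutative ring,
* the block companion matrix of a polynomial matrix with constant term `1`,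
* power series with geometric decay (radius of convergence larger than `r`).
-/

set_option autoImplicit false

namespace Pool.Agent.Lib.MP_49224a_al

open Matrix Polynomial

/-- Elementary strong shift equivalence over `R`. -/
def EStep (R : Type) [CommRing R] (X Y : Σ d : ℕ, Matrix (Fin d) (Fin d) R) : Prop :=
  ∃ (U : Matrix (Fin X.1) (Fin Y.1) R) (V : Matrix (Fin Y.1) (Fin X.1) R),
    X.2 = U * V ∧ Y.2 = V * U

/-- A square matrix over a finite index type, as a matrix over some `Fin d`. -/
noncomputable def toSig {n : Type} [Fintype n] {R : Type} (M : Matrix n n R) :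
    Σ d : ℕ, Matrix (Fin d) (Fin d) R :=
  ⟨Fintype.card n, M.submatrix (Fintype.equivFin n).symm (Fintype.equivFin n).symm⟩

/-- Strong shift equivalence over `R` of square matrices over arbitrary finite index types. -/
def SSE {n m : Type} [Fintype n] [Fintype m] {R : Type} [CommRing R]
    (M : Matrix n n R) (M' : Matrix m m R) : Prop :=
  Relation.ReflTransGen (EStep R) (toSig M) (toSig M')

/-- The block companion matrix of a polynomial matrix `F = 1 + F₁ X + ⋯ + F_N X^N`. -/
def blockCompanion {ι : Type} [DecidableEq ι] {R : Type} [CommRing R]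
    (F : Matrix ι ι R[X]) (N : ℕ) : Matrix (Fin N × ι) (Fin N × ι) R :=
  fun p q => (if p.1.val + 1 = q.1.val ∧ p.2 = q.2 then 1 else 0)
    - (if p.1.val + 1 = N then (F p.2 q.2).coeff (N - q.1.val) else 0)

/-- Power series whose coefficients decay geometrically with a rate better than `r`. -/
def Dec (r : ℝ) (φ : PowerSeries ℂ) : Prop :=
  ∃ ρ : ℝ, r < ρ ∧ ∃ C : ℝ, ∀ k : ℕ, ‖PowerSeries.coeff k φ‖ * ρ ^ k ≤ C

/-- The value at `z` of a power series. -/
noncomputable def evs (z : ℂ) (φ : PowerSeries ℂ) : ℂ := ∑' k : ℕ, PowerSeries.coeff k φ * z ^ k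

/-- The inclusion into `ℂ` of a subring of `ℝ`. -/
noncomputable def toC (S : Subring ℝ) : S →+* ℂ := (algebraMap ℝ ℂ).comp S.subtype

end Pool.Agent.Lib.MP_49224a_al
end

section

/-!
# Products of factors `1 - c X^j`
-/

set_option autoImplicit false

namespace Pool.Agent.Lib.MP_49224a_al

open PowerSeries Finset

/-- the product of the factors `1 - c X^j` -/
noncomputable def facs (l : List (ℕ × ℝ)) : PowerSeries ℝ :=
  (l.map fun p => 1 - C p.2 * X ^ p.1).prod

/-- the coefficients of the logarithmic derivative of `facs l` -/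
noncomputable def sB (l : List (ℕ × ℝ)) (k : ℕ) : ℝ :=
  (l.map fun p => if k ≠ 0 ∧ p.1 ∣ k then (p.1 : ℝ) * p.2 ^ (k / p.1) else 0).sum

/-- total weight of the factors of degree `j` -/
noncomputable def wB (l : List (ℕ × ℝ)) (j : ℕ) : ℝ :=
  (l.map fun p => if p.1 = j then p.2 else 0).sum

theorem facs_nil : facs [] = 1 := by simp [facs]

theorem facs_cons (p : ℕ × ℝ) (l : List (ℕ × ℝ)) :
    facs (p :: l) = (1 - C p.2 * X ^ p.1) * facs l := by simp [facs]

theorem facs_append (l l' : List (ℕ × ℝ)) : facs (l ++ l') = facs l * facs l' := by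
  simp [facs]

theorem sB_cons (p : ℕ × ℝ) (l : List (ℕ × ℝ)) (k : ℕ) :
    sB (p :: l) k = (if k ≠ 0 ∧ p.1 ∣ k then (p.1 : ℝ) * p.2 ^ (k / p.1) else 0) + sB l k := by
  simp [sB]

theorem wB_cons (p : ℕ × ℝ) (l : List (ℕ × ℝ)) (k : ℕ) :
    wB (p :: l) k = (if p.1 = k then p.2 else 0) + wB l k := by
  simp [wB]

theorem wB_append (l l' : List (ℕ × ℝ)) (k : ℕ) : wB (l ++ l') k = wB l k + wB l' k := by
  simp [wB]

theorem facs_coeff_zero {l : List (ℕ × ℝ)} (hl : ∀ p ∈ l, 1 ≤ p.1) : coeff 0 (facs l) = 1 := by
  induction l with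
  | nil => simp [facs]
  | cons p l ih =>
    have h1 : 1 ≤ p.1 := hl p (by simp)
    rw [facs_cons]
    have h2 := ih (fun q hq => hl q (by simp [hq]))
    rw [coeff_zero_eq_constantCoeff_apply] at *
    rw [map_mul, h2, mul_one, map_sub, map_mul, map_pow, constantCoeff_X, zero_pow (by omega)]
    simp

theorem LD_factor {j : ℕ} (hj : 1 ≤ j) (c : ℝ) :
    LD (PowerSeries.mk fun k => if k ≠ 0 ∧ j ∣ k then (j : ℝ) * c ^ (k / j) else 0)
      (1 - C c * X ^ j) := by
  have key : (PowerSeries.mk fun k => if k ≠ 0 ∧ j ∣ k then (j : ℝ) * c ^ (k / j) else 0)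
      * (1 - C c * X ^ j) = C (j * c) * X ^ j := by
    ext k
    have e : (PowerSeries.mk fun k => if k ≠ 0 ∧ j ∣ k then (j : ℝ) * c ^ (k / j) else 0)
      * (1 - C c * X ^ j) = (PowerSeries.mk fun k => if k ≠ 0 ∧ j ∣ k then (j : ℝ) * c ^ (k / j)
        else 0) - C c * (X ^ j * (PowerSeries.mk fun k => if k ≠ 0 ∧ j ∣ k then
          (j : ℝ) * c ^ (k / j) else 0)) := by ring
    rw [e, map_sub, coeff_C_mul, coeff_X_pow_mul', coeff_C_mul, coeff_X_pow]
    simp only [coeff_mk]
    by_cases hk : j ≤ k
    · rw [if_pos hk]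
      by_cases hd : j ∣ k
      · obtain ⟨m, rfl⟩ := hd
        have hm : m ≠ 0 := by rintro rfl; simp at hk; omega
        have h1 : j * m - j = j * (m - 1) := by
          rw [Nat.mul_sub_one]
        rw [if_pos ⟨by positivity, dvd_mul_right _ _⟩, h1, Nat.mul_div_cancel_left _ (by omega),
          Nat.mul_div_cancel_left _ (by omega)]
        by_cases hm1 : m = 1
        · subst hm1
          simp
        · have h2 : ¬ (j * m = j) := by
            intro h
            have : m = 1 := by
              have h3 : j * m = j * 1 := by omega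
              exact Nat.eq_of_mul_eq_mul_left (by omega) h3
            exact hm1 this
          have h3 : j * (m - 1) ≠ 0 := by
            have : m - 1 ≠ 0 := by omega
            positivity
          rw [if_pos ⟨h3, dvd_mul_right _ _⟩, if_neg h2]
          have : c ^ m = c * c ^ (m - 1) := by
            rw [← pow_succ']; congr 1; omega
          rw [this]; ring
      · have h1 : ¬ (j ∣ k - j) := by
          intro h
          apply hd
          have := (Nat.dvd_add_right (dvd_refl j)).2 h
          rwa [Nat.add_sub_cancel' hk] at this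
        rw [if_neg (by tauto), if_neg (by tauto)]
        have h2 : k ≠ j := by rintro rfl; exact hd (dvd_refl _)
        rw [if_neg h2]; ring
    · rw [if_neg hk]
      have h1 : ¬ (k ≠ 0 ∧ j ∣ k) := by
        rintro ⟨h2, h3⟩
        exact hk (Nat.le_of_dvd (by omega) h3)
      have h2 : k ≠ j := by omega
      rw [if_neg h1, if_neg h2]; ring
  unfold LD
  rw [key]
  have h1 : derivative ℝ (1 - C c * X ^ j : PowerSeries ℝ) = -(C c * ((j : PowerSeries ℝ)
      * X ^ (j - 1))) := by
    rw [map_sub, Derivation.leibniz, Derivation.leibniz_pow]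
    simp
  rw [h1]
  have h2 : (X : PowerSeries ℝ) * X ^ (j - 1) = X ^ j := by
    rw [← pow_succ']; congr 1; omega
  have h3 : (C ((j : ℝ) * c) : PowerSeries ℝ) = (j : PowerSeries ℝ) * C c := by
    rw [map_mul]; simp
  rw [h3]
  linear_combination (-(C c) * (j : PowerSeries ℝ)) * h2

theorem LD_facs {l : List (ℕ × ℝ)} (hl : ∀ p ∈ l, 1 ≤ p.1) :
    LD (PowerSeries.mk (sB l)) (facs l) := by
  induction l with
  | nil =>
    have : (PowerSeries.mk (sB [])) = (0 : PowerSeries ℝ) := by
      ext k; simp [sB]
    rw [this, facs_nil]; exact LD.one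
  | cons p l ih =>
    have h1 : 1 ≤ p.1 := hl p (by simp)
    have h2 := ih (fun q hq => hl q (by simp [hq]))
    rw [facs_cons]
    have h3 := (LD_factor h1 p.2).mul h2
    convert h3 using 1
    ext k
    rw [map_add, coeff_mk, coeff_mk, coeff_mk, sB_cons]

theorem sB_nonneg {l : List (ℕ × ℝ)} (hl : ∀ p ∈ l, 0 ≤ p.2) (k : ℕ) : 0 ≤ sB l k := by
  induction l with
  | nil => simp [sB]
  | cons p l ih =>
    rw [sB_cons]
    have h2 := ih (fun q hq => hl q (by simp [hq]))
    have h1 := hl p (by simp)
    split_ifs <;> positivity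

theorem wB_le_sB {l : List (ℕ × ℝ)} (hl : ∀ p ∈ l, 0 ≤ p.2) {k : ℕ} (hk : 1 ≤ k) :
    (k : ℝ) * wB l k ≤ sB l k := by
  induction l with
  | nil => simp [sB, wB]
  | cons p l ih =>
    rw [sB_cons, wB_cons, mul_add]
    have h2 := ih (fun q hq => hl q (by simp [hq]))
    have h1 := hl p (by simp)
    refine add_le_add ?_ h2
    split_ifs with h3 h4 h4
    · subst h3
      rw [Nat.div_self (by omega), pow_one]
    · exfalso; exact h4 ⟨by omega, by rw [h3]⟩
    · rw [mul_zero]; positivity
    · simp

theorem sum_weight (l : List (ℕ × ℝ)) (g : ℕ → ℝ) {k : ℕ} (hl : ∀ p ∈ l, p.1 < k) :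
    (l.map fun p => g p.1 * p.2).sum = ∑ j ∈ range k, g j * wB l j := by
  induction l with
  | nil => simp [wB]
  | cons p l ih =>
    have h2 := ih (fun q hq => hl q (by simp [hq]))
    rw [List.map_cons, List.sum_cons, h2]
    simp only [wB_cons, mul_add, Finset.sum_add_distrib]
    congr 1
    rw [Finset.sum_eq_single p.1]
    · simp
    · intro j _ hj; rw [if_neg (Ne.symm hj), mul_zero]
    · intro h; exact absurd (hl p (by simp)) (by simpa using h)

theorem sB_le {l : List (ℕ × ℝ)} {k : ℕ} {lam σ τ C₁ : ℝ} (hσ : 0 ≤ σ) (hlam : 0 < lam)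
    (hτ0 : 0 < τ) (hτ1 : τ ≤ 1) (hστ : σ = lam * τ ^ 2) (hC : 0 ≤ C₁)
    (hl : ∀ p ∈ l, 1 ≤ p.1 ∧ p.1 < k ∧ 0 ≤ p.2 ∧ p.2 ≤ σ ^ p.1)
    (hw : ∀ j, 1 ≤ j → j < k → (j : ℝ) * wB l j ≤ C₁ * lam ^ j) :
    sB l k ≤ C₁ * k * (lam * τ) ^ k := by
  have h1 : sB l k ≤ (l.map fun p => (if 2 * p.1 ≤ k then (p.1 : ℝ) * σ ^ (k - p.1) else 0)
      * p.2).sum := by
    unfold sB
    refine List.sum_le_sum fun p hp => ?_
    obtain ⟨a1, a2, a3, a4⟩ := hl p hp
    split_ifs with h1 h2 h2
    · obtain ⟨m, hm⟩ := h1.2
      have hm2 : 2 ≤ m := by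
        by_contra hcon
        have : m = 0 ∨ m = 1 := by omega
        rcases this with rfl | rfl
        · omega
        · omega
      rw [hm, Nat.mul_div_cancel_left _ (by omega)]
      have e1 : p.2 ^ m = p.2 * p.2 ^ (m - 1) := by rw [← pow_succ']; congr 1; omega
      have e2 : σ ^ (p.1 * m - p.1) = (σ ^ p.1) ^ (m - 1) := by
        rw [← pow_mul, Nat.mul_sub_one]
      rw [e1, e2]
      have e3 : p.2 ^ (m - 1) ≤ (σ ^ p.1) ^ (m - 1) := pow_le_pow_left₀ a3 a4 _
      have e4 : (0 : ℝ) ≤ p.1 * p.2 := by positivity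
      nlinarith [mul_le_mul_of_nonneg_left e3 e4]
    · exfalso
      obtain ⟨m, hm⟩ := h1.2
      have hm2 : 2 ≤ m := by
        by_contra hcon
        have : m = 0 ∨ m = 1 := by omega
        rcases this with rfl | rfl
        · omega
        · omega
      apply h2
      rw [hm]; nlinarith
    · positivity
    · simp
  refine h1.trans ?_
  rw [sum_weight l (fun j => if 2 * j ≤ k then (j : ℝ) * σ ^ (k - j) else 0)
    (fun p hp => (hl p hp).2.1)]
  have h2 : ∀ j ∈ range k, (if 2 * j ≤ k then (j : ℝ) * σ ^ (k - j) else 0) * wB l j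
      ≤ C₁ * (lam * τ) ^ k := by
    intro j hj
    rw [mem_range] at hj
    split_ifs with h2
    · rcases Nat.eq_zero_or_pos j with rfl | hj0
      · simp; positivity
      · have h3 := hw j hj0 hj
        have e1 : (j : ℝ) * σ ^ (k - j) * wB l j = σ ^ (k - j) * (j * wB l j) := by ring
        rw [e1]
        calc σ ^ (k - j) * (j * wB l j) ≤ σ ^ (k - j) * (C₁ * lam ^ j) :=
              mul_le_mul_of_nonneg_left h3 (by positivity)
          _ = C₁ * (lam ^ k * τ ^ (2 * (k - j))) := by
              rw [hστ, mul_pow, ← pow_mul]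
              have : lam ^ k = lam ^ (k - j) * lam ^ j := by
                rw [← pow_add]; congr 1; omega
              rw [this]; ring
          _ ≤ C₁ * (lam ^ k * τ ^ k) := by
              refine mul_le_mul_of_nonneg_left (mul_le_mul_of_nonneg_left ?_ (by positivity)) hC
              exact pow_le_pow_of_le_one hτ0.le hτ1 (by omega)
          _ = C₁ * (lam * τ) ^ k := by rw [mul_pow]
    · rw [zero_mul]; positivity
  refine (Finset.sum_le_sum h2).trans ?_
  rw [Finset.sum_const, card_range, nsmul_eq_mul]
  apply le_of_eq; ring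

/-- absolutely summable at `r` -/
def Sm (r : ℝ) (φ : PowerSeries ℝ) : Prop := Summable fun k => |coeff k φ| * r ^ k

theorem Sm.mul {r : ℝ} (hr : 0 ≤ r) {φ ψ : PowerSeries ℝ} (h1 : Sm r φ) (h2 : Sm r ψ) :
    Sm r (φ * ψ) := by
  have h := summable_norm_sum_mul_antidiagonal_of_summable_norm
    (f := fun k => |coeff k φ| * r ^ k) (g := fun k => |coeff k ψ| * r ^ k)
    (by simpa [abs_mul, abs_of_nonneg hr, Sm] using h1)
    (by simpa [abs_mul, abs_of_nonneg hr, Sm] using h2)
  refine Summable.of_nonneg_of_le (fun k => by positivity) (fun k => ?_) h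
  rw [coeff_mul]
  have e : ∀ p ∈ antidiagonal k, |coeff p.1 φ| * r ^ p.1 * (|coeff p.2 ψ| * r ^ p.2)
      = |coeff p.1 φ * coeff p.2 ψ| * r ^ k := by
    intro p hp
    rw [HasAntidiagonal.mem_antidiagonal] at hp
    rw [abs_mul, ← hp, pow_add]; ring
  rw [Finset.sum_congr rfl e, ← Finset.sum_mul, Real.norm_eq_abs, abs_mul,
    abs_of_nonneg (pow_nonneg hr k)]
  refine mul_le_mul_of_nonneg_right ?_ (pow_nonneg hr k)
  refine (Finset.abs_sum_le_sum_abs _ _).trans (le_abs_self _)

theorem Sm.of_finite {r : ℝ} {φ : PowerSeries ℝ} {N : ℕ} (h : ∀ k, N ≤ k → coeff k φ = 0) :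
    Sm r φ := by
  refine summable_of_ne_finset_zero (s := range N) (fun k hk => ?_)
  rw [mem_range, not_lt] at hk
  simp [h k hk]

theorem Sm.sub {r : ℝ} (hr : 0 ≤ r) {φ ψ : PowerSeries ℝ} (h1 : Sm r φ) (h2 : Sm r ψ) :
    Sm r (φ - ψ) := by
  refine Summable.of_nonneg_of_le (fun k => by positivity) (fun k => ?_) (Summable.add h1 h2)
  rw [map_sub, ← add_mul]
  exact mul_le_mul_of_nonneg_right (abs_sub _ _) (by positivity)

theorem facs_inv {l : List (ℕ × ℝ)} {σ r : ℝ} (hσ : 0 ≤ σ) (hr : 0 < r) (hσr : σ * r < 1)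
    (hl : ∀ p ∈ l, 1 ≤ p.1 ∧ 0 ≤ p.2 ∧ p.2 ≤ σ ^ p.1) :
    ∃ b : PowerSeries ℝ, b * facs l = 1 ∧ Sm r b := by
  induction l with
  | nil => exact ⟨1, by simp [facs], Sm.of_finite (N := 1) fun k hk => by
      rw [coeff_one, if_neg (by omega)]⟩
  | cons p l ih =>
    obtain ⟨b, hb, hbs⟩ := ih (fun q hq => hl q (by simp [hq]))
    obtain ⟨h1, h2, h3⟩ := hl p (by simp)
    refine ⟨(PowerSeries.mk fun k => if p.1 ∣ k then p.2 ^ (k / p.1) else 0) * b, ?_, ?_⟩
    · rw [facs_cons]
      have key : (PowerSeries.mk fun k => if p.1 ∣ k then p.2 ^ (k / p.1) else 0)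
          * (1 - C p.2 * X ^ p.1) = 1 := by
        ext k
        have e : (PowerSeries.mk fun k => if p.1 ∣ k then p.2 ^ (k / p.1) else 0)
            * (1 - C p.2 * X ^ p.1) = (PowerSeries.mk fun k => if p.1 ∣ k then p.2 ^ (k / p.1)
              else 0) - C p.2 * (X ^ p.1 * (PowerSeries.mk fun k => if p.1 ∣ k then
                p.2 ^ (k / p.1) else 0)) := by ring
        rw [e, map_sub, coeff_C_mul, coeff_X_pow_mul', coeff_one]
        simp only [coeff_mk]
        by_cases hk : p.1 ≤ k
        · rw [if_pos hk, if_neg (by omega : ¬ k = 0)]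
          by_cases hd : p.1 ∣ k
          · obtain ⟨m, rfl⟩ := hd
            have hm : m ≠ 0 := by rintro rfl; simp at hk; omega
            have h4 : p.1 * m - p.1 = p.1 * (m - 1) := by rw [Nat.mul_sub_one]
            rw [if_pos (dvd_mul_right _ _), h4, if_pos (dvd_mul_right _ _),
              Nat.mul_div_cancel_left _ (by omega), Nat.mul_div_cancel_left _ (by omega)]
            have : p.2 ^ m = p.2 * p.2 ^ (m - 1) := by rw [← pow_succ']; congr 1; omega
            rw [this]; ring
          · have h4 : ¬ (p.1 ∣ k - p.1) := by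
              intro h
              apply hd
              have := (Nat.dvd_add_right (dvd_refl p.1)).2 h
              rwa [Nat.add_sub_cancel' hk] at this
            rw [if_neg hd, if_neg h4]; ring
        · rw [if_neg hk]
          rcases Nat.eq_zero_or_pos k with rfl | hk0
          · simp
          · have : ¬ (p.1 ∣ k) := fun h => hk (Nat.le_of_dvd hk0 h)
            rw [if_neg this, if_neg (by omega)]; ring
      calc _ = ((PowerSeries.mk fun k => if p.1 ∣ k then p.2 ^ (k / p.1) else 0)
          * (1 - C p.2 * X ^ p.1)) * (b * facs l) := by ring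
        _ = 1 := by rw [key, hb, one_mul]
    · refine Sm.mul hr.le ?_ hbs
      have hs : Summable fun k : ℕ => (σ * r) ^ k :=
        summable_geometric_of_lt_one (by positivity) hσr
      refine Summable.of_nonneg_of_le (fun k => by positivity) (fun k => ?_) hs
      rw [coeff_mk]
      split_ifs with h
      · obtain ⟨m, rfl⟩ := h
        rw [Nat.mul_div_cancel_left _ (by omega), abs_of_nonneg (by positivity), mul_pow]
        refine mul_le_mul_of_nonneg_right ?_ (by positivity)
        rw [pow_mul]
        exact pow_le_pow_left₀ h2 h3 _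
      · simp; positivity

/-- convolution with an absolutely summable series -/
theorem conv_bound {r δ : ℝ} (hr : 0 < r) (hδ : 0 ≤ δ) {Δ b : PowerSeries ℝ} (hb : Sm r b)
    (hΔ : ∀ k, |coeff k Δ| * r ^ k ≤ δ) (k : ℕ) :
    |coeff k (Δ * b)| * r ^ k ≤ δ * ∑' j, |coeff j b| * r ^ j := by
  rw [coeff_mul]
  calc |∑ p ∈ antidiagonal k, coeff p.1 Δ * coeff p.2 b| * r ^ k
      ≤ (∑ p ∈ antidiagonal k, |coeff p.1 Δ * coeff p.2 b|) * r ^ k :=
        mul_le_mul_of_nonneg_right (Finset.abs_sum_le_sum_abs _ _) (by positivity)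
    _ = ∑ p ∈ antidiagonal k, (|coeff p.1 Δ| * r ^ p.1) * (|coeff p.2 b| * r ^ p.2) := by
        rw [Finset.sum_mul]
        refine Finset.sum_congr rfl fun p hp => ?_
        rw [HasAntidiagonal.mem_antidiagonal] at hp
        rw [abs_mul, ← hp, pow_add]; ring
    _ ≤ ∑ p ∈ antidiagonal k, δ * (|coeff p.2 b| * r ^ p.2) := by
        refine Finset.sum_le_sum fun p _ => mul_le_mul_of_nonneg_right (hΔ _) (by positivity)
    _ = δ * ∑ j ∈ range (k + 1), |coeff (k - j) b| * r ^ (k - j) := by
        rw [← Finset.mul_sum, Finset.Nat.sum_antidiagonal_eq_sum_range_succ_mk]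
    _ = δ * ∑ j ∈ range (k + 1), |coeff j b| * r ^ j := by
        congr 1
        rw [← Finset.sum_range_reflect]
        refine Finset.sum_congr rfl fun j hj => ?_
        rw [mem_range] at hj
        have : k - (k + 1 - 1 - j) = j := by omega
        rw [this]
    _ ≤ δ * ∑' j, |coeff j b| * r ^ j := by
        refine mul_le_mul_of_nonneg_left ?_ hδ
        exact Summable.sum_le_tsum _ (fun j _ => by positivity) hb

theorem conv_zero {Δ b : PowerSeries ℝ} {m : ℕ} (hΔ : ∀ k, k < m → coeff k Δ = 0) (k : ℕ)
    (hk : k < m) : coeff k (Δ * b) = 0 := by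
  rw [coeff_mul]
  refine Finset.sum_eq_zero fun p hp => ?_
  rw [HasAntidiagonal.mem_antidiagonal] at hp
  rw [hΔ _ (by omega), zero_mul]

end Pool.Agent.Lib.MP_49224a_al
end
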