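import Pool.Agent.Lib.MP_49224a_al.Hess
import Pool.Agent.Lib.MP_49224a_al.ListProd

section

/-!
# One step of the greedy factorization below the threshold
-/

set_option autoImplicit false

namespace Pool.Agent.Lib.MP_49224a_al

open PowerSeries Finset

theorem step_LD {f : PowerSeries ℝ} {s : ℕ → ℝ} (hfs : LD (PowerSeries.mk s) f)
    {l : List (ℕ × ℝ)} (hl : ∀ p ∈ l, 1 ≤ p.1) {k : ℕ} (hk : 1 ≤ k)
    (hlf : ∀ j, j < k → coeff j (facs l) = coeff j f) :
    (∀ j, j < k → sB l j = s j) ∧
      (k : ℝ) * (coeff k (facs l) - coeff k f) = s k - sB l k := by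
  have h1 := LD_facs hl
  have hu : coeff 0 (facs l) = 1 := facs_coeff_zero hl
  have hcu : constantCoeff (facs l) ≠ 0 := by
    rw [← coeff_zero_eq_constantCoeff_apply, hu]; exact one_ne_zero
  have hinv : facs l * (facs l)⁻¹ = 1 := PowerSeries.mul_inv_cancel _ hcu
  set b := (facs l)⁻¹ with hb
  have hb0 : coeff 0 b = 1 := by
    have := congrArg (coeff 0) hinv
    rw [coeff_zero_eq_constantCoeff_apply, map_mul] at this
    rw [coeff_zero_eq_constantCoeff_apply] at hu ⊢
    rw [hu, one_mul] at this
    rw [this]; simp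
  have h2 := hfs.mul (h1.inv hinv)
  set D : PowerSeries ℝ := facs l - f with hD
  have hD0 : ∀ j, j < k → coeff j D = 0 := fun j hj => by
    rw [hD, map_sub, hlf j hj, sub_self]
  have hDb : D * b = 1 - f * b := by
    rw [hD, sub_mul, hinv]
  have hDbk : coeff k (D * b) = coeff k D := by
    rw [coeff_mul, Finset.sum_eq_single (k, 0)]
    · simp only; rw [hb0, mul_one]
    · intro p hp hne
      rw [HasAntidiagonal.mem_antidiagonal] at hp
      have : p.1 < k := by
        rcases Nat.eq_zero_or_pos p.2 with h3 | h3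
        · exfalso; apply hne; ext
          · simp; omega
          · exact h3
        · omega
      rw [hD0 _ this, zero_mul]
    · intro hn; exact absurd (by simp) hn
  have hG : ∀ j, j < k → coeff j (f * b) = coeff j (1 : PowerSeries ℝ) := by
    intro j hj
    have := conv_zero (b := b) hD0 j hj
    rw [hDb, map_sub] at this
    linarith
  have hGk : coeff k (f * b) = - coeff k D := by
    rw [hDb, map_sub, coeff_one, if_neg (by omega)] at hDbk
    linarith
  have h3 := LD_two (K := k) h2 (by rw [hG 0 (by omega)]; simp)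
    (fun i hi1 hiK => by rw [hG i hiK, coeff_one, if_neg (by omega)])
  constructor
  · intro j hj
    have h4 := h3.1 j hj
    rw [map_add, map_neg, coeff_mk, coeff_mk] at h4
    linarith
  · have h4 := h3.2 k (by omega)
    rw [hGk, map_add, map_neg, coeff_mk, coeff_mk, hD, map_sub] at h4
    linarith

theorem step_append {f : PowerSeries ℝ} {l : List (ℕ × ℝ)} (hl : ∀ p ∈ l, 1 ≤ p.1) {k : ℕ}
    (hk : 1 ≤ k) (hlf : ∀ j, j < k → coeff j (facs l) = coeff j f) (cs : List ℝ)
    (hsum : cs.sum = coeff k (facs l) - coeff k f) (j : ℕ) (hj : j < k + 1) :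
    coeff j (facs (l ++ cs.map fun c => (k, c))) = coeff j f := by
  obtain ⟨g0, g1, g2⟩ := facs_const (k := k) hk cs
  have hu : coeff 0 (facs l) = 1 := facs_coeff_zero hl
  rw [facs_append, coeff_mul]
  by_cases hjk : j = k
  · subst hjk
    -- two terms
    have hz : ∀ p ∈ antidiagonal j, p ≠ (j, 0) → p ≠ (0, j) →
        coeff p.1 (facs l) * coeff p.2 (facs (cs.map fun c => (j, c))) = 0 := by
      intro p hp hp1 hp2
      rw [HasAntidiagonal.mem_antidiagonal] at hp
      have h5 : 1 ≤ p.2 := by
        rcases Nat.eq_zero_or_pos p.2 with h3 | h3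
        · exfalso; apply hp1; ext
          · simp; omega
          · exact h3
        · exact h3
      have h6 : p.2 < j := by
        rcases Nat.eq_zero_or_pos p.1 with h3 | h3
        · exfalso; apply hp2; ext
          · exact h3
          · simp; omega
        · omega
      rw [g1 _ h5 h6, mul_zero]
    have hsplit : ∑ p ∈ antidiagonal j, coeff p.1 (facs l)
        * coeff p.2 (facs (cs.map fun c => (j, c)))
        = coeff j (facs l) * coeff 0 (facs (cs.map fun c => (j, c)))
          + coeff 0 (facs l) * coeff j (facs (cs.map fun c => (j, c))) := by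
      have hne : ((j, 0) : ℕ × ℕ) ≠ (0, j) := by
        intro h; have := congrArg Prod.fst h; simp at this; omega
      rw [← Finset.sum_subset (s₁ := {((j, 0) : ℕ × ℕ), (0, j)})]
      · rw [Finset.sum_pair hne]
      · intro p hp
        simp only [Finset.mem_insert, Finset.mem_singleton] at hp
        rw [HasAntidiagonal.mem_antidiagonal]
        rcases hp with rfl | rfl <;> simp
      · intro p hp hpn
        simp only [Finset.mem_insert, Finset.mem_singleton, not_or] at hpn
        exact hz p hp hpn.1 hpn.2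
    rw [hsplit, g0, g2, hsum, hu]
    ring
  · rw [Finset.sum_eq_single (j, 0)]
    · simp only; rw [g0, mul_one]; exact hlf j (by omega)
    · intro p hp hne
      rw [HasAntidiagonal.mem_antidiagonal] at hp
      have : 1 ≤ p.2 := by
        rcases Nat.eq_zero_or_pos p.2 with h3 | h3
        · exfalso; apply hne; ext
          · simp; omega
          · exact h3
        · exact h3
      rw [g1 _ this (by omega), mul_zero]
    · intro hn; exact absurd (by simp) hn

end Pool.Agent.Lib.MP_49224a_al
end

section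

section

/-!
# The target matrix is elementary equivalent to a diagonal matrix
-/

set_option autoImplicit false

namespace Pool.Agent.Lib.MP_49224a_al

open Matrix

section

variable {ι : Type*} [Fintype ι] [DecidableEq ι] {R : Type*} [CommRing R]

theorem IsEl.transpose {M : Matrix ι ι R} (hM : IsEl M) : IsEl Mᵀ := by
  induction hM with
  | one => simpa using IsEl.one
  | mul i j h c M _ ih =>
    rw [Matrix.transpose_mul]
    refine ih.mul_mul ?_
    have : (Matrix.transvection i j c)ᵀ = Matrix.transvection j i c := by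
      simp [Matrix.transvection, Matrix.transpose_add]
    rw [this]
    exact IsEl.transvection h.symm c

theorem IsEl.one_add_col (e : ι) (u : ι → R) (hu : u e = 0) :
    IsEl (1 + vecMulVec u (Pi.single e 1)) := by
  have key : ∀ s : Finset ι, e ∉ s →
      IsEl (1 + vecMulVec (fun a => if a ∈ s then u a else 0) (Pi.single e 1)) := by
    intro s
    induction s using Finset.induction_on with
    | empty =>
      intro _
      have : (1 : Matrix ι ι R) + vecMulVec (fun a => if a ∈ (∅ : Finset ι) then u a else 0)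
          (Pi.single e 1) = 1 := by
        ext i j; simp [vecMulVec_apply]
      rw [this]; exact IsEl.one
    | insert a s ha ih =>
      intro he
      simp only [Finset.mem_insert, not_or] at he
      have h1 : (1 : Matrix ι ι R) + vecMulVec (fun b => if b ∈ insert a s then u b else 0)
          (Pi.single e 1) = Matrix.transvection a e (u a) *
            (1 + vecMulVec (fun b => if b ∈ s then u b else 0) (Pi.single e 1)) := by
        have h2 : Matrix.transvection a e (u a)
            = 1 + vecMulVec (Pi.single a (u a)) (Pi.single e 1) := by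
          ext i j
          simp only [Matrix.transvection, Matrix.add_apply, vecMulVec_apply, Matrix.single,
            Matrix.of_apply, Pi.single_apply]
          by_cases h3 : i = a
          · by_cases h4 : j = e
            · simp [h3, h4]
            · simp [h3, h4, Ne.symm h4]
          · simp [h3, Ne.symm h3]
        rw [h2, Matrix.mul_add, Matrix.add_mul, Matrix.add_mul, vecMulVec_mul_vecMulVec]
        have h5 : (Pi.single e (1 : R)) ⬝ᵥ (fun b => if b ∈ s then u b else 0) = 0 := by
          rw [single_dotProduct]; simp [he.2]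
        have h6 : (fun b => if b ∈ insert a s then u b else 0)
            = Pi.single a (u a) + (fun b => if b ∈ s then u b else 0) := by
          ext b
          simp only [Finset.mem_insert, Pi.add_apply, Pi.single_apply]
          by_cases h7 : b = a
          · subst h7; simp [ha]
          · simp [h7]
        rw [h5, h6, add_vecMulVec]
        simp
        abel
      rw [h1]
      exact IsEl.mul a e (Ne.symm he.1) _ _ (ih he.2)
  have h := key (Finset.univ.erase e) (by simp)
  convert h using 3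
  ext a
  by_cases ha : a = e
  · subst ha; simp [hu]
  · simp [ha]

theorem IsEl.one_add_row (e : ι) (w : ι → R) (hw : w e = 0) :
    IsEl (1 + vecMulVec (Pi.single e 1) w) := by
  have h := (IsEl.one_add_col e w hw).transpose
  rw [Matrix.transpose_add, Matrix.transpose_one, transpose_vecMulVec] at h
  exact h

omit [Fintype ι] in
theorem diagonal_update_eq (e : ι) (x : R) :
    diagonal (Function.update (1 : ι → R) e x)
      = 1 + (x - 1) • vecMulVec (Pi.single e 1) (Pi.single e 1) := by
  ext i j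
  simp only [diagonal_apply, Matrix.add_apply, Matrix.one_apply, Matrix.smul_apply,
    vecMulVec_apply, Pi.single_apply, Function.update_apply, smul_eq_mul]
  by_cases h1 : i = j
  · subst h1
    by_cases h2 : i = e <;> simp [h2]
  · by_cases h2 : i = e
    · have : ¬ (j = e) := fun h3 => h1 (h2.trans h3.symm)
      simp [h2, this, Ne.symm this]
    · simp [h1, h2]

theorem target_eq (e : ι) (bb bi fk : R) (hb : bb * bi = 1) (w : ι → R) (hw : w e = 0) :
    (1 - (1 - fk) • vecMulVec (fun _ => (1 : R))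
        (fun c => if c = e then 1 - ∑ a, w a else w c))
        * diagonal (Function.update (1 : ι → R) e bb)
      = (1 + vecMulVec (fun a => if a = e then (0 : R) else 1) (Pi.single e 1))
        * (1 + vecMulVec (Pi.single e 1) (-w))
        * diagonal (Function.update (1 : ι → R) e (fk * bb))
        * (1 + vecMulVec (Pi.single e 1) (bi • w))
        * (1 + vecMulVec (fun a => if a = e then (0 : R) else -bb) (Pi.single e 1)) := by
  set σ : R := ∑ a, w a with hσ
  set E : ι → R := Pi.single e 1 with hE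
  set u : ι → R := fun a => if a = e then 0 else 1 with hu
  have h1 : (fun _ => (1 : R)) = E + u := by
    ext a
    simp only [hE, hu, Pi.add_apply, Pi.single_apply]
    by_cases h : a = e <;> simp [h]
  have h2 : (fun c => if c = e then 1 - σ else w c) = (1 - σ) • E + w := by
    ext a
    simp only [hE, Pi.add_apply, Pi.single_apply, Pi.smul_apply, smul_eq_mul]
    by_cases h : a = e
    · subst h; simp [hw]
    · simp [h]
  have h3 : (fun a => if a = e then (0 : R) else -bb) = (-bb) • u := by
    ext a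
    simp only [hu, Pi.smul_apply, smul_eq_mul]
    by_cases h : a = e <;> simp [h]
  have d1 : E ⬝ᵥ E = 1 := by simp [hE]
  have d2 : E ⬝ᵥ u = 0 := by simp [hE, hu]
  have d3 : w ⬝ᵥ E = 0 := by simp [hE, hw]
  have d4 : w ⬝ᵥ u = σ := by
    rw [hσ, dotProduct]
    refine Finset.sum_congr rfl fun a _ => ?_
    simp only [hu]
    by_cases h : a = e
    · subst h; simp [hw]
    · simp [h]
  rw [h1, h2, h3, diagonal_update_eq, diagonal_update_eq]
  simp only [add_vecMulVec, vecMulVec_add, smul_vecMulVec, vecMulVec_smul,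
    vecMulVec_neg, Matrix.mul_add, Matrix.add_mul, Matrix.mul_one, Matrix.one_mul,
    Matrix.smul_mul, Matrix.mul_smul, vecMulVec_mul_vecMulVec, d1, d2, d3, d4,
    Matrix.neg_mul, Matrix.mul_neg, Matrix.sub_mul, ← hE]
  match_scalars <;> first
    | ring1
    | linear_combination (fk * σ * bb) * hb
    | linear_combination (-fk * σ * bb) * hb
    | linear_combination fk * hb
    | linear_combination (-fk) * hb

end

end Pool.Agent.Lib.MP_49224a_al
end

section

/-!
# Truncation: approximating elementary matrices over power series by polynomial ones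

`Nb r f a` says that the weighted `ℓ¹`-norm `∑ |f_k| r^k` of the power series `f` is at most `a`.
-/

set_option autoImplicit false

namespace Pool.Agent.Lib.MP_49224a_al

open Matrix Polynomial

section Approx

variable {S : Subring ℝ}

/-- All partial sums of `∑ |f_k| r^k` are at most `a`. -/
def Nb (r : ℝ) (f : PowerSeries S) (a : ℝ) : Prop :=
  ∀ n : ℕ, ∑ k ∈ Finset.range n, |((PowerSeries.coeff k f : S) : ℝ)| * r ^ k ≤ a

theorem Nb.nonneg {r : ℝ} {f : PowerSeries S} {a : ℝ} (h : Nb r f a) : 0 ≤ a := by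
  simpa using h 0

theorem Nb.mono {r : ℝ} {f : PowerSeries S} {a b : ℝ} (h : Nb r f a) (hab : a ≤ b) :
    Nb r f b := fun n => (h n).trans hab

theorem Nb.zero {r : ℝ} : Nb r (0 : PowerSeries S) 0 := by
  intro n; simp

theorem Nb.one {r : ℝ} (hr : 0 ≤ r) : Nb r (1 : PowerSeries S) 1 := by
  intro n
  rcases n with _ | n
  · simp
  · rw [Finset.sum_range_succ']
    have : ∀ k ∈ Finset.range n, |((PowerSeries.coeff (k + 1) (1 : PowerSeries S) : S) : ℝ)|
        * r ^ (k + 1) = 0 := by
      intro k _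
      rw [PowerSeries.coeff_one]
      simp
    rw [Finset.sum_eq_zero this]
    simp

theorem Nb.neg {r : ℝ} {f : PowerSeries S} {a : ℝ} (h : Nb r f a) : Nb r (-f) a := by
  intro n
  simpa using h n

theorem Nb.add {r : ℝ} (hr : 0 ≤ r) {f g : PowerSeries S} {a b : ℝ} (hf : Nb r f a)
    (hg : Nb r g b) : Nb r (f + g) (a + b) := by
  intro n
  calc ∑ k ∈ Finset.range n, |((PowerSeries.coeff k (f + g) : S) : ℝ)| * r ^ k
      ≤ ∑ k ∈ Finset.range n, (|((PowerSeries.coeff k f : S) : ℝ)| * r ^ k
          + |((PowerSeries.coeff k g : S) : ℝ)| * r ^ k) := by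
        apply Finset.sum_le_sum
        intro k _
        rw [← add_mul]
        apply mul_le_mul_of_nonneg_right _ (pow_nonneg hr k)
        rw [map_add]
        push_cast
        exact abs_add_le _ _
    _ ≤ a + b := by
        rw [Finset.sum_add_distrib]
        exact add_le_add (hf n) (hg n)

theorem Nb.mul {r : ℝ} (hr : 0 ≤ r) {f g : PowerSeries S} {a b : ℝ} (hf : Nb r f a)
    (hg : Nb r g b) : Nb r (f * g) (a * b) := by
  intro n
  set F : ℕ → ℝ := fun k => |((PowerSeries.coeff k f : S) : ℝ)| * r ^ k with hF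
  set G : ℕ → ℝ := fun k => |((PowerSeries.coeff k g : S) : ℝ)| * r ^ k with hG
  have hF0 : ∀ k, 0 ≤ F k := fun k => mul_nonneg (abs_nonneg _) (pow_nonneg hr k)
  have hG0 : ∀ k, 0 ≤ G k := fun k => mul_nonneg (abs_nonneg _) (pow_nonneg hr k)
  have h1 : ∀ k ∈ Finset.range n, |((PowerSeries.coeff k (f * g) : S) : ℝ)| * r ^ k
      ≤ ∑ p ∈ Finset.HasAntidiagonal.antidiagonal k, F p.1 * G p.2 := by
    intro k _
    rw [PowerSeries.coeff_mul]
    push_cast
    calc |∑ p ∈ Finset.HasAntidiagonal.antidiagonal k, ((PowerSeries.coeff p.1 f : S) : ℝ)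
            * ((PowerSeries.coeff p.2 g : S) : ℝ)| * r ^ k
        ≤ (∑ p ∈ Finset.HasAntidiagonal.antidiagonal k, |((PowerSeries.coeff p.1 f : S) : ℝ)
            * ((PowerSeries.coeff p.2 g : S) : ℝ)|) * r ^ k :=
          mul_le_mul_of_nonneg_right (Finset.abs_sum_le_sum_abs _ _) (pow_nonneg hr k)
      _ = ∑ p ∈ Finset.HasAntidiagonal.antidiagonal k, F p.1 * G p.2 := by
          rw [Finset.sum_mul]
          apply Finset.sum_congr rfl
          intro p hp
          rw [Finset.HasAntidiagonal.mem_antidiagonal] at hp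
          rw [abs_mul, ← hp, pow_add, hF, hG]
          ring
  calc ∑ k ∈ Finset.range n, |((PowerSeries.coeff k (f * g) : S) : ℝ)| * r ^ k
      ≤ ∑ k ∈ Finset.range n, ∑ p ∈ Finset.HasAntidiagonal.antidiagonal k, F p.1 * G p.2 :=
        Finset.sum_le_sum h1
    _ = ∑ p ∈ (Finset.range n).sigma fun k => Finset.HasAntidiagonal.antidiagonal k, F p.2.1 * G p.2.2 := by
        rw [Finset.sum_sigma]
    _ ≤ ∑ p ∈ Finset.range n ×ˢ Finset.range n, F p.1 * G p.2 := by
        rw [← Finset.sum_image (s := (Finset.range n).sigma fun k => Finset.HasAntidiagonal.antidiagonal k)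
          (g := fun p => p.2) (f := fun p => F p.1 * G p.2)]
        · apply Finset.sum_le_sum_of_subset_of_nonneg
          · intro p hp
            rw [Finset.mem_image] at hp
            obtain ⟨q, hq, rfl⟩ := hp
            rw [Finset.mem_sigma, Finset.mem_range, Finset.HasAntidiagonal.mem_antidiagonal] at hq
            rw [Finset.mem_product, Finset.mem_range, Finset.mem_range]
            omega
          · intro p _ _
            exact mul_nonneg (hF0 _) (hG0 _)
        · rintro ⟨k, p⟩ hp ⟨l, q⟩ hq hpq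
          rw [Finset.mem_coe, Finset.mem_sigma, Finset.HasAntidiagonal.mem_antidiagonal] at hp hq
          simp only at hp hq hpq
          subst hpq
          have : k = l := hp.2.symm.trans hq.2
          subst this
          rfl
    _ = (∑ k ∈ Finset.range n, F k) * ∑ k ∈ Finset.range n, G k := by
        rw [Finset.sum_mul_sum, Finset.sum_product]
    _ ≤ a * b := mul_le_mul (hf n) (hg n) (Finset.sum_nonneg fun k _ => hG0 k) hf.nonneg

theorem Nb.sum {r : ℝ} (hr : 0 ≤ r) {ι : Type} (s : Finset ι) (f : ι → PowerSeries S) (a : ℝ)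
    (h : ∀ i ∈ s, Nb r (f i) a) : Nb r (∑ i ∈ s, f i) (s.card * a) := by
  classical
  induction s using Finset.induction_on with
  | empty => simpa using Nb.zero
  | insert i s hi ih =>
    rw [Finset.sum_insert hi, Finset.card_insert_of_notMem hi]
    have := (h i (Finset.mem_insert_self i s)).add hr
      (ih fun j hj => h j (Finset.mem_insert_of_mem hj))
    refine this.mono (le_of_eq ?_)
    push_cast
    ring

theorem Nb.coeff_le {r : ℝ} (hr : 0 ≤ r) {f : PowerSeries S} {a : ℝ} (h : Nb r f a) (k : ℕ) :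
    |((PowerSeries.coeff k f : S) : ℝ)| * r ^ k ≤ a := by
  refine le_trans ?_ (h (k + 1))
  rw [Finset.sum_range_succ]
  have : 0 ≤ ∑ k ∈ Finset.range k, |((PowerSeries.coeff k f : S) : ℝ)| * r ^ k :=
    Finset.sum_nonneg fun k _ => mul_nonneg (abs_nonneg _) (pow_nonneg hr k)
  linarith

theorem Nb.of_summable {r : ℝ} (hr : 0 ≤ r) {f : PowerSeries S}
    (h : Summable fun k => |((PowerSeries.coeff k f : S) : ℝ)| * r ^ k) :
    Nb r f (∑' k, |((PowerSeries.coeff k f : S) : ℝ)| * r ^ k) := by
  intro n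
  exact h.sum_le_tsum _ fun k _ => mul_nonneg (abs_nonneg _) (pow_nonneg hr k)

/-- Truncations of a series with summable weighted coefficients are close to it. -/
theorem exists_trunc {r : ℝ} (hr : 0 ≤ r) {f : PowerSeries S}
    (h : Summable fun k => |((PowerSeries.coeff k f : S) : ℝ)| * r ^ k) (m : ℕ) {δ : ℝ}
    (hδ : 0 < δ) : ∃ p : Polynomial S, PowerSeries.X ^ m ∣ ((p : PowerSeries S) - f) ∧
      Nb r ((p : PowerSeries S) - f) δ := by
  set F : ℕ → ℝ := fun k => |((PowerSeries.coeff k f : S) : ℝ)| * r ^ k with hF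
  have hF0 : ∀ k, 0 ≤ F k := fun k => mul_nonneg (abs_nonneg _) (pow_nonneg hr k)
  have ht := h.hasSum.tendsto_sum_nat
  have hev : ∀ᶠ n in Filter.atTop, (∑' k, F k) - δ < ∑ k ∈ Finset.range n, F k :=
    ht.eventually (lt_mem_nhds (by linarith))
  obtain ⟨N, hN, hmN⟩ := (hev.and (Filter.eventually_ge_atTop m)).exists
  refine ⟨PowerSeries.trunc N f, ?_, ?_⟩
  · rw [PowerSeries.X_pow_dvd_iff]
    intro k hk
    rw [map_sub, Polynomial.coeff_coe, PowerSeries.coeff_trunc, if_pos (by omega), sub_self]
  · intro n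
    have hc : ∀ k, |((PowerSeries.coeff k ((PowerSeries.trunc N f : Polynomial S) - f
        : PowerSeries S) : S) : ℝ)| * r ^ k = if k < N then 0 else F k := by
      intro k
      rw [map_sub, Polynomial.coeff_coe, PowerSeries.coeff_trunc]
      split_ifs with h1
      · simp
      · simp [hF]
    rw [Finset.sum_congr rfl fun k _ => hc k]
    have h2 : ∑ k ∈ Finset.range n, (if k < N then 0 else F k)
        ≤ ∑ k ∈ Finset.range (max n N), (if k < N then 0 else F k) := by
      apply Finset.sum_le_sum_of_subset_of_nonneg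
      · intro k hk
        rw [Finset.mem_range] at *
        exact lt_of_lt_of_le hk (le_max_left _ _)
      · intro k _ _
        split_ifs
        · exact le_rfl
        · exact hF0 k
    have h3 : ∑ k ∈ Finset.range (max n N), (if k < N then 0 else F k)
        = ∑ k ∈ Finset.range (max n N), F k - ∑ k ∈ Finset.range N, F k := by
      have : ∑ k ∈ Finset.range (max n N), F k = ∑ k ∈ Finset.range (max n N),
          ((if k < N then 0 else F k) + (if k < N then F k else 0)) := by
        apply Finset.sum_congr rfl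
        intro k _
        split_ifs <;> simp
      rw [this, Finset.sum_add_distrib]
      have h4 : ∑ k ∈ Finset.range (max n N), (if k < N then F k else 0)
          = ∑ k ∈ Finset.range N, F k := by
        rw [← Finset.sum_filter]
        apply Finset.sum_congr _ fun _ _ => rfl
        ext k
        simp only [Finset.mem_filter, Finset.mem_range]
        constructor
        · exact fun h => h.2
        · exact fun h => ⟨lt_of_lt_of_le h (le_max_right _ _), h⟩
      rw [h4]
      ring
    have h5 : ∑ k ∈ Finset.range (max n N), F k ≤ ∑' k, F k := h.sum_le_tsum _ fun k _ => hF0 k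
    linarith

/-- `f` is divisible by `X ^ m` and its weighted norm is at most `δ`. -/
def Cl (r : ℝ) (m : ℕ) (f : PowerSeries S) (δ : ℝ) : Prop :=
  PowerSeries.X ^ m ∣ f ∧ Nb r f δ

theorem Cl.zero {r : ℝ} {m : ℕ} : Cl r m (0 : PowerSeries S) 0 := ⟨dvd_zero _, Nb.zero⟩

theorem Cl.mono {r : ℝ} {m : ℕ} {f : PowerSeries S} {a b : ℝ} (h : Cl r m f a) (hab : a ≤ b) :
    Cl r m f b := ⟨h.1, h.2.mono hab⟩

theorem Cl.add {r : ℝ} (hr : 0 ≤ r) {m : ℕ} {f g : PowerSeries S} {a b : ℝ} (hf : Cl r m f a)
    (hg : Cl r m g b) : Cl r m (f + g) (a + b) := ⟨dvd_add hf.1 hg.1, hf.2.add hr hg.2⟩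

theorem Cl.mul_nb {r : ℝ} (hr : 0 ≤ r) {m : ℕ} {f g : PowerSeries S} {a b : ℝ}
    (hf : Cl r m f a) (hg : Nb r g b) : Cl r m (f * g) (a * b) :=
  ⟨hf.1.mul_right g, hf.2.mul hr hg⟩

theorem Cl.nb_mul {r : ℝ} (hr : 0 ≤ r) {m : ℕ} {f g : PowerSeries S} {a b : ℝ}
    (hf : Nb r f a) (hg : Cl r m g b) : Cl r m (f * g) (a * b) :=
  ⟨hg.1.mul_left f, hf.mul hr hg.2⟩

theorem Cl.sum {r : ℝ} (hr : 0 ≤ r) {m : ℕ} {ι : Type} (s : Finset ι) (f : ι → PowerSeries S)
    (a : ℝ) (h : ∀ i ∈ s, Cl r m (f i) a) : Cl r m (∑ i ∈ s, f i) (s.card * a) :=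
  ⟨Finset.dvd_sum fun i hi => (h i hi).1, Nb.sum hr s f a fun i hi => (h i hi).2⟩

variable {ι : Type} [Fintype ι] [DecidableEq ι]

theorem nb_mul_mat {r : ℝ} (hr : 0 ≤ r) {A B : Matrix ι ι (PowerSeries S)} {a b : ℝ}
    (hA : ∀ i j, Nb r (A i j) a) (hB : ∀ i j, Nb r (B i j) b) (i j : ι) :
    Nb r ((A * B) i j) (Fintype.card ι * (a * b)) := by
  rw [Matrix.mul_apply]
  exact Nb.sum hr _ _ _ fun k _ => (hA i k).mul hr (hB k j)

theorem cl_mul_nb_mat {r : ℝ} (hr : 0 ≤ r) {m : ℕ} {A B : Matrix ι ι (PowerSeries S)} {a b : ℝ}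
    (hA : ∀ i j, Cl r m (A i j) a) (hB : ∀ i j, Nb r (B i j) b) (i j : ι) :
    Cl r m ((A * B) i j) (Fintype.card ι * (a * b)) := by
  rw [Matrix.mul_apply]
  exact Cl.sum hr _ _ _ fun k _ => (hA i k).mul_nb hr (hB k j)

theorem nb_mul_cl_mat {r : ℝ} (hr : 0 ≤ r) {m : ℕ} {A B : Matrix ι ι (PowerSeries S)} {a b : ℝ}
    (hA : ∀ i j, Nb r (A i j) a) (hB : ∀ i j, Cl r m (B i j) b) (i j : ι) :
    Cl r m ((A * B) i j) (Fintype.card ι * (a * b)) := by
  rw [Matrix.mul_apply]
  exact Cl.sum hr _ _ _ fun k _ => Cl.nb_mul hr (hA i k) (hB k j)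

/-- Every finite matrix with summable entries has a common bound. -/
theorem exists_nb_mat {r : ℝ} (hr : 0 ≤ r) (A : Matrix ι ι (PowerSeries S))
    (hA : ∀ i j, Summable fun k => |((PowerSeries.coeff k (A i j) : S) : ℝ)| * r ^ k) :
    ∃ a : ℝ, 0 ≤ a ∧ ∀ i j, Nb r (A i j) a := by
  refine ⟨∑ i, ∑ j, ∑' k, |((PowerSeries.coeff k (A i j) : S) : ℝ)| * r ^ k, ?_, ?_⟩
  · exact Finset.sum_nonneg fun i _ => Finset.sum_nonneg fun j _ =>
      tsum_nonneg fun k => mul_nonneg (abs_nonneg _) (pow_nonneg hr k)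
  · intro i j
    refine (Nb.of_summable hr (hA i j)).mono ?_
    have h1 : (∑' k, |((PowerSeries.coeff k (A i j) : S) : ℝ)| * r ^ k)
        ≤ ∑ j, ∑' k, |((PowerSeries.coeff k (A i j) : S) : ℝ)| * r ^ k :=
      Finset.single_le_sum (f := fun j => ∑' k, |((PowerSeries.coeff k (A i j) : S) : ℝ)| * r ^ k)
        (fun j _ => tsum_nonneg fun k => mul_nonneg (abs_nonneg _) (pow_nonneg hr k))
        (Finset.mem_univ j)
    refine h1.trans ?_
    exact Finset.single_le_sum
      (f := fun i => ∑ j, ∑' k, |((PowerSeries.coeff k (A i j) : S) : ℝ)| * r ^ k)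
      (fun i _ => Finset.sum_nonneg fun j _ =>
        tsum_nonneg fun k => mul_nonneg (abs_nonneg _) (pow_nonneg hr k))
      (Finset.mem_univ i)

theorem summable_poly {r : ℝ} (p : Polynomial S) :
    Summable fun k => |((PowerSeries.coeff k (p : PowerSeries S) : S) : ℝ)| * r ^ k := by
  apply summable_of_hasFiniteSupport
  apply (p.support.finite_toSet).subset
  intro k hk
  rw [Function.mem_support] at hk
  rw [Finset.mem_coe, Polynomial.mem_support_iff]
  intro h0
  apply hk
  rw [Polynomial.coeff_coe, h0]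
  simp

/-- Elementary matrices with entries in a ring of summable power series are approximated by
elementary polynomial matrices. -/
theorem exists_isEl_close {r : ℝ} (hr : 0 ≤ r) {B : Type} [CommRing B] (φ : B →+* PowerSeries S)
    (hφ : ∀ b, Summable fun k => |((PowerSeries.coeff k (φ b) : S) : ℝ)| * r ^ k)
    {E : Matrix ι ι B} (hE : IsEl E) (m : ℕ) :
    ∀ δ : ℝ, 0 < δ → ∃ L : Matrix ι ι (Polynomial S), IsEl L ∧
      ∀ i j, Cl r m (((L i j : Polynomial S) : PowerSeries S) - φ (E i j)) δ := by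
  induction hE with
  | one =>
    intro δ hδ
    refine ⟨1, IsEl.one, fun i j => ?_⟩
    have : (((1 : Matrix ι ι (Polynomial S)) i j : Polynomial S) : PowerSeries S)
        - φ ((1 : Matrix ι ι B) i j) = 0 := by
      rw [Matrix.one_apply, Matrix.one_apply]
      split_ifs <;> simp
    rw [this]
    exact Cl.zero.mono hδ.le
  | mul i₀ j₀ h c M hM ih =>
    intro δ hδ
    obtain ⟨K, hK0, hK⟩ := exists_nb_mat hr (M.map φ) fun i j => hφ (M i j)
    have hc := Nb.of_summable hr (hφ c)
    set C : ℝ := ∑' k, |((PowerSeries.coeff k (φ c) : S) : ℝ)| * r ^ k with hC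
    have hC0 : 0 ≤ C := hc.nonneg
    -- choose the precision
    set δ₁ : ℝ := min 1 (δ / (2 * (K + 1))) with hδ₁
    have hδ₁0 : 0 < δ₁ := lt_min one_pos (by positivity)
    set δ₂ : ℝ := δ / (2 * (C + 2)) with hδ₂
    have hδ₂0 : 0 < δ₂ := by positivity
    obtain ⟨p, hp1, hp2⟩ := exists_trunc hr (hφ c) m hδ₁0
    obtain ⟨L, hL, hLc⟩ := ih δ₂ hδ₂0
    refine ⟨transvection i₀ j₀ p * L, IsEl.mul i₀ j₀ h p L hL, fun i j => ?_⟩
    have hpC : Nb r (p : PowerSeries S) (C + 1) := by
      have : (p : PowerSeries S) = φ c + ((p : PowerSeries S) - φ c) := by ring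
      rw [this]
      exact (hc.add hr hp2).mono (by linarith [min_le_left 1 (δ / (2 * (K + 1)))])
    have e1 : (transvection i₀ j₀ p * L) i j = L i j + (if i = i₀ then p * L j₀ j else 0) := by
      rw [Matrix.transvection, Matrix.add_mul, Matrix.one_mul, Matrix.add_apply]
      congr 1
      split_ifs with hi
      · subst hi
        rw [Matrix.single_mul_apply_same]
      · rw [Matrix.single_mul_apply_of_ne _ _ _ _ _ hi]
    have e2 : (transvection i₀ j₀ c * M) i j = M i j + (if i = i₀ then c * M j₀ j else 0) := by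
      rw [Matrix.transvection, Matrix.add_mul, Matrix.one_mul, Matrix.add_apply]
      congr 1
      split_ifs with hi
      · subst hi
        rw [Matrix.single_mul_apply_same]
      · rw [Matrix.single_mul_apply_of_ne _ _ _ _ _ hi]
    rw [e1, e2]
    have hsmall : δ₂ + ((C + 1) * δ₂ + δ₁ * K) ≤ δ := by
      have h1 : δ₂ + (C + 1) * δ₂ = δ / 2 := by
        rw [hδ₂]; field_simp; ring
      have h2 : δ₁ * K ≤ δ / 2 := by
        have : δ₁ ≤ δ / (2 * (K + 1)) := min_le_right _ _
        calc δ₁ * K ≤ δ / (2 * (K + 1)) * K := mul_le_mul_of_nonneg_right this hK0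
          _ ≤ δ / (2 * (K + 1)) * (K + 1) := by
              apply mul_le_mul_of_nonneg_left (by linarith) (by positivity)
          _ = δ / 2 := by field_simp
      linarith
    by_cases hi : i = i₀
    · rw [if_pos hi, if_pos hi]
      have e3 : (((L i j + p * L j₀ j : Polynomial S)) : PowerSeries S)
          - φ (M i j + c * M j₀ j)
          = (((L i j : Polynomial S) : PowerSeries S) - φ (M i j))
            + ((p : PowerSeries S) * (((L j₀ j : Polynomial S) : PowerSeries S) - φ (M j₀ j))
              + ((p : PowerSeries S) - φ c) * φ (M j₀ j)) := by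
        rw [Polynomial.coe_add, Polynomial.coe_mul, map_add, map_mul]
        ring
      rw [e3]
      refine ((hLc i j).add hr ((Cl.nb_mul hr hpC (hLc j₀ j)).add hr
        (Cl.mul_nb hr ⟨hp1, hp2⟩ (hK j₀ j)))).mono hsmall
    · rw [if_neg hi, if_neg hi, add_zero, add_zero]
      refine (hLc i j).mono (le_trans ?_ hsmall)
      have : 0 ≤ (C + 1) * δ₂ + δ₁ * K := by positivity
      linarith

/-- Truncation, for an abstract ring of summable power series. -/
theorem approx_gen {r : ℝ} (hr : 0 < r) {B : Type} [CommRing B] (φ : B →+* PowerSeries S)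
    (hφ : ∀ b, Summable fun k => |((PowerSeries.coeff k (φ b) : S) : ℝ)| * r ^ k)
    (M : Matrix ι ι (Polynomial S)) (E E' : Matrix ι ι B) (hE : IsEl E) (hE' : IsEl E')
    (G : Matrix ι ι (PowerSeries S))
    (hG : G = E.map φ * M.map (fun p => (p : PowerSeries S)) * E'.map φ)
    (m : ℕ) (δ : ℝ) (hδ : 0 < δ) :
    ∃ L L' : Matrix ι ι (Polynomial S), IsEl L ∧ IsEl L' ∧
      (∀ a b k, k < m → (((L * M * L') a b).coeff k) = PowerSeries.coeff k (G a b)) ∧
      ∀ a b k, |((((L * M * L') a b).coeff k : S) : ℝ) - ((PowerSeries.coeff k (G a b) : S) : ℝ)|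
        * r ^ k ≤ δ := by
  set P : Matrix ι ι (PowerSeries S) := M.map (fun p => (p : PowerSeries S)) with hP
  set n : ℝ := (Fintype.card ι : ℝ) with hn
  have hn0 : 0 ≤ n := Nat.cast_nonneg _
  obtain ⟨e, he0, he⟩ := exists_nb_mat hr.le (E.map φ) fun i j => hφ (E i j)
  obtain ⟨e', he'0, he'⟩ := exists_nb_mat hr.le (E'.map φ) fun i j => hφ (E' i j)
  obtain ⟨u, hu0, hu⟩ := exists_nb_mat hr.le P fun i j => summable_poly (M i j)
  -- constants
  set K : ℝ := n * (n * (u * (e' + 1))) + n * (n * (e * u)) + 1 with hK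
  have hK0 : 0 < K := by positivity
  set η : ℝ := min 1 (δ / K) with hη
  have hη0 : 0 < η := lt_min one_pos (by positivity)
  obtain ⟨L, hL, hLc⟩ := exists_isEl_close hr.le φ hφ hE m η hη0
  obtain ⟨L', hL', hL'c⟩ := exists_isEl_close hr.le φ hφ hE' m η hη0
  set Lp : Matrix ι ι (PowerSeries S) := L.map (fun p => (p : PowerSeries S)) with hLp
  set Lp' : Matrix ι ι (PowerSeries S) := L'.map (fun p => (p : PowerSeries S)) with hLp'
  have hLp'nb : ∀ i j, Nb r (Lp' i j) (e' + 1) := by
    intro i j
    have : Lp' i j = E'.map φ i j + (((L' i j : Polynomial S) : PowerSeries S) - φ (E' i j)) := by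
      simp [hLp']
    rw [this]
    exact ((he' i j).add hr.le (hL'c i j).2).mono (by linarith [min_le_left 1 (δ / K)])
  have hd1 : ∀ i j, Cl r m ((Lp - E.map φ) i j) η := fun i j => hLc i j
  have hd2 : ∀ i j, Cl r m ((Lp' - E'.map φ) i j) η := fun i j => hL'c i j
  have hmain : ∀ a b, Cl r m ((Lp * P * Lp' - G) a b) δ := by
    intro a b
    have e1 : Lp * P * Lp' - G = (Lp - E.map φ) * (P * Lp') + (E.map φ * P) * (Lp' - E'.map φ) := by
      rw [hG]
      simp only [Matrix.sub_mul, Matrix.mul_sub, Matrix.mul_assoc]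
      abel
    rw [e1, Matrix.add_apply]
    refine ((cl_mul_nb_mat hr.le hd1 (nb_mul_mat hr.le hu hLp'nb) a b).add hr.le
      (nb_mul_cl_mat hr.le (nb_mul_mat hr.le he hu) hd2 a b)).mono ?_
    have h1 : n * (η * (n * (u * (e' + 1)))) + n * (n * (e * u) * η)
        = η * (K - 1) := by rw [hK]; ring
    rw [← hn, h1]
    have h2 : η ≤ δ / K := min_le_right _ _
    calc η * (K - 1) ≤ η * K := mul_le_mul_of_nonneg_left (by linarith) hη0.le
      _ ≤ δ / K * K := mul_le_mul_of_nonneg_right h2 hK0.le
      _ = δ := by field_simp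
  have hcoe : ∀ a b, (((L * M * L') a b : Polynomial S) : PowerSeries S)
      = (Lp * P * Lp') a b := by
    intro a b
    have h1 : (L * M * L').map (Polynomial.coeToPowerSeries.ringHom (R := S))
        = Lp * P * Lp' := by
      rw [Matrix.map_mul, Matrix.map_mul]
      rfl
    have := congrFun (congrFun h1 a) b
    rw [← this, Matrix.map_apply, Polynomial.coeToPowerSeries.ringHom_apply]
  refine ⟨L, L', hL, hL', ?_, ?_⟩
  · intro a b k hk
    have h1 := PowerSeries.X_pow_dvd_iff.1 (hmain a b).1 k hk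
    rw [Matrix.sub_apply, map_sub, sub_eq_zero, ← hcoe, Polynomial.coeff_coe] at h1
    exact h1
  · intro a b k
    have h1 := (hmain a b).2.coeff_le hr.le k
    rw [Matrix.sub_apply, map_sub, ← hcoe, Polynomial.coeff_coe] at h1
    push_cast at h1
    exact h1

/-- Series with geometric decay better than `r` are summable at `r`. -/
theorem Dec.summable_coeff {r : ℝ} (hr : 0 < r) {f : PowerSeries S}
    (h : Dec r (f.map (toC S))) :
    Summable fun k => |((PowerSeries.coeff k f : S) : ℝ)| * r ^ k := by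
  obtain ⟨ρ, hρ, C, hC⟩ := h
  have hρ0 : 0 < ρ := hr.trans hρ
  have h1 : ∀ k, |((PowerSeries.coeff k f : S) : ℝ)| * ρ ^ k ≤ C := by
    intro k
    have := hC k
    rw [PowerSeries.coeff_map] at this
    simpa [toC] using this
  have hq : 0 ≤ r / ρ := by positivity
  have hq1 : r / ρ < 1 := (div_lt_one hρ0).2 hρ
  refine Summable.of_nonneg_of_le (fun k => mul_nonneg (abs_nonneg _) (pow_nonneg hr.le k))
    (fun k => ?_) ((summable_geometric_of_lt_one hq hq1).mul_left C)
  calc |((PowerSeries.coeff k f : S) : ℝ)| * r ^ k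
      = (|((PowerSeries.coeff k f : S) : ℝ)| * ρ ^ k) * (r / ρ) ^ k := by
        rw [div_pow]; field_simp
    _ ≤ C * (r / ρ) ^ k := mul_le_mul_of_nonneg_right (h1 k) (pow_nonneg hq k)

end Approx

end Pool.Agent.Lib.MP_49224a_al
end

section

/-!
# Eigenvalues: traces of powers and the determinant of `1 - z A`
-/

set_option autoImplicit false

namespace Pool.Agent.Lib.MP_49224a_al

open Matrix Polynomial

theorem eig_card {n : ℕ} (A : Matrix (Fin n) (Fin n) ℂ) :
    Multiset.card A.charpoly.roots = n := by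
  rw [splits_iff_card_roots.mp (IsAlgClosed.splits A.charpoly),
    Matrix.charpoly_natDegree_eq_dim]
  simp

/-- The determinant of `A - r`. -/
theorem eig_det_linear {n : ℕ} (A : Matrix (Fin n) (Fin n) ℂ) (r : ℂ) :
    (aeval A (X - C r)).det
      = (A.charpoly.roots.map (fun w => (X - C r).eval w)).prod := by
  have hsp : A.charpoly.Splits := IsAlgClosed.splits A.charpoly
  have h1 : A.charpoly = (A.charpoly.roots.map (fun a => X - C a)).prod :=
    hsp.eq_prod_roots_of_monic (Matrix.charpoly_monic A)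
  have h2 : A.charpoly.eval r = (Matrix.scalar (Fin n) r - A).det := Matrix.eval_charpoly A r
  have h3 : A.charpoly.eval r = (A.charpoly.roots.map (fun a => r - a)).prod := by
    conv_lhs => rw [h1]
    rw [eval_multiset_prod, Multiset.map_map]
    congr 1
    apply Multiset.map_congr rfl
    intro a _
    simp
  have h4 : aeval A (X - C r) = -(Matrix.scalar (Fin n) r - A) := by
    simp [Matrix.algebraMap_eq_diagonal, Matrix.scalar_apply]
  have hcard := eig_card A
  have h5 : ∀ s : Multiset ℂ, (-1 : ℂ) ^ Multiset.card s * (s.map (fun a => r - a)).prod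
      = (s.map (fun w => (X - C r).eval w)).prod := by
    intro s
    induction s using Multiset.induction_on with
    | empty => simp
    | cons a s ih =>
      rw [Multiset.card_cons, Multiset.map_cons, Multiset.map_cons, Multiset.prod_cons,
        Multiset.prod_cons, ← ih, pow_succ]
      simp
      ring
  rw [h4, Matrix.det_neg, ← h2, h3, Fintype.card_fin, ← h5, hcard]

/-- The determinant of a polynomial in a complex matrix. -/
theorem eig_det_aeval {n : ℕ} (A : Matrix (Fin n) (Fin n) ℂ) (p : ℂ[X]) :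
    (aeval A p).det = (A.charpoly.roots.map (fun w => p.eval w)).prod := by
  have hp : p = C p.leadingCoeff * (p.roots.map (fun a => X - C a)).prod :=
    (IsAlgClosed.splits p).eq_prod_roots
  have h0 : ∀ a : ℂ, (aeval A (C a)).det = (A.charpoly.roots.map (fun w => (C a).eval w)).prod := by
    intro a
    have h1 : aeval A (C a) = a • (1 : Matrix (Fin n) (Fin n) ℂ) := by
      rw [aeval_C, Algebra.algebraMap_eq_smul_one]
    rw [h1, Matrix.det_smul, Fintype.card_fin, Matrix.det_one, mul_one]
    simp only [eval_C, Multiset.map_const', Multiset.prod_replicate]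
    rw [eig_card A]
  have h1 : ∀ s : Multiset ℂ, (aeval A ((s.map (fun a => X - C a)).prod)).det
      = (A.charpoly.roots.map (fun w => ((s.map (fun a => X - C a)).prod).eval w)).prod := by
    intro s
    induction s using Multiset.induction_on with
    | empty => simp
    | cons a s ih =>
      rw [Multiset.map_cons, Multiset.prod_cons, map_mul, Matrix.det_mul, ih, eig_det_linear,
        ← Multiset.prod_map_mul]
      congr 1
      apply Multiset.map_congr rfl
      intro w _
      rw [eval_mul]
  rw [hp, map_mul, Matrix.det_mul, h0, h1, ← Multiset.prod_map_mul]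
  congr 1
  apply Multiset.map_congr rfl
  intro w _
  rw [eval_mul]

theorem eig_charpoly_pow {n : ℕ} (A : Matrix (Fin n) (Fin n) ℂ) (k : ℕ) :
    (A ^ k).charpoly = ((A.charpoly.roots.map (fun z => z ^ k)).map (fun a => X - C a)).prod := by
  apply Polynomial.funext
  intro x
  rw [Matrix.eval_charpoly, eval_multiset_prod, Multiset.map_map, Multiset.map_map]
  have h : Matrix.scalar (Fin n) x - A ^ k = aeval A (C x - X ^ k) := by
    simp [Matrix.algebraMap_eq_diagonal, Matrix.scalar_apply]
  rw [h, eig_det_aeval]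
  congr 1
  apply Multiset.map_congr rfl
  intro w _
  simp

theorem trace_pow_eq {n : ℕ} (A : Matrix (Fin n) (Fin n) ℂ) (k : ℕ) :
    (A ^ k).trace = (A.charpoly.roots.map (fun z => z ^ k)).sum := by
  rw [Matrix.trace_eq_sum_roots_charpoly, eig_charpoly_pow, roots_multiset_prod_X_sub_C]

theorem det_one_sub_eq {n : ℕ} (A : Matrix (Fin n) (Fin n) ℂ) (z : ℂ) :
    (1 - z • A).det = (A.charpoly.roots.map (fun w => 1 - w * z)).prod := by
  have h : 1 - z • A = aeval A (1 - C z * X) := by
    simp [Algebra.smul_def]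
  rw [h, eig_det_aeval]
  congr 1
  apply Multiset.map_congr rfl
  intro w _
  simp
  ring

theorem eig_charpolyRev {n : ℕ} (A : Matrix (Fin n) (Fin n) ℂ) :
    A.charpolyRev = (A.charpoly.roots.map (fun w => 1 - C w * X)).prod := by
  apply Polynomial.funext
  intro x
  rw [eval_multiset_prod, Multiset.map_map]
  have h : A.charpolyRev.eval x = (1 - x • A).det := by
    rw [charpolyRev, ← coe_evalRingHom, RingHom.map_det]
    congr 1
    ext i j
    simp [Matrix.one_apply, apply_ite]
    rw [mul_comm]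
  rw [h, det_one_sub_eq]
  congr 1
  apply Multiset.map_congr rfl
  intro w _
  simp

theorem eig_logDeriv (s : Multiset ℂ) :
    - (PowerSeries.X * PowerSeries.derivative ℂ
      (s.map (fun w => 1 - PowerSeries.C w * PowerSeries.X)).prod)
      = PowerSeries.mk (fun k => if k = 0 then 0 else (s.map (fun z => z ^ k)).sum)
        * (s.map (fun w => 1 - PowerSeries.C w * PowerSeries.X)).prod := by
  induction s using Multiset.induction_on with
  | empty =>
    have : (PowerSeries.mk (fun _ => (0 : ℂ))) = 0 := by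
      ext k
      simp
    simp [this]
  | cons a s ih =>
    rw [Multiset.map_cons, Multiset.prod_cons]
    set P : PowerSeries ℂ := (s.map (fun w => 1 - PowerSeries.C w * PowerSeries.X)).prod with hP
    set T : PowerSeries ℂ :=
      PowerSeries.mk (fun k => if k = 0 then 0 else (s.map (fun z => z ^ k)).sum) with hT
    have h1 : PowerSeries.mk (fun k => if k = 0 then (0 : ℂ)
        else ((a ::ₘ s).map (fun z => z ^ k)).sum)
        = PowerSeries.mk (fun k => if k = 0 then (0 : ℂ) else a ^ k) + T := by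
      ext k
      rw [hT, map_add, PowerSeries.coeff_mk, PowerSeries.coeff_mk, PowerSeries.coeff_mk]
      split_ifs with h
      · simp
      · rw [Multiset.map_cons, Multiset.sum_cons]
    have h2 : PowerSeries.mk (fun k => if k = 0 then (0 : ℂ) else a ^ k)
        * (1 - PowerSeries.C a * PowerSeries.X) = PowerSeries.C a * PowerSeries.X := by
      ext k
      rw [mul_sub, mul_one, map_sub, PowerSeries.coeff_mk, ← mul_assoc]
      rcases k with _ | k
      · simp
      · rw [PowerSeries.coeff_succ_mul_X, PowerSeries.coeff_mul_C, PowerSeries.coeff_mk,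
          PowerSeries.coeff_succ_mul_X, PowerSeries.coeff_C]
        rcases k with _ | k
        · simp
        · simp
          ring
    have h3 : PowerSeries.derivative ℂ ((1 - PowerSeries.C a * PowerSeries.X) * P)
        = (1 - PowerSeries.C a * PowerSeries.X) * PowerSeries.derivative ℂ P
          - PowerSeries.C a * P := by
      rw [Derivation.leibniz]
      have h4 : PowerSeries.derivative ℂ (1 - PowerSeries.C a * PowerSeries.X)
          = - PowerSeries.C a := by
        ext k
        simp
      rw [h4]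
      simp only [smul_eq_mul]
      ring
    rw [h1, h3]
    calc _ = (1 - PowerSeries.C a * PowerSeries.X)
          * (-(PowerSeries.X * PowerSeries.derivative ℂ P))
          + PowerSeries.C a * PowerSeries.X * P := by ring
      _ = (1 - PowerSeries.C a * PowerSeries.X) * (T * P)
          + (PowerSeries.mk (fun k => if k = 0 then (0 : ℂ) else a ^ k)
        * (1 - PowerSeries.C a * PowerSeries.X)) * P := by rw [ih, h2]
      _ = _ := by ring

theorem eig_logDeriv_complex {n : ℕ} (A : Matrix (Fin n) (Fin n) ℂ) :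
    - (PowerSeries.X * PowerSeries.derivative ℂ
      ((A.charpolyRev : Polynomial ℂ) : PowerSeries ℂ))
      = PowerSeries.mk (fun k => if k = 0 then 0 else (A ^ k).trace)
        * ((A.charpolyRev : Polynomial ℂ) : PowerSeries ℂ) := by
  have h1 : ((A.charpolyRev : Polynomial ℂ) : PowerSeries ℂ)
      = (A.charpoly.roots.map (fun w => 1 - PowerSeries.C w * PowerSeries.X)).prod := by
    rw [eig_charpolyRev]
    rw [← Polynomial.coeToPowerSeries.ringHom_apply, map_multiset_prod, Multiset.map_map]
    congr 1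
    apply Multiset.map_congr rfl
    intro w _
    simp
  rw [h1, eig_logDeriv]
  congr 2
  funext k
  rw [trace_pow_eq]

theorem logDeriv_det {n : ℕ} (A : Matrix (Fin n) (Fin n) ℝ) :
    - (PowerSeries.X * PowerSeries.derivative ℝ ((A.charpolyRev : Polynomial ℝ) : PowerSeries ℝ))
      = PowerSeries.mk (fun k => if k = 0 then 0 else (A ^ k).trace)
        * ((A.charpolyRev : Polynomial ℝ) : PowerSeries ℝ) := by
  have hinj : Function.Injective (PowerSeries.map (algebraMap ℝ ℂ)) := by
    intro f g h
    ext k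
    have := congrArg (PowerSeries.coeff k) h
    rw [PowerSeries.coeff_map, PowerSeries.coeff_map] at this
    exact (algebraMap ℝ ℂ).injective this
  apply hinj
  have h := eig_logDeriv_complex (A.map (algebraMap ℝ ℂ))
  have h1 : PowerSeries.map (algebraMap ℝ ℂ) ((A.charpolyRev : Polynomial ℝ) : PowerSeries ℝ)
      = (((A.map (algebraMap ℝ ℂ)).charpolyRev : Polynomial ℂ) : PowerSeries ℂ) := by
    have : (A.map (algebraMap ℝ ℂ)).charpolyRev = A.charpolyRev.map (algebraMap ℝ ℂ) := by
      rw [charpolyRev, charpolyRev, ← coe_mapRingHom, RingHom.map_det]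
      congr 1
      ext i j
      simp [Matrix.one_apply, apply_ite]
    rw [this, Polynomial.polynomial_map_coe]
  have h2 : ∀ f : PowerSeries ℝ, PowerSeries.map (algebraMap ℝ ℂ) (PowerSeries.derivative ℝ f)
      = PowerSeries.derivative ℂ (PowerSeries.map (algebraMap ℝ ℂ) f) := by
    intro f
    ext k
    simp [PowerSeries.coeff_derivative]
  have h3 : PowerSeries.map (algebraMap ℝ ℂ)
      (PowerSeries.mk (fun k => if k = 0 then 0 else (A ^ k).trace))
      = PowerSeries.mk (fun k => if k = 0 then 0 else ((A.map (algebraMap ℝ ℂ)) ^ k).trace) := by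
    ext k
    rw [PowerSeries.coeff_map, PowerSeries.coeff_mk, PowerSeries.coeff_mk]
    split_ifs with hk
    · simp
    · rw [← Matrix.map_pow]
      simp [Matrix.trace]
  rw [map_neg, map_mul, map_mul, PowerSeries.map_X, h2, h1, h3]
  exact h

end Pool.Agent.Lib.MP_49224a_al
end

section

/-!
# Integer matrices with Perron eigenvalue `1`
-/

set_option autoImplicit false

namespace Pool.Agent.Lib.MP_49224a_al

open Matrix Polynomial

/-- Factorization of a singular integer matrix through a smaller free module. -/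
theorem intOne_factor {n : ℕ} (A : Matrix (Fin n) (Fin n) ℤ) (hA : A.det = 0) :
    ∃ m : ℕ, m < n ∧ ∃ (U : Matrix (Fin n) (Fin m) ℤ) (V : Matrix (Fin m) (Fin n) ℤ),
      A = U * V := by
  obtain ⟨m, ⟨b⟩⟩ := (Submodule.nonempty_basis_of_pid (Pi.basisFun ℤ (Fin n))
    (LinearMap.range A.mulVecLin))
  refine ⟨m, ?_, fun i j => (b j : Fin n → ℤ) i,
    fun i j => b.repr ⟨A.mulVecLin (Pi.single j 1), LinearMap.mem_range_self _ _⟩ i, ?_⟩
  · obtain ⟨v, hv0, hv⟩ := Matrix.exists_mulVec_eq_zero_iff.mpr hA
    have h1 := (LinearMap.ker A.mulVecLin).finrank_quotient_add_finrank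
    rw [A.mulVecLin.quotKerEquivRange.finrank_eq] at h1
    have h2 : Module.finrank ℤ (LinearMap.range A.mulVecLin) = m := by
      rw [Module.finrank_eq_card_basis b]
      simp
    have h3 : 0 < Module.finrank ℤ (LinearMap.ker A.mulVecLin) := by
      rw [Module.finrank_pos_iff]
      refine ⟨⟨⟨v, ?_⟩, 0, ?_⟩⟩
      · simpa using hv
      · intro h
        exact hv0 (congrArg Subtype.val h)
    rw [Module.finrank_fin_fun] at h1
    omega
  · ext i j
    have h := b.sum_repr ⟨A.mulVecLin (Pi.single j 1), LinearMap.mem_range_self _ _⟩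
    have h2 := congrArg (fun x : LinearMap.range A.mulVecLin => (x : Fin n → ℤ) i) h
    simp only [Submodule.coe_sum, Submodule.coe_smul, Finset.sum_apply, Pi.smul_apply,
      smul_eq_mul, Matrix.mulVecLin_apply, Matrix.mulVec_single_one] at h2
    rw [Matrix.mul_apply]
    rw [show A i j = A.col j i from rfl, ← h2]
    apply Finset.sum_congr rfl
    intro k _
    simp [mul_comm]

theorem sse_int_one {n : ℕ} (A : Matrix (Fin n) (Fin n) ℤ)
    (h : A.charpoly = X ^ (n - 1) * (X - 1)) (hn : 1 ≤ n) :
    SSE A (1 : Matrix (Fin 1) (Fin 1) ℤ) := by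
  induction n using Nat.strong_induction_on with
  | _ n ih =>
    rcases Nat.lt_or_ge 1 n with hn1 | hn1
    · have hdet : A.det = 0 := by
        rw [Matrix.det_eq_sign_charpoly_coeff, h]
        have : (X ^ (n - 1) * (X - 1) : ℤ[X]).coeff 0 = 0 := by
          rw [Polynomial.mul_coeff_zero, Polynomial.coeff_X_pow]
          rw [if_neg (by omega), zero_mul]
        rw [this, mul_zero]
      obtain ⟨m, hm, U, V, hUV⟩ := intOne_factor A hdet
      have h1 := Matrix.charpoly_mul_comm_of_le U V (by simpa using hm.le)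
      rw [← hUV, h] at h1
      simp only [Fintype.card_fin] at h1
      have hm1 : 1 ≤ m := by
        by_contra hm0
        have hm0' : m = 0 := by omega
        subst hm0'
        have h2 := congrArg (Polynomial.eval 1) h1
        simp [Matrix.charpoly, Matrix.det_isEmpty] at h2
      have h3 : (V * U).charpoly = X ^ (m - 1) * (X - 1) := by
        have h4 : (X : ℤ[X]) ^ (n - m) ≠ 0 := pow_ne_zero _ X_ne_zero
        apply mul_left_cancel₀ h4
        rw [← h1, ← mul_assoc, ← pow_add]
        congr 2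
        omega
      have h5 := ih m hm (V * U) h3 hm1
      rw [hUV]
      exact (SSE.of_mul U V).trans h5
    · obtain rfl : n = 1 := by omega
      have h2 : A = 1 := by
        ext i j
        fin_cases i
        fin_cases j
        have h3 := congrArg (Polynomial.eval 1) h
        rw [Matrix.eval_charpoly, Matrix.det_fin_one] at h3
        simp at h3
        simp
        linarith
      rw [h2]
      exact SSE.refl' _

theorem intOne_small (d : ℕ) (q : ℤ[X]) (hd : q.natDegree = d) (hq : q.Monic)
    (h : ∀ z ∈ (q.map (Int.castRingHom ℂ)).roots, ‖z‖ < 1) : q = X ^ d := by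
  induction d generalizing q with
  | zero =>
    rw [pow_zero]
    exact (hq.natDegree_eq_zero).mp hd
  | succ d ih =>
    have h0 : q.coeff 0 = 0 := by
      have hm : (q.map (Int.castRingHom ℂ)).Monic := hq.map _
      have hsp : (q.map (Int.castRingHom ℂ)).Splits := IsAlgClosed.splits _
      have h1 := hsp.coeff_zero_eq_prod_roots_of_monic hm
      have h2 : ‖(q.map (Int.castRingHom ℂ)).coeff 0‖ < 1 := by
        rw [h1, norm_mul, norm_pow, norm_neg, norm_one, one_pow, one_mul]
        have hcard : Multiset.card (q.map (Int.castRingHom ℂ)).roots = d + 1 := by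
          rw [splits_iff_card_roots.mp hsp, hq.natDegree_map, hd]
        have hgen : ∀ s : Multiset ℂ, (∀ z ∈ s, ‖z‖ < 1) → s ≠ 0 → ‖s.prod‖ < 1 := by
          intro s
          induction s using Multiset.induction_on with
          | empty => intro _ h; exact absurd rfl h
          | cons a s ihs =>
            intro hs _
            rw [Multiset.prod_cons, norm_mul]
            have ha := hs a (Multiset.mem_cons_self a s)
            by_cases hs0 : s = 0
            · subst hs0
              simpa using ha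
            · have := ihs (fun z hz => hs z (Multiset.mem_cons_of_mem hz)) hs0
              exact mul_lt_one_of_nonneg_of_lt_one_left (norm_nonneg _) ha this.le
        apply hgen _ h
        intro h0
        rw [h0] at hcard
        simp at hcard
      rw [Polynomial.coeff_map] at h2
      have h3 : |q.coeff 0| < 1 := by
        have : ((|q.coeff 0| : ℤ) : ℝ) < ((1 : ℤ) : ℝ) := by
          rw [Int.cast_abs, Int.cast_one]
          simpa using h2
        exact_mod_cast this
      exact Int.abs_lt_one_iff.mp h3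
    obtain ⟨r, hr⟩ := X_dvd_iff.mpr h0
    have hrm : r.Monic := by
      rw [hr] at hq
      exact Polynomial.Monic.of_mul_monic_left monic_X hq
    have hrd : r.natDegree = d := by
      rw [hr, monic_X.natDegree_mul hrm, natDegree_X] at hd
      omega
    rw [hr, ih r hrd hrm, pow_succ']
    intro z hz
    apply h z
    rw [hr, Polynomial.map_mul, Polynomial.roots_mul]
    · exact Multiset.mem_add.mpr (Or.inr hz)
    · rw [← Polynomial.map_mul, ← hr]
      exact (hq.map _).ne_zero

theorem charpoly_of_perron_one {n : ℕ} (A : Matrix (Fin n) (Fin n) ℤ)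
    (h1 : (A.map (Int.cast : ℤ → ℂ)).charpoly.roots.count (1 : ℂ) = 1)
    (h2 : ∀ z ∈ (A.map (Int.cast : ℤ → ℂ)).charpoly.roots, z ≠ 1 → ‖z‖ < 1) :
    1 ≤ n ∧ A.charpoly = Polynomial.X ^ (n - 1) * (Polynomial.X - 1) := by
  have hmap : (A.map (Int.cast : ℤ → ℂ)).charpoly = A.charpoly.map (Int.castRingHom ℂ) := by
    rw [← Matrix.charpoly_map]
    rfl
  rw [hmap] at h1 h2
  have hm := Matrix.charpoly_monic A
  have hdeg : A.charpoly.natDegree = n := by
    rw [Matrix.charpoly_natDegree_eq_dim, Fintype.card_fin]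
  have hne : A.charpoly.map (Int.castRingHom ℂ) ≠ 0 := (hm.map _).ne_zero
  have hroot : (1 : ℂ) ∈ (A.charpoly.map (Int.castRingHom ℂ)).roots := by
    rw [← Multiset.count_pos, h1]
    exact one_pos
  have hev : A.charpoly.eval 1 = 0 := by
    have h3 := (Polynomial.mem_roots hne).mp hroot
    rw [Polynomial.IsRoot.def, Polynomial.eval_map, Polynomial.eval₂_at_one] at h3
    simpa using h3
  obtain ⟨q, hq⟩ := Polynomial.dvd_iff_isRoot.mpr hev
  have hX : (X - C 1 : ℤ[X]).Monic := monic_X_sub_C 1
  have hqm : q.Monic := by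
    rw [hq] at hm
    exact Polynomial.Monic.of_mul_monic_left hX hm
  have hqd : q.natDegree + 1 = n := by
    rw [hq, hX.natDegree_mul hqm, natDegree_X_sub_C] at hdeg
    omega
  have hroots : (A.charpoly.map (Int.castRingHom ℂ)).roots
      = {1} + (q.map (Int.castRingHom ℂ)).roots := by
    rw [hq, Polynomial.map_mul, Polynomial.roots_mul]
    · have : (X - C 1 : ℤ[X]).map (Int.castRingHom ℂ) = X - C 1 := by simp
      rw [this, roots_X_sub_C]
    · rw [← Polynomial.map_mul, ← hq]
      exact hne
  have hq1 : q = X ^ (n - 1) := by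
    apply intOne_small _ _ (by omega) hqm
    intro z hz
    apply h2 z
    · rw [hroots]
      exact Multiset.mem_add.mpr (Or.inr hz)
    · rintro rfl
      rw [hroots, Multiset.count_add, Multiset.count_singleton_self] at h1
      have := Multiset.count_pos.mpr hz
      omega
  refine ⟨by omega, ?_⟩
  rw [hq, hq1, mul_comm]
  simp

end Pool.Agent.Lib.MP_49224a_al
end

section

/-!
# The dense case: windows, pieces, the low part
-/

set_option autoImplicit false

namespace Pool.Agent.Lib.MP_49224a_al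

open Matrix Polynomial PowerSeries

theorem subring_dense {S : Subring ℝ} (hS : S ≠ ⊥) (a b : ℝ) (hab : a < b) :
    ∃ s ∈ S, a < s ∧ s < b := by
  rcases AddSubgroup.dense_or_cyclic S.toAddSubgroup with hd | ⟨c, hc⟩
  · obtain ⟨z, hz, hz1, hz2⟩ := hd.exists_between hab
    exact ⟨z, hz, hz1, hz2⟩
  · exfalso
    apply hS
    have hmem : ∀ x, x ∈ S ↔ ∃ n : ℤ, n • c = x := by
      intro x
      rw [← Subring.mem_toAddSubgroup, hc, AddSubgroup.mem_closure_singleton]
    rw [eq_bot_iff]
    intro x hx
    obtain ⟨m, hm⟩ := (hmem 1).1 S.one_mem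
    have hcS : c ∈ S := (hmem c).2 ⟨1, one_zsmul c⟩
    have hc0 : c ≠ 0 := by
      rintro rfl; simp at hm
    obtain ⟨n, hn⟩ := (hmem (c * c)).1 (S.mul_mem hcS hcS)
    have hcn : c = (n : ℝ) := by
      rw [zsmul_eq_mul] at hn
      exact (mul_right_cancel₀ hc0 hn).symm
    obtain ⟨q, hq⟩ := (hmem x).1 hx
    rw [Subring.mem_bot]
    refine ⟨q * n, ?_⟩
    rw [← hq, zsmul_eq_mul, hcn]; push_cast; ring

theorem dense_window {S : Subring ℝ} (hS : S ≠ ⊥) {σ : ℝ} (hσ : 0 < σ) :
    ∀ k : ℕ, 1 ≤ k → ∀ x : ℝ, ∃ s ∈ S, x ≤ s ∧ s ≤ x + σ ^ k := by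
  intro k _ x
  have : 0 < σ ^ k := pow_pos hσ k
  obtain ⟨s, hs, h1, h2⟩ := subring_dense hS x (x + σ ^ k) (by linarith)
  exact ⟨s, hs, h1.le, h2.le⟩

theorem dense_pieces {S : Subring ℝ} (hS : S ≠ ⊥) {c₀ : ℝ} (hc₀ : 0 < c₀) (g : ℝ) (hg : g ∈ S)
    (hg0 : 0 ≤ g) : ∃ cs : List ℝ, (∀ c ∈ cs, c ∈ S ∧ 0 ≤ c ∧ c ≤ c₀) ∧ cs.sum = g := by
  obtain ⟨c, hc, h1, h2⟩ := subring_dense hS 0 c₀ hc₀
  have h3 : (⌊g / c⌋₊ : ℝ) * c ≤ g := by
    have := Nat.floor_le (div_nonneg hg0 h1.le)
    calc (⌊g / c⌋₊ : ℝ) * c ≤ g / c * c := mul_le_mul_of_nonneg_right this h1.le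
      _ = g := div_mul_cancel₀ g h1.ne'
  have h4 : g < ((⌊g / c⌋₊ : ℝ) + 1) * c := by
    have := Nat.lt_floor_add_one (g / c)
    calc g = g / c * c := (div_mul_cancel₀ g h1.ne').symm
      _ < _ := mul_lt_mul_of_pos_right this h1
  refine ⟨(g - ⌊g / c⌋₊ * c) :: List.replicate ⌊g / c⌋₊ c, ?_, ?_⟩
  · intro x hx
    rw [List.mem_cons] at hx
    rcases hx with rfl | hx
    · refine ⟨S.sub_mem hg (S.mul_mem (natCast_mem S _) hc), by linarith, ?_⟩
      have : ((⌊g / c⌋₊ : ℝ) + 1) * c = ⌊g / c⌋₊ * c + c := by ring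
      linarith
    · rw [List.eq_of_mem_replicate hx]
      exact ⟨hc, h1.le, h2.le⟩
  · rw [List.sum_cons, List.sum_replicate, nsmul_eq_mul]; ring

theorem sB_le_eps {l : List (ℕ × ℝ)} {k : ℕ} {ε : ℝ} (hε1 : ε ≤ 1)
    (hl : ∀ p ∈ l, 1 ≤ p.1 ∧ p.1 < k ∧ 0 ≤ p.2 ∧ p.2 ≤ ε) :
    sB l k ≤ ε * ∑ j ∈ Finset.range k, (j : ℝ) * wB l j := by
  have h1 : sB l k ≤ (l.map fun p => (ε * (p.1 : ℝ)) * p.2).sum := by
    unfold sB
    refine List.sum_le_sum fun p hp => ?_
    obtain ⟨a1, a2, a3, a4⟩ := hl p hp
    have hε0 : 0 ≤ ε := a3.trans a4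
    split_ifs with h1
    · obtain ⟨m, hm⟩ := h1.2
      have hm2 : 2 ≤ m := by
        by_contra hcon
        have : m = 0 ∨ m = 1 := by omega
        rcases this with rfl | rfl
        · omega
        · omega
      rw [hm, Nat.mul_div_cancel_left _ (by omega)]
      have e1 : p.2 ^ m = p.2 * p.2 ^ (m - 1) := by rw [← pow_succ']; congr 1; omega
      have e3 : p.2 ^ (m - 1) ≤ ε := by
        have : p.2 ^ (m - 1) ≤ ε ^ (m - 1) := pow_le_pow_left₀ a3 a4 _
        refine this.trans ?_
        calc ε ^ (m - 1) ≤ ε ^ 1 := pow_le_pow_of_le_one hε0 hε1 (by omega)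
          _ = ε := pow_one ε
      rw [e1]
      have e4 : (0 : ℝ) ≤ p.1 * p.2 := by positivity
      nlinarith [mul_le_mul_of_nonneg_left e3 e4]
    · positivity
  refine h1.trans ?_
  rw [sum_weight l (fun j => ε * (j : ℝ)) (fun p hp => (hl p hp).2.1), Finset.mul_sum]
  refine le_of_eq (Finset.sum_congr rfl fun j _ => ?_)
  ring

theorem exists_eps {σ : ℝ} (hσ : 0 < σ) (s : ℕ → ℝ) (T : ℝ) (K : ℕ) :
    ∃ ε : ℝ, 0 < ε ∧ ε ≤ 1 ∧ ∀ k, k < K → ε ≤ σ ^ k ∧ (0 < s k → ε * T ≤ s k) := by
  induction K with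
  | zero => exact ⟨1, one_pos, le_rfl, fun k hk => by omega⟩
  | succ K ih =>
    obtain ⟨ε, h0, h1, h2⟩ := ih
    have hσK : 0 < σ ^ K := pow_pos hσ K
    have hT : 0 < |T| + 1 := by positivity
    by_cases hs : 0 < s K
    · refine ⟨min (min ε (σ ^ K)) (s K / (|T| + 1)), ?_, ?_, ?_⟩
      · exact lt_min (lt_min h0 hσK) (div_pos hs hT)
      · exact (min_le_left _ _).trans ((min_le_left _ _).trans h1)
      · set ε' := min (min ε (σ ^ K)) (s K / (|T| + 1)) with hε'
        have e0 : 0 < ε' := lt_min (lt_min h0 hσK) (div_pos hs hT)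
        have e1 : ε' ≤ ε := (min_le_left _ _).trans (min_le_left _ _)
        have e2 : ε' ≤ σ ^ K := (min_le_left _ _).trans (min_le_right _ _)
        have e3 : ε' ≤ s K / (|T| + 1) := min_le_right _ _
        intro k hk
        rcases Nat.lt_succ_iff_lt_or_eq.1 hk with hk | rfl
        · obtain ⟨a1, a2⟩ := h2 k hk
          refine ⟨e1.trans a1, fun hsk => ?_⟩
          have a3 := a2 hsk
          rcases le_or_gt 0 T with hT0 | hT0
          · exact (mul_le_mul_of_nonneg_right e1 hT0).trans a3
          · have : ε' * T ≤ 0 := mul_nonpos_of_nonneg_of_nonpos e0.le hT0.le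
            linarith
        · refine ⟨e2, fun _ => ?_⟩
          have : ε' * T ≤ ε' * (|T| + 1) :=
            mul_le_mul_of_nonneg_left ((le_abs_self T).trans (by linarith)) e0.le
          refine this.trans ?_
          rwa [le_div_iff₀ hT] at e3
    · refine ⟨min ε (σ ^ K), lt_min h0 hσK, (min_le_left _ _).trans h1, ?_⟩
      set ε' := min ε (σ ^ K) with hε'
      have e0 : 0 < ε' := lt_min h0 hσK
      have e1 : ε' ≤ ε := min_le_left _ _
      have e2 : ε' ≤ σ ^ K := min_le_right _ _
      intro k hk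
      rcases Nat.lt_succ_iff_lt_or_eq.1 hk with hk | rfl
      · obtain ⟨a1, a2⟩ := h2 k hk
        refine ⟨e1.trans a1, fun hsk => ?_⟩
        have a3 := a2 hsk
        rcases le_or_gt 0 T with hT0 | hT0
        · exact (mul_le_mul_of_nonneg_right e1 hT0).trans a3
        · have : ε' * T ≤ 0 := mul_nonpos_of_nonneg_of_nonpos e0.le hT0.le
          linarith
      · exact ⟨e2, fun h => absurd h hs⟩

theorem low_dense {S : Subring ℝ} (hS : S ≠ ⊥) {σ : ℝ} (hσ : 0 < σ) {f : PowerSeries ℝ}
    (hfS : ∀ k, PowerSeries.coeff k f ∈ S) (hf0 : PowerSeries.coeff 0 f = 1)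
    {s : ℕ → ℝ} (hfs : LD (PowerSeries.mk s) f)
    (hs0 : ∀ k, 1 ≤ k → 0 ≤ s k) (hsm : ∀ m k, 1 ≤ m → 1 ≤ k → 0 < s m → 0 < s (m * k)) (K : ℕ) :
    ∃ l : List (ℕ × ℝ), (∀ p ∈ l, 1 ≤ p.1 ∧ p.1 < K ∧ p.2 ∈ S ∧ 0 ≤ p.2 ∧ p.2 ≤ σ ^ p.1) ∧
      ∀ k, k < K → PowerSeries.coeff k (facs l) = PowerSeries.coeff k f := by
  rcases Nat.eq_zero_or_pos K with rfl | hK
  · exact ⟨[], by simp, by simp⟩
  obtain ⟨ε, hε0, hε1, hε⟩ := exists_eps hσ s (∑ j ∈ Finset.range K, |s j|) K
  have main : ∀ k, 1 ≤ k → k ≤ K → ∃ l : List (ℕ × ℝ),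
      (∀ p ∈ l, 1 ≤ p.1 ∧ p.1 < k ∧ p.2 ∈ S ∧ 0 ≤ p.2 ∧ p.2 ≤ ε ∧ 0 < s p.1) ∧
      (∀ j, j < k → PowerSeries.coeff j (facs l) = PowerSeries.coeff j f) := by
    intro k hk
    induction k, hk using Nat.le_induction with
    | base =>
      intro _
      refine ⟨[], by simp, fun j hj => ?_⟩
      have : j = 0 := by omega
      subst this
      rw [hf0, facs_nil]; simp
    | succ k hk ih =>
      intro hkK
      obtain ⟨l, hl, hlf⟩ := ih (by omega)
      obtain ⟨h1, h2⟩ := step_LD hfs (fun p hp => (hl p hp).1) hk hlf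
      set d := PowerSeries.coeff k (facs l) - PowerSeries.coeff k f with hd
      have hkpos : (0 : ℝ) < k := by exact_mod_cast (by omega : 0 < k)
      have hdS : d ∈ S := S.sub_mem (facs_mem (fun p hp => (hl p hp).2.2.1) k) (hfS k)
      by_cases hsk : 0 < s k
      · have h3 : sB l k ≤ s k := by
          refine (sB_le_eps hε1 (fun p hp => ⟨(hl p hp).1, (hl p hp).2.1, (hl p hp).2.2.2.1,
            (hl p hp).2.2.2.2.1⟩)).trans ?_
          refine le_trans ?_ ((hε k (by omega)).2 hsk)
          refine mul_le_mul_of_nonneg_left ?_ hε0.le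
          calc ∑ j ∈ Finset.range k, (j : ℝ) * wB l j ≤ ∑ j ∈ Finset.range k, |s j| := by
                refine Finset.sum_le_sum fun j hj => ?_
                rw [Finset.mem_range] at hj
                rcases Nat.eq_zero_or_pos j with rfl | hj0
                · simp
                · have h4 := wB_le_sB (l := l) (fun p hp => (hl p hp).2.2.2.1) hj0
                  rw [h1 j hj] at h4
                  exact h4.trans (le_abs_self _)
            _ ≤ ∑ j ∈ Finset.range K, |s j| :=
                Finset.sum_le_sum_of_subset_of_nonneg (Finset.range_subset_range.2 (by omega))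
                  (fun _ _ _ => abs_nonneg _)
        have hd0 : 0 ≤ d := by
          have : 0 ≤ (k : ℝ) * d := by rw [h2]; linarith
          exact nonneg_of_mul_nonneg_right this hkpos
        obtain ⟨cs, hcs, hsum⟩ := dense_pieces hS hε0 d hdS hd0
        refine ⟨l ++ cs.map (fun c => (k, c)), ?_, ?_⟩
        · intro p hp
          rw [List.mem_append] at hp
          rcases hp with hp | hp
          · obtain ⟨a1, a2, a3⟩ := hl p hp
            exact ⟨a1, by omega, a3⟩
          · rw [List.mem_map] at hp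
            obtain ⟨c, hc, rfl⟩ := hp
            obtain ⟨b1, b2, b3⟩ := hcs c hc
            exact ⟨hk, by simp, b1, b2, b3, hsk⟩
        · exact step_append (fun p hp => (hl p hp).1) hk hlf _ hsum
      · have hsk0 : s k = 0 := le_antisymm (not_lt.1 hsk) (hs0 k hk)
        have h3 : sB l k = 0 := by
          unfold sB
          refine List.sum_eq_zero fun x hx => ?_
          rw [List.mem_map] at hx
          obtain ⟨p, hp, rfl⟩ := hx
          rw [if_neg]
          rintro ⟨_, m, hm⟩
          obtain ⟨a1, _, _, _, _, a6⟩ := hl p hp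
          have hm1 : 1 ≤ m := by
            rcases Nat.eq_zero_or_pos m with rfl | h
            · omega
            · exact h
          apply hsk
          rw [hm]
          exact hsm p.1 m a1 hm1 a6
        have hd0 : d = 0 := by
          rw [h3, hsk0, sub_zero] at h2
          exact (mul_eq_zero.1 h2).resolve_left hkpos.ne'
        refine ⟨l, fun p hp => ?_, fun j hj => ?_⟩
        · obtain ⟨a1, a2, a3⟩ := hl p hp
          exact ⟨a1, by omega, a3⟩
        · rcases Nat.lt_succ_iff_lt_or_eq.1 hj with hj | rfl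
          · exact hlf j hj
          · exact sub_eq_zero.1 hd0
  obtain ⟨l, hl, hlf⟩ := main K hK le_rfl
  refine ⟨l, fun p hp => ?_, hlf⟩
  obtain ⟨a1, a2, a3, a4, a5, _⟩ := hl p hp
  exact ⟨a1, a2, a3, a4, a5.trans (hε p.1 a2).1⟩

end Pool.Agent.Lib.MP_49224a_al
end

section

/-!
# The integer case: windows, pieces, net traces
-/

set_option autoImplicit false

namespace Pool.Agent.Lib.MP_49224a_al

open Matrix Polynomial PowerSeries

theorem int_window : ∀ k : ℕ, 1 ≤ k → ∀ x : ℝ, ∃ s ∈ (⊥ : Subring ℝ), x ≤ s ∧ s ≤ x + 1 ^ k := by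
  intro k _ x
  refine ⟨(⌈x⌉ : ℝ), Subring.mem_bot.2 ⟨⌈x⌉, rfl⟩, Int.le_ceil x, ?_⟩
  rw [one_pow]
  exact (Int.ceil_lt_add_one x).le

theorem int_pieces_one (g : ℝ) (hg : g ∈ (⊥ : Subring ℝ)) (hg0 : 0 ≤ g) :
    ∃ n : ℕ, (List.replicate n (1 : ℝ)).sum = g := by
  obtain ⟨m, rfl⟩ := Subring.mem_bot.1 hg
  have hm : 0 ≤ m := by exact_mod_cast hg0
  refine ⟨m.toNat, ?_⟩
  rw [List.sum_replicate, nsmul_eq_mul, mul_one]
  have : ((m.toNat : ℤ) : ℝ) = (m : ℝ) := by rw [Int.toNat_of_nonneg hm]
  exact_mod_cast this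

theorem int_pieces (k : ℕ) (g : ℝ) (hg : g ∈ (⊥ : Subring ℝ)) (hg0 : 0 ≤ g) :
    ∃ cs : List ℝ, (∀ c ∈ cs, c ∈ (⊥ : Subring ℝ) ∧ 0 ≤ c ∧ c ≤ 1 ^ k) ∧ cs.sum = g := by
  obtain ⟨n, hn⟩ := int_pieces_one g hg hg0
  refine ⟨List.replicate n 1, fun c hc => ?_, hn⟩
  rw [List.eq_of_mem_replicate hc]
  exact ⟨Subring.one_mem _, zero_le_one, by simp⟩

theorem sB_int {l : List (ℕ × ℝ)} {k : ℕ} (hk : 1 ≤ k) (hl : ∀ p ∈ l, p.1 < k ∧ p.2 = 1) :
    sB l k = ∑ j ∈ k.properDivisors, (j : ℝ) * wB l j := by
  have h1 : sB l k = (l.map fun p => (if p.1 ∣ k then (p.1 : ℝ) else 0) * p.2).sum := by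
    unfold sB
    congr 1
    refine List.map_congr_left fun p hp => ?_
    rw [(hl p hp).2, one_pow, mul_one, mul_one]
    by_cases h : p.1 ∣ k
    · rw [if_pos ⟨by omega, h⟩, if_pos h]
    · rw [if_neg (fun h' => h h'.2), if_neg h]
  rw [h1, sum_weight l (fun j => if j ∣ k then (j : ℝ) else 0) (fun p hp => (hl p hp).1)]
  rw [← Finset.sum_subset (s₁ := k.properDivisors) (s₂ := Finset.range k)]
  · refine Finset.sum_congr rfl fun j hj => ?_
    rw [Nat.mem_properDivisors] at hj
    rw [if_pos hj.1]
  · intro j hj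
    rw [Nat.mem_properDivisors] at hj
    exact Finset.mem_range.2 hj.2
  · intro j hj hjn
    rw [Nat.mem_properDivisors] at hjn
    rw [Finset.mem_range] at hj
    have : ¬ (j ∣ k) := fun h => hjn ⟨h, hj⟩
    rw [if_neg this, zero_mul]

/-- the net traces -/
noncomputable def netT (s : ℕ → ℝ) (m : ℕ) : ℝ :=
  ∑ k ∈ m.divisors, ((ArithmeticFunction.moebius (m / k) : ℤ) : ℝ) * s k

theorem sum_netT (s : ℕ → ℝ) {n : ℕ} (hn : 0 < n) : ∑ i ∈ n.divisors, netT s i = s n := by
  have := (ArithmeticFunction.sum_eq_iff_sum_mul_moebius_eq (R := ℝ) (f := netT s) (g := s)).2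
    (fun n _ => by
      rw [Nat.sum_divisorsAntidiagonal' (fun a b => ((ArithmeticFunction.moebius a : ℤ) : ℝ) * s b)]
      rfl)
  exact this n hn

theorem low_int {f : PowerSeries ℝ} (hfS : ∀ k, PowerSeries.coeff k f ∈ (⊥ : Subring ℝ))
    (hf0 : PowerSeries.coeff 0 f = 1) {s : ℕ → ℝ} (hfs : LD (PowerSeries.mk s) f)
    (hnet : ∀ m : ℕ, 0 < m →
      0 ≤ ∑ k ∈ m.divisors, ((ArithmeticFunction.moebius (m / k) : ℤ) : ℝ) * s k) (K : ℕ) :
    ∃ l : List (ℕ × ℝ), (∀ p ∈ l, 1 ≤ p.1 ∧ p.1 < K ∧ p.2 ∈ (⊥ : Subring ℝ) ∧ 0 ≤ p.2 ∧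
      p.2 ≤ 1 ^ p.1) ∧ ∀ k, k < K → PowerSeries.coeff k (facs l) = PowerSeries.coeff k f := by
  rcases Nat.eq_zero_or_pos K with rfl | hK
  · exact ⟨[], by simp, by simp⟩
  have main : ∀ k, 1 ≤ k → ∃ l : List (ℕ × ℝ), (∀ p ∈ l, 1 ≤ p.1 ∧ p.1 < k ∧ p.2 = 1) ∧
      (∀ j, j < k → PowerSeries.coeff j (facs l) = PowerSeries.coeff j f) ∧
      ∀ j, 1 ≤ j → j < k → (j : ℝ) * wB l j = netT s j := by
    intro k hk
    induction k, hk using Nat.le_induction with
    | base =>
      refine ⟨[], by simp, fun j hj => ?_, fun j hj1 hj2 => by omega⟩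
      have : j = 0 := by omega
      subst this
      rw [hf0, facs_nil]; simp
    | succ k hk ih =>
      obtain ⟨l, hl, hlf, hlw⟩ := ih
      obtain ⟨h1, h2⟩ := step_LD hfs (fun p hp => (hl p hp).1) hk hlf
      have h3 : sB l k = s k - netT s k := by
        rw [sB_int hk (fun p hp => (hl p hp).2), ← sum_netT s (by omega : 0 < k),
          ← Nat.insert_self_properDivisors (by omega : k ≠ 0),
          Finset.sum_insert Nat.self_notMem_properDivisors, add_sub_cancel_left]
        refine Finset.sum_congr rfl fun j hj => ?_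
        rw [Nat.mem_properDivisors] at hj
        refine hlw j (Nat.pos_of_dvd_of_pos hj.1 (by omega)) hj.2
      set d := PowerSeries.coeff k (facs l) - PowerSeries.coeff k f with hd
      have hkd : (k : ℝ) * d = netT s k := by rw [h2, h3]; ring
      have hkpos : (0 : ℝ) < k := by exact_mod_cast (by omega : 0 < k)
      have hd0 : 0 ≤ d := by
        have : 0 ≤ (k : ℝ) * d := by rw [hkd]; exact hnet k (by omega)
        exact nonneg_of_mul_nonneg_right this hkpos
      have hdS : d ∈ (⊥ : Subring ℝ) :=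
        Subring.sub_mem _ (facs_mem (fun p hp => by
          rw [(hl p hp).2.2]; exact Subring.one_mem _) k) (hfS k)
      obtain ⟨n, hn⟩ := int_pieces_one d hdS hd0
      refine ⟨l ++ (List.replicate n (1 : ℝ)).map (fun c => (k, c)), ?_, ?_, ?_⟩
      · intro p hp
        rw [List.mem_append] at hp
        rcases hp with hp | hp
        · obtain ⟨a1, a2, a3⟩ := hl p hp
          exact ⟨a1, by omega, a3⟩
        · rw [List.mem_map] at hp
          obtain ⟨c, hc, rfl⟩ := hp
          exact ⟨hk, by simp, List.eq_of_mem_replicate hc⟩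
      · exact step_append (fun p hp => (hl p hp).1) hk hlf _ hn
      · intro j hj1 hjk
        rw [wB_append, wB_const]
        by_cases h5 : k = j
        · subst h5
          rw [if_pos rfl, hn, wB_eq_zero fun p hp => (hl p hp).2.1, zero_add, hkd]
        · rw [if_neg h5, add_zero]
          exact hlw j hj1 (by omega)
  obtain ⟨l, hl, hlf, _⟩ := main K hK
  refine ⟨l, fun p hp => ?_, hlf⟩
  obtain ⟨a1, a2, a3⟩ := hl p hp
  rw [a3]
  exact ⟨a1, a2, Subring.one_mem _, zero_le_one, by simp⟩

end Pool.Agent.Lib.MP_49224a_al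
end
end
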