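import Pool.Agent.Lib.MP_49224a_al.ListProd
import Pool.Agent.Lib.MP_49224a_al.Hess

section

/-!
# Renewal asymptotics

If `x` is a polynomial with nonnegative coefficients, without constant term, such that two
consecutive coefficients are positive and `x(ρ) = 1`, then the coefficients of `g / (1 - x)`,
multiplied by `ρ ^ k`, converge to `κ * g(ρ)` for a positive constant `κ`.
-/

set_option autoImplicit false

namespace Pool.Agent.Lib.MP_49224a_al

open Filter Topology

theorem renewal_lower {D : ℕ} {p v : ℕ → ℝ} (hp : ∀ j, 0 ≤ p j) (hp0 : p 0 = 0)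
    (hsum : ∑ j ∈ Finset.range (D + 1), p j = 1)
    (hv : ∀ n, D ≤ n → 1 ≤ n → v n = ∑ j ∈ Finset.range (D + 1), p j * v (n - j))
    {N : ℕ} {a : ℝ} (hN : 1 ≤ N + D) (h : ∀ i, N ≤ i → i < N + D → a ≤ v i) :
    ∀ i, N ≤ i → a ≤ v i := by
  intro i
  induction i using Nat.strong_induction_on with
  | _ i ih =>
    intro hi
    by_cases hlt : i < N + D
    · exact h i hi hlt
    · push Not at hlt
      rw [hv i (by omega) (by omega)]
      calc a = ∑ j ∈ Finset.range (D + 1), p j * a := by rw [← Finset.sum_mul, hsum, one_mul]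
        _ ≤ _ := Finset.sum_le_sum fun j hj => by
          rcases Nat.eq_zero_or_pos j with rfl | hj0
          · simp [hp0]
          · have : j ≤ D := by simpa [Nat.lt_succ_iff] using hj
            exact mul_le_mul_of_nonneg_left (ih (i - j) (by omega) (by omega)) (hp j)

theorem renewal_upper {D : ℕ} {p v : ℕ → ℝ} (hp : ∀ j, 0 ≤ p j) (hp0 : p 0 = 0)
    (hsum : ∑ j ∈ Finset.range (D + 1), p j = 1)
    (hv : ∀ n, D ≤ n → 1 ≤ n → v n = ∑ j ∈ Finset.range (D + 1), p j * v (n - j))
    {N : ℕ} {b : ℝ} (hN : 1 ≤ N + D) (h : ∀ i, N ≤ i → i < N + D → v i ≤ b) :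
    ∀ i, N ≤ i → v i ≤ b := by
  have := renewal_lower (v := fun i => - v i) hp hp0 hsum (fun n hn hn1 => by
    simp only [mul_neg, Finset.sum_neg_distrib, ← hv n hn hn1]) (a := -b) hN
    (fun i h1 h2 => neg_le_neg (h i h1 h2))
  exact fun i hi => neg_le_neg_iff.mp (this i hi)

theorem renewal_grow {w : ℕ → ℝ} {N K : ℕ} {c : ℝ} (hc : 0 < c)
    (h1 : ∀ n, N ≤ n → c * w n ≤ w (n + K)) (h2 : ∀ n, N ≤ n → c * w n ≤ w (n + K + 1))
    {n : ℕ} (hn : N ≤ n) (t : ℕ) : ∀ s, s ≤ t → c ^ t * w n ≤ w (n + t * K + s) := by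
  induction t with
  | zero =>
    intro s hs
    obtain rfl : s = 0 := by omega
    simp
  | succ t ih =>
    intro s hs
    by_cases hst : s ≤ t
    · have e : n + (t + 1) * K + s = (n + t * K + s) + K := by ring
      rw [e]
      calc c ^ (t + 1) * w n = c * (c ^ t * w n) := by ring
        _ ≤ c * w (n + t * K + s) := mul_le_mul_of_nonneg_left (ih s hst) hc.le
        _ ≤ _ := h1 _ (by omega)
    · have e : n + (t + 1) * K + s = (n + t * K + (s - 1)) + K + 1 := by
        have : s = (s - 1) + 1 := by omega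
        rw [this]
        simp only [Nat.add_sub_cancel]
        ring
      rw [e]
      calc c ^ (t + 1) * w n = c * (c ^ t * w n) := by ring
        _ ≤ c * w (n + t * K + (s - 1)) := mul_le_mul_of_nonneg_left (ih (s - 1) (by omega)) hc.le
        _ ≤ _ := h2 _ (by omega)

theorem renewal_grow' {w : ℕ → ℝ} {N K : ℕ} {c : ℝ} (hc : 0 < c) (hc1 : c ≤ 1) (hK : 1 ≤ K)
    (h1 : ∀ n, N ≤ n → c * w n ≤ w (n + K)) (h2 : ∀ n, N ≤ n → c * w n ≤ w (n + K + 1))
    {n : ℕ} (hn : N ≤ n) (hwn : 0 ≤ w n) {l : ℕ} (hl : K * K ≤ l) :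
    c ^ l * w n ≤ w (n + l) := by
  have hdm := Nat.div_add_mod l K
  have hlt : l % K < K := Nat.mod_lt _ (by omega)
  have hle : K ≤ l / K := (Nat.le_div_iff_mul_le (by omega)).2 hl
  have h := renewal_grow hc h1 h2 hn (l / K) (l % K) (by omega)
  have e : n + l / K * K + l % K = n + l := by
    rw [add_assoc, mul_comm, hdm]
  rw [e] at h
  refine le_trans ?_ h
  exact mul_le_mul_of_nonneg_right (pow_le_pow_of_le_one hc.le hc1 (Nat.div_le_self _ _)) hwn

/-- The renewal theorem for finitely supported distributions with two consecutive atoms. -/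
theorem renewal_conv {D K : ℕ} {p u : ℕ → ℝ} (hp : ∀ j, 0 ≤ p j) (hp0 : p 0 = 0)
    (hpD : ∀ j, D < j → p j = 0)
    (hsum : ∑ j ∈ Finset.range (D + 1), p j = 1)
    (hu0 : u 0 = 1) (hu : ∀ n, 1 ≤ n → u n = ∑ j ∈ Finset.range (n + 1), p j * u (n - j))
    (hK : 0 < p K) (hK1 : 0 < p (K + 1)) :
    (∀ n, 0 ≤ u n) ∧ ∃ κ : ℝ, 0 < κ ∧ Tendsto u atTop (𝓝 κ) := by
  have hKpos : 1 ≤ K := by
    rcases Nat.eq_zero_or_pos K with rfl | h
    · exact absurd hp0 hK.ne'
    · exact h
  have hKD : K + 1 ≤ D := by
    by_contra hcon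
    exact hK1.ne' (hpD _ (by omega))
  -- nonnegativity
  have hu_nonneg : ∀ n, 0 ≤ u n := by
    intro n
    induction n using Nat.strong_induction_on with
    | _ n ih =>
      rcases Nat.eq_zero_or_pos n with rfl | hn
      · rw [hu0]; norm_num
      · rw [hu n hn]
        refine Finset.sum_nonneg fun j _ => ?_
        rcases Nat.eq_zero_or_pos j with rfl | hj0
        · simp [hp0]
        · exact mul_nonneg (hp j) (ih (n - j) (by omega))
  refine ⟨hu_nonneg, ?_⟩
  -- recursion with a fixed range
  have hv : ∀ n, D ≤ n → 1 ≤ n → u n = ∑ j ∈ Finset.range (D + 1), p j * u (n - j) := by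
    intro n hn hn1
    rw [hu n hn1]
    symm
    refine Finset.sum_subset (fun j hj => ?_) (fun j _ hj => ?_)
    · simp only [Finset.mem_range] at hj ⊢; omega
    · simp only [Finset.mem_range, not_lt] at hj
      rw [hpD j (by omega), zero_mul]
  set c : ℝ := min (p K) (p (K + 1)) with hc_def
  have hc : 0 < c := lt_min hK hK1
  have hcK : c ≤ p K := min_le_left _ _
  have hcK1 : c ≤ p (K + 1) := min_le_right _ _
  have hc1 : c ≤ 1 := by
    refine hcK.trans ?_
    rw [← hsum]
    exact Finset.single_le_sum (f := p) (fun j _ => hp j) (by simp only [Finset.mem_range]; omega)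
  -- eventual lower bound
  have hstep0 : ∀ J, 0 ≤ p J → c ≤ p J → 1 ≤ J → ∀ n, 0 ≤ n → c * u n ≤ u (n + J) := by
    intro J _ hcJ hJ n _
    rw [hu (n + J) (by omega)]
    have := Finset.single_le_sum (f := fun j => p j * u (n + J - j))
      (fun j _ => mul_nonneg (hp j) (hu_nonneg _)) (s := Finset.range (n + J + 1)) (a := J)
      (by simp only [Finset.mem_range]; omega)
    simp only [Nat.add_sub_cancel] at this
    exact (mul_le_mul_of_nonneg_right hcJ (hu_nonneg n)).trans this
  have hpos : ∀ i, K * K ≤ i → c ^ (K * K + D) ≤ u i := by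
    refine renewal_lower hp hp0 hsum hv (by omega) ?_
    intro i hi1 hi2
    have h := renewal_grow' (w := u) (N := 0) hc hc1 hKpos (hstep0 K (hp _) hcK hKpos)
      (hstep0 (K + 1) (hp _) hcK1 (by omega)) (n := 0) le_rfl (hu_nonneg 0) hi1
    rw [hu0, mul_one, zero_add] at h
    exact (pow_le_pow_of_le_one hc.le hc1 (by omega)).trans h
  -- contraction
  set ε : ℝ := c ^ (K * K + D) / 2 with hε_def
  have hε : 0 < ε := by positivity
  have hε2 : ε ≤ 1 / 2 := by
    have := pow_le_one₀ (n := K * K + D) hc.le hc1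
    rw [hε_def]; linarith
  have hcontr : ∀ (N : ℕ) (a b : ℝ), a ≤ b → (∀ i, N ≤ i → a ≤ u i ∧ u i ≤ b) →
      ∃ (N' : ℕ) (a' b' : ℝ), a' ≤ b' ∧ b' - a' ≤ (1 - ε) * (b - a) ∧
        ∀ i, N' ≤ i → a' ≤ u i ∧ u i ≤ b' := by
    intro N a b hab hN
    by_cases hcase : ∀ i, N + D ≤ i → i < N + D + D → u i ≤ (a + b) / 2
    · refine ⟨N + D, a, (a + b) / 2, by linarith, ?_, fun i hi => ⟨(hN i (by omega)).1, ?_⟩⟩
      · nlinarith
      · exact renewal_upper hp hp0 hsum hv (by omega) hcase i hi
    · push Not at hcase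
      obtain ⟨n, hn1, hn2, hn3⟩ := hcase
      have hstep : ∀ J, c ≤ p J → J ≤ D → ∀ m, N + D ≤ m → c * (u m - a) ≤ u (m + J) - a := by
        intro J hcJ hJ m hm
        have e : u (m + J) - a = ∑ j ∈ Finset.range (D + 1), p j * (u (m + J - j) - a) := by
          simp only [mul_sub, Finset.sum_sub_distrib, ← Finset.sum_mul, hsum, one_mul]
          rw [← hv (m + J) (by omega) (by omega)]
        rw [e]
        have := Finset.single_le_sum (f := fun j => p j * (u (m + J - j) - a))
          (fun j hj => mul_nonneg (hp j) (by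
            have : j < D + 1 := by simpa using hj
            have := (hN (m + J - j) (by omega)).1
            linarith)) (s := Finset.range (D + 1)) (a := J)
          (by simp only [Finset.mem_range]; omega)
        simp only [Nat.add_sub_cancel] at this
        refine (mul_le_mul_of_nonneg_right hcJ ?_).trans this
        have := (hN m (by omega)).1
        linarith
      have hlow : ∀ i, n + K * K ≤ i → a + ε * (b - a) ≤ u i := by
        refine renewal_lower hp hp0 hsum hv (by omega) ?_
        intro i hi1 hi2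
        obtain ⟨l, rfl⟩ : ∃ l, i = n + l := ⟨i - n, by omega⟩
        have h := renewal_grow' (w := fun m => u m - a) (N := N + D) hc hc1 hKpos
          (hstep K hcK (by omega)) (hstep (K + 1) hcK1 (by omega)) (n := n) hn1
          (by have := (hN n (by omega)).1; linarith) (l := l) (by omega)
        have h3 : c ^ (K * K + D) ≤ c ^ l := pow_le_pow_of_le_one hc.le hc1 (by omega)
        have h4 : (b - a) / 2 ≤ u n - a := by linarith
        have h5 : c ^ (K * K + D) * ((b - a) / 2) ≤ c ^ l * (u n - a) :=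
          mul_le_mul h3 h4 (by linarith) (by positivity)
        have h6 : ε * (b - a) = c ^ (K * K + D) * ((b - a) / 2) := by rw [hε_def]; ring
        linarith
      refine ⟨n + K * K, a + ε * (b - a), b, ?_, by linarith, fun i hi =>
        ⟨hlow i hi, (hN i (by omega)).2⟩⟩
      nlinarith
  -- initial bounds
  have hB : ∀ i, 0 ≤ i → u i ≤ ∑ j ∈ Finset.range D, u j := by
    refine renewal_upper hp hp0 hsum hv (by omega) ?_
    intro i _ hi2
    exact Finset.single_le_sum (f := u) (fun j _ => hu_nonneg j) (by simpa using hi2)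
  set B : ℝ := ∑ j ∈ Finset.range D, u j with hB_def
  have hB0 : 0 ≤ B := Finset.sum_nonneg fun j _ => hu_nonneg j
  have hiter : ∀ m : ℕ, ∃ (N : ℕ) (a b : ℝ), a ≤ b ∧ b - a ≤ (1 - ε) ^ m * B ∧
      ∀ i, N ≤ i → a ≤ u i ∧ u i ≤ b := by
    intro m
    induction m with
    | zero => exact ⟨0, 0, B, hB0, by simp, fun i _ => ⟨hu_nonneg i, hB i (Nat.zero_le _)⟩⟩
    | succ m ih =>
      obtain ⟨N, a, b, hab, hd, hN⟩ := ih
      obtain ⟨N', a', b', hab', hd', hN'⟩ := hcontr N a b hab hN
      refine ⟨N', a', b', hab', hd'.trans ?_, hN'⟩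
      calc (1 - ε) * (b - a) ≤ (1 - ε) * ((1 - ε) ^ m * B) :=
            mul_le_mul_of_nonneg_left hd (by linarith)
        _ = (1 - ε) ^ (m + 1) * B := by ring
  have hcauchy : CauchySeq u := by
    rw [Metric.cauchySeq_iff]
    intro δ hδ
    have hlim : Tendsto (fun m : ℕ => (1 - ε) ^ m * B) atTop (𝓝 (0 * B)) :=
      (tendsto_pow_atTop_nhds_zero_of_lt_one (by linarith) (by linarith)).mul_const B
    rw [zero_mul] at hlim
    obtain ⟨m, hm⟩ := ((tendsto_order.1 hlim).2 δ hδ).exists
    obtain ⟨N, a, b, hab, hd, hN⟩ := hiter m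
    refine ⟨N, fun i hi j hj => ?_⟩
    rw [Real.dist_eq, abs_lt]
    obtain ⟨h1, h2⟩ := hN i hi
    obtain ⟨h3, h4⟩ := hN j hj
    constructor <;> linarith
  obtain ⟨κ, hκ⟩ := cauchySeq_tendsto_of_complete hcauchy
  refine ⟨κ, ?_, hκ⟩
  have : c ^ (K * K + D) ≤ κ := ge_of_tendsto hκ (by
    filter_upwards [eventually_ge_atTop (K * K)] with i hi using hpos i hi)
  exact lt_of_lt_of_le (by positivity) this

theorem renewal {x : PowerSeries ℝ} {D K : ℕ} (hx : ∀ k, 0 ≤ PowerSeries.coeff k x)
    (hx0 : PowerSeries.coeff 0 x = 0) (hxD : ∀ k, D < k → PowerSeries.coeff k x = 0)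
    (hK : 0 < PowerSeries.coeff K x) (hK1 : 0 < PowerSeries.coeff (K + 1) x)
    {ρ : ℝ} (hρ : 0 < ρ) (hxρ : ∑ k ∈ Finset.range (D + 1), PowerSeries.coeff k x * ρ ^ k = 1)
    {q : PowerSeries ℝ} (hq : q * (1 - x) = 1) :
    ∃ κ : ℝ, 0 < κ ∧ ∀ g : PowerSeries ℝ,
      Summable (fun k => |PowerSeries.coeff k g| * ρ ^ k) →
      Filter.Tendsto (fun k => PowerSeries.coeff k (g * q) * ρ ^ k) Filter.atTop
        (nhds (κ * ∑' k, PowerSeries.coeff k g * ρ ^ k)) := by
  have hq' : q = 1 + x * q := by
    have : q * (1 - x) = q - x * q := by ring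
    rw [this] at hq
    linear_combination hq
  have hrec : ∀ n, PowerSeries.coeff n q * ρ ^ n = (if n = 0 then 1 else 0) +
      ∑ j ∈ Finset.range (n + 1), (PowerSeries.coeff j x * ρ ^ j) *
        (PowerSeries.coeff (n - j) q * ρ ^ (n - j)) := by
    intro n
    have h1 : PowerSeries.coeff n q = (if n = 0 then 1 else 0) +
        ∑ j ∈ Finset.range (n + 1), PowerSeries.coeff j x * PowerSeries.coeff (n - j) q := by
      conv_lhs => rw [hq']
      rw [map_add, PowerSeries.coeff_one, PowerSeries.coeff_mul,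
        Finset.Nat.sum_antidiagonal_eq_sum_range_succ
          (fun i j => PowerSeries.coeff i x * PowerSeries.coeff j q)]
    rw [h1, add_mul, Finset.sum_mul]
    congr 1
    · split_ifs with h
      · simp [h]
      · simp
    · refine Finset.sum_congr rfl fun j hj => ?_
      have hj' : j ≤ n := by simpa [Nat.lt_succ_iff] using hj
      have : ρ ^ n = ρ ^ j * ρ ^ (n - j) := by rw [← pow_add, Nat.add_sub_cancel' hj']
      rw [this]; ring
  obtain ⟨hnn, κ, hκ, hlim⟩ := renewal_conv (D := D) (K := K)
    (p := fun j => PowerSeries.coeff j x * ρ ^ j)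
    (u := fun n => PowerSeries.coeff n q * ρ ^ n)
    (fun j => mul_nonneg (hx j) (by positivity)) (by simp [hx0])
    (fun j hj => by simp [hxD j hj]) hxρ
    (by
      have := hrec 0
      simpa [hx0] using this)
    (fun n hn => by
      have := hrec n
      rw [if_neg (by omega), zero_add] at this
      exact this)
    (mul_pos hK (by positivity)) (mul_pos hK1 (by positivity))
  refine ⟨κ, hκ, fun g hg => ?_⟩
  obtain ⟨B, hB⟩ := hlim.bddAbove_range
  have hB' : ∀ n, PowerSeries.coeff n q * ρ ^ n ≤ B := fun n => hB ⟨n, rfl⟩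
  have hB0 : 0 ≤ B := (hnn 0).trans (hB' 0)
  set F : ℕ → ℕ → ℝ := fun k j => if j ≤ k then (PowerSeries.coeff j g * ρ ^ j) *
    (PowerSeries.coeff (k - j) q * ρ ^ (k - j)) else 0 with hF
  have hsum : ∀ k, PowerSeries.coeff k (g * q) * ρ ^ k = ∑' j, F k j := by
    intro k
    rw [PowerSeries.coeff_mul, Finset.Nat.sum_antidiagonal_eq_sum_range_succ
          (fun i j => PowerSeries.coeff i g * PowerSeries.coeff j q), Finset.sum_mul,
      tsum_eq_sum (s := Finset.range (k + 1)) (fun j hj => by
        simp only [Finset.mem_range, not_lt] at hj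
        simp only [hF]
        rw [if_neg (by omega)])]
    refine Finset.sum_congr rfl fun j hj => ?_
    have hj' : j ≤ k := by simpa [Nat.lt_succ_iff] using hj
    have : ρ ^ k = ρ ^ j * ρ ^ (k - j) := by rw [← pow_add, Nat.add_sub_cancel' hj']
    simp only [hF, if_pos hj']
    rw [this]; ring
  simp_rw [hsum]
  rw [← tsum_mul_left]
  refine tendsto_tsum_of_dominated_convergence (bound := fun j => |PowerSeries.coeff j g| * ρ ^ j * B)
    (hg.mul_right B) (fun j => ?_) (Eventually.of_forall fun k j => ?_)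
  · have h1 : Tendsto (fun k => (PowerSeries.coeff j g * ρ ^ j) *
        (PowerSeries.coeff (k - j) q * ρ ^ (k - j))) atTop
        (𝓝 ((PowerSeries.coeff j g * ρ ^ j) * κ)) :=
      (hlim.comp (tendsto_sub_atTop_nat j)).const_mul _
    rw [mul_comm (PowerSeries.coeff j g * ρ ^ j) κ] at h1
    refine h1.congr' ?_
    filter_upwards [eventually_ge_atTop j] with k hk
    simp only [hF, if_pos hk]
  · simp only [hF]
    split_ifs with h
    · rw [Real.norm_eq_abs, abs_mul, abs_mul, abs_of_nonneg (hnn (k - j)), abs_of_pos (pow_pos hρ j)]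
      exact mul_le_mul_of_nonneg_left (hB' _) (by positivity)
    · simp only [norm_zero]
      positivity

end Pool.Agent.Lib.MP_49224a_al
end

section

/-!
# Block companion matrices and elementary equivalence over `R[t]`
-/

set_option autoImplicit false

namespace Pool.Agent.Lib.MP_49224a_al

open Matrix Polynomial

namespace Comp

/-- A square matrix given by a function of natural numbers. -/
def natMat {M : Type*} (n : ℕ) (a : ℕ → ℕ → M) : Matrix (Fin n) (Fin n) M :=
  fun i j => a i.val j.val

theorem natMat_mul {M : Type*} [Ring M] (n : ℕ) (a b : ℕ → ℕ → M) :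
    natMat n a * natMat n b = natMat n (fun i j => ∑ k ∈ Finset.range n, a i k * b k j) := by
  ext i j
  simp only [natMat, Matrix.mul_apply]
  exact Fin.sum_univ_eq_sum_range (fun k => a i.val k * b k j.val) n

theorem natMat_congr {M : Type*} {n : ℕ} {a b : ℕ → ℕ → M}
    (h : ∀ i j, i < n → j < n → a i j = b i j) : natMat n a = natMat n b := by
  ext i j
  exact h _ _ i.2 j.2

theorem natMat_one {M : Type*} [Ring M] (n : ℕ) :
    natMat n (fun i j => if i = j then (1 : M) else 0) = 1 := by
  ext i j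
  simp [natMat, Matrix.one_apply, Fin.ext_iff]

theorem sum_shift {M : Type*} [AddCommMonoid M] (n j : ℕ) (g : ℕ → M) :
    ∑ k ∈ Finset.range n, (if k + 1 = j then g k else 0)
      = if 1 ≤ j ∧ j ≤ n then g (j - 1) else 0 := by
  split_ifs with h
  · rw [Finset.sum_eq_single (j-1)]
    · rw [if_pos (by omega)]
    · intro b _ hb; rw [if_neg (by omega)]
    · intro hb; exact absurd (Finset.mem_range.2 (by omega)) hb
  · apply Finset.sum_eq_zero
    intro b hb; rw [if_neg]; have := Finset.mem_range.1 hb; omega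

theorem sum_same {M : Type*} [AddCommMonoid M] (n j : ℕ) (g : ℕ → M) :
    ∑ k ∈ Finset.range n, (if k = j then g k else 0) = if j < n then g j else 0 := by
  rw [Finset.sum_ite_eq']
  simp

theorem sum_same' {M : Type*} [AddCommMonoid M] (n j : ℕ) (g : ℕ → M) :
    ∑ k ∈ Finset.range n, (if j = k then g k else 0) = if j < n then g j else 0 := by
  rw [Finset.sum_ite_eq]
  simp

section ring

variable {M : Type*} [Ring M] (f q : ℕ → M) (N : ℕ) (x : M)

/-- Companion matrix. -/
def cm (f : ℕ → M) (N : ℕ) (i j : ℕ) : M :=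
  (if i + 1 = j then 1 else 0) - (if i + 1 = N then f (N - j) else 0)

/-- change of basis matrix for left multiplication -/
def KL (f : ℕ → M) (N : ℕ) (i j : ℕ) : M :=
  if i = N then f (N - j) else if i = j then 1 else 0

def KL' (f : ℕ → M) (N : ℕ) (i j : ℕ) : M :=
  if i = N then (if j = N then 1 else - f (N - j)) else if i = j then 1 else 0

def BL (f : ℕ → M) (N : ℕ) (x : M) (i j : ℕ) : M :=
  if i = N then (if j = N then x else 0)
  else (if i + 1 = j then 1 else 0) -
    (if i + 1 = N then (if j < N then f (N - j) else 0) else 0)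

theorem KL_mul_KL' (h0 : f 0 = 1) : natMat (N + 1) (KL f N) * natMat (N + 1) (KL' f N) = 1 := by
  rw [natMat_mul, ← natMat_one]
  refine natMat_congr fun i j hi hj => ?_
  by_cases hiN : i = N
  · subst hiN
    have : ∀ k ∈ Finset.range (i + 1), KL f i i k * KL' f i k j
        = (if k = j then f (i - k) else 0) +
          (if k = i then (if j = i then 0 else - f (i - j)) else 0) := by
      intro k _
      by_cases hk : k = i
      · subst hk
        by_cases hj : j = k
        · subst hj; simp [KL, KL', h0]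
        · have hj' : ¬ (k = j) := fun h => hj h.symm
          simp [KL, KL', h0, hj, hj']
      · simp [KL, KL', hk]
    rw [Finset.sum_congr rfl this, Finset.sum_add_distrib, sum_same, sum_same, if_pos hj,
      if_pos (by omega)]
    by_cases hj : j = i
    · subst hj; simp [h0]
    · have hj' : ¬ (i = j) := fun h => hj h.symm
      simp [hj, hj']
  · have : ∀ k ∈ Finset.range (N + 1), KL f N i k * KL' f N k j
        = (if i = k then KL' f N k j else 0) := by
      intro k _
      simp [KL, hiN]
    rw [Finset.sum_congr rfl this, sum_same', if_pos hi]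
    simp [KL', hiN]

theorem KL_mul_cm (h0 : f 0 = 1) (hN : f (N + 1) = 0)
    (hq : ∀ m, q (m + 1) = f (m + 1) - x * f m) :
    natMat (N + 1) (KL f N) * natMat (N + 1) (cm q (N + 1))
      = natMat (N + 1) (BL f N x) * natMat (N + 1) (KL f N) := by
  rw [natMat_mul, natMat_mul]
  refine natMat_congr fun i j hi hj => ?_
  by_cases hiN : i = N
  · subst hiN
    have h1 : ∀ k ∈ Finset.range (i + 1), KL f i i k * cm q (i + 1) k j
        = (if k + 1 = j then f (i - k) else 0) -
          (if k = i then f (i - k) * q (i + 1 - j) else 0) := by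
      intro k _
      simp only [KL, cm, if_true, mul_sub, mul_ite, mul_one, mul_zero, Nat.add_right_cancel_iff]
    have h2 : ∀ k ∈ Finset.range (i + 1), BL f i x i k * KL f i k j
        = (if k = i then x * KL f i k j else 0) := by
      intro k _
      simp only [BL, if_true, ite_mul, zero_mul]
    rw [Finset.sum_congr rfl h1, Finset.sum_congr rfl h2, Finset.sum_sub_distrib, sum_shift,
      sum_same, sum_same, if_pos (by omega : i < i + 1), if_pos (by omega : i < i + 1),
      Nat.sub_self, h0, one_mul, show i + 1 - j = (i - j) + 1 by omega, hq]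
    simp only [KL, if_true]
    by_cases hj0 : j = 0
    · subst hj0
      simp [hN]
    · rw [if_pos (by omega), show i - (j - 1) = i - j + 1 by omega]
      abel
  · have h1 : ∀ k ∈ Finset.range (N + 1), KL f N i k * cm q (N + 1) k j
        = (if i = k then cm q (N + 1) k j else 0) := by
      intro k _
      simp [KL, hiN]
    have h2 : ∀ k ∈ Finset.range (N + 1), BL f N x i k * KL f N k j
        = (if i + 1 = k then KL f N k j else 0) -
          (if k = j then (if i + 1 = N then (if k < N then f (N - k) else 0) else 0) else 0) := by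
      intro k hk
      rw [Finset.mem_range] at hk
      simp only [BL, if_neg hiN, sub_mul, ite_mul, one_mul, zero_mul]
      congr 1
      by_cases hkN : k = N
      · subst hkN; simp
      · simp only [KL, if_neg hkN]
        by_cases hkj : k = j
        · simp [hkj]
        · simp [hkj]
    rw [Finset.sum_congr rfl h1, Finset.sum_congr rfl h2, Finset.sum_sub_distrib, sum_same',
      sum_same, sum_same', if_pos hi, if_pos hj, if_pos (by omega)]
    by_cases hi1 : i + 1 = N
    · subst hi1
      by_cases hj1 : j = i + 1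
      · subst hj1; simp [cm, KL, h0]
      · have : j < i + 1 := by omega
        simp [cm, KL, this, Ne.symm hj1]
    · have : ¬ (i = N) := hiN
      simp [cm, KL, hi1, this]

def KR (x : M) (i j : ℕ) : M := (if i = j then 1 else 0) - (if j + 1 = i then x else 0)

def BR (f : ℕ → M) (N : ℕ) (x : M) (i j : ℕ) : M :=
  (if i + 1 = j then 1 else 0) + (if i = 0 then (if j = 0 then x else 0) else 0)
    - (if i = N then (if 1 ≤ j then f (N + 1 - j) else 0) else 0)

theorem KR_mul_KR' (hx : x * x = 0) : natMat (N + 1) (KR x) * natMat (N + 1) (KR (-x)) = 1 := by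
  rw [natMat_mul, ← natMat_one]
  refine natMat_congr fun i j hi hj => ?_
  have h1 : ∀ k ∈ Finset.range (N + 1), KR x i k * KR (-x) k j
        = (if i = k then KR (-x) k j else 0) - (if k + 1 = i then x * KR (-x) k j else 0) := by
      intro k _
      simp only [KR, sub_mul, ite_mul, one_mul, zero_mul]
  rw [Finset.sum_congr rfl h1, Finset.sum_sub_distrib, sum_same', sum_shift, if_pos hi]
  by_cases hi0 : i = 0
  · subst hi0
    simp [KR]
  · rw [if_pos (by omega)]
    simp only [KR, mul_sub, mul_ite, mul_one, mul_zero, mul_neg, hx, neg_zero, ite_self, sub_zero]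
    by_cases h : j + 1 = i
    · subst h; simp
    · have : ¬ (i - 1 = j) := by omega
      simp [h, this]

theorem KR_mul_cm (hN1 : 1 ≤ N) (h0 : f 0 = 1) (hN : f (N + 1) = 0)
    (hq : ∀ m, q (m + 1) = f (m + 1) - f m * x) :
    natMat (N + 1) (KR x) * natMat (N + 1) (cm q (N + 1))
      = natMat (N + 1) (BR f N x) * natMat (N + 1) (KR x) := by
  rw [natMat_mul, natMat_mul]
  refine natMat_congr fun i j hi hj => ?_
  have h1 : ∀ k ∈ Finset.range (N + 1), KR x i k * cm q (N + 1) k j
        = (if i = k then cm q (N + 1) k j else 0) -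
          (if k + 1 = i then x * cm q (N + 1) k j else 0) := by
      intro k _
      simp only [KR, sub_mul, ite_mul, one_mul, zero_mul]
  have h2 : ∀ k ∈ Finset.range (N + 1), BR f N x i k * KR x k j
        = (if k = j then BR f N x i k else 0) -
          (if j + 1 = k then BR f N x i k * x else 0) := by
      intro k _
      simp only [KR, mul_sub, mul_ite, mul_one, mul_zero]
  rw [Finset.sum_congr rfl h1, Finset.sum_congr rfl h2, Finset.sum_sub_distrib,
    Finset.sum_sub_distrib, sum_same', sum_shift, sum_same, sum_same', if_pos hi, if_pos hj]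
  have e1 : cm q (N + 1) i j = (if i + 1 = j then 1 else 0)
      - (if i = N then f (N + 1 - j) - f (N - j) * x else 0) := by
    simp only [cm, Nat.add_right_cancel_iff, show N + 1 - j = (N - j) + 1 by omega, hq]
  have e2 : (if 1 ≤ i ∧ i ≤ N + 1 then x * cm q (N + 1) (i - 1) j else 0)
      = if i = 0 then 0 else if i = j then x else 0 := by
    by_cases hi0 : i = 0
    · subst hi0; simp
    · rw [if_pos (by omega), if_neg hi0]
      have h3 : ¬ (i = N + 1) := by omega
      simp only [cm, show i - 1 + 1 = i by omega, h3, if_false, sub_zero, mul_ite, mul_one,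
        mul_zero]
  rw [e1, e2]
  by_cases hjN : j = N
  · subst hjN
    have hj0 : ¬ (j = 0) := by omega
    simp only [BR, lt_irrefl, if_false, sub_zero, hN1, if_true, Nat.sub_self, h0, one_mul, hj0,
      ite_self, add_zero]
    by_cases hij : i = j
    · subst hij
      simp [hj0]
    · simp [hij]
  · have hjN' : j + 1 < N + 1 := by omega
    rw [if_pos hjN']
    simp only [BR, Nat.succ_le_succ_iff, zero_le, if_true, Nat.add_sub_add_right]
    by_cases hi0 : i = 0
    · subst hi0
      have hNz : ¬ (0 = N) := by omega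
      by_cases hj0 : j = 0
      · subst hj0; simp [hNz]
      · simp [hNz, hj0]
    · by_cases hiN : i = N
      · subst hiN
        have hij : ¬ (i = j) := fun h => hjN h.symm
        have hij' : ¬ (i + 1 = j) := by omega
        by_cases hj0 : j = 0
        · subst hj0; simp [hi0, hN]
        · have : 1 ≤ j := by omega
          simp [hi0, hij, hij', this]
          abel
      · by_cases hij : i = j
        · subst hij; simp [hi0, hiN]
        · simp [hi0, hiN, hij]

end ring

section transport

variable {ι : Type} [Fintype ι] [DecidableEq ι] {R : Type} [CommRing R]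

/-- The coefficients of a polynomial matrix. -/
def cf (F : Matrix ι ι R[X]) (k : ℕ) : Matrix ι ι R := F.map (fun p => p.coeff k)

theorem blockCompanion_eq (F : Matrix ι ι R[X]) (N : ℕ) :
    blockCompanion F N = Matrix.comp (Fin N) (Fin N) ι ι R (natMat N (cm (cf F) N)) := by
  ext ⟨i, a⟩ ⟨j, b⟩
  simp only [blockCompanion, Matrix.comp_apply, natMat, cm, cf, Matrix.sub_apply]
  congr 1
  · by_cases h : i.val + 1 = j.val
    · simp [h, Matrix.one_apply]
    · simp [h]
  · by_cases h : i.val + 1 = N
    · simp [h]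
    · simp [h]

/-- `ι ⊕ (Fin N × ι) ≃ Fin (N + 1) × ι`, the first block first -/
def e0 (ι : Type) (N : ℕ) : ι ⊕ (Fin N × ι) ≃ Fin (N + 1) × ι where
  toFun := Sum.elim (fun a => (0, a)) (fun p => (p.1.succ, p.2))
  invFun p := Fin.cases (Sum.inl p.2) (fun i => Sum.inr (i, p.2)) p.1
  left_inv := by rintro (a | ⟨i, a⟩) <;> simp
  right_inv := by
    rintro ⟨i, a⟩
    refine Fin.cases ?_ (fun i => ?_) i <;> simp

/-- `(Fin N × ι) ⊕ ι ≃ Fin (N + 1) × ι`, the last block last -/
def e1 (ι : Type) (N : ℕ) : (Fin N × ι) ⊕ ι ≃ Fin (N + 1) × ι where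
  toFun := Sum.elim (fun p => (p.1.castSucc, p.2)) (fun a => (Fin.last N, a))
  invFun p := Fin.lastCases (motive := fun _ => (Fin N × ι) ⊕ ι)
    (Sum.inr p.2) (fun i => Sum.inl (i, p.2)) p.1
  left_inv := by rintro (⟨i, a⟩ | a) <;> simp
  right_inv := by
    rintro ⟨i, a⟩
    refine Fin.lastCases ?_ (fun i => ?_) i <;> simp

theorem sse_succ (F : Matrix ι ι R[X]) (N : ℕ) (hN : ∀ i j, (F i j).natDegree ≤ N) :
    SSE (blockCompanion F (N + 1)) (blockCompanion F N) := by
  have h1 := SSE.reindex (e0 ι N) (blockCompanion F (N + 1))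
  refine h1.symm.trans ?_
  have h2 : (blockCompanion F (N + 1)).submatrix (e0 ι N) (e0 ι N)
      = fromBlocks 0 ((blockCompanion F (N + 1)).submatrix (e0 ι N) (e0 ι N)).toBlocks₁₂ 0
        (blockCompanion F N) := by
    ext (a | ⟨i, a⟩) (b | ⟨j, b⟩)
    · simp only [submatrix_apply, fromBlocks_apply₁₁, Matrix.zero_apply, e0, Equiv.coe_fn_mk,
        Sum.elim_inl, blockCompanion, Fin.val_zero]
      rw [if_neg (by simp), Nat.sub_zero, coeff_eq_zero_of_natDegree_lt]
      · simp
      · exact Nat.lt_succ_of_le (hN _ _)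
    · rfl
    · simp only [submatrix_apply, fromBlocks_apply₂₁, Matrix.zero_apply, e0, Equiv.coe_fn_mk,
        Sum.elim_inl, blockCompanion, Fin.val_zero, Sum.elim_inr, Fin.val_succ]
      rw [if_neg (by simp), Nat.sub_zero, coeff_eq_zero_of_natDegree_lt]
      · simp
      · exact Nat.lt_succ_of_le (hN _ _)
    · simp only [submatrix_apply, fromBlocks_apply₂₂, e0, Equiv.coe_fn_mk,
        blockCompanion, Sum.elim_inr, Fin.val_succ, Nat.add_right_cancel_iff,
        Nat.add_sub_add_right]
  rw [h2]
  exact SSE.fromBlocks_zero _ _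

theorem sse_add (F : Matrix ι ι R[X]) (N : ℕ) (hN : ∀ i j, (F i j).natDegree ≤ N) (k : ℕ) :
    SSE (blockCompanion F (N + k)) (blockCompanion F N) := by
  induction k with
  | zero => exact SSE.refl' _
  | succ k ih =>
    exact (sse_succ F (N + k) (fun i j => (hN i j).trans (Nat.le_add_right _ _))).trans ih

theorem sse_of_le (F : Matrix ι ι R[X]) {N N' : ℕ} (hN : ∀ i j, (F i j).natDegree ≤ N)
    (h : N ≤ N') : SSE (blockCompanion F N') (blockCompanion F N) := by
  obtain ⟨k, rfl⟩ := Nat.exists_eq_add_of_le h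
  exact sse_add F N hN k

/-- similarity of matrices over the matrix ring -/
theorem sse_comp {n : ℕ} {P Q K K' : Matrix (Fin n) (Fin n) (Matrix ι ι R)}
    (h1 : K * K' = 1) (h : K * P = Q * K) :
    SSE (Matrix.comp _ _ _ _ R Q) (Matrix.comp _ _ _ _ R P) := by
  refine SSE.of_conj (K := Matrix.compRingEquiv (Fin n) ι R K)
    (K' := Matrix.compRingEquiv (Fin n) ι R K') ?_ ?_
  · rw [← map_mul, h1, map_one]
  · have := congrArg (Matrix.compRingEquiv (Fin n) ι R) h
    rw [map_mul, map_mul] at this
    exact this.symm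

theorem cf_transvection_mul (F : Matrix ι ι R[X]) (i j : ι) (a : R) (k : ℕ) :
    cf (transvection i j (C a * X) * F) (k + 1) = cf F (k + 1) + single i j a * cf F k := by
  ext b c
  simp only [cf, Matrix.map_apply, transvection, Matrix.add_mul, Matrix.one_mul,
    Matrix.add_apply, coeff_add]
  congr 1
  by_cases hb : b = i
  · subst hb
    simp [mul_assoc, coeff_C_mul, coeff_X_mul]
  · rw [Matrix.single_mul_apply_of_ne _ _ _ _ _ hb, Matrix.single_mul_apply_of_ne _ _ _ _ _ hb]
    simp

theorem cf_mul_transvection (F : Matrix ι ι R[X]) (i j : ι) (a : R) (k : ℕ) :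
    cf (F * transvection i j (C a * X)) (k + 1) = cf F (k + 1) + cf F k * single i j a := by
  ext b c
  simp only [cf, Matrix.map_apply, transvection, Matrix.mul_add, Matrix.mul_one,
    Matrix.add_apply, coeff_add]
  congr 1
  by_cases hb : c = j
  · subst hb
    simp only [Matrix.mul_single_apply_same]
    rw [← mul_assoc, coeff_mul_X, coeff_mul_C]
    rfl
  · rw [Matrix.mul_single_apply_of_ne _ _ _ _ _ hb, Matrix.mul_single_apply_of_ne _ _ _ _ _ hb]
    simp

omit [Fintype ι] in
theorem neg_single' {T : Type*} [Ring T] (i j : ι) (a : T) :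
    -(single i j a) = single i j (-a) := by
  ext b c
  simp only [single, Matrix.of_apply, Matrix.neg_apply]
  split_ifs <;> simp

omit [Fintype ι] in
theorem single_eq_vec (i j : ι) (a : R) :
    single i j a = vecMulVec (Pi.single i a) (Pi.single j 1) := by
  ext b c
  simp only [single, Matrix.of_apply, vecMulVec_apply, Pi.single_apply]
  by_cases hb : i = b <;> by_cases hc : j = c
  · simp [hb, hc]
  · have hc' : ¬ (c = j) := fun h => hc h.symm
    simp [hb, hc, hc']
  · have hb' : ¬ (b = i) := fun h => hb h.symm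
    simp [hb, hc, hb']
  · have hb' : ¬ (b = i) := fun h => hb h.symm
    simp [hb, hb']

theorem single_dot (i j : ι) (hij : i ≠ j) (a : R) :
    (Pi.single j (1 : R)) ⬝ᵥ (Pi.single i a) = 0 := by
  simp [hij.symm]

theorem sse_left (F : Matrix ι ι R[X]) (h0 : F.map (eval 0) = 1) (N : ℕ)
    (hN : ∀ i j, (F i j).natDegree ≤ N) (i j : ι) (hij : i ≠ j) (a : R) :
    SSE (blockCompanion (transvection i j (C a * X) * F) (N + 1)) (blockCompanion F N) := by
  have hf0 : cf F 0 = 1 := by
    rw [← h0]; ext b c; simp [cf, coeff_zero_eq_eval_zero]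
  have hfN : cf F (N + 1) = 0 := by
    ext b c
    simp only [cf, Matrix.map_apply, Matrix.zero_apply]
    exact coeff_eq_zero_of_natDegree_lt (Nat.lt_succ_of_le (hN _ _))
  have hq : ∀ m, cf (transvection i j (C a * X) * F) (m + 1)
      = cf F (m + 1) - single i j (-a) * cf F m := by
    intro m
    rw [cf_transvection_mul, ← neg_single', Matrix.neg_mul, sub_neg_eq_add]
  have h1 := KL_mul_cm (cf F) _ N (single i j (-a)) hf0 hfN hq
  have h2 := KL_mul_KL' (cf F) N hf0
  have h3 := sse_comp h2 h1
  rw [← blockCompanion_eq] at h3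
  refine h3.symm.trans ?_
  have h4 := SSE.reindex (e1 ι N) (Matrix.comp (Fin (N + 1)) (Fin (N + 1)) ι ι R
    (natMat (N + 1) (BL (cf F) N (single i j (-a)))))
  refine h4.symm.trans ?_
  have h5 : (Matrix.comp (Fin (N + 1)) (Fin (N + 1)) ι ι R
    (natMat (N + 1) (BL (cf F) N (single i j (-a))))).submatrix (e1 ι N) (e1 ι N)
      = fromBlocks (blockCompanion F N)
        ((Matrix.comp (Fin (N + 1)) (Fin (N + 1)) ι ι R
    (natMat (N + 1) (BL (cf F) N (single i j (-a))))).submatrix (e1 ι N) (e1 ι N)).toBlocks₁₂ 0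
        (vecMulVec (Pi.single i (-a)) (Pi.single j 1)) := by
    ext (⟨k, b⟩ | b) (⟨l, c⟩ | c)
    · rw [blockCompanion_eq]
      have hk : ¬ (k.val = N) := k.2.ne
      simp [e1, natMat, BL, cm, hk]
    · rfl
    · have hl : ¬ (l.val = N) := l.2.ne
      simp [e1, natMat, BL, hl]
    · rw [← single_eq_vec]
      simp [e1, natMat, BL]
  rw [h5]
  exact SSE.fromBlocks_nil_right _ _ (single_dot i j hij _) _ _

theorem sse_right (F : Matrix ι ι R[X]) (h0 : F.map (eval 0) = 1) (N : ℕ) (hN1 : 1 ≤ N)
    (hN : ∀ i j, (F i j).natDegree ≤ N) (i j : ι) (hij : i ≠ j) (a : R) :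
    SSE (blockCompanion (F * transvection i j (C a * X)) (N + 1)) (blockCompanion F N) := by
  have hf0 : cf F 0 = 1 := by
    rw [← h0]; ext b c; simp [cf, coeff_zero_eq_eval_zero]
  have hfN : cf F (N + 1) = 0 := by
    ext b c
    simp only [cf, Matrix.map_apply, Matrix.zero_apply]
    exact coeff_eq_zero_of_natDegree_lt (Nat.lt_succ_of_le (hN _ _))
  have hq : ∀ m, cf (F * transvection i j (C a * X)) (m + 1)
      = cf F (m + 1) - cf F m * single i j (-a) := by
    intro m
    rw [cf_mul_transvection, ← neg_single', Matrix.mul_neg, sub_neg_eq_add]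
  have hx : single i j (-a) * single i j (-a) = (0 : Matrix ι ι R) := by
    rw [Matrix.single_mul_single_of_ne _ _ _ _ hij.symm]
  have h1 := KR_mul_cm (cf F) _ N (single i j (-a)) hN1 hf0 hfN hq
  have h2 := KR_mul_KR' N (single i j (-a)) hx
  have h3 := sse_comp h2 h1
  rw [← blockCompanion_eq] at h3
  refine h3.symm.trans ?_
  have h4 := SSE.reindex (e0 ι N) (Matrix.comp (Fin (N + 1)) (Fin (N + 1)) ι ι R
    (natMat (N + 1) (BR (cf F) N (single i j (-a)))))
  refine h4.symm.trans ?_
  have h5 : (Matrix.comp (Fin (N + 1)) (Fin (N + 1)) ι ι R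
    (natMat (N + 1) (BR (cf F) N (single i j (-a))))).submatrix (e0 ι N) (e0 ι N)
      = fromBlocks (vecMulVec (Pi.single i (-a)) (Pi.single j 1))
        ((Matrix.comp (Fin (N + 1)) (Fin (N + 1)) ι ι R
    (natMat (N + 1) (BR (cf F) N (single i j (-a))))).submatrix (e0 ι N) (e0 ι N)).toBlocks₁₂ 0
        (blockCompanion F N) := by
    have hN0 : ¬ (0 = N) := by omega
    ext (b | ⟨k, b⟩) (c | ⟨l, c⟩)
    · rw [← single_eq_vec]
      simp [e0, natMat, BR, hN0]
    · rfl
    · simp [e0, natMat, BR]
    · rw [blockCompanion_eq]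
      simp [e0, natMat, BR, cm]
  rw [h5]
  exact SSE.fromBlocks_nil_left _ _ (single_dot i j hij _) _ _

theorem sse_conj (F : Matrix ι ι R[X]) (g g' : Matrix ι ι R) (h : g * g' = 1) (N : ℕ) :
    SSE (blockCompanion (g.map C * F * g'.map C) N) (blockCompanion F N) := by
  rw [blockCompanion_eq, blockCompanion_eq]
  have hg : g' * g = 1 := mul_eq_one_comm.1 h
  have hcf : ∀ k, cf (g.map C * F * g'.map C) k = g * cf F k * g' := by
    intro k
    ext b c
    simp only [cf, Matrix.map_apply, Matrix.mul_apply, Finset.sum_mul, finsetSum_coeff,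
      coeff_mul_C, coeff_C_mul]
  refine sse_comp (K := natMat N (fun i j => if i = j then g else 0))
    (K' := natMat N (fun i j => if i = j then g' else 0)) ?_ ?_
  · rw [natMat_mul, ← natMat_one]
    refine natMat_congr fun i j hi hj => ?_
    simp only [ite_mul, zero_mul]
    rw [sum_same', if_pos hi]
    simp [h]
  · rw [natMat_mul, natMat_mul]
    refine natMat_congr fun i j hi hj => ?_
    simp only [ite_mul, zero_mul, mul_ite, mul_zero]
    rw [sum_same', if_pos hi, sum_same (M := Matrix ι ι R), if_pos hj]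
    simp only [cm, hcf, mul_sub, sub_mul, mul_ite, ite_mul, mul_one, one_mul, mul_zero, zero_mul]
    congr 1
    split_ifs
    · rw [mul_assoc, hg, mul_one]
    · rfl

theorem sse_base (A : Matrix ι ι R) (N : ℕ) (hN1 : 1 ≤ N)
    (_ : ∀ i j, ((1 - (X : R[X]) • A.map C : Matrix ι ι R[X]) i j).natDegree ≤ N) :
    SSE (blockCompanion (1 - (X : R[X]) • A.map C) N) A := by
  have hd : ∀ i j, ((1 - (X : R[X]) • A.map C : Matrix ι ι R[X]) i j).natDegree ≤ 1 := by
    intro i j
    simp only [Matrix.sub_apply, Matrix.smul_apply, Matrix.map_apply, smul_eq_mul,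
      Matrix.one_apply]
    refine (natDegree_sub_le _ _).trans (max_le ?_ ?_)
    · split_ifs <;> simp
    · exact (natDegree_mul_le).trans (by simpa using natDegree_X_le)
  refine (sse_of_le _ hd hN1).trans ?_
  let e : ι ≃ Fin 1 × ι := (Equiv.uniqueProd ι (Fin 1)).symm
  have h1 := SSE.reindex e (blockCompanion (1 - (X : R[X]) • A.map C) 1)
  refine h1.symm.trans ?_
  have h2 : (blockCompanion (1 - (X : R[X]) • A.map C) 1).submatrix e e = A := by
    ext a b
    have : (coeff (1 : R[X]) 1) = 0 := by simp [coeff_one]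
    have h3 : ((1 : Matrix ι ι R[X]) a b).coeff 1 = 0 := by
      rw [Matrix.one_apply]; split_ifs
      · exact this
      · simp
    simp [e, blockCompanion, h3]
  rw [h2]
  exact SSE.refl' _

/-- The polynomial matrices reached from `1 - tA` by conjugation with constant matrices and
multiplication by elementary matrices `e_ij(a t)`. -/
inductive Reach (A : Matrix ι ι R) : Matrix ι ι R[X] → Prop
  | base : Reach A (1 - (X : R[X]) • A.map C)
  | conj (g g' : Matrix ι ι R) (h : g * g' = 1) (F : Matrix ι ι R[X]) (hF : Reach A F) :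
      Reach A (g.map C * F * g'.map C)
  | left (i j : ι) (hij : i ≠ j) (a : R) (F : Matrix ι ι R[X]) (hF : Reach A F) :
      Reach A (transvection i j (C a * X) * F)
  | right (i j : ι) (hij : i ≠ j) (a : R) (F : Matrix ι ι R[X]) (hF : Reach A F) :
      Reach A (F * transvection i j (C a * X))

theorem map_eval_zero_transvection (i j : ι) (p : R[X]) :
    (transvection i j p).map (eval 0) = transvection i j (p.eval 0) := by
  ext a b
  simp only [transvection, Matrix.map_apply, Matrix.add_apply, eval_add, Matrix.one_apply,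
    single, Matrix.of_apply]
  congr 1
  · split_ifs <;> simp
  · split_ifs <;> simp

theorem map_eval_zero_mul (F G : Matrix ι ι R[X]) :
    (F * G).map (eval 0) = F.map (eval 0) * G.map (eval 0) := by
  have : (eval (0 : R) : R[X] → R) = (evalRingHom (0 : R)) := rfl
  rw [this]
  exact Matrix.map_mul

theorem map_eval_zero_C (g : Matrix ι ι R) : (g.map C).map (eval 0) = g := by
  ext a b; simp

theorem Reach.eval_zero {A : Matrix ι ι R} {F : Matrix ι ι R[X]} (h : Reach A F) :
    F.map (eval 0) = 1 := by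
  induction h with
  | base =>
    ext a b
    simp only [Matrix.map_apply, Matrix.sub_apply, eval_sub, Matrix.smul_apply, smul_eq_mul,
      eval_mul, eval_X, zero_mul, sub_zero, Matrix.one_apply]
    split_ifs <;> simp
  | conj g g' h F _ ih =>
    rw [map_eval_zero_mul, map_eval_zero_mul, ih, map_eval_zero_C, map_eval_zero_C, mul_one, h]
  | left i j hij a F _ ih =>
    rw [map_eval_zero_mul, ih, map_eval_zero_transvection]
    simp
  | right i j hij a F _ ih =>
    rw [map_eval_zero_mul, ih, map_eval_zero_transvection]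
    simp

theorem exists_bound (F : Matrix ι ι R[X]) : ∃ N, ∀ i j, (F i j).natDegree ≤ N := by
  refine ⟨∑ i, ∑ j, (F i j).natDegree, fun i j => ?_⟩
  refine (Finset.single_le_sum (f := fun j => (F i j).natDegree) (fun _ _ => Nat.zero_le _)
    (Finset.mem_univ j)).trans ?_
  exact Finset.single_le_sum (f := fun i => ∑ j, (F i j).natDegree) (fun _ _ => Nat.zero_le _)
    (Finset.mem_univ i)

theorem Reach.sse {A : Matrix ι ι R} {F : Matrix ι ι R[X]} (h : Reach A F) :
    ∀ N : ℕ, 1 ≤ N → (∀ i j, (F i j).natDegree ≤ N) → SSE (blockCompanion F N) A := by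
  induction h with
  | base => exact sse_base A
  | conj g g' h F hF ih =>
    intro N hN1 hN
    obtain ⟨N₀, hN₀⟩ := exists_bound F
    have h1 := sse_of_le _ hN (Nat.le_add_right N N₀)
    have h2 := sse_conj F g g' h (N + N₀)
    have h3 := ih (N + N₀) (by omega) (fun i j => (hN₀ i j).trans (by omega))
    exact (h1.symm.trans h2).trans h3
  | left i j hij a F hF ih =>
    intro N hN1 hN
    obtain ⟨N₀, hN₀⟩ := exists_bound F
    have h1 := sse_of_le _ hN (Nat.le_add_right N (N₀ + 1))
    have h2 := sse_left F hF.eval_zero (N + N₀) (fun i j => (hN₀ i j).trans (by omega)) i j hij a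
    have h3 := ih (N + N₀) (by omega) (fun i j => (hN₀ i j).trans (by omega))
    exact (h1.symm.trans h2).trans h3
  | right i j hij a F hF ih =>
    intro N hN1 hN
    obtain ⟨N₀, hN₀⟩ := exists_bound F
    have h1 := sse_of_le _ hN (Nat.le_add_right N (N₀ + 1))
    have h2 := sse_right F hF.eval_zero (N + N₀) (by omega)
      (fun i j => (hN₀ i j).trans (by omega)) i j hij a
    have h3 := ih (N + N₀) (by omega) (fun i j => (hN₀ i j).trans (by omega))
    exact (h1.symm.trans h2).trans h3

theorem transvection_comm (i j l : ι) (hil : i ≠ l) (hlj : l ≠ j) (hij : i ≠ j) (x y : R[X]) :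
    transvection i j (x * y) = transvection i l x * (transvection l j y *
      (transvection i l (-x) * transvection l j (-y))) := by
  simp only [transvection, Matrix.add_mul, Matrix.mul_add, Matrix.one_mul, Matrix.mul_one,
    Matrix.single_mul_single_same, Matrix.single_mul_single_of_ne _ _ _ _ hil.symm,
    Matrix.single_mul_single_of_ne _ _ _ _ hlj.symm,
    Matrix.single_mul_single_of_ne _ _ _ _ hij.symm, Matrix.mul_zero, Matrix.zero_mul,
    add_zero, zero_add, ← neg_single', Matrix.mul_neg, Matrix.neg_mul, mul_neg, neg_mul]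
  abel

theorem Reach.left_pow (hι : 3 ≤ Fintype.card ι) {A : Matrix ι ι R} (k : ℕ) :
    ∀ (i j : ι) (_ : i ≠ j) (a : R) (F : Matrix ι ι R[X]) (_ : Reach A F),
      Reach A (transvection i j (C a * X ^ (k + 1)) * F) := by
  induction k with
  | zero =>
    intro i j hij a F hF
    simpa using Reach.left i j hij a F hF
  | succ k ih =>
    intro i j hij a F hF
    obtain ⟨l, hl⟩ : ∃ l : ι, l ∉ ({i, j} : Finset ι) := by
      by_contra hcon
      push Not at hcon
      have h1 : (Finset.univ : Finset ι) ⊆ {i, j} := fun l _ => hcon l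
      have h2 := Finset.card_le_card h1
      have h3 : ({i, j} : Finset ι).card ≤ 2 := Finset.card_le_two
      rw [Finset.card_univ] at h2
      omega
    simp only [Finset.mem_insert, Finset.mem_singleton, not_or] at hl
    have e : C a * X ^ (k + 1 + 1) = (C a * X ^ (k + 1)) * (C 1 * X : R[X]) := by
      rw [pow_succ, C_1, one_mul, mul_assoc]
    rw [e, transvection_comm i j l (Ne.symm hl.1) hl.2 hij]
    simp only [Matrix.mul_assoc]
    refine ih _ _ (Ne.symm hl.1) _ _ (Reach.left _ _ hl.2 _ _ ?_)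
    have e1 : -(C a * X ^ (k + 1) : R[X]) = C (-a) * X ^ (k + 1) := by simp
    have e2 : -(C 1 * X : R[X]) = C (-1) * X := by simp
    rw [e1, e2]
    exact ih _ _ (Ne.symm hl.1) _ _ (Reach.left _ _ hl.2 _ _ hF)

theorem Reach.right_pow (hι : 3 ≤ Fintype.card ι) {A : Matrix ι ι R} (k : ℕ) :
    ∀ (i j : ι) (_ : i ≠ j) (a : R) (F : Matrix ι ι R[X]) (_ : Reach A F),
      Reach A (F * transvection i j (C a * X ^ (k + 1))) := by
  induction k with
  | zero =>
    intro i j hij a F hF
    simpa using Reach.right i j hij a F hF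
  | succ k ih =>
    intro i j hij a F hF
    obtain ⟨l, hl⟩ : ∃ l : ι, l ∉ ({i, j} : Finset ι) := by
      by_contra hcon
      push Not at hcon
      have h1 : (Finset.univ : Finset ι) ⊆ {i, j} := fun l _ => hcon l
      have h2 := Finset.card_le_card h1
      have h3 : ({i, j} : Finset ι).card ≤ 2 := Finset.card_le_two
      rw [Finset.card_univ] at h2
      omega
    simp only [Finset.mem_insert, Finset.mem_singleton, not_or] at hl
    have e : C a * X ^ (k + 1 + 1) = (C a * X ^ (k + 1)) * (C 1 * X : R[X]) := by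
      rw [pow_succ, C_1, one_mul, mul_assoc]
    rw [e, transvection_comm i j l (Ne.symm hl.1) hl.2 hij]
    have e1 : -(C a * X ^ (k + 1) : R[X]) = C (-a) * X ^ (k + 1) := by simp
    have e2 : -(C 1 * X : R[X]) = C (-1) * X := by simp
    rw [e1, e2]
    simp only [← Matrix.mul_assoc]
    exact Reach.right _ _ hl.2 _ _ (ih _ _ (Ne.symm hl.1) _ _
      (Reach.right _ _ hl.2 _ _ (ih _ _ (Ne.symm hl.1) _ _ hF)))

theorem Reach.left_poly (hι : 3 ≤ Fintype.card ι) {A : Matrix ι ι R} (p : R[X]) :
    ∀ (i j : ι) (_ : i ≠ j) (F : Matrix ι ι R[X]) (_ : Reach A F),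
      Reach A (transvection i j (p * X) * F) := by
  induction p using Polynomial.induction_on' with
  | add p q hp hq =>
    intro i j hij F hF
    rw [add_mul, ← transvection_mul_transvection_same _ _ hij, Matrix.mul_assoc]
    exact hp i j hij _ (hq i j hij _ hF)
  | monomial n a =>
    intro i j hij F hF
    have : (monomial n a * X : R[X]) = C a * X ^ (n + 1) := by
      rw [← C_mul_X_pow_eq_monomial, pow_succ, mul_assoc]
    rw [this]
    exact Reach.left_pow hι n i j hij a F hF

theorem Reach.right_poly (hι : 3 ≤ Fintype.card ι) {A : Matrix ι ι R} (p : R[X]) :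
    ∀ (i j : ι) (_ : i ≠ j) (F : Matrix ι ι R[X]) (_ : Reach A F),
      Reach A (F * transvection i j (p * X)) := by
  induction p using Polynomial.induction_on' with
  | add p q hp hq =>
    intro i j hij F hF
    rw [add_mul, ← transvection_mul_transvection_same _ _ hij, ← Matrix.mul_assoc]
    exact hq i j hij _ (hp i j hij _ hF)
  | monomial n a =>
    intro i j hij F hF
    have : (monomial n a * X : R[X]) = C a * X ^ (n + 1) := by
      rw [← C_mul_X_pow_eq_monomial, pow_succ, mul_assoc]
    rw [this]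
    exact Reach.right_pow hι n i j hij a F hF

/-- `F * F(0)⁻¹` is reached. -/
def PR (A : Matrix ι ι R) (F : Matrix ι ι R[X]) : Prop :=
  ∃ g g' : Matrix ι ι R, g * g' = 1 ∧ F.map (eval 0) = g ∧ Reach A (F * g'.map C)

theorem transvection_split (i j : ι) (hij : i ≠ j) (p : R[X]) :
    transvection i j p = transvection i j (p.divX * X) * (transvection i j (p.coeff 0)).map C := by
  have h : (transvection i j (p.coeff 0)).map C = transvection i j (C (p.coeff 0)) := by
    ext a b
    simp only [transvection, Matrix.map_apply, Matrix.add_apply, map_add, Matrix.one_apply,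
      single, Matrix.of_apply]
    split_ifs <;> simp
  rw [h, transvection_mul_transvection_same _ _ hij, divX_mul_X_add]

theorem transvection_split' (i j : ι) (hij : i ≠ j) (p : R[X]) :
    transvection i j p = (transvection i j (p.coeff 0)).map C * transvection i j (p.divX * X) := by
  have h : (transvection i j (p.coeff 0)).map C = transvection i j (C (p.coeff 0)) := by
    ext a b
    simp only [transvection, Matrix.map_apply, Matrix.add_apply, map_add, Matrix.one_apply,
      single, Matrix.of_apply]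
    split_ifs <;> simp
  rw [h, transvection_mul_transvection_same _ _ hij, add_comm, divX_mul_X_add]

theorem map_C_mul (g h : Matrix ι ι R) : (g * h).map (C : R → R[X]) = g.map C * h.map C := by
  exact Matrix.map_mul

theorem map_C_one : (1 : Matrix ι ι R).map (C : R → R[X]) = 1 := by
  ext a b
  simp only [Matrix.map_apply, Matrix.one_apply]
  split_ifs <;> simp

theorem PR.left (hι : 3 ≤ Fintype.card ι) {A : Matrix ι ι R} {F : Matrix ι ι R[X]} (h : PR A F)
    (i j : ι) (hij : i ≠ j) (p : R[X]) : PR A (transvection i j p * F) := by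
  obtain ⟨g, g', h1, h2, h3⟩ := h
  have hinv : transvection i j (p.coeff 0) * transvection i j (-(p.coeff 0)) = 1 := by
    rw [transvection_mul_transvection_same _ _ hij]; simp
  refine ⟨transvection i j (p.coeff 0) * g, g' * transvection i j (-(p.coeff 0)), ?_, ?_, ?_⟩
  · calc _ = transvection i j (p.coeff 0) * (g * g') * transvection i j (-(p.coeff 0)) := by
          simp only [Matrix.mul_assoc]
      _ = 1 := by rw [h1, Matrix.mul_one, hinv]
  · rw [map_eval_zero_mul, h2, map_eval_zero_transvection, coeff_zero_eq_eval_zero]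
  · have e : transvection i j p * F * (g' * transvection i j (-(p.coeff 0))).map C
        = transvection i j (p.divX * X) * ((transvection i j (p.coeff 0)).map C *
          (F * g'.map C) * (transvection i j (-(p.coeff 0))).map C) := by
      rw [transvection_split i j hij p, map_C_mul]
      simp only [Matrix.mul_assoc]
    rw [e]
    exact Reach.left_poly hι _ i j hij _ (Reach.conj _ _ hinv _ h3)

theorem PR.right (hι : 3 ≤ Fintype.card ι) {A : Matrix ι ι R} {F : Matrix ι ι R[X]} (h : PR A F)
    (i j : ι) (hij : i ≠ j) (p : R[X]) : PR A (F * transvection i j p) := by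
  obtain ⟨g, g', h1, h2, h3⟩ := h
  have h1' : g' * g = 1 := mul_eq_one_comm.1 h1
  have hinv : transvection i j (p.coeff 0) * transvection i j (-(p.coeff 0)) = 1 := by
    rw [transvection_mul_transvection_same _ _ hij]; simp
  refine ⟨g * transvection i j (p.coeff 0), transvection i j (-(p.coeff 0)) * g', ?_, ?_, ?_⟩
  · calc _ = g * (transvection i j (p.coeff 0) * transvection i j (-(p.coeff 0))) * g' := by
          simp only [Matrix.mul_assoc]
      _ = 1 := by rw [hinv, Matrix.mul_one, h1]
  · rw [map_eval_zero_mul, h2, map_eval_zero_transvection, coeff_zero_eq_eval_zero]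
  · have e0 : transvection i j p * (transvection i j (-(p.coeff 0))).map C
        = transvection i j (p.divX * X) := by
      rw [transvection_split i j hij p, Matrix.mul_assoc, ← map_C_mul, hinv, map_C_one,
        Matrix.mul_one]
    have e : F * transvection i j p * (transvection i j (-(p.coeff 0)) * g').map C
        = g.map C * ((g'.map C * (F * g'.map C) * g.map C) * transvection i j (p.divX * X))
          * g'.map C := by
      calc F * transvection i j p * (transvection i j (-(p.coeff 0)) * g').map C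
          = F * (transvection i j p * (transvection i j (-(p.coeff 0))).map C) * g'.map C := by
            rw [map_C_mul]; simp only [Matrix.mul_assoc]
        _ = (g.map C * g'.map C) * F * (g'.map C * g.map C) * transvection i j (p.divX * X)
            * g'.map C := by
            rw [e0, ← map_C_mul, ← map_C_mul, h1, h1', map_C_one, Matrix.one_mul, Matrix.mul_one]
        _ = _ := by simp only [Matrix.mul_assoc]
    rw [e]
    exact Reach.conj _ _ h1 _ (Reach.right_poly hι _ i j hij _ (Reach.conj _ _ h1' _ h3))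

end transport

end Comp

open Pool.Agent.Lib.MP_49224a_al.Comp in
theorem sse_blockCompanion {ι : Type} [Fintype ι] [DecidableEq ι] (hι : 3 ≤ Fintype.card ι)
    {R : Type} [CommRing R] (A : Matrix ι ι R) (F L L' : Matrix ι ι R[X])
    (hL : IsEl L) (hL' : IsEl L') (hF : F = L * (1 - (X : R[X]) • A.map C) * L')
    (h0 : F.map (eval 0) = 1) (N : ℕ) (hN1 : 1 ≤ N) (hN : ∀ i j, (F i j).natDegree ≤ N) :
    SSE (blockCompanion F N) A := by
  have hbase : PR A (1 - (X : R[X]) • A.map C) :=
    ⟨1, 1, by simp, Reach.base.eval_zero, by rw [map_C_one, Matrix.mul_one]; exact Reach.base⟩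
  have hleft : ∀ G : Matrix ι ι R[X], PR A G → PR A (L * G) := by
    intro G hG
    clear hF
    induction hL with
    | one => simpa using hG
    | mul i j h c M _ ih =>
      rw [Matrix.mul_assoc]
      exact ih.left hι i j h c
  have hright : ∀ G : Matrix ι ι R[X], PR A G → PR A (G * L') := by
    clear hF
    induction hL' with
    | one => intro G hG; simpa using hG
    | mul i j h c M _ ih =>
      intro G hG
      rw [← Matrix.mul_assoc]
      exact ih _ (hG.right hι i j h c)
  have hPF : PR A F := by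
    rw [hF]
    exact hright _ (hleft _ hbase)
  obtain ⟨g, g', h1, h2, h3⟩ := hPF
  rw [h0] at h2
  subst h2
  rw [one_mul] at h1
  subst h1
  rw [map_C_one, Matrix.mul_one] at h3
  exact h3.sse N hN1 hN

end Pool.Agent.Lib.MP_49224a_al
end

section

/-!
# Evaluation of real power series, and eventual positivity of the products
-/

set_option autoImplicit false

namespace Pool.Agent.Lib.MP_49224a_al

open PowerSeries Finset Filter

/-- the value of a real power series -/
noncomputable def evr (ρ : ℝ) (φ : PowerSeries ℝ) : ℝ := ∑' k, coeff k φ * ρ ^ k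

theorem Sm.summable {ρ : ℝ} (hρ : 0 ≤ ρ) {φ : PowerSeries ℝ} (h : Sm ρ φ) :
    Summable fun k => coeff k φ * ρ ^ k := by
  refine Summable.of_norm ?_
  refine h.congr fun k => ?_
  rw [norm_mul, Real.norm_eq_abs, Real.norm_eq_abs, abs_of_nonneg (pow_nonneg hρ k)]

theorem evr_mul {ρ : ℝ} (hρ : 0 ≤ ρ) {φ ψ : PowerSeries ℝ} (h1 : Sm ρ φ) (h2 : Sm ρ ψ) :
    evr ρ (φ * ψ) = evr ρ φ * evr ρ ψ := by
  have n1 : Summable fun k => ‖coeff k φ * ρ ^ k‖ := by
    refine h1.congr fun k => ?_
    rw [norm_mul, Real.norm_eq_abs, Real.norm_eq_abs, abs_of_nonneg (pow_nonneg hρ k)]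
  have n2 : Summable fun k => ‖coeff k ψ * ρ ^ k‖ := by
    refine h2.congr fun k => ?_
    rw [norm_mul, Real.norm_eq_abs, Real.norm_eq_abs, abs_of_nonneg (pow_nonneg hρ k)]
  rw [evr, evr, evr, tsum_mul_tsum_eq_tsum_sum_antidiagonal_of_summable_norm n1 n2]
  refine tsum_congr fun k => ?_
  rw [coeff_mul, Finset.sum_mul]
  refine Finset.sum_congr rfl fun p hp => ?_
  rw [HasAntidiagonal.mem_antidiagonal] at hp
  rw [← hp, pow_add]; ring

theorem Sm.add {r : ℝ} (hr : 0 ≤ r) {φ ψ : PowerSeries ℝ} (h1 : Sm r φ) (h2 : Sm r ψ) :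
    Sm r (φ + ψ) := by
  refine Summable.of_nonneg_of_le (fun k => by positivity) (fun k => ?_) (Summable.add h1 h2)
  rw [map_add, ← add_mul]
  exact mul_le_mul_of_nonneg_right (abs_add_le _ _) (by positivity)

theorem Sm.mono {r ρ : ℝ} (hρ : 0 ≤ ρ) (hρr : ρ ≤ r) {φ : PowerSeries ℝ} (h : Sm r φ) : Sm ρ φ := by
  refine Summable.of_nonneg_of_le (fun k => by positivity) (fun k => ?_) h
  exact mul_le_mul_of_nonneg_left (pow_le_pow_left₀ hρ hρr k) (abs_nonneg _)

theorem Sm.of_bound {r ρ δ : ℝ} (hρ : 0 ≤ ρ) (hρr : ρ < r) {φ : PowerSeries ℝ}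
    (h : ∀ k, |coeff k φ| * r ^ k ≤ δ) : Sm ρ φ := by
  have hr : 0 < r := lt_of_le_of_lt hρ hρr
  have hq : 0 ≤ ρ / r := by positivity
  have hq1 : ρ / r < 1 := (div_lt_one hr).2 hρr
  refine Summable.of_nonneg_of_le (fun k => by positivity) (fun k => ?_)
    ((summable_geometric_of_lt_one hq hq1).mul_left δ)
  calc |coeff k φ| * ρ ^ k = (|coeff k φ| * r ^ k) * (ρ / r) ^ k := by
        rw [div_pow]; field_simp
    _ ≤ δ * (ρ / r) ^ k := mul_le_mul_of_nonneg_right (h k) (by positivity)

theorem evr_factor {ρ c : ℝ} {j : ℕ} (hj : 1 ≤ j) :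
    Sm ρ (1 - C c * X ^ j) ∧ evr ρ (1 - C c * X ^ j) = 1 - c * ρ ^ j := by
  have hc : ∀ k, coeff k (1 - C c * X ^ j : PowerSeries ℝ)
      = if k = 0 then 1 else if k = j then -c else 0 := by
    intro k
    rw [map_sub, coeff_one, coeff_C_mul, coeff_X_pow]
    by_cases h0 : k = 0
    · subst h0
      rw [if_pos rfl, if_pos rfl, if_neg (by omega)]; ring
    · rw [if_neg h0, if_neg h0]
      by_cases h1 : k = j
      · rw [if_pos h1, if_pos h1]; ring
      · rw [if_neg h1, if_neg h1]; ring
  refine ⟨Sm.of_finite (N := j + 1) fun k hk => ?_, ?_⟩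
  · rw [hc, if_neg (by omega), if_neg (by omega)]
  · rw [evr, tsum_eq_sum (s := ({0, j} : Finset ℕ))]
    · rw [Finset.sum_pair (by omega), hc, hc, if_pos rfl, if_neg (by omega), if_pos rfl]
      ring
    · intro k hk
      simp only [Finset.mem_insert, Finset.mem_singleton, not_or] at hk
      rw [hc, if_neg hk.1, if_neg hk.2, zero_mul]

theorem evr_facs_pos {l : List (ℕ × ℝ)} {σ ρ : ℝ} (hσ : 0 ≤ σ) (hρ : 0 < ρ) (hσρ : σ * ρ < 1)
    (hl : ∀ p ∈ l, 1 ≤ p.1 ∧ 0 ≤ p.2 ∧ p.2 ≤ σ ^ p.1) :
    Sm ρ (facs l) ∧ 0 < evr ρ (facs l) := by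
  induction l with
  | nil =>
    have h := evr_factor (ρ := ρ) (c := 0) (j := 1) le_rfl
    simp only [map_zero, zero_mul, sub_zero] at h
    rw [facs_nil]
    exact ⟨h.1, by rw [h.2]; exact one_pos⟩
  | cons p l ih =>
    obtain ⟨ih1, ih2⟩ := ih (fun q hq => hl q (by simp [hq]))
    obtain ⟨h1, h2, h3⟩ := hl p (by simp)
    obtain ⟨e1, e2⟩ := evr_factor (ρ := ρ) (c := p.2) h1
    rw [facs_cons]
    refine ⟨e1.mul hρ.le ih1, ?_⟩
    rw [evr_mul hρ.le e1 ih1, e2]
    refine mul_pos ?_ ih2
    have : p.2 * ρ ^ p.1 ≤ (σ * ρ) ^ p.1 := by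
      rw [mul_pow]; exact mul_le_mul_of_nonneg_right h3 (by positivity)
    have h4 : (σ * ρ) ^ p.1 < 1 := pow_lt_one₀ (by positivity) hσρ (by omega)
    linarith

/-- eventual positivity -/
theorem eventually_pos {x : PowerSeries ℝ} {D K : ℕ} (hx : ∀ k, 0 ≤ coeff k x)
    (hx0 : coeff 0 x = 0) (hxD : ∀ k, D < k → coeff k x = 0)
    (hK : 0 < coeff K x) (hK1 : 0 < coeff (K + 1) x)
    {ρ : ℝ} (hρ : 0 < ρ) (hxρ : ∑ k ∈ Finset.range (D + 1), coeff k x * ρ ^ k = 1)
    {q : PowerSeries ℝ} (hq : q * (1 - x) = 1) {G : PowerSeries ℝ} (hG : Sm ρ G)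
    {c₀ : ℝ} (hc₀ : 0 < c₀) {K' : ℕ} (hlow : ∀ k, K' ≤ k → c₀ * coeff (k - K') q ≤ coeff k (G * q))
    {P : PowerSeries ℝ} (hP : Sm ρ P) (hP0 : 0 < evr ρ P) :
    ∀ᶠ k in atTop, 0 < coeff k (G * q * P) := by
  obtain ⟨κ, hκ, hlim⟩ := renewal hx hx0 hxD hK hK1 hρ hxρ hq
  have hone : Sm ρ (1 : PowerSeries ℝ) := Sm.of_finite (N := 1) fun k hk => by
    rw [coeff_one, if_neg (by omega)]
  have e1 : evr ρ (1 : PowerSeries ℝ) = 1 := by
    have := (evr_factor (ρ := ρ) (c := 0) (j := 1) le_rfl).2
    simpa using this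
  have t1 := hlim 1 hone
  rw [show ∑' k, coeff k (1 : PowerSeries ℝ) * ρ ^ k = evr ρ 1 from rfl, e1, mul_one, one_mul] at t1
  have t2 := hlim G hG
  -- value of `G`
  have hGpos : c₀ * ρ ^ K' * κ ≤ κ * evr ρ G := by
    have t3 : Tendsto (fun k => coeff (k - K') q * ρ ^ (k - K')) atTop (nhds κ) :=
      t1.comp (tendsto_sub_atTop_nat K')
    have t4 := t3.const_mul (c₀ * ρ ^ K')
    refine le_of_tendsto_of_tendsto t4 t2 ?_
    filter_upwards [eventually_ge_atTop K'] with k hk
    calc c₀ * ρ ^ K' * (coeff (k - K') q * ρ ^ (k - K'))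
        = c₀ * coeff (k - K') q * (ρ ^ K' * ρ ^ (k - K')) := by ring
      _ = c₀ * coeff (k - K') q * ρ ^ k := by rw [← pow_add, Nat.add_sub_cancel' hk]
      _ ≤ _ := mul_le_mul_of_nonneg_right (hlow k hk) (by positivity)
  have hG0 : 0 < evr ρ G := by
    have : 0 < κ * evr ρ G := lt_of_lt_of_le (by positivity) hGpos
    exact (mul_pos_iff_of_pos_left hκ).1 this
  have t5 := hlim (G * P) (hG.mul hρ.le hP)
  have t6 : 0 < κ * evr ρ (G * P) := by
    rw [evr_mul hρ.le hG hP]; positivity
  filter_upwards [t5.eventually (lt_mem_nhds t6)] with k hk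
  have h1 : G * q * P = G * P * q := by ring
  rw [h1]
  exact (mul_pos_iff_of_pos_right (by positivity)).1 hk

end Pool.Agent.Lib.MP_49224a_al
end
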