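import Pool.Agent.Lib.MP_49224a_al.ListProd

/-!
# Row reduction to `diag(f, 1, …, 1)`
-/

set_option autoImplicit false
set_option linter.unusedSimpArgs false
set_option linter.unusedSectionVars false

namespace Pool.Agent.Lib.MP_49224a_al

open Matrix

namespace Red

variable {n m : Type*} [Fintype n] [DecidableEq n] [Fintype m] [DecidableEq m]
  {B : Type*} [CommRing B]

/-- Equivalence under multiplication by elementary matrices on both sides. -/
def ElEq (M N : Matrix n n B) : Prop := ∃ E E' : Matrix n n B, IsEl E ∧ IsEl E' ∧ E * M * E' = N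

theorem ElEq.refl (M : Matrix n n B) : ElEq M M := ⟨1, 1, IsEl.one, IsEl.one, by simp⟩

theorem ElEq.trans {M N P : Matrix n n B} (h : ElEq M N) (h' : ElEq N P) : ElEq M P := by
  obtain ⟨E, E', hE, hE', rfl⟩ := h
  obtain ⟨F, F', hF, hF', rfl⟩ := h'
  exact ⟨F * E, E' * F', hF.mul_mul hE, hE'.mul_mul hF', by simp only [Matrix.mul_assoc]⟩

theorem ElEq.left {E M : Matrix n n B} (hE : IsEl E) : ElEq M (E * M) :=
  ⟨E, 1, hE, IsEl.one, by simp⟩

theorem ElEq.right {E M : Matrix n n B} (hE : IsEl E) : ElEq M (M * E) :=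
  ⟨1, E, IsEl.one, hE, by simp⟩

theorem ElEq.submatrix {M N : Matrix n n B} (h : ElEq M N) (e : m ≃ n) :
    ElEq (M.submatrix e e) (N.submatrix e e) := by
  obtain ⟨E, E', hE, hE', rfl⟩ := h
  refine ⟨E.submatrix e e, E'.submatrix e e, hE.submatrix e, hE'.submatrix e, ?_⟩
  rw [Matrix.submatrix_mul_equiv, Matrix.submatrix_mul_equiv]

theorem ElEq.fromBlocks_left {M N : Matrix n n B} (h : ElEq M N) :
    ElEq (fromBlocks M 0 0 (1 : Matrix m m B)) (fromBlocks N 0 0 (1 : Matrix m m B)) := by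
  obtain ⟨E, E', hE, hE', rfl⟩ := h
  refine ⟨_, _, hE.fromBlocks_left, hE'.fromBlocks_left, ?_⟩
  rw [fromBlocks_multiply, fromBlocks_multiply]
  simp

theorem ElEq.fromBlocks_right {M N : Matrix n n B} (h : ElEq M N) :
    ElEq (fromBlocks (1 : Matrix m m B) 0 0 M) (fromBlocks (1 : Matrix m m B) 0 0 N) := by
  obtain ⟨E, E', hE, hE', rfl⟩ := h
  refine ⟨_, _, hE.fromBlocks_right, hE'.fromBlocks_right, ?_⟩
  rw [fromBlocks_multiply, fromBlocks_multiply]
  simp

/-- Moving the entry `f` of `diag(f, 1, …, 1)`. -/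
theorem ElEq.move (f : B) (x y : n) :
    ElEq (diagonal (Function.update (1 : n → B) x f)) (diagonal (Function.update 1 y f)) := by
  by_cases hxy : x = y
  · subst hxy; exact ElEq.refl _
  have hd : ∀ z : n, diagonal (Function.update (1 : n → B) z f) = 1 + Matrix.single z z (f - 1) := by
    intro z
    ext a b
    simp only [diagonal_apply, Function.update_apply, Matrix.add_apply, Matrix.one_apply,
      Matrix.single, Matrix.of_apply, Pi.one_apply]
    by_cases hab : a = b
    · subst hab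
      by_cases haz : a = z
      · subst haz; simp
      · simp [haz, Ne.symm haz]
    · by_cases haz : z = a
      · subst haz; simp [hab]
      · simp [hab, haz]
  have hyx : y ≠ x := Ne.symm hxy
  refine ⟨transvection y x (f - 1) * transvection x y 1,
    transvection y x (1 - f) * transvection x y (-1),
    (IsEl.transvection hyx _).mul_mul (IsEl.transvection hxy _),
    (IsEl.transvection hyx _).mul_mul (IsEl.transvection hxy _), ?_⟩
  have hs : ∀ (i j : n) (c : B), Matrix.single i j c = c • Matrix.single i j 1 := by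
    intro i j c; simp
  rw [hd, hd]
  simp only [transvection, hs _ _ (f - 1), hs _ _ (1 - f), hs _ _ (-1 : B), Matrix.add_mul,
    Matrix.mul_add, Matrix.one_mul, Matrix.mul_one, Matrix.smul_mul, Matrix.mul_smul,
    Matrix.single_mul_single_same, Matrix.single_mul_single_of_ne _ _ _ _ hxy,
    Matrix.single_mul_single_of_ne _ _ _ _ hyx, smul_zero, add_zero, mul_one, smul_smul,
    smul_add, zero_add, zero_mul, Matrix.zero_mul]
  module

theorem vecMul_transvection (r : n → B) (i j : n) (c : B) (l : n) :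
    (r ᵥ* transvection i j c) l = r l + if l = j then r i * c else 0 := by
  have h : (r ᵥ* Matrix.single i j c) l = if l = j then r i * c else 0 := by
    simp only [vecMul, dotProduct, Matrix.single, Matrix.of_apply]
    rw [Finset.sum_eq_single i]
    · by_cases hl : l = j
      · subst hl; simp
      · simp [hl, Ne.symm hl]
    · intro b _ hb
      simp [Ne.symm hb]
    · simp
  rw [transvection, vecMul_add, vecMul_one, Pi.add_apply, h]

/-- Clearing the entries of a row by means of an entry equal to `1`. -/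
theorem exists_clear (p : n) (s : Finset n) (hp : p ∉ s) (r : n → B) (hr : r p = 1) :
    ∃ E : Matrix n n B, IsEl E ∧ ∀ l, (r ᵥ* E) l = if l ∈ s then 0 else r l := by
  induction s using Finset.induction_on with
  | empty => exact ⟨1, IsEl.one, fun l => by simp⟩
  | insert j s hj ih =>
    have hp' : p ∉ s := fun h => hp (Finset.mem_insert_of_mem h)
    have hpj : p ≠ j := fun h => hp (h ▸ Finset.mem_insert_self j s)
    obtain ⟨E, hE, h⟩ := ih hp'
    refine ⟨E * transvection p j (-r j), hE.mul_mul (IsEl.transvection hpj _), fun l => ?_⟩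
    rw [← vecMul_vecMul, vecMul_transvection, h, h, if_neg hp', hr]
    by_cases hl : l = j
    · subst hl; simp [hj]
    · simp [hl]

/-- A row `r` such that `r j + c * r p` is a unit can be reduced to the `p`-th unit vector. -/
theorem exists_row {p j : n} (hpj : p ≠ j) (r : n → B) (c : B) (h : IsUnit (r j + r p * c)) :
    ∃ E : Matrix n n B, IsEl E ∧ r ᵥ* E = Pi.single p 1 := by
  obtain ⟨w, hw⟩ := h
  let r1 : n → B := r ᵥ* transvection p j c
  have h1j : r1 j = w := by simp only [r1, vecMul_transvection, if_true]; exact hw.symm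
  let r2 : n → B := r1 ᵥ* transvection j p (↑w⁻¹ * (1 - r1 p))
  have h2p : r2 p = 1 := by
    simp only [r2, vecMul_transvection, if_true]
    rw [h1j, ← mul_assoc, Units.mul_inv, one_mul]
    ring
  obtain ⟨E, hE, hE2⟩ := exists_clear p (Finset.univ.erase p) (by simp) r2 h2p
  refine ⟨transvection p j c * transvection j p (↑w⁻¹ * (1 - r1 p)) * E,
    ((IsEl.transvection hpj _).mul_mul (IsEl.transvection hpj.symm _)).mul_mul hE, ?_⟩
  rw [← vecMul_vecMul, ← vecMul_vecMul]
  ext l
  change (r2 ᵥ* E) l = _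
  rw [hE2]
  by_cases hl : l = p
  · subst hl; simp [h2p]
  · simp [hl]

/-- The signed swap. -/
theorem exists_swap {p o : n} (h : p ≠ o) :
    IsEl (transvection p o (-1 : B) * transvection o p 1 * transvection p o (-1)) :=
  ((IsEl.transvection h _).mul_mul (IsEl.transvection h.symm _)).mul_mul (IsEl.transvection h _)

theorem transvection_mul_apply (i j : n) (c : B) (M : Matrix n m B) (a : n) (b : m) :
    (transvection i j c * M) a b = M a b + if a = i then c * M j b else 0 := by
  have h : (Matrix.single i j c * M) a b = if a = i then c * M j b else 0 := by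
    simp only [Matrix.mul_apply, Matrix.single, Matrix.of_apply]
    rw [Finset.sum_eq_single j]
    · by_cases ha : a = i
      · subst ha; simp
      · simp [ha, Ne.symm ha]
    · intro b _ hb
      simp [Ne.symm hb]
    · simp
  rw [transvection, Matrix.add_mul, Matrix.one_mul, Matrix.add_apply, h]

section Blocks

variable {k : Type*} [Fintype k] [DecidableEq k]

/-- The matrix `[[a, β], [c, D]]`. -/
def Mb (a : B) (β c : k → B) (D : Matrix k k B) : Matrix (Unit ⊕ k) (Unit ⊕ k) B :=
  fromBlocks (of fun _ _ => a) (of fun _ j => β j) (of fun j _ => c j) D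

/-- The reindexing. -/
def eqv (k : Type*) : Unit ⊕ (Unit ⊕ k) ≃ (Unit ⊕ k) ⊕ Unit where
  toFun x := match x with
    | Sum.inl _ => Sum.inl (Sum.inl ())
    | Sum.inr (Sum.inl _) => Sum.inr ()
    | Sum.inr (Sum.inr j) => Sum.inl (Sum.inr j)
  invFun x := match x with
    | Sum.inl (Sum.inl _) => Sum.inl ()
    | Sum.inr _ => Sum.inr (Sum.inl ())
    | Sum.inl (Sum.inr j) => Sum.inr (Sum.inr j)
  left_inv x := by rcases x with x | x | x <;> rfl
  right_inv x := by rcases x with (x | x) | x <;> rfl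

/-- The matrix `[[a, 0, β], [0, 1, 0], [c, 0, D]]`. -/
def T (a : B) (β c : k → B) (D : Matrix k k B) :
    Matrix (Unit ⊕ (Unit ⊕ k)) (Unit ⊕ (Unit ⊕ k)) B :=
  fromBlocks (of fun _ _ => a) (of fun _ q => Sum.elim (fun _ => 0) β q)
    (of fun q _ => Sum.elim (fun _ => 0) c q) (fromBlocks 1 0 0 D)

theorem T_eq (a : B) (β c : k → B) (D : Matrix k k B) :
    (fromBlocks (Mb a β c D) 0 0 (1 : Matrix Unit Unit B)).submatrix (eqv k) (eqv k) =
      T a β c D := by
  ext (x | x | x) (y | y | y) <;> simp [T, Mb, eqv, Matrix.one_apply]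

theorem step (a1 a2 : B) (β c : k → B) (D : Matrix k k B) {E1 : Matrix (Unit ⊕ k) (Unit ⊕ k) B}
    (hE1 : IsEl E1) (h : (Sum.elim (fun _ => a1) β) ᵥ* E1 = Pi.single (Sum.inl ()) 1) :
    ElEq (T (a1 * a2) β c D)
      (T a2 (fun j => - E1 (Sum.inl ()) (Sum.inr j)) c (D * E1.toBlocks₂₂)) := by
  let S1 : Matrix (Unit ⊕ (Unit ⊕ k)) (Unit ⊕ (Unit ⊕ k)) B :=
    fromBlocks 0 (of fun _ q => Sum.elim (fun _ => a1) β q)
      (of fun q _ => Sum.elim (fun _ => -a2) c q) (fromBlocks 1 0 0 D)
  let S2 : Matrix (Unit ⊕ (Unit ⊕ k)) (Unit ⊕ (Unit ⊕ k)) B :=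
    fromBlocks 0 (of fun _ q => (Pi.single (Sum.inl ()) 1 : Unit ⊕ k → B) q)
      (of fun q _ => Sum.elim (fun _ => -a2) c q) (fromBlocks 1 0 0 D * E1)
  let S3 : Matrix (Unit ⊕ (Unit ⊕ k)) (Unit ⊕ (Unit ⊕ k)) B :=
    fromBlocks 0 (of fun _ q => (Pi.single (Sum.inl ()) 1 : Unit ⊕ k → B) q)
      (of fun q _ => Sum.elim (fun _ => -a2) c q)
      (fromBlocks 0 (of fun _ j => E1 (Sum.inl ()) (Sum.inr j)) 0 (D * E1.toBlocks₂₂))
  have h1 : ElEq (T (a1 * a2) β c D) S1 := by
    refine ⟨fromBlocks 1 (of fun _ q => Sum.elim (fun _ => a1) 0 q) 0 1,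
      fromBlocks 1 0 (of fun q _ => Sum.elim (fun _ => -a2) 0 q) 1, IsEl.fromBlocks_upper _,
      IsEl.fromBlocks_lower _, ?_⟩
    simp only [T, S1, fromBlocks_multiply]
    ext (x | x | x) (y | y | y) <;>
      simp [Matrix.mul_apply, Matrix.one_apply, fromBlocks, Fintype.sum_sum_type]
  have h2 : ElEq S1 S2 := by
    have : S1 * fromBlocks 1 0 0 E1 = S2 := by
      simp only [S1, S2, fromBlocks_multiply, Matrix.mul_zero, Matrix.zero_mul, Matrix.mul_one,
        add_zero, zero_add]
      congr 1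
      ext x q
      rw [← h]
      rfl
    rw [← this]
    exact ElEq.right hE1.fromBlocks_right
  have h3 : ElEq S2 S3 := by
    let Z : Matrix (Unit ⊕ k) Unit B :=
      of fun q _ => - ((fromBlocks 1 0 0 D * E1 : Matrix (Unit ⊕ k) (Unit ⊕ k) B) q (Sum.inl ()))
    have : fromBlocks 1 0 Z 1 * S2 = S3 := by
      simp only [S2, S3, fromBlocks_multiply, Matrix.mul_zero, Matrix.zero_mul, Matrix.one_mul,
        add_zero, zero_add]
      congr 1
      ext (x | x) (y | y) <;>
        simp [Z, Matrix.mul_apply, Matrix.one_apply, fromBlocks, Fintype.sum_sum_type,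
          Pi.single_apply, toBlocks₂₂]
    rw [← this]
    exact ElEq.left (IsEl.fromBlocks_lower _)
  have h4 : ElEq S3 (T a2 (fun j => - E1 (Sum.inl ()) (Sum.inr j)) c (D * E1.toBlocks₂₂)) := by
    have hne : (Sum.inl () : Unit ⊕ (Unit ⊕ k)) ≠ Sum.inr (Sum.inl ()) := by simp
    have : (transvection (Sum.inl ()) (Sum.inr (Sum.inl ())) (-1 : B) *
        transvection (Sum.inr (Sum.inl ())) (Sum.inl ()) 1 *
        transvection (Sum.inl ()) (Sum.inr (Sum.inl ())) (-1)) * S3 =
        T a2 (fun j => - E1 (Sum.inl ()) (Sum.inr j)) c (D * E1.toBlocks₂₂) := by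
      rw [Matrix.mul_assoc, Matrix.mul_assoc]
      ext (x | x | x) (y | y | y) <;>
        simp [transvection_mul_apply, S3, T, Pi.single_apply]
    rw [← this]
    exact ElEq.left (exists_swap hne)
  exact ((h1.trans h2).trans h3).trans h4

theorem Mb_eta (M : Matrix (Unit ⊕ k) (Unit ⊕ k) B) :
    M = Mb (M (Sum.inl ()) (Sum.inl ())) (fun j => M (Sum.inl ()) (Sum.inr j))
      (fun j => M (Sum.inr j) (Sum.inl ())) M.toBlocks₂₂ := by
  ext (x | x) (y | y) <;> rfl

/-- Clearing the first column. -/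
theorem reduce_first (M : Matrix (Unit ⊕ k) (Unit ⊕ k) B)
    (h : ∀ q, M (Sum.inl ()) q = (Pi.single (Sum.inl ()) 1 : Unit ⊕ k → B) q) :
    ElEq M (Mb 1 0 0 M.toBlocks₂₂) := by
  let Y : Matrix k Unit B := of fun j _ => - M (Sum.inr j) (Sum.inl ())
  have h11 : M (Sum.inl ()) (Sum.inl ()) = 1 := by rw [h]; simp
  have h12 : ∀ j, M (Sum.inl ()) (Sum.inr j) = 0 := by intro j; rw [h]; simp
  have : fromBlocks 1 0 Y 1 * M = Mb 1 0 0 M.toBlocks₂₂ := by
    conv_lhs => rw [Mb_eta M]
    simp only [Mb, fromBlocks_multiply, h11, h12, Matrix.one_mul, Matrix.zero_mul, add_zero]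
    congr 1
    · ext x y; simp [Y, Matrix.mul_apply]
    · ext x y; simp [Y, Matrix.mul_apply]
  rw [← this]
  exact ElEq.left (IsEl.fromBlocks_lower _)

theorem reduce_row (a : B) (β c : k → B) (D : Matrix k k B) {E1 : Matrix (Unit ⊕ k) (Unit ⊕ k) B}
    (hE1 : IsEl E1) (h : (Sum.elim (fun _ => a) β) ᵥ* E1 = Pi.single (Sum.inl ()) 1) :
    ∃ D' : Matrix k k B, ElEq (Mb a β c D) (Mb 1 0 0 D') := by
  refine ⟨(Mb a β c D * E1).toBlocks₂₂, (ElEq.right hE1).trans (reduce_first _ ?_)⟩
  intro q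
  rw [← h]
  rw [Matrix.mul_apply, vecMul, dotProduct]
  refine Finset.sum_congr rfl fun x _ => ?_
  rcases x with x | x <;> rfl

theorem ElEq_T_iff {a a' : B} {β c β' c' : k → B} {D D' : Matrix k k B}
    (h : ElEq (T a β c D) (T a' β' c' D')) :
    ElEq (fromBlocks (Mb a β c D) 0 0 (1 : Matrix Unit Unit B))
      (fromBlocks (Mb a' β' c' D') 0 0 (1 : Matrix Unit Unit B)) := by
  have h1 := h.submatrix (eqv k).symm
  rw [← T_eq, ← T_eq] at h1
  simpa using h1

theorem lemmaA {Z K : Type*} [Field K] (ev : Z → B →+* K) {v : B} (hv : IsUnit v) [Nonempty k] :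
    ∀ l : List B, (∀ x ∈ l, ∃ z : Z, ev z x = 0 ∧
      ∀ y : B, ev z y ≠ 0 → ∃ c : B, IsUnit (y + c * x)) →
    ∀ (β c : k → B) (D : Matrix k k B),
      (∀ z, ev z (v * l.prod) ≠ 0 ∨ ∃ j, ev z (β j) ≠ 0) →
      ∃ D' : Matrix k k B, ElEq (fromBlocks (Mb (v * l.prod) β c D) 0 0 (1 : Matrix Unit Unit B))
        (fromBlocks (Mb 1 0 0 D') 0 0 (1 : Matrix Unit Unit B)) := by
  intro l
  induction l with
  | nil =>
    intro _ β c D _
    obtain ⟨j⟩ := ‹Nonempty k›
    obtain ⟨w, hw⟩ := hv
    have hj : IsUnit ((Sum.elim (fun _ => v * ([] : List B).prod) β : Unit ⊕ k → B) (Sum.inr j) +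
        (Sum.elim (fun _ => v * ([] : List B).prod) β : Unit ⊕ k → B) (Sum.inl ()) *
          (↑w⁻¹ * (1 - β j))) := by
      have : (Sum.elim (fun _ => v * ([] : List B).prod) β : Unit ⊕ k → B) (Sum.inr j) +
        (Sum.elim (fun _ => v * ([] : List B).prod) β : Unit ⊕ k → B) (Sum.inl ()) *
          (↑w⁻¹ * (1 - β j)) = 1 := by
        simp only [Sum.elim_inr, Sum.elim_inl, List.prod_nil, mul_one]
        rw [← hw, ← mul_assoc, Units.mul_inv, one_mul]
        ring
      rw [this]; exact isUnit_one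
    obtain ⟨E1, hE1, h1⟩ := exists_row (p := (Sum.inl () : Unit ⊕ k)) (j := Sum.inr j) (by simp)
      _ _ hj
    obtain ⟨D', hD'⟩ := reduce_row _ β c D hE1 h1
    exact ⟨D', hD'.fromBlocks_left⟩
  | cons x l ih =>
    intro hat β c D hnv
    have hnv' : ∀ z, ev z x = 0 → ∃ j, ev z (β j) ≠ 0 := by
      intro z hz
      rcases hnv z with h | h
      · exact absurd (by rw [List.prod_cons, map_mul, map_mul, hz]; ring) h
      · exact h
    obtain ⟨z, hz, hz'⟩ := hat x (by simp)
    obtain ⟨j, hj⟩ := hnv' z hz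
    obtain ⟨c0, hc0⟩ := hz' _ hj
    obtain ⟨E1, hE1, h1⟩ := exists_row (p := (Sum.inl () : Unit ⊕ k)) (j := Sum.inr j) (by simp)
      (Sum.elim (fun _ => x) β) c0 (by simpa [mul_comm] using hc0)
    have h2 := step x (v * l.prod) β c D hE1 h1
    have h3 : ∀ z, ev z (v * l.prod) ≠ 0 ∨ ∃ j, ev z (- E1 (Sum.inl ()) (Sum.inr j)) ≠ 0 := by
      intro z
      by_contra hcon
      push Not at hcon
      obtain ⟨k1, k2⟩ := hcon
      have k3 : ∀ j, ev z (E1 (Sum.inl ()) (Sum.inr j)) = 0 := by
        intro j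
        have := k2 j
        rwa [map_neg, neg_eq_zero] at this
      -- the block structure of `E1` at `z`
      let Del : Matrix k k K := E1.toBlocks₂₂.map (ev z)
      have k4 : E1.map (ev z) = fromBlocks (of fun _ _ => ev z (E1 (Sum.inl ()) (Sum.inl ()))) 0
          (of fun i _ => ev z (E1 (Sum.inr i) (Sum.inl ()))) Del := by
        ext (a | a) (b | b)
        · rfl
        · exact k3 b
        · rfl
        · rfl
      have k5 : (E1.map (ev z)).det = 1 := (hE1.map (ev z)).det
      rw [k4, det_fromBlocks_zero₁₂] at k5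
      have k6 : Del.det ≠ 0 := right_ne_zero_of_mul (k5.symm ▸ one_ne_zero)
      have k7 : (fun i => ev z (β i)) ᵥ* Del = 0 := by
        ext j
        have e1 := congrFun h1 (Sum.inr j)
        rw [vecMul, dotProduct, Fintype.sum_sum_type] at e1
        simp only [Finset.univ_unique, Finset.sum_singleton, Sum.elim_inl, Sum.elim_inr] at e1
        have e2 := congrArg (ev z) e1
        rw [map_add, map_mul, map_sum] at e2
        have e3 : (Pi.single (Sum.inl ()) 1 : Unit ⊕ k → B) (Sum.inr j) = 0 := by simp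
        rw [e3, map_zero] at e2
        have e4 : ev z (E1 (Sum.inl default) (Sum.inr j)) = 0 := k3 j
        rw [e4, mul_zero, zero_add] at e2
        rw [vecMul, dotProduct, Pi.zero_apply, ← e2]
        refine Finset.sum_congr rfl fun i _ => ?_
        rw [map_mul]
        rfl
      have k8 : (fun i => ev z (β i)) = 0 := by
        by_contra hne
        exact k6 (Matrix.exists_vecMul_eq_zero_iff.mp ⟨_, hne, k7⟩)
      rcases hnv z with h | ⟨i, hi⟩
      · apply h
        rw [List.prod_cons, show v * (x * l.prod) = x * (v * l.prod) by ring, map_mul, k1, mul_zero]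
      · exact hi (congrFun k8 i)
    obtain ⟨D', hD'⟩ := ih (fun y hy => hat y (List.mem_cons_of_mem _ hy)) _ c
      (D * E1.toBlocks₂₂) h3
    refine ⟨D', ?_⟩
    rw [List.prod_cons, show v * (x * l.prod) = x * (v * l.prod) by ring]
    exact (ElEq_T_iff h2).trans hD'

end Blocks

theorem diag_submatrix (f : B) (x : m) (e : n ≃ m) :
    (diagonal (Function.update (1 : m → B) x f)).submatrix e e =
      diagonal (Function.update 1 (e.symm x) f) := by
  rw [submatrix_diagonal_equiv]
  congr 1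
  ext y
  simp only [Function.comp_apply, Function.update_apply, Pi.one_apply]
  by_cases h : e y = x
  · rw [if_pos h, if_pos (by rw [← h, Equiv.symm_apply_apply])]
  · rw [if_neg h, if_neg]
    rintro rfl
    exact h (Equiv.apply_symm_apply e x)

theorem det_stab (M : Matrix n n B) :
    (fromBlocks M 0 0 (1 : Matrix Unit Unit B)).det = M.det := by
  rw [det_fromBlocks_zero₂₁, det_one, mul_one]

theorem det_Mb_one {k : Type*} [Fintype k] [DecidableEq k] (D : Matrix k k B) :
    (Mb 1 0 0 D).det = D.det := by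
  have : Mb 1 0 0 D = fromBlocks (1 : Matrix Unit Unit B) 0 0 D := by
    ext (x | x) (y | y) <;> simp [Mb, Matrix.one_apply]
  rw [this, det_fromBlocks_zero₂₁, det_one, one_mul]

theorem Mb_mul {k : Type*} [Fintype k] [DecidableEq k] (D D' : Matrix k k B) :
    Mb 1 0 0 D * Mb 1 0 0 D' = Mb 1 0 0 (D * D') := by
  have : ∀ D : Matrix k k B, Mb 1 0 0 D = fromBlocks (1 : Matrix Unit Unit B) 0 0 D := by
    intro D
    ext (x | x) (y | y) <;> simp [Mb, Matrix.one_apply]
  rw [this, this, this, fromBlocks_multiply]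
  simp

theorem Mb_one {k : Type*} [Fintype k] [DecidableEq k] :
    Mb 1 0 0 (1 : Matrix k k B) = 1 := by
  ext (x | x) (y | y) <;> simp [Mb, Matrix.one_apply]

theorem Mb_map {k : Type*} {C : Type*} [CommRing C] (g : B →+* C) (D : Matrix k k B) :
    (Mb 1 0 0 D).map g = Mb 1 0 0 (D.map g) := by
  ext (x | x) (y | y) <;> simp [Mb]

theorem stab_map {C : Type*} [CommRing C] (g : B →+* C) (M : Matrix n n B) :
    (fromBlocks M 0 0 (1 : Matrix Unit Unit B)).map g =
      fromBlocks (M.map g) 0 0 (1 : Matrix Unit Unit C) := by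
  ext (x | x) (y | y) <;> simp [Matrix.one_apply]

theorem stab_mul (M N : Matrix n n B) :
    fromBlocks M 0 0 (1 : Matrix Unit Unit B) * fromBlocks N 0 0 (1 : Matrix Unit Unit B) =
      fromBlocks (M * N) 0 0 (1 : Matrix Unit Unit B) := by
  rw [fromBlocks_multiply]; simp

theorem main_aux {B R0 Z : Type} [CommRing B] [CommRing R0] (aug : B →+* R0)
    (cst : R0 →+* B) (hC : ∀ x, aug (cst x) = x) (ev : Z → B →+* ℂ)
    (hfac : ∀ a : B, aug a = 1 → ∃ (v : B) (l : List B), IsUnit v ∧ a = v * l.prod ∧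
      ∀ x ∈ l, ∃ z : Z, ev z x = 0 ∧ ∀ y : B, ev z y ≠ 0 → ∃ c : B, IsUnit (y + c * x))
    (f : B)
    (hrow : ∀ (n : Type) [Fintype n] [DecidableEq n] (M : Matrix n n B),
      2 ≤ Fintype.card n → M.det = f → ∃ i, ∀ z, ∃ j, ev z (M i j) ≠ 0) :
    ∀ (N : ℕ) (n : Type) [Fintype n] [DecidableEq n] (M : Matrix n n B),
      Fintype.card n = N + 1 → M.map aug = 1 → M.det = f →
      ∃ i : n, ElEq (fromBlocks M 0 0 (1 : Matrix Unit Unit B))
        (diagonal (Function.update 1 (Sum.inl i) f)) := by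
  intro N
  induction N with
  | zero =>
    intro n _ _ M hcard h0 hdet
    obtain ⟨i, hi⟩ := Fintype.card_eq_one_iff.mp hcard
    refine ⟨i, ?_⟩
    have h1 : M i i = f := by
      rw [← hdet, Matrix.det_eq_elem_of_card_eq_one hcard i]
    have : fromBlocks M 0 0 (1 : Matrix Unit Unit B) =
        diagonal (Function.update 1 (Sum.inl i) f) := by
      ext (x | x) (y | y)
      · rw [hi x, hi y]; simp [h1]
      · simp
      · simp
      · simp [Matrix.one_apply, diagonal_apply]
    rw [this]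
    exact ElEq.refl _
  | succ N ih =>
    intro n _ _ M hcard h0 hdet
    obtain ⟨i0, hi0⟩ := hrow n M (by omega) hdet
    let k := {x : n // x ≠ i0}
    let e : Unit ⊕ k ≃ n := Equiv.ofBijective (Sum.elim (fun _ => i0) Subtype.val) (by
      constructor
      · rintro (x | x) (y | y) h
        · rfl
        · exact absurd h.symm y.2
        · exact absurd h x.2
        · exact congrArg Sum.inr (Subtype.ext h)
      · intro x
        by_cases hx : x = i0
        · exact ⟨Sum.inl (), hx.symm⟩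
        · exact ⟨Sum.inr ⟨x, hx⟩, rfl⟩)
    have hk : Fintype.card k = N + 1 := by
      have := Fintype.card_congr e
      rw [Fintype.card_sum, Fintype.card_unit, hcard] at this
      omega
    have hkne : Nonempty k := Fintype.card_pos_iff.mp (by omega)
    let M1 : Matrix (Unit ⊕ k) (Unit ⊕ k) B := M.submatrix e e
    have hM1 : M1.map aug = 1 := by
      have : M1.map aug = (M.map aug).submatrix e e := rfl
      rw [this, h0, submatrix_one_equiv]
    have hM1d : M1.det = f := by rw [← hdet]; exact det_submatrix_equiv_self e M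
    have haug : aug (M1 (Sum.inl ()) (Sum.inl ())) = 1 := by
      have := congrFun (congrFun hM1 (Sum.inl ())) (Sum.inl ())
      simpa using this
    obtain ⟨v, l, hv, hal, hl⟩ := hfac _ haug
    have hnv : ∀ z, ev z (v * l.prod) ≠ 0 ∨ ∃ j, ev z (M1 (Sum.inl ()) (Sum.inr j)) ≠ 0 := by
      intro z
      obtain ⟨j, hj⟩ := hi0 z
      rw [← hal]
      obtain ⟨j', rfl⟩ := e.surjective j
      rcases j' with j' | j'
      · exact Or.inl hj
      · exact Or.inr ⟨j', hj⟩
    obtain ⟨D', hD'⟩ := lemmaA ev hv l hl (fun j => M1 (Sum.inl ()) (Sum.inr j))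
      (fun j => M1 (Sum.inr j) (Sum.inl ())) M1.toBlocks₂₂ hnv
    rw [← hal, ← Mb_eta M1] at hD'
    obtain ⟨E, E', hE, hE', hP⟩ := hD'
    -- normalise
    have hP0 : (E.map aug) * (E'.map aug) =
        fromBlocks (Mb 1 0 0 (D'.map aug)) 0 0 (1 : Matrix Unit Unit R0) := by
      have h1 := congrArg (fun A => A.map aug) hP
      simp only [Matrix.map_mul] at h1
      rw [stab_map, hM1, stab_map, Mb_map, fromBlocks_one, Matrix.mul_one] at h1
      exact h1
    have hP0el : IsEl (fromBlocks (Mb 1 0 0 (D'.map aug)) 0 0 (1 : Matrix Unit Unit R0)) := by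
      rw [← hP0]; exact (hE.map aug).mul_mul (hE'.map aug)
    have hD0 : (D'.map aug).det = 1 := by
      have := hP0el.det
      rwa [det_stab, det_Mb_one] at this
    let Q : Matrix k k R0 := (D'.map aug)⁻¹
    have hQ : D'.map aug * Q = 1 := Matrix.mul_nonsing_inv _ (by rw [hD0]; exact isUnit_one)
    obtain ⟨Ninv, hNel, hN1, hN2⟩ := hP0el.exists_inv
    have hNeq : Ninv = fromBlocks (Mb 1 0 0 Q) 0 0 (1 : Matrix Unit Unit R0) := by
      have h1 : fromBlocks (Mb 1 0 0 (D'.map aug)) 0 0 (1 : Matrix Unit Unit R0) *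
          fromBlocks (Mb 1 0 0 Q) 0 0 (1 : Matrix Unit Unit R0) = 1 := by
        rw [stab_mul, Mb_mul, hQ, Mb_one, fromBlocks_one]
      calc Ninv = Ninv * (fromBlocks (Mb 1 0 0 (D'.map aug)) 0 0 (1 : Matrix Unit Unit R0) *
            fromBlocks (Mb 1 0 0 Q) 0 0 (1 : Matrix Unit Unit R0)) := by rw [h1, Matrix.mul_one]
        _ = _ := by rw [← Matrix.mul_assoc, hN2, Matrix.one_mul]
    rw [hNeq] at hNel
    have hGel := hNel.map cst
    rw [stab_map, Mb_map] at hGel
    let D'' : Matrix k k B := D' * Q.map cst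
    have h1 : ElEq (fromBlocks M1 0 0 (1 : Matrix Unit Unit B))
        (fromBlocks (Mb 1 0 0 D'') 0 0 (1 : Matrix Unit Unit B)) := by
      refine ⟨E, E' * _, hE, hE'.mul_mul hGel, ?_⟩
      rw [← Matrix.mul_assoc, hP, stab_mul, Mb_mul]
    have h2 : D''.map aug = 1 := by
      rw [Matrix.map_mul]
      have : (Q.map cst).map aug = Q := by
        ext a b; simp [hC]
      rw [this, hQ]
    have h3 : D''.det = f := by
      obtain ⟨G, G', hG, hG', hGG⟩ := h1
      have := congrArg Matrix.det hGG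
      rw [det_mul, det_mul, hG.det, hG'.det, det_stab, det_stab, det_Mb_one, hM1d] at this
      simpa using this.symm
    obtain ⟨i', hi'⟩ := ih k D'' hk h2 h3
    have h4 := (hi'.fromBlocks_right (m := Unit)).submatrix (Equiv.sumAssoc Unit k Unit)
    have h5 : (fromBlocks (1 : Matrix Unit Unit B) 0 0
        (fromBlocks D'' 0 0 (1 : Matrix Unit Unit B))).submatrix (Equiv.sumAssoc Unit k Unit)
          (Equiv.sumAssoc Unit k Unit) =
        fromBlocks (Mb 1 0 0 D'') 0 0 (1 : Matrix Unit Unit B) := by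
      ext ((x | x) | x) ((y | y) | y) <;> simp [Mb, Matrix.one_apply]
    have h6 : (fromBlocks (1 : Matrix Unit Unit B) 0 0
        (diagonal (Function.update (1 : k ⊕ Unit → B) (Sum.inl i') f))).submatrix
          (Equiv.sumAssoc Unit k Unit) (Equiv.sumAssoc Unit k Unit) =
        diagonal (Function.update 1 (Sum.inl (Sum.inr i')) f) := by
      ext ((x | x) | x) ((y | y) | y) <;>
        simp [Matrix.one_apply, diagonal_apply, Function.update_apply]
    rw [h5, h6] at h4
    have h7 := (h1.trans h4).submatrix (Equiv.sumCongr e.symm (Equiv.refl Unit))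
    rw [diag_submatrix] at h7
    have h8 : (fromBlocks M1 0 0 (1 : Matrix Unit Unit B)).submatrix
        (Equiv.sumCongr e.symm (Equiv.refl Unit)) (Equiv.sumCongr e.symm (Equiv.refl Unit)) =
        fromBlocks M 0 0 (1 : Matrix Unit Unit B) := by
      ext (x | x) (y | y) <;> simp [M1]
    rw [h8] at h7
    exact ⟨e (Sum.inr i'), h7⟩

end Red

theorem reduce_diag {B R0 Z : Type} [CommRing B] [CommRing R0] (aug : B →+* R0)
    (cst : R0 →+* B) (hC : ∀ x, aug (cst x) = x) (ev : Z → B →+* ℂ)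
    (hfac : ∀ a : B, aug a = 1 → ∃ (v : B) (l : List B), IsUnit v ∧ a = v * l.prod ∧
      ∀ x ∈ l, ∃ z : Z, ev z x = 0 ∧ ∀ y : B, ev z y ≠ 0 → ∃ c : B, IsUnit (y + c * x))
    (f : B)
    (hrow : ∀ (n : Type) [Fintype n] [DecidableEq n] (M : Matrix n n B),
      2 ≤ Fintype.card n → M.det = f → ∃ i, ∀ z, ∃ j, ev z (M i j) ≠ 0)
    (n : Type) [Fintype n] [DecidableEq n] (M : Matrix n n B)
    (h0 : M.map aug = 1) (hdet : M.det = f) (i : n) :
    ∃ E E' : Matrix (n ⊕ Unit) (n ⊕ Unit) B, IsEl E ∧ IsEl E' ∧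
      E * fromBlocks M 0 0 (1 : Matrix Unit Unit B) * E'
        = diagonal (Function.update 1 (Sum.inl i) f) := by
  have hpos : 0 < Fintype.card n := Fintype.card_pos_iff.mpr ⟨i⟩
  obtain ⟨i', hi'⟩ := Red.main_aux aug cst hC ev hfac f hrow (Fintype.card n - 1) n M
    (by omega) h0 hdet
  exact hi'.trans (Red.ElEq.move f _ _)

end Pool.Agent.Lib.MP_49224a_al
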