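import Pool.Agent.Lib.MP_49224a_al.ListProd
import Pool.Agent.Lib.MP_49224a_al.Hess

section

/-!
# The model series `1 - h` and the perturbation estimate
-/

set_option autoImplicit false

namespace Pool.Agent.Lib.MP_49224a_al

open PowerSeries Finset

/-- solution of `k T_k = ∑_{j=1}^k a_j T_{k-j}`, `T_0 = 1` -/
noncomputable def Tseq (a : ℕ → ℝ) : ℕ → ℝ
  | 0 => 1
  | (k + 1) => (∑ j : Fin (k + 1), a (j.val + 1) * Tseq a (k - j.val)) / (k + 1)

theorem Tseq_zero (a : ℕ → ℝ) : Tseq a 0 = 1 := by rw [Tseq]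

theorem Tseq_succ (a : ℕ → ℝ) (k : ℕ) :
    ((k : ℝ) + 1) * Tseq a (k + 1) = ∑ j ∈ range (k + 1), a (j + 1) * Tseq a (k - j) := by
  rw [Tseq, mul_div_cancel₀ _ (by positivity), Finset.sum_range]

theorem Tseq_pos {a : ℕ → ℝ} (ha : ∀ j, 0 ≤ a j) (h1 : 0 < a 1) (k : ℕ) : 0 < Tseq a k := by
  induction k using Nat.strong_induction_on with
  | _ k ih =>
    cases k with
    | zero => rw [Tseq_zero]; exact one_pos
    | succ k =>
      have h := Tseq_succ a k
      have h2 : 0 < ∑ j ∈ range (k + 1), a (j + 1) * Tseq a (k - j) := by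
        refine Finset.sum_pos' (fun j hj => mul_nonneg (ha _) (ih _ (by omega)).le)
          ⟨0, by simp, ?_⟩
        simpa using mul_pos h1 (ih k (by omega))
      rw [← h] at h2
      exact (pos_iff_pos_of_mul_pos h2).1 (by positivity)

theorem Tseq_ge {a : ℕ → ℝ} (ha : ∀ j, 0 ≤ a j) (h1 : 0 < a 1) {k j : ℕ} (hj : 1 ≤ j)
    (hjk : j ≤ k) (haj : 1 ≤ a j) : Tseq a (k - j) / k ≤ Tseq a k := by
  obtain ⟨k, rfl⟩ : ∃ k', k = k' + 1 := ⟨k - 1, by omega⟩
  obtain ⟨j, rfl⟩ : ∃ j', j = j' + 1 := ⟨j - 1, by omega⟩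
  have h := Tseq_succ a k
  have h2 : a (j + 1) * Tseq a (k - j) ≤ ∑ i ∈ range (k + 1), a (i + 1) * Tseq a (k - i) :=
    Finset.single_le_sum (f := fun i => a (i + 1) * Tseq a (k - i))
      (fun i _ => mul_nonneg (ha _) (Tseq_pos ha h1 _).le) (by simp; omega)
  rw [← h] at h2
  have h3 : Tseq a (k - j) ≤ a (j + 1) * Tseq a (k - j) :=
    le_mul_of_one_le_left (Tseq_pos ha h1 _).le haj
  rw [div_le_iff₀ (by positivity)]
  have : k + 1 - (j + 1) = k - j := by omega
  rw [this]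
  push_cast
  linarith [h3.trans h2]

/-- polynomial lower bound on `T` up to `4 (K-1)` -/
theorem Tseq_lower {a : ℕ → ℝ} {K : ℕ} (hK : 2 ≤ K) (ha : ∀ j, 0 ≤ a j)
    (ha1 : ∀ j, 1 ≤ j → j < K → a j = 1) (k : ℕ) (hk : k ≤ 4 * (K - 1)) :
    1 / (4 * (K : ℝ)) ^ 5 ≤ Tseq a k := by
  have h1 : 0 < a 1 := by rw [ha1 1 le_rfl (by omega)]; exact one_pos
  -- claim: for `k ≤ i (K-1)`, `T_k ≥ (4K)^{-(i+1)}`
  have key : ∀ i, i ≤ 4 → ∀ k, k ≤ i * (K - 1) → 1 / (4 * (K : ℝ)) ^ (i + 1) ≤ Tseq a k := by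
    intro i
    induction i with
    | zero =>
      intro _ k hk
      have : k = 0 := by omega
      subst this
      rw [Tseq_zero, zero_add, pow_one, div_le_one (by positivity)]
      have : (2 : ℝ) ≤ K := by exact_mod_cast hK
      linarith
    | succ i ih =>
      intro hi k hk
      by_cases hk0 : k ≤ K - 1
      · rcases Nat.eq_zero_or_pos k with rfl | hkpos
        · rw [Tseq_zero, div_le_one (by positivity)]
          have : (1 : ℝ) ≤ 4 * K := by
            have : (2 : ℝ) ≤ K := by exact_mod_cast hK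
            linarith
          exact one_le_pow₀ this
        · have := Tseq_ge ha h1 (k := k) (j := k) hkpos le_rfl (by rw [ha1 k hkpos (by omega)])
          rw [Nat.sub_self, Tseq_zero] at this
          refine le_trans ?_ this
          have h4 : (1 : ℝ) ≤ 4 * K := by
            have : (2 : ℝ) ≤ K := by exact_mod_cast hK
            linarith
          have h5 : (k : ℝ) ≤ (4 * K) ^ (i + 1 + 1) := by
            calc (k : ℝ) ≤ 4 * K := by
                  have : (k : ℝ) ≤ K := by exact_mod_cast (by omega : k ≤ K)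
                  linarith [(by positivity : (0:ℝ) ≤ K)]
              _ = (4 * K) ^ 1 := by rw [pow_one]
              _ ≤ _ := pow_le_pow_right₀ h4 (by omega)
          exact one_div_le_one_div_of_le (by exact_mod_cast hkpos) h5
      · have := Tseq_ge ha h1 (k := k) (j := K - 1) (by omega) (by omega)
          (by rw [ha1 (K - 1) (by omega) (by omega)])
        refine le_trans ?_ this
        have h2 := ih (by omega) (k - (K - 1)) (by
          have : (i + 1) * (K - 1) = i * (K - 1) + (K - 1) := by ring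
          omega)
        have hkpos : (0 : ℝ) < k := by exact_mod_cast (by omega : 0 < k)
        rw [le_div_iff₀ hkpos]
        refine le_trans ?_ h2
        rw [div_mul_eq_mul_div, one_mul, pow_succ (4 * (K:ℝ)) (i + 1)]
        rw [div_le_div_iff₀ (by positivity) (by positivity)]
        have hk4 : (k : ℝ) ≤ 4 * K := by
          have : k ≤ 4 * K := by
            calc k ≤ (i + 1) * (K - 1) := hk
              _ ≤ 4 * (K - 1) := Nat.mul_le_mul_right _ (by omega)
              _ ≤ 4 * K := by omega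
          exact_mod_cast this
        have : (0:ℝ) ≤ (4 * (K:ℝ)) ^ (i + 1) := by positivity
        nlinarith
  exact key 4 le_rfl k hk

/-- the model: `α` nondecreasing from `0` to `1` -/
structure Model (K : ℕ) (α : ℕ → ℝ) : Prop where
  hK : 2 ≤ K
  zero : ∀ j, j < K → α j = 0
  half : 1 / 2 ≤ α K
  mono : Monotone α
  one : ∀ j, 2 * K ≤ j → α j = 1

noncomputable def Tm (α : ℕ → ℝ) : ℕ → ℝ := Tseq (fun j => 1 - α j)

/-- `h = 1 - (1 - X) T` -/
noncomputable def hser (α : ℕ → ℝ) : PowerSeries ℝ := 1 - (1 - X) * PowerSeries.mk (Tm α)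

namespace Model

variable {K : ℕ} {α : ℕ → ℝ} (M : Model K α)
include M

theorem le_one (j : ℕ) : α j ≤ 1 := by
  rw [← M.one (max j (2 * K)) (le_max_right _ _)]
  exact M.mono (le_max_left _ _)

theorem nonneg (j : ℕ) : 0 ≤ α j := by
  have := M.hK
  rw [← M.zero 0 (by omega)]
  exact M.mono (Nat.zero_le _)

theorem Tm_pos (k : ℕ) : 0 < Tm α k := by
  refine Tseq_pos (fun j => sub_nonneg.2 (M.le_one j)) ?_ k
  have := M.hK
  simp [M.zero 1 (by omega)]

theorem Tm_lower (k : ℕ) (hk : k ≤ 4 * (K - 1)) : 1 / (4 * (K : ℝ)) ^ 5 ≤ Tm α k := by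
  refine Tseq_lower M.hK (fun j => sub_nonneg.2 (M.le_one j)) ?_ k hk
  intro j _ hj
  simp [M.zero j hj]

omit M in
theorem coeff_h_zero : coeff 0 (hser α) = 0 := by
  simp [hser, Tm, Tseq_zero]

omit M in
theorem coeff_h_succ (k : ℕ) : coeff (k + 1) (hser α) = Tm α k - Tm α (k + 1) := by
  simp only [hser, sub_mul, one_mul, map_sub, coeff_mk, coeff_succ_X_mul]
  rw [coeff_one]
  simp

/-- key identity -/
theorem coeff_h_mul (k : ℕ) : ((k : ℝ) + 1) * coeff (k + 1) (hser α)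
    = ∑ j ∈ range (k + 1), (α (j + 1) - α j) * Tm α (k - j) := by
  have hK := M.hK
  rw [coeff_h_succ]
  have e1 := Tseq_succ (fun j => 1 - α j) k
  have e0 : (k : ℝ) * Tm α k = ∑ j ∈ range k, (1 - α (j + 1)) * Tm α (k - 1 - j) := by
    cases k with
    | zero => simp
    | succ k =>
      have := Tseq_succ (fun j => 1 - α j) k
      push_cast
      simpa [Tm] using this
  have e2 : ∑ j ∈ range (k + 1), (1 - α j) * Tm α (k - j)
      = Tm α k + ∑ j ∈ range k, (1 - α (j + 1)) * Tm α (k - 1 - j) := by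
    rw [Finset.sum_range_succ', add_comm]
    congr 1
    · simp [M.zero 0 (by omega)]
    · refine Finset.sum_congr rfl fun j _ => ?_
      congr 2
      omega
  have e3 : ((k : ℝ) + 1) * Tm α (k + 1)
      = ∑ j ∈ range (k + 1), (1 - α (j + 1)) * Tm α (k - j) := e1
  have e4 : ∑ j ∈ range (k + 1), (α (j + 1) - α j) * Tm α (k - j)
      = ∑ j ∈ range (k + 1), (1 - α j) * Tm α (k - j)
        - ∑ j ∈ range (k + 1), (1 - α (j + 1)) * Tm α (k - j) := by
    rw [← Finset.sum_sub_distrib]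
    refine Finset.sum_congr rfl fun j _ => ?_
    ring
  rw [e4, e2, ← e3, ← e0]
  ring

theorem h_nonneg : CLE 0 (hser α) := by
  intro k
  rw [map_zero]
  cases k with
  | zero => rw [coeff_h_zero]
  | succ k =>
    have h := M.coeff_h_mul k
    have h2 : 0 ≤ ∑ j ∈ range (k + 1), (α (j + 1) - α j) * Tm α (k - j) :=
      Finset.sum_nonneg fun j _ => mul_nonneg (sub_nonneg.2 (M.mono (by omega)))
        (M.Tm_pos _).le
    rw [← h] at h2
    exact nonneg_of_mul_nonneg_right h2 (by positivity)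

theorem h_small {k : ℕ} (hk : k < K) : coeff k (hser α) = 0 := by
  cases k with
  | zero => exact coeff_h_zero
  | succ k =>
    have h := M.coeff_h_mul k
    have h2 : ∑ j ∈ range (k + 1), (α (j + 1) - α j) * Tm α (k - j) = 0 := by
      refine Finset.sum_eq_zero fun j hj => ?_
      rw [mem_range] at hj
      rw [M.zero _ (by omega), M.zero _ (by omega)]; ring
    rw [h2] at h
    rcases mul_eq_zero.1 h with h | h
    · exfalso
      have : (0 : ℝ) < (k : ℝ) + 1 := by positivity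
      linarith
    · exact h

theorem h_ge {k : ℕ} (hk : K ≤ k) : Tm α (k - K) / (2 * k) ≤ coeff k (hser α) := by
  have hK := M.hK
  obtain ⟨k, rfl⟩ : ∃ k', k = k' + 1 := ⟨k - 1, by omega⟩
  have h := M.coeff_h_mul k
  have h2 : (α (K - 1 + 1) - α (K - 1)) * Tm α (k - (K - 1))
      ≤ ∑ j ∈ range (k + 1), (α (j + 1) - α j) * Tm α (k - j) :=
    Finset.single_le_sum (f := fun j => (α (j + 1) - α j) * Tm α (k - j))
      (fun j _ => mul_nonneg (sub_nonneg.2 (M.mono (by omega))) (M.Tm_pos _).le)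
      (by simp; omega)
  rw [← h, M.zero (K - 1) (by omega), sub_zero, show K - 1 + 1 = K by omega] at h2
  have h3 : k + 1 - K = k - (K - 1) := by omega
  rw [h3, div_le_iff₀ (by positivity)]
  have h4 := M.half
  have h5 := M.Tm_pos (k - (K - 1))
  push_cast
  nlinarith

theorem h_pos {k : ℕ} (hk : K ≤ k) : 0 < coeff k (hser α) := by
  have hK := M.hK
  refine lt_of_lt_of_le ?_ (M.h_ge hk)
  have := M.Tm_pos (k - K)
  have : (0 : ℝ) < k := by exact_mod_cast (by omega : 0 < k)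
  positivity

/-- polynomial lower bound -/
theorem h_lower {k : ℕ} (hk : K ≤ k) (hk4 : k < 4 * K) (hK4 : 4 ≤ K) :
    1 / (4 * (K : ℝ)) ^ 7 ≤ coeff k (hser α) := by
  refine le_trans ?_ (M.h_ge hk)
  have h1 := M.Tm_lower (k - K) (by omega)
  have hk0 : (0 : ℝ) < k := by exact_mod_cast (by omega : 0 < k)
  have hK0 : (4 : ℝ) ≤ K := by exact_mod_cast hK4
  rw [le_div_iff₀ (by positivity)]
  refine le_trans ?_ h1
  rw [div_mul_eq_mul_div, one_mul, div_le_div_iff₀ (by positivity) (by positivity), one_mul]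
  have hk' : (k : ℝ) ≤ 4 * K := by exact_mod_cast hk4.le
  have e : (4 * (K:ℝ)) ^ 7 = (4 * K) ^ 5 * (4 * K) ^ 2 := by ring
  rw [e, mul_comm]
  refine mul_le_mul_of_nonneg_left ?_ (by positivity)
  nlinarith

/-- the logarithmic derivative of `1 - h` -/
theorem LD_h : LD (PowerSeries.mk α) (1 - hser α) := by
  have hK := M.hK
  have e : (1 : PowerSeries ℝ) - hser α = (1 - X) * PowerSeries.mk (Tm α) := by rw [hser]; ring
  -- `(1 - X) T`
  have hT : X * derivative ℝ (PowerSeries.mk (Tm α)) = PowerSeries.mk (fun j => if j = 0 then 0 else 1 - α j)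
      * PowerSeries.mk (Tm α) := by
    ext k
    cases k with
    | zero => simp [coeff_mul]
    | succ k =>
      rw [coeff_succ_X_mul, coeff_derivative, coeff_mk, coeff_mul,
        Finset.Nat.sum_antidiagonal_eq_sum_range_succ_mk]
      have := Tseq_succ (fun j => 1 - α j) k
      rw [Finset.sum_range_succ']
      simp only [coeff_mk, Nat.succ_ne_zero, if_false, if_true, zero_mul, add_zero, Tm]
      rw [mul_comm, this]
      refine Finset.sum_congr rfl fun j _ => ?_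
      congr 2
      omega
  have hA : (PowerSeries.mk α : PowerSeries ℝ) * (1 - X) = X - (1 - X) *
      PowerSeries.mk (fun j => if j = 0 then 0 else 1 - α j) := by
    have h1 : (PowerSeries.mk α : PowerSeries ℝ) + PowerSeries.mk (fun j => if j = 0 then 0 else 1 - α j)
        = PowerSeries.mk (fun j => if j = 0 then 0 else 1) := by
      ext k
      rw [map_add, coeff_mk, coeff_mk, coeff_mk]
      split_ifs with h
      · subst h; rw [M.zero 0 (by omega)]; ring
      · ring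
    have h2 : (PowerSeries.mk (fun j => if j = 0 then (0:ℝ) else 1)) * (1 - X) = X := by
      ext k
      rw [mul_sub, mul_one, map_sub, coeff_mk]
      cases k with
      | zero => simp
      | succ k =>
        rw [coeff_succ_mul_X, coeff_mk]
        cases k with
        | zero => simp
        | succ k => simp [coeff_X]
    linear_combination h2 + (1 - X) * h1
  unfold LD
  rw [e, Derivation.leibniz, smul_eq_mul, smul_eq_mul]
  have h3 : derivative ℝ (1 - X : PowerSeries ℝ) = -1 := by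
    rw [map_sub]
    have : derivative ℝ (X : PowerSeries ℝ) = 1 := by
      simp
    rw [this]; simp
  rw [h3]
  linear_combination (1 - X) * hT + PowerSeries.mk (Tm α) * hA

end Model

end Pool.Agent.Lib.MP_49224a_al
end

section

/-!
# Perturbation of the model series and regularity of renewal sequences
-/

set_option autoImplicit false

namespace Pool.Agent.Lib.MP_49224a_al

open PowerSeries Finset

/-- bound on a series with small logarithmic derivative -/
theorem pert_bound {η : ℕ → ℝ} {E : PowerSeries ℝ} (hE : LD (PowerSeries.mk η) E)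
    (hE0 : coeff 0 E = 1) {m : ℕ} (hm : 1 ≤ m) (hη : ∀ k, k < m → η k = 0) {τ : ℝ} (hτ : 0 < τ)
    (hsum : ∀ n, ∑ j ∈ range n, |η j| * (τ⁻¹) ^ j ≤ 1) :
    (∀ k, |coeff k E| ≤ τ ^ k) ∧ ∀ k, 1 ≤ k → k < m → coeff k E = 0 := by
  constructor
  · intro k
    induction k using Nat.strong_induction_on with
    | _ k ih =>
      rcases Nat.eq_zero_or_pos k with rfl | hk
      · rw [hE0]; simp
      · have h := hE.coeff k
        have hb : |∑ p ∈ antidiagonal k, coeff p.1 (PowerSeries.mk η) * coeff p.2 E|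
            ≤ τ ^ k := by
          calc _ ≤ ∑ p ∈ antidiagonal k, |coeff p.1 (PowerSeries.mk η) * coeff p.2 E| :=
                Finset.abs_sum_le_sum_abs _ _
            _ ≤ ∑ p ∈ antidiagonal k, τ ^ k * (|η p.1| * (τ⁻¹) ^ p.1) := by
                refine Finset.sum_le_sum fun p hp => ?_
                rw [HasAntidiagonal.mem_antidiagonal] at hp
                rw [coeff_mk, abs_mul]
                rcases Nat.eq_zero_or_pos p.1 with h0 | h0
                · rw [h0, hη 0 (by omega)]; simp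
                · have h1 := ih p.2 (by omega)
                  have h2 : τ ^ k * (|η p.1| * (τ⁻¹) ^ p.1) = |η p.1| * τ ^ p.2 := by
                    rw [← hp, pow_add, inv_pow]
                    field_simp
                  rw [h2]
                  exact mul_le_mul_of_nonneg_left h1 (abs_nonneg _)
            _ = τ ^ k * ∑ j ∈ range (k + 1), |η j| * (τ⁻¹) ^ j := by
                rw [← Finset.mul_sum, Finset.Nat.sum_antidiagonal_eq_sum_range_succ_mk]
            _ ≤ τ ^ k * 1 := mul_le_mul_of_nonneg_left (hsum _) (by positivity)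
            _ = τ ^ k := mul_one _
        have h3 : (k : ℝ) * |coeff k E| ≤ τ ^ k := by
          rw [← abs_of_nonneg (by positivity : (0 : ℝ) ≤ k), ← abs_mul, h, abs_neg]
          exact hb
        have hk1 : (1 : ℝ) ≤ k := by exact_mod_cast hk
        nlinarith [abs_nonneg (coeff k E)]
  · intro k hk hkm
    have h := hE.coeff k
    have hz : ∑ p ∈ antidiagonal k, coeff p.1 (PowerSeries.mk η) * coeff p.2 E = 0 := by
      refine Finset.sum_eq_zero fun p hp => ?_
      rw [HasAntidiagonal.mem_antidiagonal] at hp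
      rw [coeff_mk, hη _ (by omega), zero_mul]
    rw [hz, neg_zero] at h
    rcases mul_eq_zero.1 h with h | h
    · exfalso
      have : (0 : ℝ) < k := by exact_mod_cast hk
      linarith
    · exact h

/-- regularity: `q_{k+l} ≥ μ^l q_k` for `l ≥ a` -/
def Reg (a : ℕ) (μ : ℝ) (q : PowerSeries ℝ) : Prop :=
  ∀ l, a ≤ l → ∀ k, μ ^ l * coeff k q ≤ coeff (k + l) q

theorem renew_coeff {x q : PowerSeries ℝ} (hq : q * (1 - x) = 1) (hx0 : coeff 0 x = 0) :
    coeff 0 q = 1 ∧ ∀ k, 1 ≤ k → coeff k q = coeff k (x * q) := by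
  have e : q = 1 + x * q := by linear_combination hq
  constructor
  · rw [e, map_add, coeff_zero_mul]
    simp [hx0]
  · intro k hk
    conv_lhs => rw [e]
    rw [map_add, coeff_one]
    simp; omega
where
  coeff_zero_mul : coeff 0 (x * q) = coeff 0 x * coeff 0 q := by
    simp

theorem renew_nonneg {x q : PowerSeries ℝ} (hq : q * (1 - x) = 1) (hx0 : coeff 0 x = 0)
    (hx : CLE 0 x) : CLE 0 q := by
  obtain ⟨h0, h1⟩ := renew_coeff hq hx0
  intro k
  rw [map_zero]
  induction k using Nat.strong_induction_on with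
  | _ k ih =>
    rcases Nat.eq_zero_or_pos k with rfl | hk
    · rw [h0]; exact zero_le_one
    · rw [h1 k hk, coeff_mul]
      refine Finset.sum_nonneg fun p hp => ?_
      rw [HasAntidiagonal.mem_antidiagonal] at hp
      rcases Nat.eq_zero_or_pos p.1 with h2 | h2
      · rw [h2, hx0, zero_mul]
      · have := hx p.1
        rw [map_zero] at this
        exact mul_nonneg this (ih p.2 (by omega))

theorem renew_ge {x q : PowerSeries ℝ} (hq : q * (1 - x) = 1) (hx0 : coeff 0 x = 0)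
    (hx : CLE 0 x) (l k : ℕ) (hl : 1 ≤ l) : coeff l x * coeff k q ≤ coeff (k + l) q := by
  obtain ⟨h0, h1⟩ := renew_coeff hq hx0
  rw [h1 (k + l) (by omega), add_comm k l]
  exact coeff_mul_ge hx (renew_nonneg hq hx0 hx) l k

theorem renew_reg {x q : PowerSeries ℝ} (hq : q * (1 - x) = 1) (hx0 : coeff 0 x = 0)
    (hx : CLE 0 x) {a : ℕ} (ha : 1 ≤ a) {μ : ℝ} (hμ : 0 < μ)
    (hxa : ∀ j, a ≤ j → j < 2 * a → μ ^ j ≤ coeff j x) : Reg a μ q := by
  intro l
  have hq0 := renew_nonneg hq hx0 hx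
  induction l using Nat.strong_induction_on with
  | _ l ih =>
    intro hl k
    have hqk : 0 ≤ coeff k q := by have := hq0 k; rwa [map_zero] at this
    by_cases h2 : l < 2 * a
    · refine le_trans ?_ (renew_ge hq hx0 hx l k (by omega))
      exact mul_le_mul_of_nonneg_right (hxa l hl h2) hqk
    · have h3 := ih (l - a) (by omega) (by omega) k
      have h4 := renew_ge hq hx0 hx a (k + (l - a)) ha
      have h5 : k + (l - a) + a = k + l := by omega
      rw [h5] at h4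
      refine le_trans ?_ h4
      have h6 : μ ^ l = μ ^ a * μ ^ (l - a) := by rw [← pow_add]; congr 1; omega
      rw [h6, mul_assoc]
      have h7 := hxa a le_rfl (by omega)
      have h8 : 0 ≤ μ ^ (l - a) * coeff k q := by positivity
      calc μ ^ a * (μ ^ (l - a) * coeff k q) ≤ coeff a x * (μ ^ (l - a) * coeff k q) :=
            mul_le_mul_of_nonneg_right h7 h8
        _ ≤ _ := mul_le_mul_of_nonneg_left h3 (le_trans (by positivity) h7)

/-- convolution with a geometrically small series supported in high degrees -/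
theorem reg_bound {q Ψ : PowerSeries ℝ} {a j m : ℕ} {μ τ A : ℝ} (hreg : Reg a μ q)
    (hq : CLE 0 q) (hμ : 0 < μ) (hτ : 0 < τ) (hτμ : τ < μ) (hA : 0 ≤ A) (hm : a + j ≤ m)
    (h1 : ∀ l, coeff l Ψ ≤ A * τ ^ l) (h0 : ∀ l, l < m → coeff l Ψ ≤ 0) :
    CLE (Ψ * q) (C (A * μ ^ j * (τ / μ) ^ m / (1 - τ / μ)) * (X ^ j * q)) := by
  have hr1 : τ / μ < 1 := (div_lt_one hμ).2 hτμ
  have hr0 : 0 < τ / μ := div_pos hτ hμ
  have hqk : ∀ k, 0 ≤ coeff k q := fun k => by have := hq k; rwa [map_zero] at this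
  intro k
  rw [coeff_C_mul, coeff_X_pow_mul']
  rw [coeff_mul]
  by_cases hk : k < m
  · have hL : ∑ p ∈ antidiagonal k, coeff p.1 Ψ * coeff p.2 q ≤ 0 := by
      refine Finset.sum_nonpos fun p hp => ?_
      rw [HasAntidiagonal.mem_antidiagonal] at hp
      exact mul_nonpos_of_nonpos_of_nonneg (h0 _ (by omega)) (hqk _)
    refine hL.trans ?_
    have hpos : 0 ≤ A * μ ^ j * (τ / μ) ^ m / (1 - τ / μ) :=
      div_nonneg (by positivity) (by linarith)
    split_ifs
    · exact mul_nonneg hpos (hqk _)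
    · simp
  · push Not at hk
    rw [if_pos (by omega)]
    -- each term
    have hterm : ∀ p ∈ antidiagonal k, coeff p.1 Ψ * coeff p.2 q
        ≤ if m ≤ p.1 then A * μ ^ j * (τ / μ) ^ p.1 * coeff (k - j) q else 0 := by
      intro p hp
      rw [HasAntidiagonal.mem_antidiagonal] at hp
      split_ifs with hpm
      · have hr := hreg (p.1 - j) (by omega) p.2
        have e1 : p.2 + (p.1 - j) = k - j := by omega
        rw [e1] at hr
        have e2 : μ ^ p.1 = μ ^ (p.1 - j) * μ ^ j := by rw [← pow_add]; congr 1; omega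
        have h3 : coeff p.1 Ψ * coeff p.2 q ≤ A * τ ^ p.1 * coeff p.2 q :=
          mul_le_mul_of_nonneg_right (h1 _) (hqk _)
        refine h3.trans ?_
        have e3 : A * μ ^ j * (τ / μ) ^ p.1 * coeff (k - j) q
            = A * τ ^ p.1 * (coeff (k - j) q / μ ^ (p.1 - j)) := by
          rw [div_pow, e2]; field_simp
        rw [e3]
        refine mul_le_mul_of_nonneg_left ?_ (by positivity)
        rw [le_div_iff₀ (by positivity), mul_comm]
        exact hr
      · exact mul_nonpos_of_nonpos_of_nonneg (h0 _ (by omega)) (hqk _)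
    refine (Finset.sum_le_sum hterm).trans ?_
    rw [Finset.Nat.sum_antidiagonal_eq_sum_range_succ_mk]
    simp only
    rw [← Finset.sum_filter, ← Finset.sum_mul]
    refine mul_le_mul_of_nonneg_right ?_ (hqk _)
    rw [← Finset.mul_sum]
    have hgeo : ∑ i ∈ (range (k + 1)).filter (fun i => m ≤ i), (τ / μ) ^ i
        ≤ (τ / μ) ^ m / (1 - τ / μ) := by
      have hs : Summable fun i : ℕ => (τ / μ) ^ (i + m) := by
        simp_rw [pow_add]
        exact (summable_geometric_of_lt_one hr0.le hr1).mul_right _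
      calc ∑ i ∈ (range (k + 1)).filter (fun i => m ≤ i), (τ / μ) ^ i
          = ∑ i ∈ range (k + 1 - m), (τ / μ) ^ (i + m) := by
            refine Finset.sum_bij' (fun i _ => i - m) (fun i _ => i + m) ?_ ?_ ?_ ?_ ?_
            · intro i hi; simp only [mem_filter, mem_range] at hi ⊢; omega
            · intro i hi; simp only [mem_filter, mem_range] at hi ⊢; omega
            · intro i hi; simp only [mem_filter, mem_range] at hi ⊢; omega
            · intro i hi; simp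
            · intro i hi
              simp only [mem_filter, mem_range] at hi
              congr 1; omega
        _ ≤ ∑' i : ℕ, (τ / μ) ^ (i + m) := hs.sum_le_tsum _ (fun i _ => by positivity)
        _ = (τ / μ) ^ m / (1 - τ / μ) := by
            simp_rw [pow_add]
            rw [tsum_mul_right, tsum_geometric_of_lt_one hr0.le hr1]
            field_simp
    calc _ ≤ A * μ ^ j * ((τ / μ) ^ m / (1 - τ / μ)) :=
          mul_le_mul_of_nonneg_left hgeo (by positivity)
      _ = _ := by ring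

end Pool.Agent.Lib.MP_49224a_al
end

section

/-!
# The two column estimates
-/

set_option autoImplicit false

namespace Pool.Agent.Lib.MP_49224a_al

open PowerSeries Finset

theorem CLE.of_absS {φ Θ : PowerSeries ℝ} (h : CLE (absS φ) Θ) : CLE φ Θ ∧ CLE (-φ) Θ :=
  ⟨(le_absS φ).trans h, by
    have := (neg_absS_le φ).neg
    rw [neg_neg] at this
    exact this.trans h⟩

/-- the column containing the diagonal factor -/
theorem col_e {h ε Θ q x Δ : PowerSeries ℝ} {K : ℕ} {ν M δ₁ δ₂ δ₃ : ℝ}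
    (hh : CLE 0 h) (hq : CLE 0 q) (hε : CLE (absS ε) Θ)
    (hν : 0 ≤ ν)
    (F1 : CLE (Θ * q) (C δ₁ * (h * q))) (F2 : CLE (h * (Θ * q)) (C δ₂ * (h * q)))
    (F3 : CLE (X ^ K * (h * q)) (C M * (h * q))) (F4 : CLE x (C (1 / 4) * h))
    (F5 : CLE (absS Δ * q) (C δ₃ * (h * q)))
    (hδ₁ : δ₁ ≤ 1 / 16) (hδ₂ : δ₂ ≤ 1 / 16) (hδ₃ : δ₃ ≤ 1 / 16) (hM : ν * M ≤ 1 / 16) :
    CLE (C (1 / 4) * (h * q)) (((h + ε - h * ε) * (1 - C ν * X ^ K) - x - Δ) * q) := by
  have hX : CLE 0 (X ^ K : PowerSeries ℝ) := CLE.X_pow_nonneg K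
  obtain ⟨e1, e2⟩ := CLE.of_absS hε
  -- coefficientwise
  have A1 : CLE (-ε * q) (C δ₁ * (h * q)) := (CLE.mul_right hq e2).trans F1
  have A2 : CLE (h * (ε * q)) (C δ₂ * (h * q)) :=
    (CLE.mul_left hh (CLE.mul_right hq e1)).trans F2
  have A3 : CLE (X ^ K * (ε * q)) (C δ₁ * (X ^ K * (h * q))) := by
    have := CLE.mul_left hX ((CLE.mul_right hq e1).trans F1)
    convert this using 1; ring
  have A4 : CLE (X ^ K * (h * (-ε * q))) (C δ₂ * (X ^ K * (h * q))) := by
    have := CLE.mul_left hX ((CLE.mul_left hh (CLE.mul_right hq e2)).trans F2)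
    convert this using 1; ring
  have A5 : CLE (x * q) (C (1 / 4) * (h * q)) := by
    have := CLE.mul_right hq F4
    convert this using 1; ring
  have A6 : CLE (Δ * q) (C δ₃ * (h * q)) := (CLE.mul_right hq (le_absS Δ)).trans F5
  intro k
  have hy : 0 ≤ coeff k (h * q) := by
    have := CLE.mul_nonneg hh hq k; rwa [map_zero] at this
  have hz : 0 ≤ coeff k (X ^ K * (h * q)) := by
    have := CLE.mul_nonneg hX (CLE.mul_nonneg hh hq) k; rwa [map_zero] at this
  have a1 := A1 k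
  have a2 := A2 k
  have a3 := A3 k
  have a4 := A4 k
  have a5 := A5 k
  have a6 := A6 k
  have f3 := F3 k
  have e : ((h + ε - h * ε) * (1 - C ν * X ^ K) - x - Δ) * q
      = h * q - (-ε * q) - h * (ε * q) - C ν * (X ^ K * (h * q)) - C ν * (X ^ K * (ε * q))
        - C ν * (X ^ K * (h * (-ε * q))) - x * q - Δ * q := by ring
  rw [e]
  simp only [map_sub, coeff_C_mul] at *
  set y := coeff k (h * q)
  set z := coeff k (X ^ K * (h * q))
  have b3 : ν * coeff k (X ^ K * (ε * q)) ≤ ν * (δ₁ * z) := mul_le_mul_of_nonneg_left a3 hν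
  have b4 : ν * coeff k (X ^ K * (h * (-ε * q))) ≤ ν * (δ₂ * z) :=
    mul_le_mul_of_nonneg_left a4 hν
  have bz : ν * z ≤ 1 / 16 * y := by
    calc ν * z ≤ ν * (M * y) := mul_le_mul_of_nonneg_left f3 hν
      _ = (ν * M) * y := by ring
      _ ≤ 1 / 16 * y := mul_le_mul_of_nonneg_right hM hy
  have hνz : 0 ≤ ν * z := mul_nonneg hν hz
  have c3 : ν * (δ₁ * z) ≤ 1 / 16 * (1 / 16 * y) := by
    calc ν * (δ₁ * z) = δ₁ * (ν * z) := by ring
      _ ≤ 1 / 16 * (ν * z) := mul_le_mul_of_nonneg_right hδ₁ hνz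
      _ ≤ _ := mul_le_mul_of_nonneg_left bz (by norm_num)
  have c4 : ν * (δ₂ * z) ≤ 1 / 16 * (1 / 16 * y) := by
    calc ν * (δ₂ * z) = δ₂ * (ν * z) := by ring
      _ ≤ 1 / 16 * (ν * z) := mul_le_mul_of_nonneg_right hδ₂ hνz
      _ ≤ _ := mul_le_mul_of_nonneg_left bz (by norm_num)
  have d1 : δ₁ * y ≤ 1 / 16 * y := mul_le_mul_of_nonneg_right hδ₁ hy
  have d2 : δ₂ * y ≤ 1 / 16 * y := mul_le_mul_of_nonneg_right hδ₂ hy
  have d3 : δ₃ * y ≤ 1 / 16 * y := mul_le_mul_of_nonneg_right hδ₃ hy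
  linarith

/-- the other columns -/
theorem col_a {h ε Θ q y Δ : PowerSeries ℝ} {K : ℕ} {ν δ₁ δ₂ δ₃ : ℝ}
    (hh : CLE 0 h) (hq : CLE 0 q) (hε : CLE (absS ε) Θ)
    (hν : 0 ≤ ν)
    (F1 : CLE (Θ * q) (C δ₁ * (h * q))) (F2 : CLE (h * (Θ * q)) (C δ₂ * (h * q)))
    (F4 : CLE y (C (ν / 4) * (X ^ K * h)))
    (F5 : CLE (absS Δ * q) (C (δ₃ * ν) * (X ^ K * (h * q))))
    (hδ₁ : δ₁ ≤ 1 / 16) (hδ₂ : δ₂ ≤ 1 / 16) (hδ₃ : δ₃ ≤ 1 / 16) :
    CLE (C (ν / 4) * (X ^ K * (h * q)))
      (((h + ε - h * ε) * (C ν * X ^ K) - y - Δ) * q) := by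
  have hX : CLE 0 (X ^ K : PowerSeries ℝ) := CLE.X_pow_nonneg K
  obtain ⟨e1, e2⟩ := CLE.of_absS hε
  have A1 : CLE (X ^ K * (-ε * q)) (C δ₁ * (X ^ K * (h * q))) := by
    have := CLE.mul_left hX ((CLE.mul_right hq e2).trans F1)
    convert this using 1; ring
  have A2 : CLE (X ^ K * (h * (ε * q))) (C δ₂ * (X ^ K * (h * q))) := by
    have := CLE.mul_left hX ((CLE.mul_left hh (CLE.mul_right hq e1)).trans F2)
    convert this using 1; ring
  have A5 : CLE (y * q) (C (ν / 4) * (X ^ K * (h * q))) := by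
    have := CLE.mul_right hq F4
    convert this using 1; ring
  have A6 : CLE (Δ * q) (C (δ₃ * ν) * (X ^ K * (h * q))) :=
    (CLE.mul_right hq (le_absS Δ)).trans F5
  intro k
  have hz : 0 ≤ coeff k (X ^ K * (h * q)) := by
    have := CLE.mul_nonneg hX (CLE.mul_nonneg hh hq) k; rwa [map_zero] at this
  have a1 := A1 k
  have a2 := A2 k
  have a5 := A5 k
  have a6 := A6 k
  have e : ((h + ε - h * ε) * (C ν * X ^ K) - y - Δ) * q
      = C ν * (X ^ K * (h * q)) - C ν * (X ^ K * (-ε * q)) - C ν * (X ^ K * (h * (ε * q)))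
        - y * q - Δ * q := by ring
  rw [e]
  simp only [map_sub, coeff_C_mul] at *
  set z := coeff k (X ^ K * (h * q))
  have b1 : ν * coeff k (X ^ K * (-ε * q)) ≤ ν * (δ₁ * z) := mul_le_mul_of_nonneg_left a1 hν
  have b2 : ν * coeff k (X ^ K * (h * (ε * q))) ≤ ν * (δ₂ * z) :=
    mul_le_mul_of_nonneg_left a2 hν
  have hνz : 0 ≤ ν * z := mul_nonneg hν hz
  have c1 : ν * (δ₁ * z) ≤ 1 / 16 * (ν * z) := by
    calc ν * (δ₁ * z) = δ₁ * (ν * z) := by ring
      _ ≤ _ := mul_le_mul_of_nonneg_right hδ₁ hνz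
  have c2 : ν * (δ₂ * z) ≤ 1 / 16 * (ν * z) := by
    calc ν * (δ₂ * z) = δ₂ * (ν * z) := by ring
      _ ≤ _ := mul_le_mul_of_nonneg_right hδ₂ hνz
  have c3 : δ₃ * ν * z ≤ 1 / 16 * (ν * z) := by
    calc δ₃ * ν * z = δ₃ * (ν * z) := by ring
      _ ≤ _ := mul_le_mul_of_nonneg_right hδ₃ hνz
  have c4 : ν / 4 * z = 1 / 4 * (ν * z) := by ring
  linarith

end Pool.Agent.Lib.MP_49224a_al
end

section

/-!
# The two column estimates, with concrete hypotheses
-/

set_option autoImplicit false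

namespace Pool.Agent.Lib.MP_49224a_al

open PowerSeries Finset

/-- the majorant of the perturbation -/
noncomputable def Thet (τ : ℝ) (m : ℕ) : PowerSeries ℝ :=
  PowerSeries.mk fun k => if m ≤ k then τ ^ k else 0

theorem Thet_nonneg {τ : ℝ} (hτ : 0 ≤ τ) (m : ℕ) : CLE 0 (Thet τ m) := fun k => by
  rw [map_zero, Thet, coeff_mk]; split_ifs <;> positivity

theorem C_mul_C_mul (a b : ℝ) (φ : PowerSeries ℝ) : C a * (C b * φ) = C (a * b) * φ := by
  rw [map_mul, mul_assoc]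

section

variable {K : ℕ} {α : ℕ → ℝ}

theorem Xpow_le_h (M : Model K α) {κ : ℝ} (hκ : κ ≤ coeff K (hser α)) :
    CLE (C κ * X ^ K) (hser α) := fun k => by
  rw [coeff_C_mul, coeff_X_pow]
  split_ifs with h
  · subst h; simpa using hκ
  · rw [mul_zero]; have := M.h_nonneg k; rwa [map_zero] at this

/-- the common part: bounds for `Θ q` -/
theorem theta_bounds (M : Model K α) {κ μ τ : ℝ} {q : PowerSeries ℝ}
    (hκ0 : 0 < κ) (hκ : κ ≤ coeff K (hser α)) (hq : CLE 0 q) (hreg : Reg K μ q)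
    (hμ : 0 < μ) (hμ1 : μ ≤ 1) (hτ : 0 < τ) (hτμ : τ < μ)
    (hN : (τ / μ) ^ (2 * K) / (1 - τ / μ) ≤ κ / 32) (hκ1 : κ ≤ 1) :
    CLE (Thet τ (2 * K) * q) (C (1 / 16) * (hser α * q)) ∧
    CLE (hser α * (Thet τ (2 * K) * q)) (C (1 / 16) * (hser α * q)) := by
  have hh := M.h_nonneg
  have hr1 : τ / μ < 1 := (div_lt_one hμ).2 hτμ
  have hbd : ∀ l, coeff l (Thet τ (2 * K)) ≤ 1 * τ ^ l := fun l => by
    rw [Thet, coeff_mk]; split_ifs
    · simp
    · positivity
  have hz : ∀ l, l < 2 * K → coeff l (Thet τ (2 * K)) ≤ 0 := fun l hl => by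
    rw [Thet, coeff_mk, if_neg (by omega)]
  have hnn : 0 ≤ (τ / μ) ^ (2 * K) / (1 - τ / μ) :=
    div_nonneg (by positivity) (by linarith)
  constructor
  · have h1 := reg_bound hreg hq hμ hτ hτμ zero_le_one (j := K) (m := 2 * K) (by omega) hbd hz
    have hc : 1 * μ ^ K * (τ / μ) ^ (2 * K) / (1 - τ / μ) ≤ κ / 32 := by
      have : 1 * μ ^ K * (τ / μ) ^ (2 * K) / (1 - τ / μ)
          = μ ^ K * ((τ / μ) ^ (2 * K) / (1 - τ / μ)) := by ring
      rw [this]
      calc μ ^ K * ((τ / μ) ^ (2 * K) / (1 - τ / μ))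
          ≤ 1 * ((τ / μ) ^ (2 * K) / (1 - τ / μ)) :=
            mul_le_mul_of_nonneg_right (pow_le_one₀ hμ.le hμ1) hnn
        _ ≤ _ := by rw [one_mul]; exact hN
    have h2 : CLE (C (κ / 32) * (X ^ K * q)) (C (1 / 32) * (hser α * q)) := by
      have := CLE.C_mul (c := 1 / 32) (by norm_num) (CLE.mul_right hq (Xpow_le_h M hκ))
      have e : C (κ / 32) * (X ^ K * q) = C (1 / 32) * (C κ * X ^ K * q) := by
        rw [show κ / 32 = 1 / 32 * κ by ring, map_mul]; ring
      rw [e]; exact this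
    refine h1.trans ((CLE.C_mul_mono hc (CLE.mul_nonneg (CLE.X_pow_nonneg K) hq)).trans
      (h2.trans (CLE.C_mul_mono (by norm_num) (CLE.mul_nonneg hh hq))))
  · have h1 := reg_bound hreg hq hμ hτ hτμ zero_le_one (j := 0) (m := 2 * K) (by omega) hbd hz
    have hc : 1 * μ ^ 0 * (τ / μ) ^ (2 * K) / (1 - τ / μ) ≤ 1 / 16 := by
      have : 1 * μ ^ 0 * (τ / μ) ^ (2 * K) / (1 - τ / μ)
          = ((τ / μ) ^ (2 * K) / (1 - τ / μ)) := by ring
      rw [this]; linarith
    have h2 : CLE (Thet τ (2 * K) * q) (C (1 / 16) * q) := by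
      refine h1.trans ?_
      rw [show (X ^ 0 : PowerSeries ℝ) * q = q by rw [pow_zero, one_mul]]
      exact CLE.C_mul_mono hc hq
    have h3 := CLE.mul_left hh h2
    convert h3 using 1; ring

theorem pert_le {q Δ : PowerSeries ℝ} {a j m : ℕ} {μ τ A B : ℝ} (hreg : Reg a μ q)
    (hq : CLE 0 q) (hμ : 0 < μ) (hμ1 : μ ≤ 1) (hτ : 0 < τ) (hτμ : τ < μ) (hA : 0 ≤ A)
    (hm : a + j ≤ m)
    (h1 : ∀ l, |coeff l Δ| ≤ A * τ ^ l) (h0 : ∀ l, l < m → coeff l Δ = 0)
    (hB : A / (1 - τ / μ) ≤ B) :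
    CLE (absS Δ * q) (C B * (X ^ j * q)) := by
  have hr1 : τ / μ < 1 := (div_lt_one hμ).2 hτμ
  have h := reg_bound hreg hq hμ hτ hτμ hA (j := j) (m := m) (Ψ := absS Δ) hm
    (fun l => by rw [absS, coeff_mk]; exact h1 l)
    (fun l hl => by rw [absS, coeff_mk, h0 l hl, abs_zero])
  refine h.trans (CLE.C_mul_mono ?_ (CLE.mul_nonneg (CLE.X_pow_nonneg j) hq))
  refine le_trans ?_ hB
  have e : A * μ ^ j * (τ / μ) ^ m / (1 - τ / μ) = (A / (1 - τ / μ)) * (μ ^ j * (τ / μ) ^ m) := by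
    ring
  rw [e]
  have hA' : 0 ≤ A / (1 - τ / μ) := div_nonneg hA (by linarith)
  calc (A / (1 - τ / μ)) * (μ ^ j * (τ / μ) ^ m) ≤ (A / (1 - τ / μ)) * (1 * 1) := by
        refine mul_le_mul_of_nonneg_left ?_ hA'
        exact mul_le_mul (pow_le_one₀ hμ.le hμ1) (pow_le_one₀ (by positivity) hr1.le)
          (by positivity) zero_le_one
    _ = _ := by ring

/-- column `e` -/
theorem column_e (M : Model K α) {κ μ τ τ' A ν : ℝ} {ε x q Δ : PowerSeries ℝ} {m : ℕ}
    (hκ0 : 0 < κ) (hκ1 : κ ≤ 1) (hκ : κ ≤ coeff K (hser α))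
    (hμ : 0 < μ) (hμ1 : μ ≤ 1) (hτ : 0 < τ) (hτμ : τ < μ) (hτ' : 0 < τ') (hτμ' : τ' < μ)
    (hN : (τ / μ) ^ (2 * K) / (1 - τ / μ) ≤ κ / 32)
    (hε1 : ∀ k, |coeff k ε| ≤ τ ^ k) (hε0 : ∀ k, k < 2 * K → coeff k ε = 0)
    (hx : CLE 0 x) (hx4 : CLE x (C (1 / 4) * hser α))
    (hxκ : ∀ j, K ≤ j → j < 2 * K → κ / 8 ≤ coeff j x) (hμK : μ ^ K ≤ κ / 8)
    (hq : q * (1 - x) = 1)
    (hν0 : 0 ≤ ν) (hν : ν ≤ κ / 128)
    (hA : 0 ≤ A) (hA2 : A / (1 - τ' / μ) ≤ κ / 16) (hm : 2 * K ≤ m)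
    (hΔ1 : ∀ k, |coeff k Δ| ≤ A * τ' ^ k) (hΔ0 : ∀ k, k < m → coeff k Δ = 0) :
    CLE (C (1 / 4) * (hser α * q))
      (((hser α + ε - hser α * ε) * (1 - C ν * X ^ K) - x - Δ) * q) := by
  have hK := M.hK
  have hh := M.h_nonneg
  have hx0 : coeff 0 x = 0 := by
    refine le_antisymm ?_ (by have := hx 0; rwa [map_zero] at this)
    have := hx4 0
    rw [coeff_C_mul, M.h_small (by omega), mul_zero] at this
    exact this
  have hq0 := renew_nonneg hq hx0 hx
  have hreg : Reg K μ q := renew_reg hq hx0 hx (by omega) hμ (fun j h1 h2 => by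
    refine le_trans ?_ (hxκ j h1 h2)
    exact (pow_le_pow_of_le_one hμ.le hμ1 h1).trans hμK)
  obtain ⟨F1, F2⟩ := theta_bounds M hκ0 hκ hq0 hreg hμ hμ1 hτ hτμ hN hκ1
  have hε : CLE (absS ε) (Thet τ (2 * K)) := fun k => by
    rw [absS, Thet, coeff_mk, coeff_mk]
    split_ifs with h
    · exact hε1 k
    · rw [hε0 k (by omega), abs_zero]
  have F3 : CLE (X ^ K * (hser α * q)) (C (8 / κ) * (hser α * q)) := by
    have h1 : CLE (X ^ K * q) (C (8 / κ) * q) := fun k => by
      rw [coeff_C_mul, coeff_X_pow_mul']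
      have hqk : 0 ≤ coeff k q := by have := hq0 k; rwa [map_zero] at this
      split_ifs with h
      · have h2 := renew_ge hq hx0 hx K (k - K) (by omega)
        rw [Nat.sub_add_cancel h] at h2
        have h3 := hxκ K le_rfl (by omega)
        have hqk' : 0 ≤ coeff (k - K) q := by have := hq0 (k - K); rwa [map_zero] at this
        have h4 : κ / 8 * coeff (k - K) q ≤ coeff k q :=
          (mul_le_mul_of_nonneg_right h3 hqk').trans h2
        have h5 : coeff (k - K) q = 8 / κ * (κ / 8 * coeff (k - K) q) := by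
          field_simp
        rw [h5]
        exact mul_le_mul_of_nonneg_left h4 (by positivity)
      · positivity
    have := CLE.mul_left hh h1
    convert this using 1 <;> ring
  have F5 : CLE (absS Δ * q) (C (1 / 16) * (hser α * q)) := by
    have h1 := pert_le hreg hq0 hμ hμ1 hτ' hτμ' hA (j := K) (m := m) (by omega) hΔ1 hΔ0 hA2
    refine h1.trans ?_
    have := CLE.C_mul (c := 1 / 16) (by norm_num) (CLE.mul_right hq0 (Xpow_le_h M hκ))
    have e : C (κ / 16) * (X ^ K * q) = C (1 / 16) * (C κ * X ^ K * q) := by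
      rw [show κ / 16 = 1 / 16 * κ by ring, map_mul]; ring
    rw [e]; exact this
  refine col_e hh hq0 hε hν0 F1 F2 F3 hx4 F5 le_rfl le_rfl le_rfl ?_
  calc ν * (8 / κ) ≤ κ / 128 * (8 / κ) := mul_le_mul_of_nonneg_right hν (by positivity)
    _ = 1 / 16 := by field_simp; norm_num

/-- the other columns -/
theorem column_a (M : Model K α) {κ μ τ τ' A ν : ℝ} {ε y q Δ : PowerSeries ℝ} {m : ℕ}
    (hκ0 : 0 < κ) (hκ1 : κ ≤ 1) (hκ : ∀ k, K ≤ k → k < 3 * K → κ ≤ coeff k (hser α))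
    (hμ : 0 < μ) (hμ1 : μ ≤ 1) (hτ : 0 < τ) (hτμ : τ < μ) (hτ' : 0 < τ') (hτμ' : τ' < μ)
    (hN : (τ / μ) ^ (2 * K) / (1 - τ / μ) ≤ κ / 32)
    (hε1 : ∀ k, |coeff k ε| ≤ τ ^ k) (hε0 : ∀ k, k < 2 * K → coeff k ε = 0)
    (hy : CLE 0 y) (hy4 : CLE y (C (ν / 4) * (X ^ K * hser α)))
    (hyκ : ∀ j, 2 * K ≤ j → j < 4 * K → ν * κ / 8 ≤ coeff j y) (hμK : μ ^ K ≤ ν * κ / 8)
    (hq : q * (1 - y) = 1)
    (hν0 : 0 ≤ ν)
    (hA : 0 ≤ A) (hA2 : A / (1 - τ' / μ) ≤ ν * κ / 16) (hm : 4 * K ≤ m)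
    (hΔ1 : ∀ k, |coeff k Δ| ≤ A * τ' ^ k) (hΔ0 : ∀ k, k < m → coeff k Δ = 0) :
    CLE (C (ν / 4) * (X ^ K * (hser α * q)))
      (((hser α + ε - hser α * ε) * (C ν * X ^ K) - y - Δ) * q) := by
  have hK := M.hK
  have hh := M.h_nonneg
  have hr1 : τ / μ < 1 := (div_lt_one hμ).2 hτμ
  have hr0 : 0 < τ / μ := div_pos hτ hμ
  have hy0 : coeff 0 y = 0 := by
    refine le_antisymm ?_ (by have := hy 0; rwa [map_zero] at this)
    have := hy4 0
    rw [coeff_C_mul, coeff_X_pow_mul', if_neg (by omega), mul_zero] at this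
    exact this
  have hq0 := renew_nonneg hq hy0 hy
  have hreg : Reg (2 * K) μ q := renew_reg hq hy0 hy (by omega) hμ (fun j h1 h2 => by
    refine le_trans ?_ (hyκ j h1 (by omega))
    exact (pow_le_pow_of_le_one hμ.le hμ1 (by omega)).trans hμK)
  have hε : CLE (absS ε) (Thet τ (2 * K)) := fun k => by
    rw [absS, Thet, coeff_mk, coeff_mk]
    split_ifs with h
    · exact hε1 k
    · rw [hε0 k (by omega), abs_zero]
  have hnn : 0 ≤ 1 / (1 - τ / μ) := div_nonneg zero_le_one (by linarith)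
  -- F2
  have hbd : ∀ l, coeff l (Thet τ (2 * K)) ≤ 1 * τ ^ l := fun l => by
    rw [Thet, coeff_mk]; split_ifs
    · simp
    · positivity
  have hz : ∀ l, l < 2 * K → coeff l (Thet τ (2 * K)) ≤ 0 := fun l hl => by
    rw [Thet, coeff_mk, if_neg (by omega)]
  have F2 : CLE (hser α * (Thet τ (2 * K) * q)) (C (1 / 16) * (hser α * q)) := by
    have h1 := reg_bound hreg hq0 hμ hτ hτμ zero_le_one (j := 0) (m := 2 * K) (by omega) hbd hz
    have hc : 1 * μ ^ 0 * (τ / μ) ^ (2 * K) / (1 - τ / μ) ≤ 1 / 16 := by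
      have : 1 * μ ^ 0 * (τ / μ) ^ (2 * K) / (1 - τ / μ)
          = ((τ / μ) ^ (2 * K) / (1 - τ / μ)) := by ring
      rw [this]; linarith
    have h2 : CLE (Thet τ (2 * K) * q) (C (1 / 16) * q) := by
      refine h1.trans ?_
      rw [show (X ^ 0 : PowerSeries ℝ) * q = q by rw [pow_zero, one_mul]]
      exact CLE.C_mul_mono hc hq0
    have h3 := CLE.mul_left hh h2
    convert h3 using 1; ring
  -- F1
  have hκK := hκ K le_rfl (by omega)
  have F1 : CLE (Thet τ (2 * K) * q) (C (1 / 16) * (hser α * q)) := by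
    have hsplit : CLE (Thet τ (2 * K)) (C (1 / 32) * hser α + Thet τ (3 * K)) := fun k => by
      rw [map_add, coeff_C_mul, Thet, Thet, coeff_mk, coeff_mk]
      have hk0 : 0 ≤ coeff k (hser α) := by have := hh k; rwa [map_zero] at this
      split_ifs with h1 h2 h2
      · linarith
      · rw [add_zero]
        have h3 := hκ k (by omega) (by omega)
        have h4 : τ ^ k ≤ κ / 32 := by
          have h5 : τ ^ k ≤ (τ / μ) ^ (2 * K) := by
            calc τ ^ k ≤ (τ / μ) ^ k := by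
                  refine pow_le_pow_left₀ hτ.le ?_ k
                  rw [le_div_iff₀ hμ]; nlinarith
              _ ≤ _ := pow_le_pow_of_le_one hr0.le hr1.le h1
          have h6 : (τ / μ) ^ (2 * K) ≤ (τ / μ) ^ (2 * K) / (1 - τ / μ) := by
            rw [le_div_iff₀ (by linarith)]
            have : 0 ≤ (τ / μ) ^ (2 * K) := by positivity
            nlinarith
          exact h5.trans (h6.trans hN)
        linarith
      · linarith [pow_pos hτ k]
      · linarith
    have h1 := CLE.mul_right hq0 hsplit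
    have hbd3 : ∀ l, coeff l (Thet τ (3 * K)) ≤ 1 * τ ^ l := fun l => by
      rw [Thet, coeff_mk]; split_ifs
      · simp
      · positivity
    have hz3 : ∀ l, l < 3 * K → coeff l (Thet τ (3 * K)) ≤ 0 := fun l hl => by
      rw [Thet, coeff_mk, if_neg (by omega)]
    have h2 := reg_bound hreg hq0 hμ hτ hτμ zero_le_one (j := K) (m := 3 * K) (by omega) hbd3 hz3
    have hc : 1 * μ ^ K * (τ / μ) ^ (3 * K) / (1 - τ / μ) ≤ κ / 32 := by
      have e : 1 * μ ^ K * (τ / μ) ^ (3 * K) / (1 - τ / μ)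
          = (μ ^ K * (τ / μ) ^ K) * ((τ / μ) ^ (2 * K) / (1 - τ / μ)) := by
        rw [show 3 * K = K + 2 * K by ring, pow_add]; ring
      rw [e]
      have h3 : 0 ≤ (τ / μ) ^ (2 * K) / (1 - τ / μ) := div_nonneg (by positivity) (by linarith)
      calc (μ ^ K * (τ / μ) ^ K) * ((τ / μ) ^ (2 * K) / (1 - τ / μ))
          ≤ (1 * 1) * ((τ / μ) ^ (2 * K) / (1 - τ / μ)) := by
            refine mul_le_mul_of_nonneg_right ?_ h3
            exact mul_le_mul (pow_le_one₀ hμ.le hμ1) (pow_le_one₀ hr0.le hr1.le)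
              (by positivity) zero_le_one
        _ ≤ _ := by rw [one_mul, one_mul]; exact hN
    have h3 : CLE (Thet τ (3 * K) * q) (C (1 / 32) * (hser α * q)) := by
      refine h2.trans ((CLE.C_mul_mono hc (CLE.mul_nonneg (CLE.X_pow_nonneg K) hq0)).trans ?_)
      have := CLE.C_mul (c := 1 / 32) (by norm_num) (CLE.mul_right hq0 (Xpow_le_h M hκK))
      have e : C (κ / 32) * (X ^ K * q) = C (1 / 32) * (C κ * X ^ K * q) := by
        rw [show κ / 32 = 1 / 32 * κ by ring, map_mul]; ring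
      rw [e]; exact this
    refine h1.trans ?_
    intro k
    have h4 := h3 k
    have e : (C (1 / 32) * hser α + Thet τ (3 * K)) * q
        = C (1 / 32) * (hser α * q) + Thet τ (3 * K) * q := by ring
    rw [e, map_add, coeff_C_mul, coeff_C_mul] at *
    linarith
  have F5 : CLE (absS Δ * q) (C (1 / 16 * ν) * (X ^ K * (hser α * q))) := by
    have h1 := pert_le hreg hq0 hμ hμ1 hτ' hτμ' hA (j := 2 * K) (m := m) (by omega) hΔ1 hΔ0 hA2
    refine h1.trans ?_
    have := CLE.C_mul (c := 1 / 16 * ν) (by positivity) (CLE.mul_left (CLE.X_pow_nonneg K)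
      (CLE.mul_right hq0 (Xpow_le_h M hκK)))
    have e : C (ν * κ / 16) * (X ^ (2 * K) * q) = C (1 / 16 * ν) * (X ^ K * (C κ * X ^ K * q)) := by
      rw [show ν * κ / 16 = 1 / 16 * ν * κ by ring, map_mul _ _ κ]; ring
    rw [e]; exact this
  exact col_a hh hq0 hε hν0 F1 F2 hy4 F5 le_rfl le_rfl le_rfl

end

end Pool.Agent.Lib.MP_49224a_al
end

section

/-!
# The target series
-/

set_option autoImplicit false

namespace Pool.Agent.Lib.MP_49224a_al

open PowerSeries Finset Filter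

theorem LD_rescale {A φ : PowerSeries ℝ} (h : LD A φ) (a : ℝ) :
    LD (PowerSeries.rescale a A) (PowerSeries.rescale a φ) := by
  refine LD.of_coeff fun k => ?_
  rw [coeff_rescale]
  have h1 := h.coeff k
  calc (k : ℝ) * (a ^ k * coeff k φ) = a ^ k * ((k : ℝ) * coeff k φ) := by ring
    _ = - ∑ p ∈ antidiagonal k, a ^ k * (coeff p.1 A * coeff p.2 φ) := by
        rw [h1, ← Finset.mul_sum]; ring
    _ = _ := by
        congr 1
        refine Finset.sum_congr rfl fun p hp => ?_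
        rw [HasAntidiagonal.mem_antidiagonal] at hp
        rw [coeff_rescale, coeff_rescale, ← hp, pow_add]; ring

theorem rescale_C' (a c : ℝ) : PowerSeries.rescale a (C c) = C c := by
  ext k
  rw [coeff_rescale, coeff_C]
  split_ifs with h
  · subst h; simp
  · simp

theorem rescale_CX (a c : ℝ) (K : ℕ) : PowerSeries.rescale a (C c * X ^ K)
    = C (c * a ^ K) * X ^ K := by
  rw [map_mul, map_pow, rescale_C', rescale_X, mul_pow, map_mul, map_pow]; ring

theorem ev_poly_exp {ρ c : ℝ} (h0 : 0 ≤ ρ) (h1 : ρ < 1) (hc : 0 < c) (n : ℕ) :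
    ∀ᶠ K : ℕ in atTop, ρ ^ K * (4 * (K : ℝ)) ^ n ≤ c := by
  have h := tendsto_pow_const_mul_const_pow_of_abs_lt_one n (r := ρ)
    (by rw [abs_of_nonneg h0]; exact h1)
  have h2 : Tendsto (fun K : ℕ => ρ ^ K * (4 * (K : ℝ)) ^ n) atTop (nhds 0) := by
    have := h.const_mul ((4 : ℝ) ^ n)
    rw [mul_zero] at this
    refine this.congr fun K => ?_
    rw [mul_pow]; ring
  filter_upwards [h2.eventually (gt_mem_nhds hc)] with K hK
  exact le_of_lt hK

theorem ev_tail {ρ C : ℝ} (h0 : 0 ≤ ρ) (h1 : ρ < 1) (hC : 0 ≤ C) :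
    ∀ᶠ K : ℕ in atTop, ∀ n, ∑ j ∈ range n, (if K ≤ j then C * j * ρ ^ j else 0) ≤ 1 := by
  have hs : Summable fun j : ℕ => C * j * ρ ^ j := by
    have := summable_pow_mul_geometric_of_norm_lt_one (R := ℝ) 1 (r := ρ)
      (by rw [Real.norm_eq_abs, abs_of_nonneg h0]; exact h1)
    simp only [pow_one] at this
    exact (this.mul_left C).congr fun j => by ring
  have ht := tendsto_sum_nat_add (fun j : ℕ => C * (j : ℝ) * ρ ^ j)
  filter_upwards [ht.eventually (gt_mem_nhds one_pos)] with K hK n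
  refine le_trans ?_ hK.le
  have hs2 : Summable fun j : ℕ => C * ((j + K : ℕ) : ℝ) * ρ ^ (j + K) :=
    (summable_nat_add_iff K).2 hs
  rw [← Finset.sum_filter]
  calc ∑ j ∈ (range n).filter (fun j => K ≤ j), C * (j : ℝ) * ρ ^ j
      = ∑ j ∈ range (n - K), C * ((j + K : ℕ) : ℝ) * ρ ^ (j + K) := by
        refine Finset.sum_bij' (fun i _ => i - K) (fun i _ => i + K) ?_ ?_ ?_ ?_ ?_
        · intro i hi; simp only [mem_filter, mem_range] at hi ⊢; omega
        · intro i hi; simp only [mem_filter, mem_range] at hi ⊢; omega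
        · intro i hi; simp only [mem_filter, mem_range] at hi ⊢; omega
        · intro i hi; simp
        · intro i hi
          simp only [mem_filter, mem_range] at hi
          have : i - K + K = i := by omega
          rw [this]
    _ ≤ ∑' j : ℕ, C * ((j + K : ℕ) : ℝ) * ρ ^ (j + K) :=
        hs2.sum_le_tsum _ (fun i _ => by positivity)

theorem ev_small {ρ C : ℝ} (h0 : 0 ≤ ρ) (h1 : ρ < 1) :
    ∀ᶠ K : ℕ in atTop, ∀ k : ℕ, K ≤ k → C * k * ρ ^ k ≤ 1 / 4 := by
  have h := tendsto_pow_const_mul_const_pow_of_abs_lt_one 1 (r := ρ)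
    (by rw [abs_of_nonneg h0]; exact h1)
  have h2 : Tendsto (fun k : ℕ => C * (k : ℝ) * ρ ^ k) atTop (nhds 0) := by
    have := h.const_mul C
    rw [mul_zero] at this
    refine this.congr fun K => ?_
    rw [pow_one]; ring
  have h3 := h2.eventually (gt_mem_nhds (by norm_num : (0 : ℝ) < 1 / 4))
  rw [eventually_atTop] at h3
  obtain ⟨N, hN⟩ := h3
  filter_upwards [eventually_ge_atTop N] with K hK k hk
  exact (hN k (hK.trans hk)).le

/-- rounding into a window -/
theorem exists_window {S : Subring ℝ} {σ : ℝ}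
    (hS : ∀ k : ℕ, 1 ≤ k → ∀ x : ℝ, ∃ s ∈ S, x ≤ s ∧ s ≤ x + σ ^ k) {k : ℕ} (hk : 1 ≤ k)
    {a b : ℝ} (hab : σ ^ k ≤ b - a) : ∃ s ∈ S, a ≤ s ∧ s ≤ b := by
  obtain ⟨s, hs, h1, h2⟩ := hS k hk a
  exact ⟨s, hs, h1, by linarith⟩

/-- the parameters of the construction -/
theorem seq_core {S : Subring ℝ} {lam σ r : ℝ} (hσ : 0 < σ) (hσl : σ < lam)
    (hlr : 1 < lam * r) (hσr : σ * r < 1)
    (hS : ∀ k : ℕ, 1 ≤ k → ∀ x : ℝ, ∃ s ∈ S, x ≤ s ∧ s ≤ x + σ ^ k)
    (hdec : ∀ k : ℕ, 1 ≤ k → ∀ g ∈ S, 0 ≤ g → ∃ cs : List ℝ,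
      (∀ c ∈ cs, c ∈ S ∧ 0 ≤ c ∧ c ≤ σ ^ k) ∧ cs.sum = g)
    {f : PowerSeries ℝ} (hfS : ∀ k, coeff k f ∈ S)
    {s : ℕ → ℝ} (hfs : LD (PowerSeries.mk s) f)
    {θ C₀ : ℝ} (hθ0 : 0 ≤ θ) (hθ1 : θ < 1) (hC₀ : 0 ≤ C₀)
    (hsl : ∀ k, 1 ≤ k → |s k - lam ^ k| ≤ C₀ * (θ * lam) ^ k)
    (hlow : ∀ K : ℕ, ∃ l : List (ℕ × ℝ),
      (∀ p ∈ l, 1 ≤ p.1 ∧ p.1 < K ∧ p.2 ∈ S ∧ 0 ≤ p.2 ∧ p.2 ≤ σ ^ p.1) ∧
      ∀ k, k < K → coeff k (facs l) = coeff k f)
    (r₁ : ℝ) (hr₁1 : 1 ≤ r₁) :
    ∃ (K : ℕ) (α : ℕ → ℝ) (l : List (ℕ × ℝ)) (b ε : PowerSeries ℝ) (κ μ τ : ℝ),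
      Model K α ∧ 4 ≤ K ∧ 0 < κ ∧ κ ≤ 1 ∧
      (∀ k, K ≤ k → k < 4 * K → κ ≤ coeff k (hser α)) ∧
      0 < μ ∧ μ < 1 ∧ 0 < τ ∧ τ < μ ∧ 1 / (lam * r) < μ ∧
      (τ / μ) ^ (2 * K) / (1 - τ / μ) ≤ κ / 32 ∧
      μ ^ K ≤ κ ^ 2 / (2048 * r₁) ∧
      (∀ j, K ≤ j → σ ^ j ≤ κ ^ 2 / (2048 * r₁) * lam ^ j) ∧
      (∀ p ∈ l, 1 ≤ p.1 ∧ p.2 ∈ S ∧ 0 ≤ p.2 ∧ p.2 ≤ σ ^ p.1) ∧
      b * facs l = 1 ∧ Sm r b ∧
      (∀ k, |coeff k ε| ≤ τ ^ k) ∧ (∀ k, k < 2 * K → coeff k ε = 0) ∧
      1 - PowerSeries.rescale lam⁻¹ (f * b) = hser α + ε - hser α * ε := by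
  classical
  have hlam : 0 < lam := hσ.trans hσl
  have hr : 0 < r := by
    by_contra h
    push Not at h
    nlinarith
  -- constants
  set τ₀ : ℝ := Real.sqrt (σ / lam) with hτ₀
  have hτ₀0 : 0 < τ₀ := Real.sqrt_pos.2 (by positivity)
  have hτ₀1 : τ₀ < 1 := by
    rw [hτ₀, Real.sqrt_lt' one_pos, one_pow, div_lt_one hlam]; exact hσl
  have hστ : σ = lam * τ₀ ^ 2 := by
    rw [hτ₀, Real.sq_sqrt (by positivity)]; field_simp
  set C₁ : ℝ := 1 + C₀ with hC₁
  have hC₁0 : 0 ≤ C₁ := by positivity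
  set θ₁ : ℝ := max θ τ₀ with hθ₁
  have hθ₁0 : 0 < θ₁ := lt_of_lt_of_le hτ₀0 (le_max_right _ _)
  have hθ₁1 : θ₁ < 1 := max_lt hθ1 hτ₀1
  set C₂ : ℝ := C₀ + C₁ with hC₂
  have hC₂0 : 0 ≤ C₂ := by positivity
  set τ : ℝ := (θ₁ + 1) / 2 with hτ
  have hτθ : θ₁ < τ := by rw [hτ]; linarith
  have hτ1 : τ < 1 := by rw [hτ]; linarith
  have hτ0 : 0 < τ := hθ₁0.trans hτθ
  set τ' : ℝ := 1 / (lam * r) with hτ'
  have hlr0 : 0 < lam * r := by positivity
  have hτ'0 : 0 < τ' := by positivity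
  have hτ'1 : τ' < 1 := by rw [hτ', div_lt_one hlr0]; exact hlr
  set μ : ℝ := (max τ τ' + 1) / 2 with hμ
  have hmax1 : max τ τ' < 1 := max_lt hτ1 hτ'1
  have hμ1 : μ < 1 := by rw [hμ]; linarith
  have hμmax : max τ τ' < μ := by rw [hμ]; linarith
  have hτμ : τ < μ := lt_of_le_of_lt (le_max_left _ _) hμmax
  have hτ'μ : τ' < μ := lt_of_le_of_lt (le_max_right _ _) hμmax
  have hμ0 : 0 < μ := hτ0.trans hτμ
  have hr₁p : 0 < r₁ := lt_of_lt_of_le one_pos hr₁1
  have hg1 : τ / μ < 1 := (div_lt_one hμ0).2 hτμ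
  have hg0 : 0 < τ / μ := div_pos hτ0 hμ0
  have hg'1 : τ' / μ < 1 := (div_lt_one hμ0).2 hτ'μ
  have hsl0 : 0 ≤ σ / lam := by positivity
  have hsl1 : σ / lam < 1 := (div_lt_one hlam).2 hσl
  -- choice of K
  have E1 := ev_poly_exp hsl0 hsl1 (c := 1 / (2048 * r₁)) (by positivity) 14
  have E2 := ev_poly_exp hμ0.le hμ1 (c := 1 / (2048 * r₁)) (by positivity) 14
  have E3 := ev_poly_exp (ρ := (τ / μ) ^ 2) (by positivity) (by
    have : (τ / μ) ^ 2 < 1 ^ 2 := by gcongr
    simpa using this) (c := (1 - τ / μ) / 32) (by linarith) 7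
  have E4 := ev_small (ρ := θ₁) (C := C₂) hθ₁0.le hθ₁1
  have E5 := ev_tail (ρ := θ₁ / τ) (C := C₂) (by positivity) ((div_lt_one hτ0).2 hτθ) hC₂0
  obtain ⟨K, ⟨⟨⟨⟨hK4, k1⟩, k2⟩, k3⟩, k4⟩, k5⟩ := ((((eventually_ge_atTop 4).and E1).and E2).and
    E3 |>.and E4 |>.and E5).exists
  have hKpos : (0 : ℝ) < K := by exact_mod_cast (by omega : 0 < K)
  have hK4' : (4 : ℝ) ≤ K := by exact_mod_cast hK4
  set κ : ℝ := 1 / (4 * (K : ℝ)) ^ 7 with hκ
  have hκ0 : 0 < κ := by positivity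
  have h4K : (1 : ℝ) ≤ 4 * K := by linarith
  have hκ1 : κ ≤ 1 := by
    rw [hκ, div_le_one (by positivity)]; exact one_le_pow₀ h4K
  have hκ2 : κ ^ 2 = 1 / (4 * (K : ℝ)) ^ 14 := by
    rw [hκ, div_pow, one_pow, ← pow_mul]
  -- consequences
  have K1 : (σ / lam) ^ K ≤ κ ^ 2 / (2048 * r₁) := by
    rw [hκ2, div_div, le_div_iff₀ (by positivity)]
    have : (σ / lam) ^ K * (4 * (K : ℝ)) ^ 14 * (2048 * r₁) ≤ 1 := by
      rw [← le_div_iff₀ (by positivity)]; exact k1
    linarith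
  have K2 : μ ^ K ≤ κ ^ 2 / (2048 * r₁) := by
    rw [hκ2, div_div, le_div_iff₀ (by positivity)]
    have : μ ^ K * (4 * (K : ℝ)) ^ 14 * (2048 * r₁) ≤ 1 := by
      rw [← le_div_iff₀ (by positivity)]; exact k2
    linarith
  have K3 : (τ / μ) ^ (2 * K) / (1 - τ / μ) ≤ κ / 32 := by
    rw [div_le_div_iff₀ (by linarith) (by norm_num), hκ, pow_mul]
    rw [div_mul_eq_mul_div, one_mul, le_div_iff₀ (by positivity)]
    rw [le_div_iff₀ (by norm_num)] at k3
    linarith
  -- general window lemma in degree j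
  have hpow : ∀ j, K ≤ j → σ ^ j ≤ κ ^ 2 / (2048 * r₁) * lam ^ j := by
    intro j hj
    have h1 : (σ / lam) ^ j ≤ (σ / lam) ^ K := pow_le_pow_of_le_one hsl0 hsl1.le hj
    have h2 : (σ / lam) ^ j ≤ κ ^ 2 / (2048 * r₁) := h1.trans K1
    rw [div_pow, div_le_iff₀ (by positivity)] at h2
    exact h2
  have hκ2le : κ ^ 2 / (2048 * r₁) ≤ κ / 2048 := by
    rw [div_le_div_iff₀ (by positivity) (by norm_num)]
    nlinarith [mul_le_mul hκ1 hr₁1 zero_le_one (by norm_num : (0:ℝ) ≤ 1),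
      mul_pos hκ0 hr₁p, mul_nonneg hκ0.le (sub_nonneg.2 hr₁1),
      mul_nonneg (mul_nonneg hκ0.le (sub_nonneg.2 hκ1)) hr₁p.le]
  -- the numbers h'_k
  have hwin : ∀ k, K ≤ k → k < 2 * K → ∃ t ∈ S,
      lam ^ k * (1 / 2 + ((k : ℝ) - K) / (4 * K)) / k ≤ t ∧
      t ≤ lam ^ k * (1 / 2 + ((k : ℝ) + 1 - K) / (4 * K)) / k := by
    intro k hk1 hk2
    have hk0 : (0 : ℝ) < k := by exact_mod_cast (by omega : 0 < k)
    refine exists_window (k := k) hS (by omega) ?_
    have e : lam ^ k * (1 / 2 + ((k : ℝ) + 1 - K) / (4 * K)) / k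
        - lam ^ k * (1 / 2 + ((k : ℝ) - K) / (4 * K)) / k = lam ^ k * (1 / (4 * K * k)) := by
      field_simp; ring
    rw [e]
    refine (hpow k hk1).trans ?_
    rw [mul_comm (lam ^ k)]
    refine mul_le_mul_of_nonneg_right ?_ (by positivity)
    have hk2' : (k : ℝ) ≤ 2 * K := by exact_mod_cast hk2.le
    calc κ ^ 2 / (2048 * r₁) ≤ κ / 2048 := hκ2le
      _ ≤ κ := by linarith
      _ ≤ 1 / (4 * K * k) := by
          rw [hκ]
          refine one_div_le_one_div_of_le (by positivity) ?_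
          calc 4 * (K : ℝ) * k ≤ 4 * K * (4 * K) := by
                refine mul_le_mul_of_nonneg_left (by linarith) (by positivity)
            _ = (4 * (K : ℝ)) ^ 2 := by ring
            _ ≤ (4 * (K : ℝ)) ^ 7 := pow_le_pow_right₀ h4K (by norm_num)
  choose! hs hsS hs1 hs2 using hwin
  set H : PowerSeries ℝ := PowerSeries.mk fun k => if K ≤ k ∧ k < 2 * K then hs k else 0 with hH
  have hHk : ∀ k, K ≤ k → k < 2 * K → coeff k H = hs k := fun k h1 h2 => by
    rw [hH, coeff_mk, if_pos ⟨h1, h2⟩]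
  set α : ℕ → ℝ := fun k => if k < K then 0 else if k < 2 * K then k * hs k / lam ^ k else 1
    with hα
  have hαmid : ∀ k, K ≤ k → k < 2 * K → α k = k * hs k / lam ^ k := fun k h1 h2 => by
    simp only [hα]; rw [if_neg (by omega), if_pos h2]
  have hαlo : ∀ k, K ≤ k → k < 2 * K → 1 / 2 + ((k : ℝ) - K) / (4 * K) ≤ α k := by
    intro k h1 h2
    have hk0 : (0 : ℝ) < k := by exact_mod_cast (by omega : 0 < k)
    rw [hαmid k h1 h2, le_div_iff₀ (by positivity)]
    have := hs1 k h1 h2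
    rw [div_le_iff₀ hk0] at this
    linarith
  have hαhi : ∀ k, K ≤ k → k < 2 * K → α k ≤ 1 / 2 + ((k : ℝ) + 1 - K) / (4 * K) := by
    intro k h1 h2
    have hk0 : (0 : ℝ) < k := by exact_mod_cast (by omega : 0 < k)
    rw [hαmid k h1 h2, div_le_iff₀ (by positivity)]
    have := hs2 k h1 h2
    rw [le_div_iff₀ hk0] at this
    linarith
  have M : Model K α := by
    refine ⟨by omega, fun j hj => ?_, ?_, ?_, fun j hj => ?_⟩
    · simp only [hα]; rw [if_pos hj]
    · have := hαlo K le_rfl (by omega)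
      simpa using this
    · refine monotone_nat_of_le_succ fun k => ?_
      by_cases h1 : k + 1 < K
      · have e1 : α k = 0 := by simp only [hα]; rw [if_pos (by omega)]
        have e2 : α (k + 1) = 0 := by simp only [hα]; rw [if_pos h1]
        rw [e1, e2]
      · by_cases h2 : k + 1 < 2 * K
        · by_cases h3 : k < K
          · have e1 : α k = 0 := by simp only [hα]; rw [if_pos h3]
            rw [e1]
            refine le_trans ?_ (hαlo (k + 1) (by omega) h2)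
            have : ((k + 1 : ℕ) : ℝ) = K := by exact_mod_cast (by omega : k + 1 = K)
            rw [this]; norm_num
          · refine (hαhi k (by omega) (by omega)).trans ?_
            have := hαlo (k + 1) (by omega) h2
            push_cast at this
            exact this
        · have e2 : α (k + 1) = 1 := by
            simp only [hα]; rw [if_neg (by omega), if_neg h2]
          rw [e2]
          by_cases h3 : k < 2 * K
          · refine (hαhi k (by omega) h3).trans ?_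
            have : (k : ℝ) + 1 = 2 * K := by exact_mod_cast (by omega : k + 1 = 2 * K)
            rw [this]
            have : (2 * (K : ℝ) - K) / (4 * K) = 1 / 4 := by field_simp; ring
            rw [this]; norm_num
          · simp only [hα]; rw [if_neg (by omega), if_neg h3]
    · simp only [hα]; rw [if_neg (by omega), if_neg (by omega)]
  -- estimates for `s`
  have hs_le : ∀ k, 1 ≤ k → s k ≤ C₁ * lam ^ k := by
    intro k hk
    have h2 := (abs_le.1 (hsl k hk)).2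
    have h3 : (θ * lam) ^ k ≤ lam ^ k := pow_le_pow_left₀ (by positivity) (by nlinarith) k
    have h4 := mul_le_mul_of_nonneg_left h3 hC₀
    rw [hC₁]; linarith
  have hCθ : ∀ k : ℕ, 1 ≤ k → C₀ * θ ^ k + C₁ * k * τ₀ ^ k ≤ C₂ * k * θ₁ ^ k := by
    intro k hk
    have hk1 : (1 : ℝ) ≤ k := by exact_mod_cast hk
    have h1 : θ ^ k ≤ θ₁ ^ k := pow_le_pow_left₀ hθ0 (le_max_left _ _) k
    have h2 : τ₀ ^ k ≤ θ₁ ^ k := pow_le_pow_left₀ hτ₀0.le (le_max_right _ _) k
    have h3 : C₀ * θ ^ k ≤ C₀ * k * θ₁ ^ k := by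
      calc C₀ * θ ^ k ≤ C₀ * θ₁ ^ k := mul_le_mul_of_nonneg_left h1 hC₀
        _ = C₀ * 1 * θ₁ ^ k := by ring
        _ ≤ C₀ * k * θ₁ ^ k := by gcongr
    have h4 : C₁ * k * τ₀ ^ k ≤ C₁ * k * θ₁ ^ k :=
      mul_le_mul_of_nonneg_left h2 (by positivity)
    rw [hC₂]; linarith
  have hbig : ∀ k, K ≤ k → C₁ * k * (lam * τ₀) ^ k ≤ s k - 3 / 4 * lam ^ k := by
    intro k hk
    have h1 := (abs_le.1 (hsl k (by omega))).1
    have h2 := (hCθ k (by omega)).trans (k4 k hk)
    have h3 : lam ^ k * (C₀ * θ ^ k + C₁ * k * τ₀ ^ k) ≤ lam ^ k * (1 / 4) :=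
      mul_le_mul_of_nonneg_left h2 (by positivity)
    have e1 : C₁ * k * (lam * τ₀) ^ k = lam ^ k * (C₁ * k * τ₀ ^ k) := by rw [mul_pow]; ring
    have e2 : C₀ * (θ * lam) ^ k = lam ^ k * (C₀ * θ ^ k) := by rw [mul_pow]; ring
    rw [e1]; rw [e2] at h1
    linarith
  -- the list
  have hHS : ∀ k, coeff k H ∈ S := by
    intro k
    rw [hH, coeff_mk]
    split_ifs with h
    · exact hsS k h.1 h.2
    · exact S.zero_mem
  have hH0 : ∀ k, k < K → coeff k H = 0 := by
    intro k hk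
    rw [hH, coeff_mk, if_neg (by omega)]
  have hH1 : ∀ k, K ≤ k → k < 2 * K → 0 ≤ coeff k H ∧ (k : ℝ) * coeff k H ≤ 3 / 4 * lam ^ k := by
    intro k h1 h2
    have hk0 : (0 : ℝ) < k := by exact_mod_cast (by omega : 0 < k)
    have hkK : (K : ℝ) ≤ k := by exact_mod_cast h1
    have hk2 : (k : ℝ) + 1 ≤ 2 * K := by exact_mod_cast (by omega : k + 1 ≤ 2 * K)
    rw [hHk k h1 h2]
    constructor
    · refine le_trans ?_ (hs1 k h1 h2)
      have : 0 ≤ ((k : ℝ) - K) / (4 * K) := div_nonneg (by linarith) (by positivity)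
      positivity
    · have h3 := hs2 k h1 h2
      rw [le_div_iff₀ hk0] at h3
      have h4 : ((k : ℝ) + 1 - K) / (4 * K) ≤ 1 / 4 := by
        rw [div_le_div_iff₀ (by positivity) (by norm_num)]; linarith
      have h5 : lam ^ k * (1 / 2 + ((k : ℝ) + 1 - K) / (4 * K)) ≤ lam ^ k * (3 / 4) :=
        mul_le_mul_of_nonneg_left (by linarith) (by positivity)
      linarith
  obtain ⟨l₀, hl₀, hl₀f⟩ := hlow K
  obtain ⟨l, hl, hlf, hlw⟩ := exists_list (K := K) (by omega) hσ.le hlam hτ₀0 hτ₀1.le hστ hC₁0 hdec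
    hfS hfs hs_le hl₀ hl₀f hHS hH0 hH1 (fun k h1 _ => hbig k h1) (2 * K) (by omega) le_rfl
  obtain ⟨b, hb, hbs⟩ := facs_inv hσ.le hr hσr (l := l)
    (fun p hp => ⟨(hl p hp).1, (hl p hp).2.2.2.1, (hl p hp).2.2.2.2⟩)
  have hfb : ∀ j, j < 2 * K → coeff j (f * b) = coeff j (1 - H) := by
    intro j hj
    have h1 : coeff j ((facs l * (1 - H) - f) * b) = 0 :=
      conv_zero (m := 2 * K) (fun i hi => by rw [map_sub, hlf i hi, sub_self]) j hj
    have e : (facs l * (1 - H) - f) * b = (1 - H) - f * b := by linear_combination (1 - H) * hb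
    rw [e, map_sub] at h1
    linarith
  have hb' : facs l * b = 1 := by rw [mul_comm]; exact hb
  have hLD := hfs.mul ((LD_facs (l := l) (fun p hp => (hl p hp).1)).inv hb')
  set A : PowerSeries ℝ := PowerSeries.mk s + -PowerSeries.mk (sB l) with hA
  have hfb0 : coeff 0 (f * b) = 1 := by
    rw [hfb 0 (by omega), map_sub, hH0 0 (by omega)]; simp
  obtain ⟨hA0, hA1⟩ := LD_two (K := K) hLD hfb0 (fun j hj1 hjK => by
    rw [hfb j (by omega), map_sub, hH0 j hjK, coeff_one, if_neg (by omega), sub_zero])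
  have hAmid : ∀ k, K ≤ k → k < 2 * K → coeff k A = k * hs k := by
    intro k h1 h2
    have := hA1 k h2
    rw [hfb k h2, map_sub, coeff_one, if_neg (by omega), hHk k h1 h2] at this
    linarith
  have hAhi : ∀ k, 2 * K ≤ k → |coeff k A - lam ^ k| ≤ lam ^ k * (C₂ * k * θ₁ ^ k) := by
    intro k hk
    have e : coeff k A = s k - sB l k := by rw [hA]; simp; ring
    have h1 := abs_le.1 (hsl k (by omega))
    have h2 : 0 ≤ sB l k := sB_nonneg (fun p hp => (hl p hp).2.2.2.1) k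
    have h3 : sB l k ≤ C₁ * k * (lam * τ₀) ^ k :=
      sB_le hσ.le hlam hτ₀0 hτ₀1.le hστ hC₁0 (fun p hp => ⟨(hl p hp).1,
        lt_of_lt_of_le (hl p hp).2.1 hk, (hl p hp).2.2.2.1, (hl p hp).2.2.2.2⟩) (fun j hj1 hjk => by
          by_cases hj : j < 2 * K
          · exact hlw j hj1 hj
          · rw [wB_eq_zero fun p hp => lt_of_lt_of_le (hl p hp).2.1 (by omega)]
            rw [mul_zero]; positivity)
    have h4 := mul_le_mul_of_nonneg_left (hCθ k (by omega)) (pow_nonneg hlam.le k)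
    have e1 : C₁ * k * (lam * τ₀) ^ k = lam ^ k * (C₁ * k * τ₀ ^ k) := by rw [mul_pow]; ring
    have e2 : C₀ * (θ * lam) ^ k = lam ^ k * (C₀ * θ ^ k) := by rw [mul_pow]; ring
    rw [e1] at h3; rw [e2] at h1
    have h5 : 0 ≤ lam ^ k * (C₀ * θ ^ k) := by positivity
    have h6 : 0 ≤ lam ^ k * (C₁ * k * τ₀ ^ k) := by positivity
    rw [e, abs_le]
    constructor <;> linarith [h1.1, h1.2]
  -- scale
  set a : ℝ := lam⁻¹ with ha
  have ha0 : 0 < a := by positivity
  have halam : ∀ k, a ^ k * lam ^ k = 1 := fun k => by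
    rw [← mul_pow, ha, inv_mul_cancel₀ hlam.ne', one_pow]
  set h : PowerSeries ℝ := hser α with hh
  have hh0 : coeff 0 (1 - h) = 1 := by
    rw [map_sub, hh, M.h_small (by omega)]; simp
  have hinvh : (1 - h) * (1 - h)⁻¹ = 1 := by
    refine PowerSeries.mul_inv_cancel _ ?_
    rw [← coeff_zero_eq_constantCoeff_apply, hh0]; exact one_ne_zero
  set E : PowerSeries ℝ := PowerSeries.rescale a (f * b) * (1 - h)⁻¹ with hE
  set η : ℕ → ℝ := fun k => a ^ k * coeff k A - α k with hη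
  have hLDE : LD (PowerSeries.mk η) E := by
    have h1 := (LD_rescale hLD a).mul (M.LD_h.inv hinvh)
    convert h1 using 1
    ext k
    rw [coeff_mk, map_add, map_neg, coeff_rescale, coeff_mk]
    simp only [hη]; ring
  have hη0 : ∀ k, k < 2 * K → η k = 0 := by
    intro k hk
    simp only [hη]
    by_cases hkK : k < K
    · rw [hA0 k hkK, M.zero k hkK]; ring
    · rw [hAmid k (by omega) hk, hαmid k (by omega) hk]
      rw [ha, inv_pow]; field_simp; ring
  have hηhi : ∀ k, 2 * K ≤ k → |η k| ≤ C₂ * k * θ₁ ^ k := by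
    intro k hk
    simp only [hη]
    rw [M.one k hk]
    have h1 := hAhi k hk
    have e : a ^ k * coeff k A - 1 = a ^ k * (coeff k A - lam ^ k) := by
      rw [mul_sub, halam]
    rw [e, abs_mul, abs_of_nonneg (by positivity)]
    calc a ^ k * |coeff k A - lam ^ k| ≤ a ^ k * (lam ^ k * (C₂ * k * θ₁ ^ k)) :=
          mul_le_mul_of_nonneg_left h1 (by positivity)
      _ = C₂ * k * θ₁ ^ k := by rw [← mul_assoc, halam, one_mul]
  have hsum : ∀ n, ∑ j ∈ range n, |η j| * (τ⁻¹) ^ j ≤ 1 := by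
    intro n
    refine le_trans (Finset.sum_le_sum fun j _ => ?_) (k5 n)
    split_ifs with hj
    · by_cases hj2 : j < 2 * K
      · rw [hη0 j hj2]; simp; positivity
      · calc |η j| * (τ⁻¹) ^ j ≤ C₂ * j * θ₁ ^ j * (τ⁻¹) ^ j :=
              mul_le_mul_of_nonneg_right (hηhi j (by omega)) (by positivity)
          _ = C₂ * j * (θ₁ / τ) ^ j := by rw [div_pow, inv_pow]; field_simp
    · rw [hη0 j (by omega)]; simp
  have hE0 : coeff 0 E = 1 := by
    have h1 : coeff 0 (1 - h)⁻¹ = 1 := by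
      have := congrArg (coeff 0) hinvh
      rw [coeff_zero_eq_constantCoeff_apply, map_mul] at this
      rw [coeff_zero_eq_constantCoeff_apply] at hh0 ⊢
      rw [hh0, one_mul] at this
      rw [this]; simp
    rw [hE, coeff_zero_eq_constantCoeff_apply, map_mul, ← coeff_zero_eq_constantCoeff_apply,
      ← coeff_zero_eq_constantCoeff_apply, h1, coeff_rescale, hfb0]
    simp
  obtain ⟨hE1, hE2⟩ := pert_bound hLDE hE0 (m := 2 * K) (by omega) hη0 hτ0 hsum
  set ε : PowerSeries ℝ := 1 - E with hε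
  have hε0 : ∀ k, k < 2 * K → coeff k ε = 0 := by
    intro k hk
    rw [hε, map_sub, coeff_one]
    rcases Nat.eq_zero_or_pos k with rfl | hk0
    · rw [hE0]; simp
    · rw [hE2 k hk0 hk, if_neg (by omega)]; simp
  have hε1 : ∀ k, |coeff k ε| ≤ τ ^ k := by
    intro k
    by_cases hk : k < 2 * K
    · rw [hε0 k hk, abs_zero]; positivity
    · rw [hε, map_sub, coeff_one, if_neg (by omega), zero_sub, abs_neg]
      exact hE1 k
  have hfbz : 1 - PowerSeries.rescale a (f * b) = h + ε - h * ε := by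
    have h1 : PowerSeries.rescale a (f * b) = (1 - h) * E := by
      rw [hE]; linear_combination (-(PowerSeries.rescale a (f * b))) * hinvh
    rw [h1, hε]; ring
  exact ⟨K, α, l, b, ε, κ, μ, τ, M, hK4, hκ0, hκ1,
    fun k h1 h2 => M.h_lower h1 h2 hK4, hμ0, hμ1, hτ0, hτμ, hτ'μ, K3, K2, hpow,
    fun p hp => ⟨(hl p hp).1, (hl p hp).2.2.1, (hl p hp).2.2.2.1, (hl p hp).2.2.2.2⟩, hb, hbs,
    hε1, hε0, hfbz⟩

end Pool.Agent.Lib.MP_49224a_al
end
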