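import Pool.Agent.Lib.MP_49224a_al.Units
import Pool.Agent.Lib.MP_49224a_al.IntLow
import Pool.Agent.Lib.MP_49224a_al.Red
import Pool.Agent.Lib.MP_49224a_al.Seq
import Pool.Agent.Lib.MP_49224a_al.RealEv
import Pool.Agent.Lib.MP_49224a_al.Hess

section

/-!
# Perron data of a real matrix
-/

set_option autoImplicit false

namespace Pool.Agent.Lib.MP_49224a_al

open Matrix Polynomial PowerSeries

theorem perron_theta (s : Multiset ℂ) (lam : ℝ) (hlam : 0 < lam) (h : ∀ z ∈ s, ‖z‖ < lam) :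
    ∃ θ : ℝ, 0 < θ ∧ θ < 1 ∧ ∀ z ∈ s, ‖z‖ ≤ θ * lam := by
  induction s using Multiset.induction_on with
  | empty => exact ⟨1 / 2, by norm_num, by norm_num, by simp⟩
  | cons a s ih =>
    obtain ⟨θ, h0, h1, h2⟩ := ih (fun z hz => h z (Multiset.mem_cons_of_mem hz))
    have ha : ‖a‖ < lam := h a (Multiset.mem_cons_self a s)
    refine ⟨max θ (‖a‖ / lam), lt_max_of_lt_left h0, max_lt h1 ?_, ?_⟩
    · rwa [div_lt_one hlam]
    · intro z hz
      rcases Multiset.mem_cons.mp hz with rfl | hz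
      · calc ‖z‖ = (‖z‖ / lam) * lam := by field_simp
          _ ≤ _ := mul_le_mul_of_nonneg_right (le_max_right _ _) hlam.le
      · exact (h2 z hz).trans (mul_le_mul_of_nonneg_right (le_max_left _ _) hlam.le)

theorem perron_norm_sum (s : Multiset ℂ) (b : ℝ) (h : ∀ z ∈ s, ‖z‖ ≤ b) (k : ℕ) :
    ‖(s.map (fun z => z ^ k)).sum‖ ≤ Multiset.card s * b ^ k := by
  induction s using Multiset.induction_on with
  | empty => simp
  | cons a s ih =>
    have h1 := ih (fun z hz => h z (Multiset.mem_cons_of_mem hz))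
    have ha : ‖a‖ ≤ b := h a (Multiset.mem_cons_self a s)
    rw [Multiset.map_cons, Multiset.sum_cons, Multiset.card_cons]
    calc ‖a ^ k + (s.map (fun z => z ^ k)).sum‖ ≤ ‖a ^ k‖ + ‖(s.map (fun z => z ^ k)).sum‖ :=
          norm_add_le _ _
      _ ≤ b ^ k + Multiset.card s * b ^ k := by
          rw [norm_pow]
          exact add_le_add (pow_le_pow_left₀ (norm_nonneg _) ha k) h1
      _ = _ := by push_cast; ring

theorem perron_data {n : ℕ} (A : Matrix (Fin n) (Fin n) ℝ) (lam : ℝ) (hlam : 0 < lam)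
    (h1 : (A.map (fun x : ℝ => (x : ℂ))).charpoly.roots.count (lam : ℂ) = 1)
    (h2 : ∀ z ∈ (A.map (fun x : ℝ => (x : ℂ))).charpoly.roots, z ≠ (lam : ℂ) → ‖z‖ < lam) :
    ∃ θ C₀ R : ℝ, 0 ≤ θ ∧ θ < 1 ∧ 0 ≤ C₀ ∧ 1 / lam < R ∧
      (∀ k, |(A ^ k).trace - lam ^ k| ≤ C₀ * (θ * lam) ^ k) ∧
      ∀ r, 0 < r → r < R → ∃ g : PowerSeries ℂ, Dec r g ∧
        (((A.charpolyRev : Polynomial ℝ) : PowerSeries ℝ).map (algebraMap ℝ ℂ))
          = (1 - PowerSeries.C (lam : ℂ) * PowerSeries.X) * g ∧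
        ∀ z : ℂ, ‖z‖ ≤ r → evs z g ≠ 0 := by
  classical
  set B : Matrix (Fin n) (Fin n) ℂ := A.map (fun x : ℝ => (x : ℂ)) with hB
  set s : Multiset ℂ := B.charpoly.roots with hs
  have hmem : (lam : ℂ) ∈ s := by
    rw [← Multiset.count_pos]
    omega
  obtain ⟨t, ht⟩ := Multiset.exists_cons_of_mem hmem
  have hnt : (lam : ℂ) ∉ t := by
    rw [ht, Multiset.count_cons_self] at h1
    rw [← Multiset.count_eq_zero]
    omega
  have hnorm : ∀ z ∈ t, ‖z‖ < lam := by
    intro z hz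
    apply h2 z
    · rw [ht]
      exact Multiset.mem_cons_of_mem hz
    · rintro rfl
      exact hnt hz
  obtain ⟨θ, hθ0, hθ1, hθ⟩ := perron_theta t lam hlam hnorm
  refine ⟨θ, Multiset.card t, 1 / (θ * lam), hθ0.le, hθ1, by positivity, ?_, ?_, ?_⟩
  · apply one_div_lt_one_div_of_lt (by positivity)
    nlinarith
  · intro k
    have e1 : (B ^ k).trace = (lam : ℂ) ^ k + (t.map (fun z => z ^ k)).sum := by
      rw [trace_pow_eq, ← hs, ht, Multiset.map_cons, Multiset.sum_cons]
    have e2 : (B ^ k).trace = (((A ^ k).trace : ℝ) : ℂ) := by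
      have : B = A.map (algebraMap ℝ ℂ) := rfl
      rw [this, ← Matrix.map_pow]
      simp [Matrix.trace]
    have e3 : ((((A ^ k).trace - lam ^ k : ℝ)) : ℂ) = (t.map (fun z => z ^ k)).sum := by
      push_cast
      rw [← e2, e1]
      ring
    have e4 : ‖((((A ^ k).trace - lam ^ k : ℝ)) : ℂ)‖ = |(A ^ k).trace - lam ^ k| := by
      rw [Complex.norm_real, Real.norm_eq_abs]
    rw [← e4, e3]
    exact perron_norm_sum t (θ * lam) hθ k
  · intro r hr hrR
    have hrb : r * (θ * lam) < 1 := by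
      rwa [lt_div_iff₀ (by positivity)] at hrR
    refine ⟨(((t.map (fun w => 1 - Polynomial.C w * Polynomial.X)).prod : Polynomial ℂ) :
      PowerSeries ℂ), Dec.of_polynomial _ _, ?_, ?_⟩
    · have f1 : PowerSeries.map (algebraMap ℝ ℂ) ((A.charpolyRev : Polynomial ℝ) : PowerSeries ℝ)
          = ((B.charpolyRev : Polynomial ℂ) : PowerSeries ℂ) := by
        have : B.charpolyRev = A.charpolyRev.map (algebraMap ℝ ℂ) := by
          rw [charpolyRev, charpolyRev, ← coe_mapRingHom, RingHom.map_det]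
          congr 1
          ext i j
          simp [Matrix.one_apply, apply_ite, hB]
        rw [this, Polynomial.polynomial_map_coe]
      rw [f1, eig_charpolyRev, ← hs, ht, Multiset.map_cons, Multiset.prod_cons,
        Polynomial.coe_mul]
      congr 1
      simp
    · intro z hz
      rw [units_evs_poly, eval_multiset_prod, Multiset.map_map]
      apply Multiset.prod_ne_zero
      rw [Multiset.mem_map]
      rintro ⟨w, hw, hw0⟩
      have hw1 : ‖w‖ ≤ θ * lam := hθ w hw
      have hw2 : w * z = 1 := by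
        have : (1 : ℂ) - w * z = 0 := by simpa using hw0
        linear_combination -this
      have hw3 : ‖w‖ * ‖z‖ = 1 := by rw [← norm_mul, hw2, norm_one]
      have hw4 : ‖w‖ * ‖z‖ ≤ (θ * lam) * r :=
        mul_le_mul hw1 hz (norm_nonneg _) (by positivity)
      linarith [mul_comm r (θ * lam)]

end Pool.Agent.Lib.MP_49224a_al
end

section

/-!
# First step of the assembly: diagonal form over the ring of convergent series
-/

set_option autoImplicit false

namespace Pool.Agent.Lib.MP_49224a_al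

open Matrix Polynomial

/-- Polynomials inside the ring of convergent series. -/
noncomputable def pcHom (S : Subring ℝ) (r : ℝ) (hr : 0 < r) : S[X] →+* BS S r hr :=
  (Polynomial.coeToPowerSeries.ringHom (R := S)).codRestrict (BS S r hr) (by
    intro p
    change Dec r (PowerSeries.map (toC S) (p : PowerSeries S))
    rw [← Polynomial.polynomial_map_coe]
    exact Dec.of_polynomial r _)

theorem pcHom_coe {S : Subring ℝ} {r : ℝ} {hr : 0 < r} (p : S[X]) :
    ((pcHom S r hr p : BS S r hr) : PowerSeries S) = (p : PowerSeries S) := rfl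

/-- The inclusion of the ring of convergent series. -/
noncomputable def bsIncl (S : Subring ℝ) (r : ℝ) (hr : 0 < r) : BS S r hr →+* PowerSeries S :=
  (BS S r hr).subtype

/-- Extension of a matrix by zero. -/
def extZ {n m : Type} {R : Type} [CommRing R] (A : Matrix n n R) : Matrix (n ⊕ m) (n ⊕ m) R :=
  fromBlocks A 0 0 0

theorem one_sub_extZ {n m : Type} [DecidableEq n] [DecidableEq m]
    {R : Type} [CommRing R] (A : Matrix n n R) :
    (1 - (X : R[X]) • (extZ (m := m) A).map C : Matrix (n ⊕ m) (n ⊕ m) R[X])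
      = fromBlocks (1 - (X : R[X]) • A.map C) 0 0 1 := by
  ext (a | a) (b | b) <;> simp [extZ, Matrix.one_apply]

theorem charpolyRev_extZ {n m : Type} [Fintype n] [DecidableEq n] [Fintype m] [DecidableEq m]
    {R : Type} [CommRing R] (A : Matrix n n R) :
    (extZ (m := m) A).charpolyRev = A.charpolyRev := by
  rw [Matrix.charpolyRev, Matrix.charpolyRev, one_sub_extZ, det_fromBlocks_zero₂₁, det_one,
    mul_one]

theorem step1 (S : Subring ℝ) {lam σ r : ℝ} (hr : 0 < r) (hσ : 0 < σ) (hlam : 0 < lam)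
    (hlr : 1 < lam * r) (hσr : σ * r < 1)
    (hS : ∀ k : ℕ, 1 ≤ k → ∀ x : ℝ, ∃ s ∈ S, x ≤ s ∧ s ≤ x + σ ^ k)
    {n : ℕ} (A : Matrix (Fin n) (Fin n) S) (g : PowerSeries ℂ) (hg : Dec r g)
    (hfg : ((A.charpolyRev : S[X]) : PowerSeries S).map (toC S)
      = (1 - PowerSeries.C (lam : ℂ) * PowerSeries.X) * g)
    (hg0 : ∀ z : ℂ, ‖z‖ ≤ r → evs z g ≠ 0) :
    ∃ E E' : Matrix ((Fin n ⊕ Unit) ⊕ Unit) ((Fin n ⊕ Unit) ⊕ Unit) (BS S r hr),
      IsEl E ∧ IsEl E' ∧
      E * (1 - (X : S[X]) • (extZ (m := Unit) (extZ (m := Unit) A)).map C :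
        Matrix ((Fin n ⊕ Unit) ⊕ Unit) ((Fin n ⊕ Unit) ⊕ Unit) S[X]).map (pcHom S r hr) * E'
        = diagonal (Function.update 1 (Sum.inl (Sum.inr ())) (pcHom S r hr A.charpolyRev)) := by
  have hz₀ : ((lam : ℂ)⁻¹) ≠ 0 := inv_ne_zero (by exact_mod_cast hlam.ne')
  have hz₀r : ‖((lam : ℂ)⁻¹)‖ ≤ r := by
    rw [norm_inv, Complex.norm_real, Real.norm_eq_abs, abs_of_pos hlam, inv_le_iff_one_le_mul₀ hlam]
    linarith
  obtain ⟨E, E', hE, hE', h⟩ := reduce_diag (B := BS S r hr) (R0 := S) (Z := {z : ℂ // ‖z‖ ≤ r})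
    (unitsC0) ((pcHom S r hr).comp C)
    (by
      intro x
      rw [unitsC0_apply, RingHom.comp_apply, pcHom_coe, Polynomial.coe_C,
        PowerSeries.constantCoeff_C])
    (fun z => unitsEv z.1 z.2)
    (by
      intro a ha
      obtain ⟨v, l, h1, h2, h3⟩ := BS_factor S r σ hr hσ hσr hS a ha
      refine ⟨v, l, h1, h2, ?_⟩
      intro x hx
      obtain ⟨z, hz, hz0, hzy⟩ := h3 x hx
      exact ⟨⟨z, hz⟩, hz0, fun y hy => hzy y hy⟩)
    (pcHom S r hr A.charpolyRev)
    (by
      intro m _ _ M hm hM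
      obtain ⟨i, hi⟩ := BS_row S r hr (pcHom S r hr A.charpolyRev) _ hz₀ hz₀r g hg
        (by rw [pcHom_coe, hfg, inv_inv]) hg0 m M hm hM
      exact ⟨i, fun z => hi z.1 z.2⟩)
    (Fin n ⊕ Unit)
    ((1 - (X : S[X]) • (extZ (m := Unit) A).map C).map (pcHom S r hr))
    (by
      ext a b
      simp only [Matrix.map_apply, Matrix.sub_apply, Matrix.smul_apply, smul_eq_mul,
        unitsC0_apply, pcHom_coe, Polynomial.coe_X,
        map_sub, map_mul, PowerSeries.constantCoeff_X, zero_mul, sub_zero]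
      by_cases hab : a = b
      · subst hab; simp
      · simp [hab])
    (by
      rw [← RingHom.mapMatrix_apply, ← RingHom.map_det]
      congr 1
      exact charpolyRev_extZ A)
    (Sum.inr ())
  refine ⟨E, E', hE, hE', ?_⟩
  rw [← h]
  congr 2
  rw [one_sub_extZ (extZ A), fromBlocks_map]
  ext (a | a) (b | b)
  · simp
  · simp
  · simp
  · simp

end Pool.Agent.Lib.MP_49224a_al
end

section

/-!
# The target series: main statement
-/

set_option autoImplicit false

namespace Pool.Agent.Lib.MP_49224a_al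

open PowerSeries Finset Filter

theorem coeff_eq_rescale {lam : ℝ} (hlam : 0 < lam) (φ : PowerSeries ℝ) (k : ℕ) :
    coeff k φ = lam ^ k * coeff k (PowerSeries.rescale lam⁻¹ φ) := by
  rw [coeff_rescale, ← mul_assoc, ← mul_pow, mul_inv_cancel₀ hlam.ne', one_pow, one_mul]

/-- the main statement about the target series -/
theorem seq_main {S : Subring ℝ} {lam σ r : ℝ} (hσ : 0 < σ) (hσl : σ < lam)
    (hlr : 1 < lam * r) (hσr : σ * r < 1)
    (hS : ∀ k : ℕ, 1 ≤ k → ∀ x : ℝ, ∃ s ∈ S, x ≤ s ∧ s ≤ x + σ ^ k)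
    (hdec : ∀ k : ℕ, 1 ≤ k → ∀ g ∈ S, 0 ≤ g → ∃ cs : List ℝ,
      (∀ c ∈ cs, c ∈ S ∧ 0 ≤ c ∧ c ≤ σ ^ k) ∧ cs.sum = g)
    {f : PowerSeries ℝ} (hfS : ∀ k, coeff k f ∈ S)
    {s : ℕ → ℝ} (hfs : LD (PowerSeries.mk s) f)
    {θ C₀ : ℝ} (hθ0 : 0 ≤ θ) (hθ1 : θ < 1) (hC₀ : 0 ≤ C₀)
    (hsl : ∀ k, 1 ≤ k → |s k - lam ^ k| ≤ C₀ * (θ * lam) ^ k)
    (hlow : ∀ K : ℕ, ∃ l : List (ℕ × ℝ),
      (∀ p ∈ l, 1 ≤ p.1 ∧ p.1 < K ∧ p.2 ∈ S ∧ 0 ≤ p.2 ∧ p.2 ≤ σ ^ p.1) ∧
      ∀ k, k < K → coeff k (facs l) = coeff k f)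
    (r₀ : ℕ) :
    ∃ (K : ℕ) (l : List (ℕ × ℝ)) (ω δ c₀ : ℝ) (x y b : PowerSeries ℝ),
      4 ≤ K ∧ 0 < δ ∧ 0 < c₀ ∧ ω ∈ S ∧ 0 < ω ∧
      (∀ p ∈ l, 1 ≤ p.1 ∧ p.2 ∈ S ∧ 0 ≤ p.2 ∧ p.2 ≤ σ ^ p.1) ∧
      (∀ j, coeff j x ∈ S) ∧ (∀ j, coeff j y ∈ S) ∧
      (∀ j, K ≤ j → j < 4 * K → 0 < coeff j x) ∧
      (∀ j, ¬ (K ≤ j ∧ j < 4 * K) → coeff j x = 0) ∧
      (∀ j, 2 * K ≤ j → j < 4 * K → 0 < coeff j y) ∧
      (∀ j, ¬ (2 * K ≤ j ∧ j < 4 * K) → coeff j y = 0) ∧
      b * facs l = 1 ∧ Sm r b ∧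
      (∃ ρ, 0 < ρ ∧ ρ < r ∧ ∑ k ∈ range (4 * K), coeff k x * ρ ^ k = 1) ∧
      ∀ Δ qx qy : PowerSeries ℝ, (∀ k, k < 4 * K → coeff k Δ = 0) →
        (∀ k, |coeff k Δ| * r ^ k ≤ δ) → qx * (1 - x) = 1 → qy * (1 - y) = 1 →
        (∀ k, 0 ≤ coeff k (((1 - f * b) * (1 - C (r₀ * ω) * X ^ K) - x - Δ * b) * qx)) ∧
        (∀ k, K ≤ k →
          0 < coeff k (((1 - f * b) * (1 - C (r₀ * ω) * X ^ K) - x - Δ * b) * qx)) ∧
        (∀ k, K ≤ k → c₀ * coeff (k - K) qx ≤
          coeff k (((1 - f * b) * (1 - C (r₀ * ω) * X ^ K) - x - Δ * b) * qx)) ∧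
        (∀ k, 0 ≤ coeff k (((1 - f * b) * (C ω * X ^ K) - y - Δ) * qy)) ∧
        (∀ k, 2 * K ≤ k → 0 < coeff k (((1 - f * b) * (C ω * X ^ K) - y - Δ) * qy)) := by
  have hlam : 0 < lam := hσ.trans hσl
  have hr : 0 < r := by
    by_contra h
    push Not at h
    nlinarith
  set r₁ : ℝ := max (r₀ : ℝ) 1 with hr₁
  have hr₁1 : 1 ≤ r₁ := le_max_right _ _
  have hr₁0 : (r₀ : ℝ) ≤ r₁ := le_max_left _ _
  have hr₁p : 0 < r₁ := lt_of_lt_of_le one_pos hr₁1
  obtain ⟨K, α, l, b, ε, κ, μ, τ, M, hK4, hκ0, hκ1, hκh, hμ0, hμ1, hτ0, hτμ, hτ'μ, K3, K2, hpow,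
    hl, hb, hbs, hε1, hε0, hfbz⟩ := seq_core hσ hσl hlr hσr hS hdec hfS hfs hθ0 hθ1 hC₀ hsl hlow
      r₁ hr₁1
  have hlr0 : 0 < lam * r := by positivity
  set τ' : ℝ := 1 / (lam * r) with hτ'
  have hτ'0 : 0 < τ' := by positivity
  have hg'1 : τ' / μ < 1 := (div_lt_one hμ0).2 hτ'μ
  have hKpos : (0 : ℝ) < K := by exact_mod_cast (by omega : 0 < K)
  set a : ℝ := lam⁻¹ with ha
  have ha0 : 0 < a := by positivity
  have halam : ∀ k, a ^ k * lam ^ k = 1 := fun k => by
    rw [← mul_pow, ha, inv_mul_cancel₀ hlam.ne', one_pow]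
  set h : PowerSeries ℝ := hser α with hh
  have hhnn := M.h_nonneg
  have hhk0 : ∀ k, 0 ≤ coeff k h := fun k => by have := hhnn k; rwa [map_zero] at this
  have hκ2a : κ ^ 2 / (2048 * r₁) ≤ κ / (256 * r₁) := by
    rw [div_le_div_iff₀ (by positivity) (by positivity)]
    nlinarith [mul_nonneg (mul_nonneg hκ0.le (sub_nonneg.2 hκ1)) hr₁p.le, mul_pos hκ0 hr₁p]
  have hκ2b : κ ^ 2 / (2048 * r₁) ≤ κ / 8 := by
    refine hκ2a.trans ?_
    rw [div_le_div_iff₀ (by positivity) (by positivity)]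
    nlinarith [mul_le_mul_of_nonneg_left hr₁1 hκ0.le]
  -- ω
  obtain ⟨ω, hωS, hω1, hω2⟩ := exists_window (k := K) hS (by omega)
    (a := κ / (256 * r₁) * lam ^ K) (b := κ / (128 * r₁) * lam ^ K) (by
      refine (hpow K le_rfl).trans ?_
      rw [← sub_mul]
      refine mul_le_mul_of_nonneg_right ?_ (by positivity)
      have : κ / (128 * r₁) - κ / (256 * r₁) = κ / (256 * r₁) := by field_simp; ring
      rw [this]; exact hκ2a)
  set ν : ℝ := ω * a ^ K with hν
  have hν1 : κ / (256 * r₁) ≤ ν := by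
    calc κ / (256 * r₁) = κ / (256 * r₁) * lam ^ K * a ^ K := by
          rw [mul_assoc, mul_comm (lam ^ K), halam, mul_one]
      _ ≤ ν := by rw [hν]; exact mul_le_mul_of_nonneg_right hω1 (by positivity)
  have hν2 : ν ≤ κ / (128 * r₁) := by
    calc ν ≤ κ / (128 * r₁) * lam ^ K * a ^ K := by
          rw [hν]; exact mul_le_mul_of_nonneg_right hω2 (by positivity)
      _ = _ := by rw [mul_assoc, mul_comm (lam ^ K), halam, mul_one]
  have hν0 : 0 < ν := lt_of_lt_of_le (by positivity) hν1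
  have hω0 : 0 < ω := lt_of_lt_of_le (by positivity) hω1
  have hr₀ν : (r₀ : ℝ) * ν ≤ κ / 128 := by
    calc (r₀ : ℝ) * ν ≤ r₁ * (κ / (128 * r₁)) := mul_le_mul hr₁0 hν2 hν0.le hr₁p.le
      _ = κ / 128 := by field_simp
  have hνκ : κ ^ 2 / (2048 * r₁) ≤ ν * κ / 8 := by
    calc κ ^ 2 / (2048 * r₁) = κ / (256 * r₁) * κ / 8 := by field_simp; ring
      _ ≤ ν * κ / 8 := by gcongr
  -- x
  have hxw : ∀ j, K ≤ j → j < 4 * K → ∃ t ∈ S, coeff j h / 8 * lam ^ j ≤ t ∧
      t ≤ coeff j h / 4 * lam ^ j := by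
    intro j h1 h2
    refine exists_window (k := j) hS (by omega) ?_
    rw [← sub_mul]
    refine (hpow j h1).trans (mul_le_mul_of_nonneg_right ?_ (by positivity))
    have := hκh j h1 h2
    linarith
  choose! xs hxS hx1 hx2 using hxw
  set x : PowerSeries ℝ := PowerSeries.mk fun j => if K ≤ j ∧ j < 4 * K then xs j else 0 with hx
  -- y
  have hyw : ∀ j, 2 * K ≤ j → j < 4 * K → ∃ t ∈ S, ν * coeff (j - K) h / 8 * lam ^ j ≤ t ∧
      t ≤ ν * coeff (j - K) h / 4 * lam ^ j := by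
    intro j h1 h2
    refine exists_window (k := j) hS (by omega) ?_
    rw [← sub_mul]
    refine (hpow j (by omega)).trans (mul_le_mul_of_nonneg_right ?_ (by positivity))
    have h3 := hκh (j - K) (by omega) (by omega)
    have h4 : ν * κ ≤ ν * coeff (j - K) h := mul_le_mul_of_nonneg_left h3 hν0.le
    linarith
  choose! ys hyS hy1 hy2 using hyw
  set y : PowerSeries ℝ := PowerSeries.mk fun j => if 2 * K ≤ j ∧ j < 4 * K then ys j else 0 with hy
  -- δ
  set Cb : ℝ := ∑' j, |coeff j b| * r ^ j with hCb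
  have hCb0 : 0 ≤ Cb := tsum_nonneg fun j => by positivity
  set g₁ : ℝ := 1 - τ' / μ with hg₁
  have hg₁0 : 0 < g₁ := by rw [hg₁]; linarith
  set δ : ℝ := min (κ / 16 * g₁ / (Cb + 1)) (ν * κ / 16 * g₁) with hδ
  have hδ0 : 0 < δ := lt_min (by positivity) (by positivity)
  have hδ1 : δ * Cb / g₁ ≤ κ / 16 := by
    rw [div_le_iff₀ hg₁0]
    calc δ * Cb ≤ κ / 16 * g₁ / (Cb + 1) * Cb :=
          mul_le_mul_of_nonneg_right (min_le_left _ _) hCb0
      _ = κ / 16 * g₁ * (Cb / (Cb + 1)) := by ring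
      _ ≤ κ / 16 * g₁ * 1 := by
          refine mul_le_mul_of_nonneg_left ?_ (by positivity)
          rw [div_le_one (by positivity)]; linarith
      _ = _ := mul_one _
  have hδ2 : δ / g₁ ≤ ν * κ / 16 := by
    rw [div_le_iff₀ hg₁0]; exact min_le_right _ _
  -- scaled series
  set xz : PowerSeries ℝ := PowerSeries.rescale a x with hxz
  set yz : PowerSeries ℝ := PowerSeries.rescale a y with hyz
  have hxzk : ∀ j, K ≤ j → j < 4 * K → coeff j h / 8 ≤ coeff j xz ∧
      coeff j xz ≤ coeff j h / 4 := by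
    intro j h1 h2
    rw [hxz, coeff_rescale, hx, coeff_mk, if_pos ⟨h1, h2⟩]
    constructor
    · calc coeff j h / 8 = a ^ j * (coeff j h / 8 * lam ^ j) := by
            rw [mul_comm (coeff j h / 8), ← mul_assoc, halam, one_mul]
        _ ≤ _ := mul_le_mul_of_nonneg_left (hx1 j h1 h2) (by positivity)
    · calc _ ≤ a ^ j * (coeff j h / 4 * lam ^ j) :=
            mul_le_mul_of_nonneg_left (hx2 j h1 h2) (by positivity)
        _ = _ := by rw [mul_comm (coeff j h / 4), ← mul_assoc, halam, one_mul]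
  have hxz0 : ∀ j, ¬ (K ≤ j ∧ j < 4 * K) → coeff j xz = 0 := by
    intro j hj
    rw [hxz, coeff_rescale, hx, coeff_mk, if_neg hj, mul_zero]
  have hyzk : ∀ j, 2 * K ≤ j → j < 4 * K → ν * coeff (j - K) h / 8 ≤ coeff j yz ∧
      coeff j yz ≤ ν * coeff (j - K) h / 4 := by
    intro j h1 h2
    rw [hyz, coeff_rescale, hy, coeff_mk, if_pos ⟨h1, h2⟩]
    constructor
    · calc ν * coeff (j - K) h / 8 = a ^ j * (ν * coeff (j - K) h / 8 * lam ^ j) := by
            rw [mul_comm (ν * coeff (j - K) h / 8), ← mul_assoc, halam, one_mul]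
        _ ≤ _ := mul_le_mul_of_nonneg_left (hy1 j h1 h2) (by positivity)
    · calc _ ≤ a ^ j * (ν * coeff (j - K) h / 4 * lam ^ j) :=
            mul_le_mul_of_nonneg_left (hy2 j h1 h2) (by positivity)
        _ = _ := by rw [mul_comm (ν * coeff (j - K) h / 4), ← mul_assoc, halam, one_mul]
  have hyz0 : ∀ j, ¬ (2 * K ≤ j ∧ j < 4 * K) → coeff j yz = 0 := by
    intro j hj
    rw [hyz, coeff_rescale, hy, coeff_mk, if_neg hj, mul_zero]
  have hxznn : CLE 0 xz := by
    intro j
    rw [map_zero]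
    by_cases hj : K ≤ j ∧ j < 4 * K
    · have := (hxzk j hj.1 hj.2).1
      have := hhk0 j
      linarith
    · rw [hxz0 j hj]
  have hxz4 : CLE xz (C (1 / 4) * h) := by
    intro j
    rw [coeff_C_mul]
    by_cases hj : K ≤ j ∧ j < 4 * K
    · have := (hxzk j hj.1 hj.2).2
      linarith
    · rw [hxz0 j hj]
      have := hhk0 j
      positivity
  have hyznn : CLE 0 yz := by
    intro j
    rw [map_zero]
    by_cases hj : 2 * K ≤ j ∧ j < 4 * K
    · have h1 := (hyzk j hj.1 hj.2).1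
      have h2 := hhk0 (j - K)
      have : 0 ≤ ν * coeff (j - K) h / 8 := by positivity
      linarith
    · rw [hyz0 j hj]
  have hyz4 : CLE yz (C (ν / 4) * (X ^ K * h)) := by
    intro j
    rw [coeff_C_mul, coeff_X_pow_mul']
    by_cases hj : 2 * K ≤ j ∧ j < 4 * K
    · rw [if_pos (by omega)]
      have := (hyzk j hj.1 hj.2).2
      linarith
    · rw [hyz0 j hj]
      split_ifs
      · have := hhk0 (j - K)
        positivity
      · simp
  have hxpos : ∀ j, K ≤ j → j < 4 * K → 0 < coeff j x := by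
    intro j h1 h2
    rw [hx, coeff_mk, if_pos ⟨h1, h2⟩]
    refine lt_of_lt_of_le ?_ (hx1 j h1 h2)
    have : 0 < coeff j h := lt_of_lt_of_le hκ0 (hκh j h1 h2)
    positivity
  have hypos : ∀ j, 2 * K ≤ j → j < 4 * K → 0 < coeff j y := by
    intro j h1 h2
    rw [hy, coeff_mk, if_pos ⟨h1, h2⟩]
    refine lt_of_lt_of_le ?_ (hy1 j h1 h2)
    have : 0 < coeff (j - K) h := lt_of_lt_of_le hκ0 (hκh (j - K) (by omega) (by omega))
    positivity
  have hx0 : ∀ j, ¬ (K ≤ j ∧ j < 4 * K) → coeff j x = 0 := fun j hj => by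
    rw [hx, coeff_mk, if_neg hj]
  have hy0 : ∀ j, ¬ (2 * K ≤ j ∧ j < 4 * K) → coeff j y = 0 := fun j hj => by
    rw [hy, coeff_mk, if_neg hj]
  have hc₀ : 0 < 1 / 4 * κ * lam ^ K := by positivity
  refine ⟨K, l, ω, δ, 1 / 4 * κ * lam ^ K, x, y, b, hK4, hδ0, hc₀, hωS, hω0, hl, ?_, ?_, hxpos, hx0, hypos, hy0, hb, hbs,
    ?_, ?_⟩
  · intro j
    rw [hx, coeff_mk]
    split_ifs with hj
    · exact hxS j hj.1 hj.2
    · exact S.zero_mem
  · intro j
    rw [hy, coeff_mk]
    split_ifs with hj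
    · exact hyS j hj.1 hj.2
    · exact S.zero_mem
  · -- the root
    set g : ℝ → ℝ := fun t => ∑ k ∈ range (4 * K), coeff k x * t ^ k with hg
    have hgc : Continuous g := by
      rw [hg]; exact continuous_finsetSum _ fun k _ => by fun_prop
    have hg0 : g 0 = 0 := by
      simp only [hg]
      refine Finset.sum_eq_zero fun k _ => ?_
      rcases Nat.eq_zero_or_pos k with rfl | hk
      · rw [hx0 0 (by omega), zero_mul]
      · rw [zero_pow (by omega), mul_zero]
    have hgr : 1 < g r := by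
      have h1 : coeff K x * r ^ K ≤ g r := by
        simp only [hg]
        refine Finset.single_le_sum (f := fun k => coeff k x * r ^ k) (fun k _ => ?_)
          (by simp; omega)
        by_cases hk : K ≤ k ∧ k < 4 * K
        · have := hxpos k hk.1 hk.2
          positivity
        · rw [hx0 k hk, zero_mul]
      refine lt_of_lt_of_le ?_ h1
      have h2 := hx1 K le_rfl (by omega)
      have h3 := hκh K le_rfl (by omega)
      have h4 : coeff K x = xs K := by rw [hx, coeff_mk, if_pos ⟨le_rfl, by omega⟩]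
      rw [h4]
      have h5 : μ ^ K ≤ coeff K h / 8 := K2.trans (hκ2b.trans (by linarith))
      have h6 : 1 < μ * (lam * r) := by
        have h7 : 1 / (lam * r) < μ := hτ'μ
        rw [div_lt_iff₀ hlr0] at h7
        exact h7
      calc (1 : ℝ) < (μ * (lam * r)) ^ K := one_lt_pow₀ h6 (by omega)
        _ = μ ^ K * lam ^ K * r ^ K := by rw [mul_pow, mul_pow]; ring
        _ ≤ coeff K h / 8 * lam ^ K * r ^ K := by gcongr
        _ ≤ xs K * r ^ K := mul_le_mul_of_nonneg_right h2 (by positivity)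
    obtain ⟨ρ, hρ, hρ1⟩ := intermediate_value_Ioo hr.le hgc.continuousOn
      (show (1 : ℝ) ∈ Set.Ioo (g 0) (g r) from ⟨by rw [hg0]; exact one_pos, hgr⟩)
    exact ⟨ρ, hρ.1, hρ.2, hρ1⟩
  · intro Δ qx qy hΔ0 hΔ1 hqx hqy
    set qxz : PowerSeries ℝ := PowerSeries.rescale a qx with hqxz
    set qyz : PowerSeries ℝ := PowerSeries.rescale a qy with hqyz
    have hqxz1 : qxz * (1 - xz) = 1 := by
      rw [hqxz, hxz, ← map_one (PowerSeries.rescale a), ← map_sub, ← map_mul, hqx]
    have hqyz1 : qyz * (1 - yz) = 1 := by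
      rw [hqyz, hyz, ← map_one (PowerSeries.rescale a), ← map_sub, ← map_mul, hqy]
    have hτ'pow : ∀ k, τ' ^ k * r ^ k = a ^ k := by
      intro k
      rw [← mul_pow]; congr 1
      rw [hτ', ha]; field_simp
    have hxz00 : coeff 0 xz = 0 := hxz0 0 (by omega)
    have hyz00 : coeff 0 yz = 0 := hyz0 0 (by omega)
    have hqx0 := (renew_coeff hqxz1 hxz00).1
    have hqy0 := (renew_coeff hqyz1 hyz00).1
    have hqxnn := renew_nonneg hqxz1 hxz00 hxznn
    have hqynn := renew_nonneg hqyz1 hyz00 hyznn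
    -- column e
    have ce := column_e M (A := δ * Cb) (ν := r₀ * ν) (τ' := τ')
      (Δ := PowerSeries.rescale a (Δ * b)) (m := 4 * K)
      hκ0 hκ1 (hκh K le_rfl (by omega)) hμ0 hμ1.le hτ0 hτμ hτ'0 hτ'μ K3 hε1 hε0 hxznn hxz4
      (fun j h1 h2 => by
        have := (hxzk j h1 (by omega)).1
        have := hκh j h1 (by omega)
        linarith) (K2.trans hκ2b) hqxz1 (by positivity) hr₀ν (by positivity) hδ1 (by omega)
      (fun k => by
        have h1 := conv_bound hr hδ0.le hbs hΔ1 k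
        rw [coeff_rescale, abs_mul, abs_of_nonneg (pow_nonneg ha0.le k), ← hτ'pow k]
        calc τ' ^ k * r ^ k * |coeff k (Δ * b)| = (|coeff k (Δ * b)| * r ^ k) * τ' ^ k := by ring
          _ ≤ _ := mul_le_mul_of_nonneg_right h1 (by positivity))
      (fun k hk => by rw [coeff_rescale, conv_zero hΔ0 k hk, mul_zero])
    have ce' : CLE (C (1 / 4) * (h * qxz)) (PowerSeries.rescale a
        (((1 - f * b) * (1 - C (r₀ * ω) * X ^ K) - x - Δ * b) * qx)) := by
      convert ce using 1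
      rw [map_mul, map_sub, map_sub, map_mul, map_sub, map_sub, rescale_CX, map_one, hfbz, hqxz,
        hxz, mul_assoc (r₀ : ℝ) ω, ← hν]
    -- column a
    have ca := column_a M (A := δ) (ν := ν) (τ' := τ')
      (Δ := PowerSeries.rescale a Δ) (m := 4 * K)
      hκ0 hκ1 (fun k h1 h2 => hκh k h1 (by omega)) hμ0 hμ1.le hτ0 hτμ hτ'0 hτ'μ K3 hε1 hε0
      hyznn hyz4
      (fun j h1 h2 => by
        have h3 := (hyzk j h1 h2).1
        have h4 := hκh (j - K) (by omega) (by omega)
        have h5 := mul_le_mul_of_nonneg_left h4 hν0.le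
        linarith) (K2.trans hνκ) hqyz1 hν0.le hδ0.le hδ2 le_rfl
      (fun k => by
        rw [coeff_rescale, abs_mul, abs_of_nonneg (pow_nonneg ha0.le k), ← hτ'pow k]
        calc τ' ^ k * r ^ k * |coeff k Δ| = (|coeff k Δ| * r ^ k) * τ' ^ k := by ring
          _ ≤ _ := mul_le_mul_of_nonneg_right (hΔ1 k) (by positivity))
      (fun k hk => by rw [coeff_rescale, hΔ0 k hk, mul_zero])
    have ca' : CLE (C (ν / 4) * (X ^ K * (h * qyz))) (PowerSeries.rescale a
        (((1 - f * b) * (C ω * X ^ K) - y - Δ) * qy)) := by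
      convert ca using 1
      rw [map_mul, map_sub, map_sub, map_mul, map_sub, rescale_CX, map_one, hfbz, hqyz, hyz, ← hν]
    have hhq : ∀ k, K ≤ k → ∀ q : PowerSeries ℝ, CLE 0 q → coeff 0 q = 1 →
        0 < coeff k (h * q) := by
      intro k hk q hq hq0
      refine lt_of_lt_of_le ?_ (coeff_mul_ge hhnn hq k 0)
      rw [hq0, mul_one]; exact M.h_pos hk
    refine ⟨fun k => ?_, fun k hk => ?_, fun k hk => ?_, fun k => ?_, fun k hk => ?_⟩
    · rw [coeff_eq_rescale hlam]
      refine mul_nonneg (by positivity) (le_trans ?_ (ce' k))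
      rw [coeff_C_mul]
      have := CLE.mul_nonneg hhnn hqxnn k
      rw [map_zero] at this
      positivity
    · rw [coeff_eq_rescale hlam]
      refine mul_pos (by positivity) (lt_of_lt_of_le ?_ (ce' k))
      rw [coeff_C_mul]
      have := hhq k hk qxz hqxnn hqx0
      positivity
    · have h1 := ce' k
      rw [coeff_C_mul] at h1
      have h2 := coeff_mul_ge hhnn hqxnn K (k - K)
      rw [Nat.add_sub_cancel' hk] at h2
      have h3 : 0 ≤ coeff (k - K) qxz := by
        have := hqxnn (k - K); rwa [map_zero] at this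
      have h4 : κ * coeff (k - K) qxz ≤ coeff k (h * qxz) :=
        (mul_le_mul_of_nonneg_right (hκh K le_rfl (by omega)) h3).trans h2
      rw [coeff_eq_rescale hlam qx (k - K)]
      conv_rhs => rw [coeff_eq_rescale hlam]
      have e : lam ^ k = lam ^ K * lam ^ (k - K) := by rw [← pow_add]; congr 1; omega
      rw [e]
      calc 1 / 4 * κ * lam ^ K * (lam ^ (k - K) * coeff (k - K) qxz)
          = lam ^ K * lam ^ (k - K) * (1 / 4 * (κ * coeff (k - K) qxz)) := by ring
        _ ≤ _ := mul_le_mul_of_nonneg_left (by linarith) (by positivity)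
    · rw [coeff_eq_rescale hlam]
      refine mul_nonneg (by positivity) (le_trans ?_ (ca' k))
      rw [coeff_C_mul, coeff_X_pow_mul']
      split_ifs
      · have := CLE.mul_nonneg hhnn hqynn (k - K)
        rw [map_zero] at this
        positivity
      · simp
    · rw [coeff_eq_rescale hlam]
      refine mul_pos (by positivity) (lt_of_lt_of_le ?_ (ca' k))
      rw [coeff_C_mul, coeff_X_pow_mul', if_pos (by omega)]
      have := hhq (k - K) (by omega) qyz hqynn hqy0
      positivity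

end Pool.Agent.Lib.MP_49224a_al
end

section

/-!
# The assembly
-/

set_option autoImplicit false

namespace Pool.Agent.Lib.MP_49224a_al

open Matrix Polynomial

/-- real version of a series over a subring -/
noncomputable def toR {S : Subring ℝ} : PowerSeries S →+* PowerSeries ℝ :=
  PowerSeries.map S.subtype

theorem coeff_toR {S : Subring ℝ} (φ : PowerSeries S) (k : ℕ) :
    PowerSeries.coeff k (toR φ) = ((PowerSeries.coeff k φ : S) : ℝ) := by
  rw [toR, PowerSeries.coeff_map]; rfl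

theorem exists_toR {S : Subring ℝ} (φ : PowerSeries ℝ) (h : ∀ k, PowerSeries.coeff k φ ∈ S) :
    ∃ ψ : PowerSeries S, toR ψ = φ := by
  refine ⟨PowerSeries.mk fun k => ⟨PowerSeries.coeff k φ, h k⟩, ?_⟩
  ext k
  rw [coeff_toR, PowerSeries.coeff_mk]

theorem toR_injective {S : Subring ℝ} : Function.Injective (toR (S := S)) := by
  intro a b h
  ext k
  have := congrArg (PowerSeries.coeff k) h
  rwa [coeff_toR, coeff_toR] at this

/-- product of the factors over a ring -/
noncomputable def facsR {R : Type} [CommRing R] (l : List (ℕ × R)) : PowerSeries R :=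
  (l.map fun p => 1 - PowerSeries.C p.2 * PowerSeries.X ^ p.1).prod

/-- real version of a list -/
def lR {S : Subring ℝ} (l : List (ℕ × S)) : List (ℕ × ℝ) := l.map fun p => (p.1, (p.2 : ℝ))

theorem exists_lR {S : Subring ℝ} (l : List (ℕ × ℝ)) (h : ∀ p ∈ l, p.2 ∈ S) :
    ∃ l' : List (ℕ × S), lR l' = l := by
  induction l with
  | nil => exact ⟨[], rfl⟩
  | cons p l ih =>
    obtain ⟨l', hl'⟩ := ih fun q hq => h q (by simp [hq])
    refine ⟨(p.1, ⟨p.2, h p (by simp)⟩) :: l', ?_⟩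
    have : lR ((p.1, (⟨p.2, h p (by simp)⟩ : S)) :: l') = p :: lR l' := rfl
    rw [this, hl']

theorem toR_facsR {S : Subring ℝ} (l : List (ℕ × S)) : toR (facsR l) = facs (lR l) := by
  induction l with
  | nil => simp [facsR, facs, lR]
  | cons p l ih =>
    have h1 : facsR (p :: l) = (1 - PowerSeries.C p.2 * PowerSeries.X ^ p.1) * facsR l := by
      simp [facsR]
    have h2 : lR (p :: l) = (p.1, (p.2 : ℝ)) :: lR l := rfl
    rw [h1, h2, facs_cons, map_mul, ih]
    congr 1
    simp [toR]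

theorem toR_coe {S : Subring ℝ} (p : S[X]) (k : ℕ) :
    PowerSeries.coeff k (toR (p : PowerSeries S)) = ((p.coeff k : S) : ℝ) := by
  rw [coeff_toR, Polynomial.coeff_coe]

theorem dec_of_sm {S : Subring ℝ} {r r' : ℝ} (hr' : r < r') {φ : PowerSeries S}
    (h : Sm r' (toR φ)) (hr0 : 0 ≤ r') : Dec r (φ.map (toC S)) := by
  refine ⟨r', hr', ∑' k, |PowerSeries.coeff k (toR φ)| * r' ^ k, fun k => ?_⟩
  have h1 : ‖PowerSeries.coeff k (φ.map (toC S))‖ = |PowerSeries.coeff k (toR φ)| := by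
    rw [PowerSeries.coeff_map, coeff_toR]
    simp [toC]
  rw [h1]
  exact Summable.le_tsum h k (fun j _ => by positivity)

theorem sm_of_bs {S : Subring ℝ} {r : ℝ} (hr : 0 < r) (φ : BS S r hr) :
    Sm r (toR (φ : PowerSeries S)) := by
  have := Dec.summable_coeff hr φ.2
  refine this.congr fun k => ?_
  rw [coeff_toR]

theorem inv_one_sub_nonneg {x q : PowerSeries ℝ} (hx : ∀ k, 0 ≤ PowerSeries.coeff k x)
    (hx0 : PowerSeries.coeff 0 x = 0) (hq : q * (1 - x) = 1) :
    ∀ k, 0 ≤ PowerSeries.coeff k q := by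
  intro k
  induction k using Nat.strong_induction_on with
  | _ k ih =>
    have h1 : q = 1 + x * q := by linear_combination hq
    rw [h1, map_add, PowerSeries.coeff_mul, PowerSeries.coeff_one]
    refine add_nonneg (by split_ifs <;> norm_num) (Finset.sum_nonneg fun p hp => ?_)
    rw [Finset.HasAntidiagonal.mem_antidiagonal] at hp
    rcases Nat.eq_zero_or_pos p.1 with h0 | h0
    · rw [h0, hx0, zero_mul]
    · exact mul_nonneg (hx _) (ih _ (by omega))

theorem coeff_mul_nonneg {x y : PowerSeries ℝ} (hx : ∀ k, 0 ≤ PowerSeries.coeff k x)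
    (hy : ∀ k, 0 ≤ PowerSeries.coeff k y) (k : ℕ) : 0 ≤ PowerSeries.coeff k (x * y) := by
  rw [PowerSeries.coeff_mul]
  exact Finset.sum_nonneg fun p _ => mul_nonneg (hx _) (hy _)

/-- the entries of `Q` over the reals -/
theorem entry_eq {h w fl b x y qx qy Δ d : PowerSeries ℝ} (hfb : b * fl = 1)
    (hqx : qx * (1 - x) = 1) (hqy : qy * (1 - y) = 1) :
    (d - ((d - h * w) * fl + Δ) * (b * qx) = (h * w - d * x - Δ * b) * qx) ∧
    (d - ((d - h * w) * 1 + Δ) * qy = (h * w - d * y - Δ) * qy) := by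
  constructor
  · linear_combination (-(d - h * w) * qx) * hfb - d * hqx
  · linear_combination - d * hqy

theorem assemble {S : Subring ℝ} {lam σ r : ℝ} (hr : 0 < r) (hσ : 0 < σ) (hσl : σ < lam)
    (hlr : 1 < lam * r) (hσr : σ * r < 1)
    (hS : ∀ k : ℕ, 1 ≤ k → ∀ x : ℝ, ∃ s ∈ S, x ≤ s ∧ s ≤ x + σ ^ k)
    (hdec : ∀ k : ℕ, 1 ≤ k → ∀ g ∈ S, 0 ≤ g → ∃ cs : List ℝ,
      (∀ c ∈ cs, c ∈ S ∧ 0 ≤ c ∧ c ≤ σ ^ k) ∧ cs.sum = g)
    {ι : Type} [Fintype ι] [DecidableEq ι] (e : ι) (hι : 3 ≤ Fintype.card ι)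
    (A : Matrix ι ι S) (E E' : Matrix ι ι (BS S r hr)) (hE : IsEl E) (hE' : IsEl E')
    (fB : BS S r hr)
    (hdiag : E * (1 - (X : S[X]) • A.map C : Matrix ι ι S[X]).map (pcHom S r hr) * E'
      = diagonal (Function.update 1 e fB))
    (hf0 : PowerSeries.coeff 0 (fB : PowerSeries S) = 1)
    {s : ℕ → ℝ} (hfs : LD (PowerSeries.mk s) (toR (fB : PowerSeries S)))
    {θ C₀ : ℝ} (hθ0 : 0 ≤ θ) (hθ1 : θ < 1) (hC₀ : 0 ≤ C₀)
    (hsl : ∀ k, 1 ≤ k → |s k - lam ^ k| ≤ C₀ * (θ * lam) ^ k)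
    (hlow : ∀ K : ℕ, ∃ l : List (ℕ × ℝ),
      (∀ p ∈ l, 1 ≤ p.1 ∧ p.1 < K ∧ p.2 ∈ S ∧ 0 ≤ p.2 ∧ p.2 ≤ σ ^ p.1) ∧
      ∀ k, k < K → PowerSeries.coeff k (facs l)
        = PowerSeries.coeff k (toR (fB : PowerSeries S))) :
    ∃ (N : ℕ) (H : Matrix (Fin N × ι) (Fin N × ι) S), 1 ≤ N ∧ SSE H A ∧ (∀ i j, 0 ≤ H i j) ∧
      ∃ k : ℕ, 0 < k ∧ ∀ i j, 0 < (H ^ k) i j := by
  obtain ⟨K, l, ω, δ, c₀, x, y, b, hK4, hδ, hc₀, hωS, hω0, hl, hxS, hyS, hxpos, hxz, hypos, hyz,
    hb, hbs, ⟨ρ, hρ0, hρr, hxρ⟩, hmain⟩ := seq_main hσ hσl hlr hσr hS hdec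
      (f := toR (fB : PowerSeries S)) (fun k => by rw [coeff_toR]; exact Subtype.mem _) hfs
      hθ0 hθ1 hC₀ hsl hlow (Fintype.card ι - 1)
  obtain ⟨lS, rfl⟩ := exists_lR l (fun p hp => (hl p hp).2.1)
  obtain ⟨xS, rfl⟩ := exists_toR x hxS
  obtain ⟨yS, rfl⟩ := exists_toR y hyS
  set ωS : S := ⟨ω, hωS⟩ with hωSdef
  -- the inverse of `facs l`
  have hfac0 : PowerSeries.constantCoeff (facsR lS) = ((1 : Sˣ) : S) := by
    have h1 := facs_coeff_zero (l := lR lS) (fun p hp => (hl p hp).1)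
    rw [← toR_facsR, coeff_toR] at h1
    rw [← PowerSeries.coeff_zero_eq_constantCoeff_apply]
    exact Subtype.ext h1
  set bS : PowerSeries S := PowerSeries.invOfUnit (facsR lS) 1 with hbS
  have hbS1 : facsR lS * bS = 1 := PowerSeries.mul_invOfUnit _ _ hfac0
  have hbR : toR bS = b := by
    have h1 : facs (lR lS) * toR bS = 1 := by rw [← toR_facsR, ← map_mul, hbS1, map_one]
    calc toR bS = b * facs (lR lS) * toR bS := by rw [hb, one_mul]
      _ = b := by rw [mul_assoc, h1, mul_one]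
  have hbDec : Dec r (bS.map (toC S)) := by
    have hr1 : r < (r + 1 / σ) / 2 := by
      have : r < 1 / σ := by rw [lt_div_iff₀ hσ]; linarith
      linarith
    have hr2 : σ * ((r + 1 / σ) / 2) < 1 := by
      have : σ * ((r + 1 / σ) / 2) = (σ * r + 1) / 2 := by field_simp
      rw [this]; linarith
    obtain ⟨b', hb', hbs'⟩ := facs_inv (l := lR lS) (r := (r + 1 / σ) / 2) hσ.le (by positivity)
      hr2 (fun p hp => ⟨(hl p hp).1, (hl p hp).2.2⟩)
    have : b' = b := by
      calc b' = b' * (facs (lR lS) * b) := by rw [mul_comm (facs (lR lS)), hb, mul_one]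
        _ = b := by rw [← mul_assoc, hb', one_mul]
    rw [this, ← hbR] at hbs'
    exact dec_of_sm hr1 hbs' (by positivity)
  -- ring elements
  set bi : BS S r hr := ⟨bS, hbDec⟩ with hbi
  set bb : BS S r hr := pcHom S r hr ((lS.map fun p => 1 - C p.2 * X ^ p.1).prod) with hbb
  have hbbc : (bb : PowerSeries S) = facsR lS := by
    rw [hbb, pcHom_coe, ← Polynomial.coeToPowerSeries.ringHom_apply, map_list_prod, facsR,
      List.map_map]
    congr 1
    refine List.map_congr_left fun p _ => ?_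
    simp
  have hbbi : bb * bi = 1 := by
    apply Subtype.ext
    change (bb : PowerSeries S) * bS = 1
    rw [hbbc, hbS1]
  set w0 : BS S r hr := pcHom S r hr (C ωS * X ^ K) with hw0
  set w : ι → BS S r hr := fun a => if a = e then 0 else w0 with hw
  have hwe : w e = 0 := by simp [hw]
  have htgt := target_eq e bb bi (fB * bi) hbbi w hwe
  set G₀ : Matrix ι ι (BS S r hr) :=
    (1 - (1 - fB * bi) • vecMulVec (fun _ => (1 : BS S r hr))
        (fun c => if c = e then 1 - ∑ a, w a else w c))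
        * diagonal (Function.update (1 : ι → BS S r hr) e bb) with hG₀
  set E1 := (1 + vecMulVec (fun a => if a = e then (0 : BS S r hr) else 1) (Pi.single e 1))
        * (1 + vecMulVec (Pi.single e 1) (-w)) with hE1
  have hE1' : IsEl E1 :=
    (IsEl.one_add_col e _ (by simp)).mul_mul (IsEl.one_add_row e _ (by simp [hwe]))
  set E2 := (1 + vecMulVec (Pi.single e 1) (bi • w))
        * (1 + vecMulVec (fun a => if a = e then (0 : BS S r hr) else -bb) (Pi.single e 1)) with hE2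
  have hE2' : IsEl E2 :=
    (IsEl.one_add_row e _ (by simp [hwe])).mul_mul (IsEl.one_add_col e _ (by simp))
  set M : Matrix ι ι S[X] := 1 - (X : S[X]) • A.map C with hM
  have hG₀eq : G₀ = (E1 * E) * M.map (pcHom S r hr) * (E' * E2) := by
    have h1 : fB * bi * bb = fB := by rw [mul_assoc, mul_comm bi, hbbi, mul_one]
    rw [htgt, h1, ← hdiag, hE2]
    simp only [Matrix.mul_assoc]
  -- approximation
  obtain ⟨L, L', hL, hL', hlowF, hcloseF⟩ := approx_gen hr (bsIncl S r hr)
    (fun β => Dec.summable_coeff hr β.2) M (E1 * E) (E' * E2) (hE1'.mul_mul hE)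
    (hE'.mul_mul hE2') (G₀.map (bsIncl S r hr))
    (by
      rw [hG₀eq, Matrix.map_mul, Matrix.map_mul]
      rfl) (4 * K) δ hδ
  set F : Matrix ι ι S[X] := L * M * L' with hF
  -- the entries over the reals
  set f : PowerSeries ℝ := toR (fB : PowerSeries S) with hf
  set h' : PowerSeries ℝ := 1 - f * b with hh'
  set wr : ι → PowerSeries ℝ := fun c => if c = e
    then 1 - PowerSeries.C (((Fintype.card ι - 1 : ℕ) : ℝ) * ω) * PowerSeries.X ^ K
    else PowerSeries.C ω * PowerSeries.X ^ K with hwr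
  have hw0R : toR ((w0 : BS S r hr) : PowerSeries S) = PowerSeries.C ω * PowerSeries.X ^ K := by
    rw [hw0, pcHom_coe]
    simp [toR, hωSdef]
  have hGR : ∀ a c, toR ((G₀ a c : BS S r hr) : PowerSeries S)
      = ((if a = c then 1 else 0) - h' * wr c) * (if c = e then facs (lR lS) else 1) := by
    intro a c
    set ψ : BS S r hr →+* PowerSeries ℝ := (toR (S := S)).comp (bsIncl S r hr) with hψ
    have hψa : ∀ z : BS S r hr, toR (z : PowerSeries S) = ψ z := fun z => rfl
    have hsum : ∑ a, ψ (w a) = PowerSeries.C (((Fintype.card ι - 1 : ℕ) : ℝ) * ω)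
        * PowerSeries.X ^ K := by
      have h1 : ∀ a, ψ (w a) = if a = e then 0 else PowerSeries.C ω * PowerSeries.X ^ K := by
        intro a
        by_cases ha : a = e
        · rw [if_pos ha, hw]; simp [ha]
        · rw [if_neg ha, ← hw0R, hw]; simp only [ha, if_false]; rfl
      rw [Finset.sum_congr rfl fun a _ => h1 a, Finset.sum_ite, Finset.sum_const_zero, zero_add,
        Finset.sum_const, Finset.filter_ne', Finset.card_erase_of_mem (Finset.mem_univ _),
        Finset.card_univ, nsmul_eq_mul, map_mul, map_natCast, mul_assoc]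
    have hbψ : ψ bi = b := hbR
    have hfψ : ψ fB = f := rfl
    have hbbψ : ψ bb = facs (lR lS) := by
      rw [← toR_facsR, ← hbbc]; rfl
    rw [hψa, hG₀, Matrix.mul_diagonal, Matrix.sub_apply, Matrix.smul_apply, vecMulVec_apply,
      map_mul, map_sub, smul_eq_mul, one_mul, map_mul, map_sub, map_mul, hbψ, hfψ, map_one]
    congr 1
    · congr 1
      · rw [Matrix.one_apply]; split_ifs <;> simp
      · congr 1
        rw [hwr]
        by_cases hc : c = e
        · simp only [hc, if_true]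
          rw [map_sub, map_one, map_sum, hsum]
        · simp only [hc, if_false]
          rw [← hw0R, hw]; simp only [hc, if_false]; rfl
    · by_cases hc : c = e
      · subst hc; rw [Function.update_self, hbbψ, if_pos rfl]
      · rw [Function.update_of_ne hc, if_neg hc]; simp
  set Δ : ι → ι → PowerSeries ℝ := fun a c => toR ((F a c : S[X]) : PowerSeries S)
    - toR ((G₀ a c : BS S r hr) : PowerSeries S) with hΔ
  have hΔ0 : ∀ a c k, k < 4 * K → PowerSeries.coeff k (Δ a c) = 0 := by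
    intro a c k hk
    have h1 := hlowF a c k hk
    rw [hΔ]
    simp only [map_sub]
    rw [toR_coe, coeff_toR, h1]
    exact sub_self _
  have hΔδ : ∀ a c k, |PowerSeries.coeff k (Δ a c)| * r ^ k ≤ δ := by
    intro a c k
    have h1 := hcloseF a c k
    rw [hΔ]
    simp only [map_sub]
    rw [toR_coe, coeff_toR]
    exact h1
  -- inverses of `1 - x`, `1 - y`
  have hx0 : PowerSeries.coeff 0 (toR xS) = 0 := hxz 0 (by omega)
  have hy0 : PowerSeries.coeff 0 (toR yS) = 0 := hyz 0 (by omega)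
  have hinv : ∀ z : PowerSeries S, PowerSeries.coeff 0 (toR z) = 0 →
      ∃ q : PowerSeries S, q * (1 - z) = 1 := by
    intro z hz
    refine ⟨PowerSeries.invOfUnit (1 - z) 1, ?_⟩
    rw [mul_comm]
    refine PowerSeries.mul_invOfUnit _ _ ?_
    rw [coeff_toR] at hz
    have h1 : PowerSeries.constantCoeff z = 0 := by
      rw [← PowerSeries.coeff_zero_eq_constantCoeff_apply]
      exact Subtype.ext hz
    simp [h1]
  obtain ⟨qx, hqx⟩ := hinv xS hx0
  obtain ⟨qy, hqy⟩ := hinv yS hy0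
  have hqxR : toR qx * (1 - toR xS) = 1 := by
    rw [← map_one (toR (S := S)), ← map_sub, ← map_mul, hqx]
  have hqyR : toR qy * (1 - toR yS) = 1 := by
    rw [← map_one (toR (S := S)), ← map_sub, ← map_mul, hqy]
  -- `Q`
  set Q : Matrix ι ι (PowerSeries S) := 1 - F.map (fun p => (p : PowerSeries S)) *
    diagonal (fun c => if c = e then bS * qx else qy) with hQ
  have hQe : ∀ a, toR (Q a e) = (h' * wr e - (if a = e then 1 else 0) * toR xS - Δ a e * b)
      * toR qx := by
    intro a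
    have h1 : toR (Q a e) = (if a = e then 1 else 0)
        - (((if a = e then 1 else 0) - h' * wr e) * facs (lR lS) + Δ a e) * (b * toR qx) := by
      have h2 := hGR a e
      rw [if_pos rfl] at h2
      rw [hQ, Matrix.sub_apply, Matrix.mul_diagonal, Matrix.map_apply, if_pos rfl, map_sub, map_mul,
        map_mul, hbR, ← h2, hΔ]
      simp only [add_sub_cancel]
      congr 1
      by_cases hae : a = e
      · subst hae; simp
      · simp [hae]
    rw [h1]
    exact (entry_eq hb hqxR hqyR).1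
  have hQc : ∀ a c, c ≠ e → toR (Q a c)
      = (h' * wr c - (if a = c then 1 else 0) * toR yS - Δ a c) * toR qy := by
    intro a c hc
    have h1 : toR (Q a c) = (if a = c then 1 else 0)
        - (((if a = c then 1 else 0) - h' * wr c) * 1 + Δ a c) * toR qy := by
      have h2 := hGR a c
      rw [if_neg hc] at h2
      rw [hQ, Matrix.sub_apply, Matrix.mul_diagonal, Matrix.map_apply, if_neg hc, map_sub, map_mul,
        ← h2, hΔ]
      simp only [add_sub_cancel]
      congr 1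
      by_cases hac : a = c
      · subst hac; simp
      · simp [hac]
    rw [h1]
    exact (entry_eq (x := toR xS) hb hqxR hqyR).2
  -- positivity
  have hxnn : ∀ k, 0 ≤ PowerSeries.coeff k (toR xS) := by
    intro k
    by_cases hk : K ≤ k ∧ k < 4 * K
    · exact (hxpos k hk.1 hk.2).le
    · rw [hxz k hk]
  have hynn : ∀ k, 0 ≤ PowerSeries.coeff k (toR yS) := by
    intro k
    by_cases hk : 2 * K ≤ k ∧ k < 4 * K
    · exact (hypos k hk.1 hk.2).le
    · rw [hyz k hk]
  have hqxnn := inv_one_sub_nonneg hxnn hx0 hqxR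
  have hqynn := inv_one_sub_nonneg hynn hy0 hqyR
  have hxq := coeff_mul_nonneg hxnn hqxnn
  have hyq := coeff_mul_nonneg hynn hqynn
  have hge_e : ∀ a k, PowerSeries.coeff k ((h' * wr e - toR xS - Δ a e * b) * toR qx)
      ≤ PowerSeries.coeff k (toR (Q a e)) := by
    intro a k
    rw [hQe]
    by_cases hae : a = e
    · rw [if_pos hae, one_mul]
    · rw [if_neg hae, zero_mul, sub_zero]
      have h1 : (h' * wr e - Δ a e * b) * toR qx
          = (h' * wr e - toR xS - Δ a e * b) * toR qx + toR xS * toR qx := by ring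
      rw [h1, map_add]
      linarith [hxq k]
  have hge_c : ∀ a c k, c ≠ e → PowerSeries.coeff k ((h' * wr c - toR yS - Δ a c) * toR qy)
      ≤ PowerSeries.coeff k (toR (Q a c)) := by
    intro a c k hc
    rw [hQc a c hc]
    by_cases hac : a = c
    · rw [if_pos hac, one_mul]
    · rw [if_neg hac, zero_mul, sub_zero]
      have h1 : (h' * wr c - Δ a c) * toR qy
          = (h' * wr c - toR yS - Δ a c) * toR qy + toR yS * toR qy := by ring
      rw [h1, map_add]
      linarith [hyq k]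
  have hwre : wr e = 1 - PowerSeries.C (((Fintype.card ι - 1 : ℕ) : ℝ) * ω)
      * PowerSeries.X ^ K := by rw [hwr]; simp
  have hwrc : ∀ c, c ≠ e → wr c = PowerSeries.C ω * PowerSeries.X ^ K := by
    intro c hc; rw [hwr]; simp [hc]
  have P1 : ∀ a k, 0 ≤ PowerSeries.coeff k (toR (Q a e)) := by
    intro a k
    refine le_trans ?_ (hge_e a k)
    rw [hwre]
    exact (hmain (Δ a e) (toR qx) (toR qy) (hΔ0 a e) (hΔδ a e) hqxR hqyR).1 k
  have P2 : ∀ a k, K ≤ k → 0 < PowerSeries.coeff k (toR (Q a e)) := by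
    intro a k hk
    refine lt_of_lt_of_le ?_ (hge_e a k)
    rw [hwre]
    exact (hmain (Δ a e) (toR qx) (toR qy) (hΔ0 a e) (hΔδ a e) hqxR hqyR).2.1 k hk
  have P3 : ∀ a k, K ≤ k → c₀ * PowerSeries.coeff (k - K) (toR qx)
      ≤ PowerSeries.coeff k (toR (Q a e)) := by
    intro a k hk
    refine le_trans ?_ (hge_e a k)
    rw [hwre]
    exact (hmain (Δ a e) (toR qx) (toR qy) (hΔ0 a e) (hΔδ a e) hqxR hqyR).2.2.1 k hk
  have P4 : ∀ a c k, c ≠ e → 0 ≤ PowerSeries.coeff k (toR (Q a c)) := by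
    intro a c k hc
    refine le_trans ?_ (hge_c a c k hc)
    rw [hwrc c hc]
    exact (hmain (Δ a c) (toR qx) (toR qy) (hΔ0 a c) (hΔδ a c) hqxR hqyR).2.2.2.1 k
  have P5 : ∀ a c k, c ≠ e → 2 * K ≤ k → 0 < PowerSeries.coeff k (toR (Q a c)) := by
    intro a c k hc hk
    refine lt_of_lt_of_le ?_ (hge_c a c k hc)
    rw [hwrc c hc]
    exact (hmain (Δ a c) (toR qx) (toR qy) (hΔ0 a c) (hΔδ a c) hqxR hqyR).2.2.2.2 k hk
  -- constant coefficients
  have hc0 : ∀ u v : PowerSeries ℝ, PowerSeries.coeff 0 (u * v)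
      = PowerSeries.coeff 0 u * PowerSeries.coeff 0 v := by
    intro u v
    simp
  have hf00 : PowerSeries.coeff 0 f = 1 := by
    rw [hf, coeff_toR, hf0]; rfl
  have hb0 : PowerSeries.coeff 0 b = 1 := by
    have h1 := congrArg (PowerSeries.coeff 0) hb
    rw [hc0, facs_coeff_zero (fun p hp => (hl p hp).1), mul_one] at h1
    rw [h1]; simp
  have hh0 : PowerSeries.coeff 0 h' = 0 := by
    rw [hh', map_sub, hc0, hf00, hb0]; simp
  have hQ0R : ∀ a c, PowerSeries.coeff 0 (toR (Q a c)) = 0 := by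
    intro a c
    by_cases hc : c = e
    · subst hc
      rw [hQe, hc0, map_sub, map_sub, hc0, hc0, hc0, hh0, hx0, hΔ0 a c 0 (by omega)]; ring
    · rw [hQc a c hc, hc0, map_sub, map_sub, hc0, hc0, hh0, hy0, hΔ0 a c 0 (by omega)]; ring
  -- prefixes
  have hlR : ∀ l' : List (ℕ × S), l' <+: lS → ∀ p ∈ lR l', 1 ≤ p.1 ∧ 0 ≤ p.2 ∧ p.2 ≤ σ ^ p.1 := by
    intro l' hl' p hp
    have h1 : p ∈ lR lS := (List.IsPrefix.map (fun p : ℕ × S => (p.1, (p.2 : ℝ))) hl').subset hp
    exact ⟨(hl p h1).1, (hl p h1).2.2⟩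
  have hσρ : σ * ρ < 1 := by
    have : σ * ρ ≤ σ * r := mul_le_mul_of_nonneg_left hρr.le hσ.le
    linarith
  have hSmG : ∀ a, Sm ρ (h' * wr e - (if a = e then 1 else 0) * toR xS - Δ a e * b) := by
    intro a
    have hSx : Sm ρ (toR xS) := Sm.of_finite (N := 4 * K) fun k hk => hxz k (by omega)
    have hSf : Sm ρ f := (sm_of_bs hr fB).mono hρ0.le hρr.le
    have hSb : Sm ρ b := hbs.mono hρ0.le hρr.le
    have hS1 : Sm ρ (1 : PowerSeries ℝ) := Sm.of_finite (N := 1) fun k hk => by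
      rw [PowerSeries.coeff_one, if_neg (by omega)]
    have hS0 : Sm ρ (0 : PowerSeries ℝ) := Sm.of_finite (N := 0) fun k _ => by simp
    have hSh : Sm ρ h' := hS1.sub hρ0.le (hSf.mul hρ0.le hSb)
    have hSw : Sm ρ (wr e) := by
      rw [hwre]
      exact (evr_factor (by omega)).1
    have hSΔ : Sm ρ (Δ a e) := Sm.of_bound hρ0.le hρr (hΔδ a e)
    refine Sm.sub hρ0.le (Sm.sub hρ0.le (hSh.mul hρ0.le hSw) (Sm.mul hρ0.le ?_ hSx))
      (hSΔ.mul hρ0.le hSb)
    split_ifs
    · exact hS1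
    · exact hS0
  have hev : ∀ l' : List (ℕ × S), l' <+: lS → ∀ a, ∀ᶠ k in Filter.atTop,
      0 < PowerSeries.coeff k (toR (Q a e) * facs (lR l')) := by
    intro l' hl' a
    obtain ⟨h1, h2⟩ := evr_facs_pos hσ.le hρ0 hσρ (hlR l' hl')
    have h3 : 4 * K - 1 + 1 = 4 * K := by omega
    rw [hQe]
    refine eventually_pos (x := toR xS) (D := 4 * K - 1) (K := K) hxnn hx0
      (fun k hk => hxz k (by omega)) (hxpos K le_rfl (by omega)) (hxpos (K + 1) (by omega) (by omega))
      hρ0 (by rw [h3]; exact hxρ) hqxR (hSmG a) hc₀ (K' := K) (fun k hk => ?_) h1 h2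
    rw [← hQe]
    exact P3 a k hk
  obtain ⟨n₀, hn₀⟩ : ∃ n₀ : ℕ, ∀ k, n₀ ≤ k → ∀ l' ∈ {l' : List (ℕ × S) | l' ∈ lS.inits}, ∀ a,
      0 < PowerSeries.coeff k (toR (Q a e) * facs (lR l')) := by
    have h1 : ∀ᶠ k in Filter.atTop, ∀ l' ∈ {l' : List (ℕ × S) | l' ∈ lS.inits}, ∀ a,
      0 < PowerSeries.coeff k (toR (Q a e) * facs (lR l')) := by
      rw [Filter.eventually_all_finite (List.finite_toSet _)]
      intro l' hl'
      rw [Filter.eventually_all]
      exact hev l' ((List.mem_inits _ _).1 hl')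
    exact Filter.eventually_atTop.1 h1
  -- transfer to `S`
  have posS : ∀ (φ : PowerSeries S) k, 0 < PowerSeries.coeff k (toR φ) →
      0 < PowerSeries.coeff k φ := by
    intro φ k h1
    rw [coeff_toR] at h1
    exact h1
  have nnS : ∀ (φ : PowerSeries S) k, 0 ≤ PowerSeries.coeff k (toR φ) →
      0 ≤ PowerSeries.coeff k φ := by
    intro φ k h1
    rw [coeff_toR] at h1
    exact h1
  have zS : ∀ (φ : PowerSeries S) k, PowerSeries.coeff k (toR φ) = 0 →
      PowerSeries.coeff k φ = 0 := by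
    intro φ k h1
    rw [coeff_toR] at h1
    exact Subtype.ext h1
  obtain ⟨N, hN1, hNF, H, Km, Km', hK1, hK2, hHK, hHnn, k, hk, hHpos⟩ := realize (R := S) e lS
    (by
      intro p hp
      have h1 : (p.1, (p.2 : ℝ)) ∈ lR lS := List.mem_map.2 ⟨p, hp, rfl⟩
      exact ⟨(hl _ h1).1, (hl _ h1).2.2.1⟩)
    (4 * K - 1) (by omega) (fun c => if c = e then xS else yS)
    (by
      intro c
      by_cases hc : c = e
      · simp only [hc, if_true]; exact zS _ _ hx0
      · simp only [hc, if_false]; exact zS _ _ hy0)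
    (by
      intro c k
      by_cases hc : c = e
      · simp only [hc, if_true]; exact nnS _ _ (hxnn k)
      · simp only [hc, if_false]; exact nnS _ _ (hynn k))
    (by
      intro c
      by_cases hc : c = e
      · simp only [hc, if_true]; exact posS _ _ (hxpos _ (by omega) (by omega))
      · simp only [hc, if_false]; exact posS _ _ (hypos _ (by omega) (by omega)))
    (by
      intro c k hk
      by_cases hc : c = e
      · simp only [hc, if_true]; exact zS _ _ (hxz _ (by omega))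
      · simp only [hc, if_false]; exact zS _ _ (hyz _ (by omega)))
    F Q
    (by
      have h1 : (1 : Matrix ι ι (PowerSeries S)) - Q = F.map (fun p => (p : PowerSeries S)) *
          diagonal (fun c => if c = e then bS * qx else qy) := by rw [hQ, sub_sub_cancel]
      rw [h1, Matrix.mul_assoc, Matrix.diagonal_mul_diagonal]
      have h2 : (fun c => (if c = e then bS * qx else qy) *
          ((if c = e then (lS.map fun p => 1 - PowerSeries.C p.2 * PowerSeries.X ^ p.1).prod else 1)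
          * (1 - (if c = e then xS else yS)))) = fun _ : ι => (1 : PowerSeries S) := by
        funext c
        by_cases hc : c = e
        · simp only [hc, if_true]
          have h3 : facsR lS = (lS.map fun p => 1 - PowerSeries.C p.2 * PowerSeries.X ^ p.1).prod :=
            rfl
          rw [← h3]
          linear_combination (qx * (1 - xS)) * hbS1 + hqx
        · simp only [hc, if_false]
          linear_combination hqy
      rw [h2, Matrix.diagonal_one, Matrix.mul_one])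
    (fun a c => zS _ _ (hQ0R a c))
    (by
      intro a c k
      by_cases hc : c = e
      · rw [hc]; exact nnS _ _ (P1 a k)
      · exact nnS _ _ (P4 a c k hc))
    (2 * K)
    (by
      intro a c k hk
      by_cases hc : c = e
      · rw [hc]; exact posS _ _ (P2 a k (by omega))
      · exact posS _ _ (P5 a c k hc hk))
    n₀
    (by
      intro l' hl' a k hk
      refine posS _ _ ?_
      rw [map_mul]
      have h1 : toR ((l'.map fun p => 1 - PowerSeries.C p.2 * PowerSeries.X ^ p.1).prod)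
          = facs (lR l') := toR_facsR l'
      rw [h1]
      exact hn₀ k hk l' ((List.mem_inits _ _).2 hl') a)
  refine ⟨N, H, hN1, ?_, hHnn, k, hk, hHpos⟩
  refine (SSE.of_conj hK1 hHK).trans ?_
  refine sse_blockCompanion hι A F L L' hL hL' hF ?_ N hN1 hNF
  -- `F(0) = 1`
  ext a c
  rw [Matrix.map_apply, ← Polynomial.coeff_zero_eq_eval_zero]
  have h1 : PowerSeries.coeff 0 (toR ((F a c : S[X]) : PowerSeries S))
      = PowerSeries.coeff 0 (toR ((G₀ a c : BS S r hr) : PowerSeries S)) := by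
    have := hΔ0 a c 0 (by omega)
    rw [hΔ] at this
    simp only [map_sub] at this
    linarith
  rw [toR_coe, hGR, hc0, map_sub, hc0, hh0, zero_mul, sub_zero] at h1
  rw [h1]
  rw [Matrix.one_apply]
  have h2 : PowerSeries.coeff 0 (facs (lR lS)) = 1 := facs_coeff_zero (fun p hp => (hl p hp).1)
  by_cases hac : a = c
  · rw [if_pos hac, if_pos hac]
    split_ifs
    · rw [h2]; simp
    · simp
  · rw [if_neg hac, if_neg hac]; simp

end Pool.Agent.Lib.MP_49224a_al
end

section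

/-!
# The main theorem
-/

set_option autoImplicit false

namespace Pool.Agent.Lib.MP_49224a_al

open Matrix Polynomial

/-- elementary strong shift equivalence over a subring of the reals, for real matrices -/
def RelS (S : Subring ℝ) (X Y : Σ d : ℕ, Matrix (Fin d) (Fin d) ℝ) : Prop :=
  ∃ (R : Matrix (Fin X.1) (Fin Y.1) ℝ) (T : Matrix (Fin Y.1) (Fin X.1) ℝ),
    (∀ i j, R i j ∈ S) ∧ (∀ i j, T i j ∈ S) ∧ X.2 = R * T ∧ Y.2 = T * R

/-- A square matrix over a finite index type, with indices in some `Fin d`. -/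
noncomputable def fm {m : Type} [Fintype m] {R : Type} (H : Matrix m m R) :
    Matrix (Fin (Fintype.card m)) (Fin (Fintype.card m)) R :=
  H.submatrix (Fintype.equivFin m).symm (Fintype.equivFin m).symm

theorem estep_toSig {R : Type} [CommRing R] {n : ℕ} (A : Matrix (Fin n) (Fin n) R) :
    EStep R ⟨n, A⟩ (toSig A) := by
  set e := Fintype.equivFin (Fin n) with he
  refine ⟨A.submatrix id e.symm, (1 : Matrix (Fin n) (Fin n) R).submatrix e.symm id, ?_, ?_⟩
  · have h1 := Matrix.submatrix_mul_equiv A (1 : Matrix (Fin n) (Fin n) R) id e.symm id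
    have h2 : A.submatrix id e.symm * (1 : Matrix (Fin n) (Fin n) R).submatrix e.symm id = A := by
      rw [h1]; simp
    exact h2.symm
  · have := Matrix.submatrix_mul_equiv (1 : Matrix (Fin n) (Fin n) R) A e.symm
      (Equiv.refl (Fin n)) e.symm
    have h2 : (1 : Matrix (Fin n) (Fin n) R).submatrix e.symm id * A.submatrix id e.symm
        = A.submatrix e.symm e.symm := by
      simpa using this
    exact h2.symm

theorem transfer {R : Type} [CommRing R] {S : Subring ℝ} (φ : R →+* ℝ) (hφ : ∀ x, φ x ∈ S) {n : ℕ}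
    (A : Matrix (Fin n) (Fin n) R) {m : Type} [Fintype m] (H : Matrix m m R) (h : SSE H A) :
    Relation.ReflTransGen (RelS S) ⟨n, A.map φ⟩ ⟨Fintype.card m, (fm H).map φ⟩ := by
  have h1 : Relation.ReflTransGen (EStep R) ⟨n, A⟩ (toSig H) :=
    Relation.ReflTransGen.head (estep_toSig A) h.symm
  exact Relation.ReflTransGen.lift (r := EStep R) (p := RelS S)
    (fun X : Σ d : ℕ, Matrix (Fin d) (Fin d) R =>
      (⟨X.1, X.2.map φ⟩ : Σ d : ℕ, Matrix (Fin d) (Fin d) ℝ)) (by
      rintro X Y ⟨U, V, hU, hV⟩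
      refine ⟨U.map φ, V.map φ, fun i j => hφ _, fun i j => hφ _, ?_, ?_⟩
      · change X.2.map φ = _
        rw [hU, Matrix.map_mul]
      · change Y.2.map φ = _
        rw [hV, Matrix.map_mul]) _ _ h1

theorem submatrix_pow {n m : Type} [Fintype n] [Fintype m] [DecidableEq n] [DecidableEq m]
    {R : Type} [CommRing R] (H : Matrix m m R) (e : n ≃ m) (k : ℕ) :
    (H.submatrix e e) ^ k = (H ^ k).submatrix e e := by
  induction k with
  | zero => simp
  | succ k ih => rw [pow_succ, ih, pow_succ, Matrix.submatrix_mul_equiv]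

theorem sse_extZ {n m : Type} [Fintype n] [Fintype m] {R : Type} [CommRing R]
    (A : Matrix n n R) : SSE (extZ (m := m) A) A := by
  have h1 : extZ (m := m) A
      = (fromBlocks (0 : Matrix m m R) 0 0 A).submatrix (Equiv.sumComm n m) (Equiv.sumComm n m) := by
    ext (a | a) (b | b) <;> simp [extZ]
  rw [h1]
  exact (SSE.reindex _ _).trans (SSE.fromBlocks_zero _ _)

theorem charpolyRev_map' {n : Type} [Fintype n] [DecidableEq n] {R T : Type} [CommRing R]
    [CommRing T] (φ : R →+* T) (A : Matrix n n R) :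
    (A.map φ).charpolyRev = A.charpolyRev.map φ := by
  have h2 : A.charpolyRev.map φ = (Polynomial.mapRingHom φ) A.charpolyRev := rfl
  rw [h2, Matrix.charpolyRev, Matrix.charpolyRev, RingHom.map_det]
  congr 1
  ext i j
  by_cases hij : i = j
  · subst hij; simp
  · simp [hij]

/-- conclusion, over the subring -/
theorem main_gt (S : Subring ℝ) {lam σ : ℝ} (hσ : 0 < σ) (hσl : σ < lam)
    (hS : ∀ k : ℕ, 1 ≤ k → ∀ x : ℝ, ∃ s ∈ S, x ≤ s ∧ s ≤ x + σ ^ k)
    (hdec : ∀ k : ℕ, 1 ≤ k → ∀ g ∈ S, 0 ≤ g → ∃ cs : List ℝ,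
      (∀ c ∈ cs, c ∈ S ∧ 0 ≤ c ∧ c ≤ σ ^ k) ∧ cs.sum = g)
    {n : ℕ} (A : Matrix (Fin n) (Fin n) S)
    (h1 : ((A.map S.subtype).map (fun x : ℝ => (x : ℂ))).charpoly.roots.count (lam : ℂ) = 1)
    (h2 : ∀ z ∈ ((A.map S.subtype).map (fun x : ℝ => (x : ℂ))).charpoly.roots,
      z ≠ (lam : ℂ) → ‖z‖ < lam)
    (hlow : ∀ f : PowerSeries ℝ, (∀ k, PowerSeries.coeff k f ∈ S) → PowerSeries.coeff 0 f = 1 →
      LD (PowerSeries.mk fun k => if k = 0 then 0 else ((A.map S.subtype) ^ k).trace) f →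
      ∀ K : ℕ, ∃ l : List (ℕ × ℝ),
      (∀ p ∈ l, 1 ≤ p.1 ∧ p.1 < K ∧ p.2 ∈ S ∧ 0 ≤ p.2 ∧ p.2 ≤ σ ^ p.1) ∧
      ∀ k, k < K → PowerSeries.coeff k (facs l) = PowerSeries.coeff k f) :
    ∃ (m : Type) (_ : Fintype m) (_ : DecidableEq m) (_ : Nonempty m) (H : Matrix m m S),
      SSE H A ∧ (∀ i j, 0 ≤ H i j) ∧ ∃ k : ℕ, 0 < k ∧ ∀ i j, 0 < (H ^ k) i j := by
  have hlam : 0 < lam := hσ.trans hσl
  obtain ⟨θ, C₀, R, hθ0, hθ1, hC₀, hR, htr, hg⟩ := perron_data (A.map S.subtype) lam hlam h1 h2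
  have hn : 1 ≤ n := by
    by_contra h
    have h0 : n = 0 := by omega
    subst h0
    simp at h1
  -- choice of r
  obtain ⟨r, hr1, hr2⟩ : ∃ r, 1 / lam < r ∧ r < min (1 / σ) R := by
    refine exists_between (lt_min ?_ hR)
    exact one_div_lt_one_div_of_lt hσ hσl
  have hr : 0 < r := lt_trans (by positivity) hr1
  have hlr : 1 < lam * r := by
    rw [div_lt_iff₀ hlam] at hr1; linarith
  have hσr : σ * r < 1 := by
    have := lt_of_lt_of_le hr2 (min_le_left _ _)
    rw [lt_div_iff₀ hσ] at this; linarith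
  obtain ⟨g, hg1, hg2, hg3⟩ := hg r hr (lt_of_lt_of_le hr2 (min_le_right _ _))
  have hfR : toR ((A.charpolyRev : S[X]) : PowerSeries S)
      = (((A.map S.subtype).charpolyRev : ℝ[X]) : PowerSeries ℝ) := by
    rw [charpolyRev_map', Polynomial.polynomial_map_coe]; rfl
  have hfC : ((A.charpolyRev : S[X]) : PowerSeries S).map (toC S)
      = (1 - PowerSeries.C (lam : ℂ) * PowerSeries.X) * g := by
    rw [← hg2, ← hfR]
    ext k
    rw [PowerSeries.coeff_map, PowerSeries.coeff_map, coeff_toR]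
    rfl
  obtain ⟨E, E', hE, hE', hdiag⟩ := step1 S hr hσ hlam hlr hσr hS A g hg1 hfC hg3
  have hcard : 3 ≤ Fintype.card ((Fin n ⊕ Unit) ⊕ Unit) := by
    simp only [Fintype.card_sum, Fintype.card_fin, Fintype.card_unit]; omega
  have hf0 : PowerSeries.coeff 0 (((pcHom S r hr A.charpolyRev : BS S r hr)) : PowerSeries S) = 1 := by
    rw [pcHom_coe, Polynomial.coeff_coe]
    rw [Polynomial.coeff_zero_eq_eval_zero]
    exact Matrix.eval_charpolyRev
  have hLD : LD (PowerSeries.mk fun k => if k = 0 then 0 else ((A.map S.subtype) ^ k).trace)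
      (toR (((pcHom S r hr A.charpolyRev : BS S r hr)) : PowerSeries S)) := by
    rw [pcHom_coe, hfR, LD]
    have := logDeriv_det (A.map S.subtype)
    rw [← this, neg_neg]
  obtain ⟨N, H, hN, hH, hHnn, k, hk, hHk⟩ := assemble hr hσ hσl hlr hσr hS hdec
    (Sum.inl (Sum.inr ())) hcard _ E E' hE hE' _ hdiag hf0 hLD hθ0 hθ1 hC₀
    (by
      intro k hk
      simp only [show k ≠ 0 by omega, if_false]
      exact htr k)
    (hlow _ (fun k => by rw [coeff_toR]; exact Subtype.mem _)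
      (by rw [coeff_toR, hf0]; rfl) hLD)
  refine ⟨Fin N × ((Fin n ⊕ Unit) ⊕ Unit), inferInstance, inferInstance,
    ⟨(⟨0, by omega⟩, Sum.inr ())⟩, H, ?_, hHnn, k, hk, hHk⟩
  exact (hH.trans (sse_extZ _)).trans (sse_extZ _)

theorem int_lam_ge_one {n : ℕ} (A : Matrix (Fin n) (Fin n) ℤ) (lam : ℝ) (hlam : 0 < lam)
    (h1 : (A.map (Int.cast : ℤ → ℂ)).charpoly.roots.count (lam : ℂ) = 1)
    (h2 : ∀ z ∈ (A.map (Int.cast : ℤ → ℂ)).charpoly.roots, z ≠ (lam : ℂ) → ‖z‖ < lam) :
    1 ≤ lam := by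
  by_contra hlt
  push Not at hlt
  have hmap : (A.map (Int.cast : ℤ → ℂ)).charpoly = A.charpoly.map (Int.castRingHom ℂ) := by
    rw [← Matrix.charpoly_map]
    rfl
  rw [hmap] at h1 h2
  have hm := Matrix.charpoly_monic A
  have h3 := intOne_small _ A.charpoly rfl hm (by
    intro z hz
    by_cases hzl : z = (lam : ℂ)
    · rw [hzl, Complex.norm_real, Real.norm_eq_abs, abs_of_pos hlam]; exact hlt
    · exact (h2 z hz hzl).trans hlt)
  have hroot : (lam : ℂ) ∈ (A.charpoly.map (Int.castRingHom ℂ)).roots := by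
    rw [← Multiset.count_pos, h1]
    exact one_pos
  rw [h3] at hroot
  have h4 := (Polynomial.mem_roots'.1 hroot).2
  rw [Polynomial.map_pow, Polynomial.map_X, Polynomial.IsRoot.def, Polynomial.eval_pow,
    Polynomial.eval_X] at h4
  have h6 : (lam : ℂ) = 0 := eq_zero_of_pow_eq_zero h4
  exact hlam.ne' (by exact_mod_cast h6)

theorem main_theorem :
    ∀ (S : Subring ℝ) (n : ℕ) (A : Matrix (Fin n) (Fin n) ℝ),
      (∀ i j, A i j ∈ S) →
      (∃ r : ℝ, 0 < r ∧
        (A.map (fun x : ℝ => (x : ℂ))).charpoly.roots.count (r : ℂ) = 1 ∧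
        ∀ z ∈ (A.map (fun x : ℝ => (x : ℂ))).charpoly.roots, z ≠ (r : ℂ) → ‖z‖ < r) →
      (S = ⊥ → ∀ m : ℕ, 0 < m →
        0 ≤ ∑ k ∈ m.divisors, ((ArithmeticFunction.moebius (m / k) : ℤ) : ℝ) * (A ^ k).trace) →
      (S ≠ ⊥ → ∀ m : ℕ, 0 < m →
        0 ≤ (A ^ m).trace ∧ ∀ k : ℕ, 0 < k → 0 < (A ^ m).trace → 0 < (A ^ (m * k)).trace) →
      ∃ (p : ℕ) (B : Matrix (Fin p) (Fin p) ℝ),
        0 < p ∧ (∀ i j, B i j ∈ S) ∧ (∀ i j, 0 ≤ B i j) ∧
        (∃ k : ℕ, 0 < k ∧ ∀ i j, 0 < (B ^ k) i j) ∧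
        Relation.ReflTransGen
          (fun X Y : (Σ d : ℕ, Matrix (Fin d) (Fin d) ℝ) =>
            ∃ (R : Matrix (Fin X.1) (Fin Y.1) ℝ) (T : Matrix (Fin Y.1) (Fin X.1) ℝ),
              (∀ i j, R i j ∈ S) ∧ (∀ i j, T i j ∈ S) ∧ X.2 = R * T ∧ Y.2 = T * R)
          ⟨n, A⟩ ⟨p, B⟩ := by
  intro S n A hA ⟨lam, hlam, h1, h2⟩ hbot hne
  -- the matrix over `S`
  set AS : Matrix (Fin n) (Fin n) S := fun i j => ⟨A i j, hA i j⟩ with hAS
  have hASA : AS.map S.subtype = A := by ext i j; rfl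
  -- finishing
  have finish : (∃ (m : Type) (_ : Fintype m) (_ : DecidableEq m) (_ : Nonempty m)
      (H : Matrix m m S), SSE H AS ∧ (∀ i j, 0 ≤ H i j) ∧ ∃ k : ℕ, 0 < k ∧
        ∀ i j, 0 < (H ^ k) i j) → ∃ (p : ℕ) (B : Matrix (Fin p) (Fin p) ℝ),
        0 < p ∧ (∀ i j, B i j ∈ S) ∧ (∀ i j, 0 ≤ B i j) ∧
        (∃ k : ℕ, 0 < k ∧ ∀ i j, 0 < (B ^ k) i j) ∧
        Relation.ReflTransGen (RelS S) ⟨n, A⟩ ⟨p, B⟩ := by
    rintro ⟨m, _, _, _, H, hH, hHnn, k, hk, hHk⟩
    refine ⟨Fintype.card m, (fm H).map S.subtype, Fintype.card_pos, fun i j => Subtype.mem _,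
      fun i j => hHnn _ _, ⟨k, hk, fun i j => ?_⟩, ?_⟩
    · have h3 : ((fm H).map S.subtype) ^ k = ((fm H) ^ k).map S.subtype := by
        have := map_pow (S.subtype.mapMatrix (m := Fin (Fintype.card m))) (fm H) k
        exact this.symm
      have h4 : (fm H) ^ k
          = (H ^ k).submatrix (Fintype.equivFin m).symm (Fintype.equivFin m).symm :=
        submatrix_pow H _ k
      rw [h3, h4]
      exact hHk _ _
    · have := transfer S.subtype (fun x => Subtype.mem x) AS H hH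
      rw [hASA] at this
      exact this
  rcases eq_or_ne S ⊥ with hS | hS
  · subst hS
    rcases lt_or_ge 1 lam with hlt | hle
    · refine finish (main_gt ⊥ (lam := lam) (σ := 1) one_pos hlt int_window
        (fun k _ g hg hg0 => int_pieces k g hg hg0) AS (by rw [hASA]; exact h1)
        (by rw [hASA]; exact h2) ?_)
      intro f hfS hf0 hfs K
      refine low_int hfS hf0 hfs ?_ K
      intro m hm
      rw [hASA]
      have h3 := hbot rfl m hm
      refine h3.trans_eq (Finset.sum_congr rfl fun k hk => ?_)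
      have : k ≠ 0 := by
        rintro rfl
        have := Nat.dvd_of_mem_divisors hk
        simp at this; omega
      simp only [this, if_false]
    · -- integer matrices with Perron root one
      have hex : ∀ i j, ∃ z : ℤ, (z : ℝ) = A i j := fun i j => by
        obtain ⟨z, hz⟩ := Subring.mem_bot.1 (hA i j)
        exact ⟨z, hz⟩
      choose AZ hAZ using hex
      have hmapZ : (Matrix.map (AZ : Matrix (Fin n) (Fin n) ℤ) (Int.cast : ℤ → ℂ))
          = A.map (fun x : ℝ => (x : ℂ)) := by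
        ext i j
        simp only [Matrix.map_apply]
        rw [← hAZ i j]
        push_cast; rfl
      have hlam1 : 1 ≤ lam := int_lam_ge_one AZ lam hlam (by rw [hmapZ]; exact h1)
        (by rw [hmapZ]; exact h2)
      have hl1 : lam = 1 := le_antisymm hle hlam1
      subst hl1
      obtain ⟨hn, hcp⟩ := charpoly_of_perron_one AZ (by rw [hmapZ]; simpa using h1)
        (by rw [hmapZ]; simpa using h2)
      have hsse := sse_int_one AZ hcp hn
      have h5 := transfer (S := (⊥ : Subring ℝ)) (Int.castRingHom ℝ)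
        (fun x => Subring.mem_bot.2 ⟨x, rfl⟩) AZ (1 : Matrix (Fin 1) (Fin 1) ℤ) hsse.symm
      have h6 : Matrix.map (AZ : Matrix (Fin n) (Fin n) ℤ) (Int.castRingHom ℝ) = A := by
        ext i j; exact hAZ i j
      rw [h6] at h5
      have h7 : (fm (1 : Matrix (Fin 1) (Fin 1) ℤ)).map (Int.castRingHom ℝ)
          = (1 : Matrix (Fin (Fintype.card (Fin 1))) (Fin (Fintype.card (Fin 1))) ℝ) := by
        ext i j
        simp only [fm, Matrix.map_apply, Matrix.submatrix_apply, Matrix.one_apply,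
          EmbeddingLike.apply_eq_iff_eq]
        split_ifs <;> simp
      rw [h7] at h5
      refine ⟨Fintype.card (Fin 1), 1, by simp, ?_, ?_, ⟨1, one_pos, ?_⟩, h5⟩
      · intro i j; rw [Matrix.one_apply]; split_ifs
        · exact Subring.one_mem _
        · exact Subring.zero_mem _
      · intro i j; rw [Matrix.one_apply]; split_ifs <;> norm_num
      · intro i j
        have hij : i = j := by
          apply Fin.ext
          have := i.2; have := j.2
          simp only [Fintype.card_fin] at *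
          omega
        rw [pow_one, hij, Matrix.one_apply_eq]; exact one_pos
  · refine finish (main_gt S (lam := lam) (σ := lam / 2) (by positivity) (by linarith)
      (dense_window hS (by positivity))
      (fun k _ g hg hg0 => dense_pieces hS (by positivity) g hg hg0) AS (by rw [hASA]; exact h1)
      (by rw [hASA]; exact h2) ?_)
    intro f hfS hf0 hfs K
    rw [hASA] at hfs
    refine low_dense hS (by positivity) hfS hf0 hfs ?_ ?_ K
    · intro k hk
      simp only [show k ≠ 0 by omega, if_false]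
      exact (hne hS k (by omega)).1
    · intro m k hm hk hpos
      simp only [show m ≠ 0 by omega, if_false] at hpos
      simp only [show m * k ≠ 0 from Nat.mul_ne_zero (by omega) (by omega), if_false]
      exact (hne hS m (by omega)).2 k (by omega) hpos

end Pool.Agent.Lib.MP_49224a_al
end
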