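import Mathlib
import Pool.Agent.Lib.MP_49224a_al.ListProd

section

/-!
# Power series with geometric decay

Ring structure, evaluation, inverses, division by `1 - t / z`, and the number of zeros.
-/

set_option autoImplicit false

namespace Pool.Agent.Lib.MP_49224a_al

open Filter Topology Metric

/-! ### Summability -/

theorem DecRing_summable_of_bound {φ : PowerSeries ℂ} {ρ t C : ℝ} (ht : 0 ≤ t) (htρ : t < ρ)
    (hC : ∀ k : ℕ, ‖PowerSeries.coeff k φ‖ * ρ ^ k ≤ C) :
    Summable (fun k => ‖PowerSeries.coeff k φ‖ * t ^ k) := by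
  have hρ : 0 < ρ := lt_of_le_of_lt ht htρ
  have h1 : Summable (fun k : ℕ => C * (t / ρ) ^ k) :=
    (summable_geometric_of_lt_one (by positivity) (by rwa [div_lt_one hρ])).mul_left C
  refine Summable.of_nonneg_of_le (fun k => by positivity) (fun k => ?_) h1
  have h2 : ‖PowerSeries.coeff k φ‖ * t ^ k =
      (‖PowerSeries.coeff k φ‖ * ρ ^ k) * (t / ρ) ^ k := by
    rw [div_pow]
    have : ρ ^ k ≠ 0 := pow_ne_zero _ hρ.ne'
    field_simp
  rw [h2]
  exact mul_le_mul_of_nonneg_right (hC k) (by positivity)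

theorem Dec.iff_summable {r : ℝ} (hr : 0 ≤ r) {φ : PowerSeries ℂ} :
    Dec r φ ↔ ∃ ρ : ℝ, r < ρ ∧ Summable (fun k => ‖PowerSeries.coeff k φ‖ * ρ ^ k) := by
  constructor
  · rintro ⟨ρ, hρ, C, hC⟩
    exact ⟨(r + ρ) / 2, by linarith, DecRing_summable_of_bound (by linarith) (by linarith) hC⟩
  · rintro ⟨ρ, hρ, hs⟩
    have hρ0 : 0 < ρ := lt_of_le_of_lt hr hρ
    refine ⟨ρ, hρ, ∑' k, ‖PowerSeries.coeff k φ‖ * ρ ^ k, fun k => ?_⟩
    exact hs.le_tsum k (fun j _ => by positivity)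

theorem DecRing_summable_mono {φ : PowerSeries ℂ} {ρ t : ℝ} (ht : 0 ≤ t) (htρ : t ≤ ρ)
    (hs : Summable (fun k => ‖PowerSeries.coeff k φ‖ * ρ ^ k)) :
    Summable (fun k => ‖PowerSeries.coeff k φ‖ * t ^ k) :=
  Summable.of_nonneg_of_le (fun k => by positivity)
    (fun k => mul_le_mul_of_nonneg_left (pow_le_pow_left₀ ht htρ k) (norm_nonneg _)) hs

/-- Two elements have a common rate of decay. -/
theorem Dec.exists_common {r : ℝ} (hr : 0 ≤ r) {φ ψ : PowerSeries ℂ} (hφ : Dec r φ)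
    (hψ : Dec r ψ) : ∃ ρ : ℝ, r < ρ ∧ Summable (fun k => ‖PowerSeries.coeff k φ‖ * ρ ^ k) ∧
      Summable (fun k => ‖PowerSeries.coeff k ψ‖ * ρ ^ k) := by
  obtain ⟨ρ, hρ, h1⟩ := (Dec.iff_summable hr).mp hφ
  obtain ⟨ρ', hρ', h2⟩ := (Dec.iff_summable hr).mp hψ
  refine ⟨min ρ ρ', lt_min hρ hρ', DecRing_summable_mono ?_ (min_le_left _ _) h1,
    DecRing_summable_mono ?_ (min_le_right _ _) h2⟩
  · exact (hr.trans_lt (lt_min hρ hρ')).le
  · exact (hr.trans_lt (lt_min hρ hρ')).le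

theorem Dec.summable_norm {r : ℝ} {φ : PowerSeries ℂ} (hφ : Dec r φ) {t : ℝ} (ht : 0 ≤ t)
    (htr : t ≤ r) : Summable (fun k => ‖PowerSeries.coeff k φ‖ * t ^ k) := by
  obtain ⟨ρ, hρ, h1⟩ := (Dec.iff_summable (ht.trans htr)).mp hφ
  exact DecRing_summable_mono ht (by linarith) h1

theorem Dec.summable_norm' {r : ℝ} {φ : PowerSeries ℂ} (hφ : Dec r φ) {z : ℂ} (hz : ‖z‖ ≤ r) :
    Summable (fun k => ‖PowerSeries.coeff k φ * z ^ k‖) := by
  simp only [norm_mul, norm_pow]
  exact hφ.summable_norm (norm_nonneg z) hz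

theorem Dec.summable {r : ℝ} {φ : PowerSeries ℂ} (hφ : Dec r φ) {z : ℂ} (hz : ‖z‖ ≤ r) :
    Summable (fun k => PowerSeries.coeff k φ * z ^ k) := (hφ.summable_norm' hz).of_norm

/-! ### Ring operations -/

theorem Dec.add {r : ℝ} (hr : 0 ≤ r) {φ ψ : PowerSeries ℂ} (hφ : Dec r φ) (hψ : Dec r ψ) :
    Dec r (φ + ψ) := by
  obtain ⟨ρ, hρ, h1, h2⟩ := hφ.exists_common hr hψ
  rw [Dec.iff_summable hr]
  refine ⟨ρ, hρ, Summable.of_nonneg_of_le (fun k => ?_) (fun k => ?_) (h1.add h2)⟩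
  · have : 0 ≤ ρ := hr.trans hρ.le
    positivity
  · rw [map_add, ← add_mul]
    exact mul_le_mul_of_nonneg_right (norm_add_le _ _) (pow_nonneg (hr.trans hρ.le) _)

theorem Dec.neg {r : ℝ} {φ : PowerSeries ℂ} (hφ : Dec r φ) : Dec r (-φ) := by
  obtain ⟨ρ, hρ, C, hC⟩ := hφ
  exact ⟨ρ, hρ, C, fun k => by rw [map_neg, norm_neg]; exact hC k⟩

theorem Dec.mul {r : ℝ} (hr : 0 ≤ r) {φ ψ : PowerSeries ℂ} (hφ : Dec r φ) (hψ : Dec r ψ) :
    Dec r (φ * ψ) := by
  obtain ⟨ρ, hρ, h1, h2⟩ := hφ.exists_common hr hψ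
  have hρ0 : 0 ≤ ρ := hr.trans hρ.le
  rw [Dec.iff_summable hr]
  refine ⟨ρ, hρ, ?_⟩
  have h3 : Summable fun k => ‖PowerSeries.coeff k φ * (ρ : ℂ) ^ k‖ := by
    simpa only [norm_mul, norm_pow, Complex.norm_real, Real.norm_eq_abs, abs_of_nonneg hρ0]
      using h1
  have h4 : Summable fun k => ‖PowerSeries.coeff k ψ * (ρ : ℂ) ^ k‖ := by
    simpa only [norm_mul, norm_pow, Complex.norm_real, Real.norm_eq_abs, abs_of_nonneg hρ0]
      using h2
  have h5 := summable_norm_sum_mul_antidiagonal_of_summable_norm h3 h4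
  refine h5.congr fun k => ?_
  have h6 : ∑ kl ∈ Finset.HasAntidiagonal.antidiagonal k, PowerSeries.coeff kl.1 φ * (ρ : ℂ) ^ kl.1 *
      (PowerSeries.coeff kl.2 ψ * (ρ : ℂ) ^ kl.2) = PowerSeries.coeff k (φ * ψ) * (ρ : ℂ) ^ k := by
    rw [PowerSeries.coeff_mul, Finset.sum_mul]
    refine Finset.sum_congr rfl fun p hp => ?_
    rw [← Finset.HasAntidiagonal.mem_antidiagonal.mp hp, pow_add]
    ring
  rw [h6, norm_mul, norm_pow, Complex.norm_real, Real.norm_eq_abs, abs_of_nonneg hρ0]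

theorem Dec.of_finite {r : ℝ} {φ : PowerSeries ℂ} {D : ℕ}
    (h : ∀ k, D < k → PowerSeries.coeff k φ = 0) : Dec r φ := by
  refine ⟨r + 1, by linarith, ∑ k ∈ Finset.range (D + 1),
    ‖PowerSeries.coeff k φ‖ * |r + 1| ^ k, fun k => ?_⟩
  by_cases hk : k ≤ D
  · refine le_trans ?_ (Finset.single_le_sum
      (f := fun k => ‖PowerSeries.coeff k φ‖ * |r + 1| ^ k) (fun i _ => by positivity)
      (Finset.mem_range.mpr (Nat.lt_succ_of_le hk)))
    apply mul_le_mul_of_nonneg_left _ (norm_nonneg _)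
    rw [← abs_pow]
    exact le_abs_self _
  · rw [h k (by omega)]
    simp only [norm_zero, zero_mul]
    exact Finset.sum_nonneg fun i _ => by positivity

theorem Dec.of_polynomial (r : ℝ) (p : Polynomial ℂ) : Dec r (p : PowerSeries ℂ) := by
  apply Dec.of_finite (D := p.natDegree)
  intro k hk
  rw [Polynomial.coeff_coe]
  exact Polynomial.coeff_eq_zero_of_natDegree_lt hk

theorem Dec.C (r : ℝ) (c : ℂ) : Dec r (PowerSeries.C c) := by
  apply Dec.of_finite (D := 0)
  intro k hk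
  rw [PowerSeries.coeff_C, if_neg (by omega)]

theorem Dec.X (r : ℝ) : Dec r (PowerSeries.X : PowerSeries ℂ) := by
  apply Dec.of_finite (D := 1)
  intro k hk
  rw [PowerSeries.coeff_X, if_neg (by omega)]

theorem Dec.one (r : ℝ) : Dec r (1 : PowerSeries ℂ) := by
  have := Dec.C r 1
  rwa [map_one] at this

theorem Dec.zero (r : ℝ) : Dec r (0 : PowerSeries ℂ) := by
  have := Dec.C r 0
  rwa [map_zero] at this

theorem Dec.sub {r : ℝ} (hr : 0 ≤ r) {φ ψ : PowerSeries ℂ} (hφ : Dec r φ) (hψ : Dec r ψ) :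
    Dec r (φ - ψ) := by
  rw [sub_eq_add_neg]
  exact hφ.add hr hψ.neg

/-- The ring of power series with geometric decay. -/
noncomputable def decRing (r : ℝ) (hr : 0 < r) : Subring (PowerSeries ℂ) where
  carrier := {φ | Dec r φ}
  zero_mem' := Dec.zero r
  one_mem' := Dec.one r
  add_mem' := fun ha hb => Dec.add hr.le ha hb
  mul_mem' := fun ha hb => Dec.mul hr.le ha hb
  neg_mem' := fun ha => Dec.neg ha

theorem mem_decRing {r : ℝ} (hr : 0 < r) {φ : PowerSeries ℂ} : φ ∈ decRing r hr ↔ Dec r φ :=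
  Iff.rfl

/-! ### Evaluation -/

theorem evs_C (z c : ℂ) : evs z (PowerSeries.C c) = c := by
  unfold evs
  rw [tsum_eq_single 0]
  · simp
  · intro k hk
    rw [PowerSeries.coeff_C, if_neg hk, zero_mul]

theorem evs_one (z : ℂ) : evs z 1 = 1 := by
  have := evs_C z 1
  rwa [map_one] at this

theorem evs_zero (z : ℂ) : evs z 0 = 0 := by
  have := evs_C z 0
  rwa [map_zero] at this

theorem evs_X (z : ℂ) : evs z PowerSeries.X = z := by
  unfold evs
  rw [tsum_eq_single 1]
  · simp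
  · intro k hk
    rw [PowerSeries.coeff_X, if_neg hk, zero_mul]

theorem evs_at_zero (φ : PowerSeries ℂ) : evs 0 φ = PowerSeries.constantCoeff φ := by
  unfold evs
  rw [tsum_eq_single 0]
  · simp
  · intro k hk
    rw [zero_pow hk, mul_zero]

theorem Dec.evs_mul {r : ℝ} (_hr : 0 < r) {φ ψ : PowerSeries ℂ} (hφ : Dec r φ) (hψ : Dec r ψ)
    {z : ℂ} (hz : ‖z‖ ≤ r) : evs z (φ * ψ) = evs z φ * evs z ψ := by
  unfold evs
  rw [tsum_mul_tsum_eq_tsum_sum_antidiagonal_of_summable_norm (hφ.summable_norm' hz)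
    (hψ.summable_norm' hz)]
  refine tsum_congr fun k => ?_
  rw [PowerSeries.coeff_mul, Finset.sum_mul]
  refine Finset.sum_congr rfl fun p hp => ?_
  rw [← Finset.HasAntidiagonal.mem_antidiagonal.mp hp, pow_add]
  ring

theorem Dec.evs_add {r : ℝ} (_hr : 0 < r) {φ ψ : PowerSeries ℂ} (hφ : Dec r φ) (hψ : Dec r ψ)
    {z : ℂ} (hz : ‖z‖ ≤ r) : evs z (φ + ψ) = evs z φ + evs z ψ := by
  unfold evs
  rw [← (hφ.summable hz).tsum_add (hψ.summable hz)]
  refine tsum_congr fun k => ?_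
  rw [map_add, add_mul]

theorem evs_neg (z : ℂ) (φ : PowerSeries ℂ) : evs z (-φ) = -evs z φ := by
  unfold evs
  rw [← tsum_neg]
  refine tsum_congr fun k => ?_
  rw [map_neg, neg_mul]

theorem Dec.evs_sub {r : ℝ} (hr : 0 < r) {φ ψ : PowerSeries ℂ} (hφ : Dec r φ) (hψ : Dec r ψ)
    {z : ℂ} (hz : ‖z‖ ≤ r) : evs z (φ - ψ) = evs z φ - evs z ψ := by
  rw [sub_eq_add_neg, Dec.evs_add hr hφ hψ.neg hz, evs_neg, ← sub_eq_add_neg]

/-- Evaluation at `z` as a ring homomorphism. -/
noncomputable def evsHom (r : ℝ) (hr : 0 < r) (z : ℂ) (hz : ‖z‖ ≤ r) : decRing r hr →+* ℂ where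
  toFun φ := evs z φ
  map_one' := evs_one z
  map_mul' φ ψ := Dec.evs_mul hr φ.2 ψ.2 hz
  map_zero' := evs_zero z
  map_add' φ ψ := Dec.evs_add hr φ.2 ψ.2 hz

/-! ### Analyticity -/

theorem DecRing_hasFPowerSeriesOnBall {φ : PowerSeries ℂ} {ρ : ℝ} (hρ : 0 < ρ) {C : ℝ}
    (hC : ∀ k : ℕ, ‖PowerSeries.coeff k φ‖ * ρ ^ k ≤ C) :
    HasFPowerSeriesOnBall (fun z => evs z φ)
      (FormalMultilinearSeries.ofScalars ℂ (fun k => PowerSeries.coeff k φ)) 0
      (ENNReal.ofReal ρ) := by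
  set p := FormalMultilinearSeries.ofScalars ℂ (fun k => PowerSeries.coeff k φ) with hp
  have h1 : ENNReal.ofReal ρ ≤ p.radius := by
    have := p.le_radius_of_bound C (r := ρ.toNNReal) (fun k => by
      rw [hp, FormalMultilinearSeries.ofScalars_norm, Real.coe_toNNReal ρ hρ.le]
      exact hC k)
    exact this
  have h2 : (fun z => evs z φ) = p.sum := by
    funext z
    unfold evs FormalMultilinearSeries.sum
    refine tsum_congr fun k => ?_
    rw [hp, FormalMultilinearSeries.ofScalars_apply_eq, smul_eq_mul]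
  rw [h2]
  exact (p.hasFPowerSeriesOnBall (lt_of_lt_of_le (by simpa using hρ) h1)).mono (by simpa using hρ)
    h1

theorem Dec.exists_ball {r : ℝ} (hr : 0 ≤ r) {φ : PowerSeries ℂ} (hφ : Dec r φ) :
    ∃ ρ : ℝ, r < ρ ∧ HasFPowerSeriesOnBall (fun z => evs z φ)
      (FormalMultilinearSeries.ofScalars ℂ (fun k => PowerSeries.coeff k φ)) 0
      (ENNReal.ofReal ρ) := by
  obtain ⟨ρ, hρ, C, hC⟩ := hφ
  exact ⟨ρ, hρ, DecRing_hasFPowerSeriesOnBall (lt_of_le_of_lt hr hρ) hC⟩

theorem Dec.exists_analytic {r : ℝ} (hr : 0 ≤ r) {φ : PowerSeries ℂ} (hφ : Dec r φ) :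
    ∃ ρ : ℝ, r < ρ ∧ AnalyticOnNhd ℂ (fun z => evs z φ) (ball 0 ρ) := by
  obtain ⟨ρ, hρ, h⟩ := hφ.exists_ball hr
  refine ⟨ρ, hρ, ?_⟩
  have := h.analyticOnNhd
  rwa [Metric.eball_ofReal] at this

/-- Uniqueness of the coefficients. -/
theorem Dec.eq_zero_of_evs {r : ℝ} (hr : 0 < r) {φ : PowerSeries ℂ} (hφ : Dec r φ)
    (h : ∀ z : ℂ, ‖z‖ ≤ r → evs z φ = 0) : φ = 0 := by
  obtain ⟨ρ, hρ, h1⟩ := hφ.exists_ball hr.le
  have h2 : (fun z => evs z φ) =ᶠ[𝓝 0] (0 : ℂ → ℂ) := by
    filter_upwards [Metric.ball_mem_nhds (0 : ℂ) hr] with z hz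
    exact h z (mem_ball_zero_iff.mp hz).le
  have h3 := (h1.hasFPowerSeriesAt.congr h2).eq_zero
  rw [FormalMultilinearSeries.ofScalars_series_eq_zero] at h3
  ext k
  exact congrFun h3 k

theorem Dec.inverse {r : ℝ} (hr : 0 < r) {φ : PowerSeries ℂ} (hφ : Dec r φ)
    (h : ∀ z : ℂ, ‖z‖ ≤ r → evs z φ ≠ 0) : ∃ ψ : PowerSeries ℂ, Dec r ψ ∧ φ * ψ = 1 := by
  obtain ⟨ρ, hρ, han⟩ := hφ.exists_analytic hr.le
  set g : ℂ → ℂ := fun z => evs z φ with hg
  -- a slightly larger disc without zeros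
  have hopen : IsOpen (ball (0 : ℂ) ρ ∩ g ⁻¹' {0}ᶜ) :=
    han.continuousOn.isOpen_inter_preimage isOpen_ball isOpen_compl_singleton
  have hsub : closedBall (0 : ℂ) r ⊆ ball (0 : ℂ) ρ ∩ g ⁻¹' {0}ᶜ := by
    intro z hz
    rw [mem_closedBall_zero_iff] at hz
    exact ⟨mem_ball_zero_iff.mpr (lt_of_le_of_lt hz hρ), h z hz⟩
  obtain ⟨δ, hδ, hthick⟩ := (isCompact_closedBall (0 : ℂ) r).exists_thickening_subset_open
    hopen hsub
  rw [thickening_closedBall hδ hr.le] at hthick
  set R : NNReal := (r + δ / 2).toNNReal with hR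
  have hRr : (R : ℝ) = r + δ / 2 := Real.coe_toNNReal _ (by positivity)
  have hRpos : 0 < R := by
    rw [← NNReal.coe_pos, hRr]; positivity
  have hcb : closedBall (0 : ℂ) R ⊆ ball (0 : ℂ) ρ ∩ g ⁻¹' {0}ᶜ := by
    refine subset_trans (fun z hz => ?_) hthick
    rw [mem_closedBall_zero_iff, hRr] at hz
    rw [mem_ball_zero_iff]
    linarith
  have hd : DifferentiableOn ℂ (fun z => (g z)⁻¹) (closedBall 0 R) := by
    intro z hz
    have hz' := hcb hz
    have h1 : DifferentiableAt ℂ g z := (han z hz'.1).differentiableAt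
    exact (h1.inv hz'.2).differentiableWithinAt
  have hps := hd.hasFPowerSeriesOnBall hRpos
  set p := cauchyPowerSeries (fun z => (g z)⁻¹) 0 R with hp
  set ψ : PowerSeries ℂ := PowerSeries.mk (fun k => p.coeff k) with hψ
  have hψdec : Dec r ψ := by
    set R' : NNReal := (r + δ / 4).toNNReal with hR'
    have hRr' : (R' : ℝ) = r + δ / 4 := Real.coe_toNNReal _ (by positivity)
    have hlt : (R' : ENNReal) < p.radius := by
      refine lt_of_lt_of_le ?_ hps.r_le
      rw [ENNReal.coe_lt_coe, ← NNReal.coe_lt_coe, hRr, hRr']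
      linarith
    obtain ⟨C, _, hC⟩ := p.norm_mul_pow_le_of_lt_radius hlt
    refine ⟨R', by rw [hRr']; linarith, C, fun k => ?_⟩
    rw [hψ, PowerSeries.coeff_mk, ← FormalMultilinearSeries.norm_apply_eq_norm_coef]
    exact hC k
  have hevψ : ∀ z : ℂ, ‖z‖ ≤ r → evs z ψ = (g z)⁻¹ := by
    intro z hz
    have h1 : z ∈ Metric.eball (0 : ℂ) R := by
      rw [Metric.eball_coe, mem_ball_zero_iff, hRr]
      linarith
    have h2 := hps.hasSum h1
    rw [zero_add] at h2
    unfold evs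
    rw [← h2.tsum_eq]
    refine tsum_congr fun k => ?_
    rw [hψ, PowerSeries.coeff_mk, FormalMultilinearSeries.apply_eq_pow_smul_coeff, smul_eq_mul,
      mul_comm]
  refine ⟨ψ, hψdec, ?_⟩
  have h1 : φ * ψ - 1 = 0 := by
    apply Dec.eq_zero_of_evs hr ((hφ.mul hr.le hψdec).sub hr.le (Dec.one r))
    intro z hz
    rw [Dec.evs_sub hr (hφ.mul hr.le hψdec) (Dec.one r) hz, Dec.evs_mul hr hφ hψdec hz,
      evs_one, hevψ z hz, mul_inv_cancel₀ (h z hz), sub_self]
  exact sub_eq_zero.mp h1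

theorem Dec.divide {r : ℝ} (hr : 0 < r) {φ : PowerSeries ℂ} (hφ : Dec r φ) {z : ℂ}
    (hz0 : z ≠ 0) (hz : ‖z‖ ≤ r) (h : evs z φ = 0) :
    ∃ ψ : PowerSeries ℂ, Dec r ψ ∧ φ = (1 - PowerSeries.C z⁻¹ * PowerSeries.X) * ψ := by
  obtain ⟨ρ, hρ, hs⟩ := (Dec.iff_summable hr.le).mp hφ
  have hρ0 : 0 < ρ := hr.trans hρ
  have hsum : Summable (fun k => PowerSeries.coeff k φ * z ^ k) := hφ.summable hz
  have hsumk : ∀ k, Summable (fun j => PowerSeries.coeff (k + 1 + j) φ * z ^ (j + 1)) := by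
    intro k
    have h1 : Summable (fun j => PowerSeries.coeff (j + (k + 1)) φ * z ^ (j + (k + 1))) :=
      (summable_nat_add_iff (f := fun j => PowerSeries.coeff j φ * z ^ j) (k + 1)).mpr hsum
    have h2 := h1.mul_left ((z ^ k)⁻¹)
    refine h2.congr fun j => ?_
    rw [show k + 1 + j = j + (k + 1) by ring]
    have h3 : z ^ (j + (k + 1)) = z ^ k * z ^ (j + 1) := by rw [← pow_add]; congr 1; ring
    rw [h3]
    have h4 : z ^ k ≠ 0 := pow_ne_zero _ hz0
    field_simp
  set ψ : PowerSeries ℂ :=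
    PowerSeries.mk (fun k => - ∑' j, PowerSeries.coeff (k + 1 + j) φ * z ^ (j + 1)) with hψ
  refine ⟨ψ, ?_, ?_⟩
  · -- decay
    refine ⟨ρ, hρ, ∑' j, ‖PowerSeries.coeff j φ‖ * ρ ^ j, fun k => ?_⟩
    have hbd : ∀ j, ‖PowerSeries.coeff (k + 1 + j) φ * z ^ (j + 1)‖ * ρ ^ k ≤
        ‖PowerSeries.coeff (j + (k + 1)) φ‖ * ρ ^ (j + (k + 1)) := by
      intro j
      rw [norm_mul, norm_pow, mul_assoc, show k + 1 + j = j + (k + 1) by ring]
      apply mul_le_mul_of_nonneg_left _ (norm_nonneg _)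
      calc ‖z‖ ^ (j + 1) * ρ ^ k ≤ ρ ^ (j + 1) * ρ ^ k := by
            apply mul_le_mul_of_nonneg_right _ (by positivity)
            exact pow_le_pow_left₀ (norm_nonneg _) (hz.trans hρ.le) _
        _ = ρ ^ (j + (k + 1)) := by rw [← pow_add]; congr 1; ring
    have hs' : Summable (fun j => ‖PowerSeries.coeff (j + (k + 1)) φ‖ * ρ ^ (j + (k + 1))) :=
      (summable_nat_add_iff (f := fun j => ‖PowerSeries.coeff j φ‖ * ρ ^ j) (k + 1)).mpr hs
    have hs'' : Summable (fun j => ‖PowerSeries.coeff (k + 1 + j) φ * z ^ (j + 1)‖ * ρ ^ k) :=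
      Summable.of_nonneg_of_le (fun j => by positivity) hbd hs'
    have hs3 : Summable (fun j => ‖PowerSeries.coeff (k + 1 + j) φ * z ^ (j + 1)‖) := by
      have := hs''.mul_right ((ρ ^ k)⁻¹)
      refine this.congr fun j => ?_
      have h4 : ρ ^ k ≠ 0 := pow_ne_zero _ hρ0.ne'
      field_simp
    rw [hψ, PowerSeries.coeff_mk, norm_neg]
    calc ‖∑' j, PowerSeries.coeff (k + 1 + j) φ * z ^ (j + 1)‖ * ρ ^ k
        ≤ (∑' j, ‖PowerSeries.coeff (k + 1 + j) φ * z ^ (j + 1)‖) * ρ ^ k :=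
          mul_le_mul_of_nonneg_right (norm_tsum_le_tsum_norm hs3) (by positivity)
      _ = ∑' j, ‖PowerSeries.coeff (k + 1 + j) φ * z ^ (j + 1)‖ * ρ ^ k := by
          rw [tsum_mul_right]
      _ ≤ ∑' j, ‖PowerSeries.coeff (j + (k + 1)) φ‖ * ρ ^ (j + (k + 1)) :=
          hs''.tsum_le_tsum hbd hs'
      _ ≤ ∑' j, ‖PowerSeries.coeff j φ‖ * ρ ^ j := by
          have h5 := hs.sum_add_tsum_nat_add (k + 1)
          have h6 : 0 ≤ ∑ i ∈ Finset.range (k + 1), ‖PowerSeries.coeff i φ‖ * ρ ^ i :=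
            Finset.sum_nonneg fun i _ => by positivity
          linarith
  · -- the identity
    have hrec : ∀ k, z⁻¹ * PowerSeries.coeff k ψ =
        - PowerSeries.coeff (k + 1) φ + PowerSeries.coeff (k + 1) ψ := by
      intro k
      rw [hψ, PowerSeries.coeff_mk, PowerSeries.coeff_mk]
      rw [(hsumk k).tsum_eq_zero_add]
      have h1 : ∑' j, PowerSeries.coeff (k + 1 + (j + 1)) φ * z ^ (j + 1 + 1) =
          z * ∑' j, PowerSeries.coeff (k + 1 + 1 + j) φ * z ^ (j + 1) := by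
        rw [← tsum_mul_left]
        refine tsum_congr fun j => ?_
        rw [show k + 1 + (j + 1) = k + 1 + 1 + j by ring, pow_succ z (j + 1)]
        ring
      rw [h1, add_zero, zero_add, pow_one]
      field_simp
      ring
    ext k
    rcases k with _ | k
    · rw [sub_mul, one_mul, map_sub, mul_assoc, PowerSeries.coeff_C_mul,
        PowerSeries.coeff_zero_X_mul, mul_zero, sub_zero, hψ, PowerSeries.coeff_mk]
      unfold evs at h
      rw [hsum.tsum_eq_zero_add, pow_zero, mul_one] at h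
      rw [eq_neg_iff_add_eq_zero]
      simpa only [zero_add, add_comm 1] using h
    · rw [sub_mul, one_mul, map_sub, mul_assoc, PowerSeries.coeff_C_mul,
        PowerSeries.coeff_succ_X_mul, hrec]
      ring

theorem evs_linear {z w : ℂ} : evs w (1 - PowerSeries.C z⁻¹ * PowerSeries.X) = 1 - z⁻¹ * w := by
  have hd : Dec (‖w‖ + 1) (PowerSeries.C z⁻¹ * PowerSeries.X : PowerSeries ℂ) :=
    (Dec.C _ _).mul (by positivity) (Dec.X _)
  rw [Dec.evs_sub (r := ‖w‖ + 1) (by positivity) (Dec.one _) hd (by linarith), evs_one,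
    Dec.evs_mul (r := ‖w‖ + 1) (by positivity) (Dec.C _ _) (Dec.X _) (by linarith), evs_C,
    evs_X]

theorem Dec.linear (r : ℝ) (hr : 0 ≤ r) (z : ℂ) :
    Dec r (1 - PowerSeries.C z⁻¹ * PowerSeries.X) :=
  (Dec.one r).sub hr ((Dec.C r _).mul hr (Dec.X r))

theorem Dec.list_prod {r : ℝ} (hr : 0 ≤ r) (l : List ℂ) :
    Dec r (l.map fun z => 1 - PowerSeries.C z⁻¹ * PowerSeries.X).prod := by
  induction l with
  | nil => simpa using Dec.one r
  | cons a l ih =>
    rw [List.map_cons, List.prod_cons]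
    exact (Dec.linear r hr a).mul hr ih

theorem evs_list_prod {r : ℝ} (hr : 0 < r) (l : List ℂ) {w : ℂ} (hw : ‖w‖ ≤ r) :
    evs w (l.map fun z => 1 - PowerSeries.C z⁻¹ * PowerSeries.X).prod =
      (l.map fun z => 1 - z⁻¹ * w).prod := by
  induction l with
  | nil => simpa using evs_one w
  | cons a l ih =>
    rw [List.map_cons, List.prod_cons, List.map_cons, List.prod_cons,
      Dec.evs_mul hr (Dec.linear r hr.le a) (Dec.list_prod hr.le l) hw, evs_linear, ih]

theorem Dec.zeros_le {r : ℝ} (hr : 0 < r) {φ : PowerSeries ℂ} (hφ : Dec r φ)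
    (h0 : PowerSeries.constantCoeff φ ≠ 0) :
    ∃ B : ℕ, ∀ (l : List ℂ), (∀ z ∈ l, z ≠ 0 ∧ ‖z‖ ≤ r) → ∀ ψ : PowerSeries ℂ, Dec r ψ →
      φ = (l.map fun z => 1 - PowerSeries.C z⁻¹ * PowerSeries.X).prod * ψ → l.length ≤ B := by
  classical
  obtain ⟨ρ, hρ, han⟩ := hφ.exists_analytic hr.le
  have hρ0 : 0 < ρ := hr.trans hρ
  set g : ℂ → ℂ := fun z => evs z φ with hg
  -- not identically zero
  have hnz : ∀ z ∈ ball (0 : ℂ) ρ, ¬ ∀ᶠ w in 𝓝 z, g w = 0 := by
    intro z hz hcon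
    have h1 := han.eqOn_zero_of_preconnected_of_eventuallyEq_zero
      (convex_ball (0 : ℂ) ρ).isPreconnected hz hcon
    have h2 := h1 (mem_ball_self hρ0)
    rw [hg] at h2
    simp only [evs_at_zero, Pi.zero_apply] at h2
    exact h0 h2
  have hfin : ({z ∈ closedBall (0 : ℂ) r | g z = 0}).Finite := by
    by_contra hinf
    obtain ⟨z, hz, hacc⟩ := Set.Infinite.exists_accPt_of_subset_isCompact hinf
      (isCompact_closedBall (0 : ℂ) r) (fun z hz => hz.1)
    have hzρ : z ∈ ball (0 : ℂ) ρ := by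
      rw [mem_ball_zero_iff]
      exact lt_of_le_of_lt (mem_closedBall_zero_iff.mp hz) hρ
    have h1 : ∃ᶠ w in 𝓝[≠] z, g w = 0 := by
      rw [accPt_iff_frequently_nhdsNE] at hacc
      exact hacc.mono fun w hw => hw.2
    have h2 := (han z hzρ).frequently_zero_iff_eventually_zero.mp h1
    exact hnz z hzρ h2
  refine ⟨∑ z ∈ hfin.toFinset, (analyticOrderAt g z).toNat, ?_⟩
  intro l hl ψ hψ hprod
  obtain ⟨ρ', hρ', hs1, hs2⟩ := hφ.exists_common hr.le hψ
  set r' : ℝ := (r + ρ') / 2 with hr'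
  have hrr' : r < r' := by rw [hr']; linarith
  have hr'0 : 0 < r' := hr.trans hrr'
  have hφ' : Dec r' φ := (Dec.iff_summable hr'0.le).mpr ⟨ρ', by rw [hr']; linarith, hs1⟩
  have hψ' : Dec r' ψ := (Dec.iff_summable hr'0.le).mpr ⟨ρ', by rw [hr']; linarith, hs2⟩
  obtain ⟨ρ₂, hρ₂, hψan⟩ := hψ'.exists_analytic hr'0.le
  -- values
  have hval : ∀ w : ℂ, ‖w‖ ≤ r' → g w = (l.map fun z => 1 - z⁻¹ * w).prod * evs w ψ := by
    intro w hw
    rw [hg]
    beta_reduce
    rw [hprod, Dec.evs_mul hr'0 (Dec.list_prod hr'0.le l) hψ' hw, evs_list_prod hr'0 l hw]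
  have hzero : ∀ z ∈ l, g z = 0 := by
    intro z hz
    rw [hval z ((hl z hz).2.trans hrr'.le)]
    have : (l.map fun w => 1 - w⁻¹ * z).prod = 0 := by
      rw [List.prod_eq_zero_iff, List.mem_map]
      exact ⟨z, hz, by rw [inv_mul_cancel₀ (hl z hz).1, sub_self]⟩
    rw [this, zero_mul]
  have hcount : ∀ z ∈ l, l.count z ≤ (analyticOrderAt g z).toNat := by
    intro z hz
    have hz0 := (hl z hz).1
    have hzr := (hl z hz).2
    have hzρ : z ∈ ball (0 : ℂ) ρ := mem_ball_zero_iff.mpr (lt_of_le_of_lt hzr hρ)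
    have hfinite : analyticOrderAt g z ≠ ⊤ := by
      rw [Ne, analyticOrderAt_eq_top]
      exact hnz z hzρ
    have hle : (l.count z : ℕ∞) ≤ analyticOrderAt g z := by
      rw [natCast_le_analyticOrderAt (han z hzρ)]
      refine ⟨fun w => (-z⁻¹) ^ l.count z *
        (∏ x ∈ l.toFinset.erase z, (1 - x⁻¹ * w) ^ l.count x) * evs w ψ, ?_, ?_⟩
      · apply AnalyticAt.mul
        · apply AnalyticAt.mul analyticAt_const
          apply Finset.analyticAt_fun_prod
          intro x _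
          exact (analyticAt_const.sub (analyticAt_const.mul analyticAt_id)).pow _
        · apply hψan
          rw [mem_ball_zero_iff]
          linarith
      · have hnear : ∀ᶠ w in 𝓝 z, ‖w‖ < r' := by
          apply (isOpen_lt continuous_norm continuous_const).mem_nhds
          exact lt_of_le_of_lt hzr hrr'
        filter_upwards [hnear] with w hw
        rw [hval w hw.le, Finset.prod_list_map_count,
          ← Finset.mul_prod_erase _ _ (List.mem_toFinset.mpr hz), smul_eq_mul]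
        have h1 : 1 - z⁻¹ * w = (w - z) * (-z⁻¹) := by
          field_simp
          ring
        rw [h1, mul_pow]
        ring
    rw [← ENat.natCast_le_natCast, ENat.natCast_toNat hfinite]
    exact hle
  rw [← List.sum_toFinset_count_eq_length]
  calc ∑ z ∈ l.toFinset, l.count z ≤ ∑ z ∈ l.toFinset, (analyticOrderAt g z).toNat :=
        Finset.sum_le_sum fun z hz => hcount z (List.mem_toFinset.mp hz)
    _ ≤ ∑ z ∈ hfin.toFinset, (analyticOrderAt g z).toNat := by
        apply Finset.sum_le_sum_of_subset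
        intro z hz
        rw [List.mem_toFinset] at hz
        rw [Set.Finite.mem_toFinset]
        exact ⟨mem_closedBall_zero_iff.mpr (hl z hz).2, hzero z hz⟩

/-- A slightly better radius. -/
theorem Dec.exists_larger {r : ℝ} (hr : 0 ≤ r) {φ : PowerSeries ℂ} (hφ : Dec r φ) :
    ∃ r' : ℝ, r < r' ∧ Dec r' φ := by
  obtain ⟨ρ, hρ, hs⟩ := (Dec.iff_summable hr).mp hφ
  exact ⟨(r + ρ) / 2, by linarith, (Dec.iff_summable (by linarith)).mpr ⟨ρ, by linarith, hs⟩⟩

theorem Dec.mono {r r' : ℝ} (h : r' ≤ r) {φ : PowerSeries ℂ} (hφ : Dec r φ) : Dec r' φ := by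
  obtain ⟨ρ, hρ, C, hC⟩ := hφ
  exact ⟨ρ, lt_of_le_of_lt h hρ, C, hC⟩

end Pool.Agent.Lib.MP_49224a_al
end

section

/-!
# Power series with coefficients in a subring of `ℝ`

Rounding to the coefficient ring, units, and the factorization into a unit and atomic elements.
-/

set_option autoImplicit false

namespace Pool.Agent.Lib.MP_49224a_al

open Matrix Polynomial

/-- The series over `S` whose image over `ℂ` decays better than `r`. -/
noncomputable def BS (S : Subring ℝ) (r : ℝ) (hr : 0 < r) : Subring (PowerSeries S) where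
  carrier := {φ | Dec r (φ.map (toC S))}
  zero_mem' := by
    change Dec r _
    rw [map_zero]; exact (decRing r hr).zero_mem
  one_mem' := by
    change Dec r _
    rw [map_one]; exact (decRing r hr).one_mem
  add_mem' := by
    intro a b ha hb
    change Dec r _
    rw [map_add]; exact (decRing r hr).add_mem ha hb
  mul_mem' := by
    intro a b ha hb
    change Dec r _
    rw [map_mul]; exact (decRing r hr).mul_mem ha hb
  neg_mem' := by
    intro a ha
    change Dec r _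
    rw [map_neg]; exact (decRing r hr).neg_mem ha

theorem units_toC_injective (S : Subring ℝ) : Function.Injective (toC S) := by
  intro a b h
  have h' : ((a : ℝ) : ℂ) = ((b : ℝ) : ℂ) := h
  exact Subtype.ext (Complex.ofReal_injective h')

theorem units_map_injective (S : Subring ℝ) :
    Function.Injective (PowerSeries.map (toC S)) :=
  PowerSeries.map_injective _ (units_toC_injective S)

/-- Evaluation at a point of the disc. -/
noncomputable def unitsEv {S : Subring ℝ} {r : ℝ} {hr : 0 < r} (z : ℂ) (hz : ‖z‖ ≤ r) :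
    BS S r hr →+* ℂ where
  toFun x := evs z ((x : PowerSeries S).map (toC S))
  map_one' := by
    change evs z (PowerSeries.map (toC S) 1) = 1
    rw [map_one]; exact evs_one z
  map_mul' := by
    intro x y
    change evs z (PowerSeries.map (toC S) ((x : PowerSeries S) * (y : PowerSeries S))) = _
    rw [map_mul]; exact Dec.evs_mul hr x.2 y.2 hz
  map_zero' := by
    change evs z (PowerSeries.map (toC S) 0) = 0
    rw [map_zero]; simp [evs]
  map_add' := by
    intro x y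
    change evs z (PowerSeries.map (toC S) ((x : PowerSeries S) + (y : PowerSeries S))) = _
    rw [map_add]; exact Dec.evs_add hr x.2 y.2 hz

theorem unitsEv_apply {S : Subring ℝ} {r : ℝ} {hr : 0 < r} (z : ℂ) (hz : ‖z‖ ≤ r)
    (x : BS S r hr) : unitsEv z hz x = evs z ((x : PowerSeries S).map (toC S)) := rfl

/-- Constant coefficient on `BS`. -/
noncomputable def unitsC0 {S : Subring ℝ} {r : ℝ} {hr : 0 < r} : BS S r hr →+* S :=
  (PowerSeries.constantCoeff (R := S)).comp (BS S r hr).subtype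

theorem unitsC0_apply {S : Subring ℝ} {r : ℝ} {hr : 0 < r}
    (x : BS S r hr) : unitsC0 x = PowerSeries.constantCoeff (x : PowerSeries S) := rfl

theorem units_isUnit {S : Subring ℝ} {r : ℝ} {hr : 0 < r} (u : BS S r hr)
    (h0 : unitsC0 u = 1) (h : ∀ z : ℂ, ‖z‖ ≤ r → evs z ((u : PowerSeries S).map (toC S)) ≠ 0) :
    IsUnit u := by
  obtain ⟨ψ, hψ, h1⟩ := Dec.inverse hr u.2 h
  have hu : IsUnit (u : PowerSeries S) := by
    rw [PowerSeries.isUnit_iff_constantCoeff]
    change IsUnit (unitsC0 u)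
    rw [h0]; exact isUnit_one
  obtain ⟨v, hv⟩ := hu.exists_right_inv
  have h2 : (u : PowerSeries S).map (toC S) * v.map (toC S) = 1 := by
    rw [← map_mul, hv, map_one]
  have h3 : v.map (toC S) = ψ := by
    calc v.map (toC S) = ψ * (((u : PowerSeries S).map (toC S)) * v.map (toC S)) := by
          rw [← mul_assoc, mul_comm ψ, h1, one_mul]
      _ = ψ := by rw [h2, mul_one]
  have hvB : v ∈ BS S r hr := by
    change Dec r _
    rw [h3]; exact hψ
  refine IsUnit.of_mul_eq_one (⟨v, hvB⟩ : BS S r hr) ?_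
  exact Subtype.ext hv

/-! ### Real power series -/

/-- The inclusion of real into complex power series. -/
noncomputable def unitsRC : PowerSeries ℝ →+* PowerSeries ℂ :=
  PowerSeries.map (algebraMap ℝ ℂ)

theorem coeff_unitsRC (φ : PowerSeries ℝ) (k : ℕ) :
    PowerSeries.coeff k (unitsRC φ) = ((PowerSeries.coeff k φ : ℝ) : ℂ) := by
  simp [unitsRC]

theorem units_lift {S : Subring ℝ} (φ : PowerSeries ℝ)
    (h : ∀ k, PowerSeries.coeff k φ ∈ S) :
    ∃ ψ : PowerSeries S, ψ.map (toC S) = unitsRC φ := by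
  refine ⟨PowerSeries.mk fun k => ⟨PowerSeries.coeff k φ, h k⟩, ?_⟩
  ext k
  rw [PowerSeries.coeff_map, PowerSeries.coeff_mk, coeff_unitsRC]
  rfl

theorem units_dec_poly {r : ℝ} (p : Polynomial ℂ) : Dec r (p : PowerSeries ℂ) := by
  refine ⟨r + 1, by linarith, ?_⟩
  refine ⟨∑ k ∈ Finset.range (p.natDegree + 1), |‖p.coeff k‖ * (r + 1) ^ k|, ?_⟩
  intro k
  rw [Polynomial.coeff_coe]
  by_cases hk : k ≤ p.natDegree
  · refine (le_abs_self _).trans ?_
    exact Finset.single_le_sum (f := fun k => |‖p.coeff k‖ * (r + 1) ^ k|)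
      (fun i _ => abs_nonneg _) (Finset.mem_range.2 (by omega))
  · rw [Polynomial.coeff_eq_zero_of_natDegree_lt (by omega)]
    simp only [norm_zero, zero_mul]
    exact Finset.sum_nonneg fun i _ => abs_nonneg _

theorem units_evs_poly (z : ℂ) (p : Polynomial ℂ) : evs z (p : PowerSeries ℂ) = p.eval z := by
  unfold evs
  rw [Polynomial.eval_eq_sum_range]
  simp only [Polynomial.coeff_coe]
  apply tsum_eq_sum
  intro b hb
  rw [Finset.mem_range] at hb
  rw [Polynomial.coeff_eq_zero_of_natDegree_lt (by omega), zero_mul]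

theorem units_evs_conj (φ : PowerSeries ℂ) (h : ∀ k, (PowerSeries.coeff k φ).im = 0) (z : ℂ) :
    evs ((starRingEnd ℂ) z) φ = (starRingEnd ℂ) (evs z φ) := by
  unfold evs
  rw [Complex.conj_tsum]
  congr 1
  ext k
  rw [map_mul, map_pow, Complex.conj_eq_iff_im.2 (h k)]

/-- Series with small tail: decay, and no zero in the disc. -/
theorem units_tail {r σ M : ℝ} (hr : 0 < r) (hσ : 0 < σ) (hσr : σ * r < 1) (hM : 0 ≤ M)
    {k₀ : ℕ} (hk₀ : 1 ≤ k₀) (hlt : M * (σ * r) ^ k₀ / (1 - σ * r) < 1) (c : ℕ → ℝ)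
    (hc0 : c 0 = 1) (hc1 : ∀ k, 0 < k → k < k₀ → c k = 0)
    (hc : ∀ k, k₀ ≤ k → |c k| ≤ M * σ ^ k) :
    Dec r (unitsRC (PowerSeries.mk c)) ∧
      ∀ z : ℂ, ‖z‖ ≤ r → Summable (fun k => (c k : ℂ) * z ^ k) ∧
        evs z (unitsRC (PowerSeries.mk c)) ≠ 0 := by
  have hall : ∀ k, |c k| ≤ (1 + M) * σ ^ k := by
    intro k
    have hs : 0 < σ ^ k := pow_pos hσ k
    by_cases h1 : k = 0
    · subst h1; rw [hc0]; simp; exact hM
    · by_cases h2 : k < k₀
      · rw [hc1 k (by omega) h2]; simp; positivity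
      · refine (hc k (by omega)).trans ?_
        nlinarith
  have hx0 : 0 ≤ σ * r := by positivity
  constructor
  · refine ⟨(r + 1 / σ) / 2, ?_, 1 + M, ?_⟩
    · have : r < 1 / σ := by rw [lt_div_iff₀ hσ]; linarith
      linarith
    · intro k
      rw [coeff_unitsRC, PowerSeries.coeff_mk, Complex.norm_real, Real.norm_eq_abs]
      have hρ0 : 0 ≤ (r + 1 / σ) / 2 := by positivity
      have hρ1 : σ * ((r + 1 / σ) / 2) ≤ 1 := by
        have : σ * ((r + 1 / σ) / 2) = (σ * r + 1) / 2 := by field_simp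
        rw [this]; linarith
      calc |c k| * ((r + 1 / σ) / 2) ^ k ≤ ((1 + M) * σ ^ k) * ((r + 1 / σ) / 2) ^ k := by
            gcongr; exact hall k
        _ = (1 + M) * (σ * ((r + 1 / σ) / 2)) ^ k := by rw [mul_pow]; ring
        _ ≤ (1 + M) * 1 := by
            gcongr
            exact pow_le_one₀ (by positivity) hρ1
        _ = 1 + M := by ring
  · intro z hz
    have hbound : ∀ k, ‖(c k : ℂ) * z ^ k‖ ≤ (1 + M) * (σ * r) ^ k := by
      intro k
      rw [norm_mul, norm_pow, Complex.norm_real, Real.norm_eq_abs, mul_pow, ← mul_assoc]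
      gcongr
      exact hall k
    have hsum : Summable (fun k => (c k : ℂ) * z ^ k) := by
      refine Summable.of_norm_bounded ?_ hbound
      exact (summable_geometric_of_lt_one hx0 hσr).mul_left _
    refine ⟨hsum, ?_⟩
    have he : evs z (unitsRC (PowerSeries.mk c)) = ∑' k, (c k : ℂ) * z ^ k := by
      unfold evs
      congr 1
      ext k
      rw [coeff_unitsRC, PowerSeries.coeff_mk]
    rw [he, ← hsum.sum_add_tsum_nat_add k₀]
    have h1 : ∑ i ∈ Finset.range k₀, (c i : ℂ) * z ^ i = 1 := by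
      rw [Finset.sum_eq_single_of_mem 0 (Finset.mem_range.2 (by omega))]
      · simp [hc0]
      · intro b hb hb0
        rw [Finset.mem_range] at hb
        rw [hc1 b (by omega) hb]; simp
    rw [h1]
    have h2 : ‖∑' i, (c (i + k₀) : ℂ) * z ^ (i + k₀)‖ ≤ M * (σ * r) ^ k₀ / (1 - σ * r) := by
      have hg : HasSum (fun i : ℕ => M * (σ * r) ^ k₀ * (σ * r) ^ i)
          (M * (σ * r) ^ k₀ * (1 - σ * r)⁻¹) :=
        (hasSum_geometric_of_lt_one hx0 hσr).mul_left _
      rw [← div_eq_mul_inv] at hg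
      refine tsum_of_norm_bounded hg ?_
      intro i
      rw [norm_mul, norm_pow, Complex.norm_real, Real.norm_eq_abs]
      calc |c (i + k₀)| * ‖z‖ ^ (i + k₀) ≤ (M * σ ^ (i + k₀)) * r ^ (i + k₀) := by
            gcongr; exact hc _ (by omega)
        _ = M * (σ * r) ^ k₀ * (σ * r) ^ i := by rw [mul_pow, mul_pow, pow_add, pow_add]; ring
    intro h0
    have h3 : (∑' i, (c (i + k₀) : ℂ) * z ^ (i + k₀)) = -1 := by
      linear_combination h0
    rw [h3] at h2
    simp only [norm_neg, norm_one] at h2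
    linarith

/-! ### Greedy recursion -/

theorem units_coeff_zero_mul {R : Type} [CommRing R] (a b : PowerSeries R) :
    PowerSeries.coeff 0 (a * b) = PowerSeries.coeff 0 a * PowerSeries.coeff 0 b := by
  simp [PowerSeries.coeff_mul]

/-- Recursion where the value at `k` depends on all previous values. -/
noncomputable def unitsGre (F : ℕ → (ℕ → ℝ) → ℝ) (k : ℕ) : ℝ :=
  F k (fun j => if _h : j < k then unitsGre F j else 0)
termination_by k

/-- First finitely many coefficients. -/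
theorem units_round_fin (S : Subring ℝ) (r σ : ℝ) (hr : 0 < r) (hσ : 0 < σ) (hσr : σ * r < 1)
    (hS : ∀ k : ℕ, 1 ≤ k → ∀ x : ℝ, ∃ s ∈ S, x ≤ s ∧ s ≤ x + σ ^ k)
    (g : PowerSeries ℝ) (hg : PowerSeries.coeff 0 g = 1) (k₀ : ℕ) :
    ∃ P : PowerSeries ℝ, Dec r (unitsRC P) ∧ PowerSeries.coeff 0 P = 1 ∧
      (∀ z : ℂ, ‖z‖ ≤ r → evs z (unitsRC P) ≠ 0) ∧
      ∀ k, k < k₀ → PowerSeries.coeff k (g * P) ∈ S := by
  induction k₀ with
  | zero =>
    refine ⟨1, ?_, by simp, ?_, by simp⟩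
    · rw [map_one]; exact (decRing r hr).one_mem
    · intro z _; rw [map_one, evs_one]; exact one_ne_zero
  | succ n ih =>
    obtain ⟨P, hP1, hP2, hP3, hP4⟩ := ih
    by_cases hn : n = 0
    · subst hn
      refine ⟨P, hP1, hP2, hP3, ?_⟩
      intro k hk
      have hk0 : k = 0 := by omega
      subst hk0
      rw [units_coeff_zero_mul, hg, hP2, one_mul]
      exact S.one_mem
    · obtain ⟨s, hs, hs1, hs2⟩ := hS n (by omega) (PowerSeries.coeff n (g * P))
      set w : ℝ := s - PowerSeries.coeff n (g * P) with hw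
      have hw0 : 0 ≤ w := by rw [hw]; linarith
      have hw1 : w ≤ σ ^ n := by rw [hw]; linarith
      set q : PowerSeries ℝ := 1 + PowerSeries.C w * PowerSeries.X ^ n with hq
      have hqc : unitsRC q = ((1 + Polynomial.C (w : ℂ) * Polynomial.X ^ n : Polynomial ℂ) :
          PowerSeries ℂ) := by
        rw [hq, map_add, map_mul, map_one, map_pow]
        simp [unitsRC, Polynomial.coe_add, Polynomial.coe_mul, Polynomial.coe_pow]
      have hqd : Dec r (unitsRC q) := by rw [hqc]; exact units_dec_poly _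
      refine ⟨P * q, ?_, ?_, ?_, ?_⟩
      · rw [map_mul]; exact (decRing r hr).mul_mem hP1 hqd
      · rw [units_coeff_zero_mul, hP2, hq]
        simp [hn]
      · intro z hz
        rw [map_mul, Dec.evs_mul hr hP1 hqd hz]
        refine mul_ne_zero (hP3 z hz) ?_
        rw [hqc, units_evs_poly]
        simp only [Polynomial.eval_add, Polynomial.eval_one, Polynomial.eval_mul,
          Polynomial.eval_C, Polynomial.eval_pow, Polynomial.eval_X]
        intro h0
        have h1 : (w : ℂ) * z ^ n = -1 := by linear_combination h0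
        have h2 : ‖(w : ℂ) * z ^ n‖ < 1 := by
          rw [norm_mul, norm_pow, Complex.norm_real, Real.norm_eq_abs, abs_of_nonneg hw0]
          calc w * ‖z‖ ^ n ≤ σ ^ n * r ^ n := by gcongr
            _ = (σ * r) ^ n := by rw [mul_pow]
            _ < 1 := pow_lt_one₀ (by positivity) hσr hn
        rw [h1] at h2
        simp at h2
      · intro k hk
        have e : PowerSeries.coeff k (g * (P * q)) = PowerSeries.coeff k (g * P)
            + w * (if n ≤ k then PowerSeries.coeff (k - n) (g * P) else 0) := by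
          have : g * (P * q) = g * P + PowerSeries.C w * (g * P * PowerSeries.X ^ n) := by
            rw [hq]; ring
          rw [this, map_add, PowerSeries.coeff_C_mul, PowerSeries.coeff_mul_X_pow']
        rw [e]
        by_cases hkn : k < n
        · rw [if_neg (by omega)]
          simpa using hP4 k hkn
        · have hkn' : k = n := by omega
          subst hkn'
          rw [if_pos le_rfl, Nat.sub_self, units_coeff_zero_mul, hg, hP2]
          have : PowerSeries.coeff k (g * P) + w * (1 * 1) = s := by rw [hw]; ring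
          rw [this]; exact hs

/-- Rounding: every real series with constant term `1` becomes a series over `S` after
multiplication by a unit. -/
theorem units_round (S : Subring ℝ) (r σ : ℝ) (hr : 0 < r) (hσ : 0 < σ) (hσr : σ * r < 1)
    (hS : ∀ k : ℕ, 1 ≤ k → ∀ x : ℝ, ∃ s ∈ S, x ≤ s ∧ s ≤ x + σ ^ k)
    (g : PowerSeries ℝ) (hg : PowerSeries.coeff 0 g = 1) :
    ∃ ω : PowerSeries ℝ, Dec r (unitsRC ω) ∧ PowerSeries.coeff 0 ω = 1 ∧
      (∀ z : ℂ, ‖z‖ ≤ r → evs z (unitsRC ω) ≠ 0) ∧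
      ∀ k, PowerSeries.coeff k (g * ω) ∈ S := by
  have hx0 : 0 ≤ σ * r := by positivity
  -- choose k₀
  obtain ⟨k₁, hk₁⟩ : ∃ k₁ : ℕ, (σ * r) ^ k₁ < 1 - σ * r :=
    exists_pow_lt_of_lt_one (by linarith) hσr
  set k₀ := k₁ + 1 with hk₀
  have hlt : 1 * (σ * r) ^ k₀ / (1 - σ * r) < 1 := by
    rw [div_lt_one (by linarith), one_mul]
    refine lt_of_le_of_lt ?_ hk₁
    rw [hk₀, pow_succ]
    have : 0 ≤ (σ * r) ^ k₁ := by positivity
    nlinarith
  obtain ⟨P, hP1, hP2, hP3, hP4⟩ := units_round_fin S r σ hr hσ hσr hS g hg k₀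
  set h : PowerSeries ℝ := g * P with hh
  have hh0 : PowerSeries.coeff 0 h = 1 := by
    rw [hh, units_coeff_zero_mul, hg, hP2, one_mul]
  -- the greedy recursion
  have hS' : ∀ k : ℕ, ∀ x : ℝ, ∃ s : ℝ, 1 ≤ k → (s ∈ S ∧ x ≤ s ∧ s ≤ x + σ ^ k) := by
    intro k x
    by_cases hk : 1 ≤ k
    · obtain ⟨s, h1, h2, h3⟩ := hS k hk x
      exact ⟨s, fun _ => ⟨h1, h2, h3⟩⟩
    · exact ⟨0, fun h => absurd h hk⟩
  choose s hs using hS'
  let F : ℕ → (ℕ → ℝ) → ℝ := fun k v =>
    if k = 0 then 1 else if k < k₀ then 0 else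
      s k (∑ j ∈ Finset.range k, v j * PowerSeries.coeff (k - j) h)
        - ∑ j ∈ Finset.range k, v j * PowerSeries.coeff (k - j) h
  let c : ℕ → ℝ := unitsGre F
  have hc : ∀ k, c k = F k (fun j => if _h : j < k then c j else 0) := by
    intro k
    change unitsGre F k = _
    rw [unitsGre]
  have hsum : ∀ k, (∑ j ∈ Finset.range k, (if _h : j < k then c j else 0) *
      PowerSeries.coeff (k - j) h) = ∑ j ∈ Finset.range k, c j * PowerSeries.coeff (k - j) h := by
    intro k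
    refine Finset.sum_congr rfl fun j hj => ?_
    rw [dif_pos (Finset.mem_range.1 hj)]
  have hc0 : c 0 = 1 := by rw [hc]; simp [F]
  have hc1 : ∀ k, 0 < k → k < k₀ → c k = 0 := by
    intro k h1 h2
    rw [hc]; simp only [F]
    rw [if_neg (by omega), if_pos h2]
  have hc2 : ∀ k, k₀ ≤ k → c k = s k (∑ j ∈ Finset.range k, c j * PowerSeries.coeff (k - j) h)
      - ∑ j ∈ Finset.range k, c j * PowerSeries.coeff (k - j) h := by
    intro k h1
    rw [hc]; simp only [F]
    rw [if_neg (by omega), if_neg (by omega), hsum]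
  have hc3 : ∀ k, k₀ ≤ k → |c k| ≤ 1 * σ ^ k := by
    intro k h1
    obtain ⟨_, h2, h3⟩ := hs k (∑ j ∈ Finset.range k, c j * PowerSeries.coeff (k - j) h) (by omega)
    rw [hc2 k h1, one_mul, abs_of_nonneg (by linarith)]
    linarith
  obtain ⟨hd, hev⟩ := units_tail hr hσ hσr zero_le_one (by omega : 1 ≤ k₀) hlt c hc0 hc1 hc3
  refine ⟨P * PowerSeries.mk c, ?_, ?_, ?_, ?_⟩
  · rw [map_mul]; exact (decRing r hr).mul_mem hP1 hd
  · rw [units_coeff_zero_mul, hP2, PowerSeries.coeff_mk, hc0, one_mul]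
  · intro z hz
    rw [map_mul, Dec.evs_mul hr hP1 hd hz]
    exact mul_ne_zero (hP3 z hz) (hev z hz).2
  · intro k
    have e1 : g * (P * PowerSeries.mk c) = PowerSeries.mk c * h := by rw [hh]; ring
    rw [e1, PowerSeries.coeff_mul, Finset.Nat.sum_antidiagonal_eq_sum_range_succ
      (fun a b => PowerSeries.coeff a (PowerSeries.mk c) * PowerSeries.coeff b h)]
    simp only [PowerSeries.coeff_mk]
    rw [Nat.succ_eq_add_one, Finset.sum_range_succ, Nat.sub_self, hh0, mul_one]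
    by_cases hk : k < k₀
    · by_cases hk0 : k = 0
      · subst hk0
        simp only [Finset.range_zero, Finset.sum_empty, zero_add, hc0]
        exact S.one_mem
      · rw [hc1 k (by omega) hk, add_zero, Finset.sum_eq_single_of_mem 0
          (Finset.mem_range.2 (by omega))]
        · rw [hc0, one_mul, Nat.sub_zero]
          exact hP4 k hk
        · intro b hb hb0
          rw [Finset.mem_range] at hb
          rw [hc1 b (by omega) (by omega), zero_mul]
    · rw [hc2 k (by omega)]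
      have : ∀ a b : ℝ, a + (b - a) = b := fun a b => by ring
      rw [this]
      exact (hs k _ (by omega)).1

/-! ### Atomic elements -/

theorem units_toC_im {S : Subring ℝ} (φ : PowerSeries S) (k : ℕ) :
    (PowerSeries.coeff k (φ.map (toC S))).im = 0 := by
  rw [PowerSeries.coeff_map]
  exact Complex.ofReal_im _

theorem units_ev_im {S : Subring ℝ} (φ : PowerSeries S) (z : ℂ) (hz : z.im = 0) :
    (evs z (φ.map (toC S))).im = 0 := by
  have h := units_evs_conj _ (units_toC_im φ) z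
  rw [Complex.conj_eq_iff_im.2 hz] at h
  exact Complex.conj_eq_iff_im.1 h.symm

theorem units_lin_dec {r : ℝ} (z : ℂ) :
    Dec r (1 - PowerSeries.C z⁻¹ * PowerSeries.X : PowerSeries ℂ) := by
  have : (1 - PowerSeries.C z⁻¹ * PowerSeries.X : PowerSeries ℂ)
      = ((1 - Polynomial.C z⁻¹ * Polynomial.X : Polynomial ℂ) : PowerSeries ℂ) := by
    simp
  rw [this]; exact units_dec_poly _

theorem units_lin_evs (z w : ℂ) :
    evs w (1 - PowerSeries.C z⁻¹ * PowerSeries.X : PowerSeries ℂ) = 1 - z⁻¹ * w := by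
  have : (1 - PowerSeries.C z⁻¹ * PowerSeries.X : PowerSeries ℂ)
      = ((1 - Polynomial.C z⁻¹ * Polynomial.X : Polynomial ℂ) : PowerSeries ℂ) := by
    simp
  rw [this, units_evs_poly]; simp

/-- The real polynomial with a zero at `z` (and at the conjugate of `z`). -/
theorem units_real_factor {r : ℝ} (hr : 0 < r) (z : ℂ) (hz0 : z ≠ 0) (hz : ‖z‖ ≤ r) :
    ∃ g : PowerSeries ℝ, PowerSeries.coeff 0 g = 1 ∧ Dec r (unitsRC g) ∧
      evs z (unitsRC g) = 0 ∧
      ∀ φ : PowerSeries ℂ, Dec r φ → (∀ k, (PowerSeries.coeff k φ).im = 0) → evs z φ = 0 →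
        ∃ ψ : PowerSeries ℂ, Dec r ψ ∧ φ = unitsRC g * ψ := by
  by_cases him : z.im = 0
  · refine ⟨1 - PowerSeries.C (z.re⁻¹) * PowerSeries.X, by simp, ?_⟩
    have hzre : (z.re : ℂ) = z := by
      apply Complex.ext <;> simp [him]
    have e : unitsRC (1 - PowerSeries.C (z.re⁻¹) * PowerSeries.X)
        = 1 - PowerSeries.C z⁻¹ * PowerSeries.X := by
      rw [map_sub, map_mul, map_one]
      simp only [unitsRC, PowerSeries.map_C, PowerSeries.map_X]
      congr 3
      change ((z.re⁻¹ : ℝ) : ℂ) = z⁻¹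
      rw [Complex.ofReal_inv, hzre]
    rw [e]
    refine ⟨units_lin_dec z, ?_, ?_⟩
    · rw [units_lin_evs, inv_mul_cancel₀ hz0, sub_self]
    · intro φ hφ _ h0
      exact Dec.divide hr hφ hz0 hz h0
  · -- the quadratic polynomial
    set w : ℂ := (starRingEnd ℂ) z with hw
    have hw0 : w ≠ 0 := by
      rw [hw]; exact (_root_.map_ne_zero _).2 hz0
    have hwn : ‖w‖ ≤ r := by rw [hw, RCLike.norm_conj]; exact hz
    refine ⟨1 - PowerSeries.C (2 * (z⁻¹).re) * PowerSeries.X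
      + PowerSeries.C (Complex.normSq z⁻¹) * PowerSeries.X ^ 2, by simp, ?_⟩
    have e : unitsRC (1 - PowerSeries.C (2 * (z⁻¹).re) * PowerSeries.X
          + PowerSeries.C (Complex.normSq z⁻¹) * PowerSeries.X ^ 2)
        = (1 - PowerSeries.C z⁻¹ * PowerSeries.X) * (1 - PowerSeries.C w⁻¹ * PowerSeries.X) := by
      rw [map_add, map_sub, map_mul unitsRC (PowerSeries.C (2 * (z⁻¹).re)),
        map_mul unitsRC (PowerSeries.C (Complex.normSq z⁻¹)), map_one, map_pow]
      simp only [unitsRC, PowerSeries.map_C, PowerSeries.map_X]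
      have h1 : (algebraMap ℝ ℂ) (2 * (z⁻¹).re) = z⁻¹ + w⁻¹ := by
        change ((2 * (z⁻¹).re : ℝ) : ℂ) = _
        rw [hw, ← map_inv₀]
        rw [Complex.add_conj]
      have h2 : (algebraMap ℝ ℂ) (Complex.normSq z⁻¹) = z⁻¹ * w⁻¹ := by
        change ((Complex.normSq z⁻¹ : ℝ) : ℂ) = _
        rw [hw, ← map_inv₀, Complex.mul_conj]
      rw [h1, h2, map_add, map_mul]
      ring
    rw [e]
    refine ⟨(decRing r hr).mul_mem (units_lin_dec z) (units_lin_dec w), ?_, ?_⟩
    · rw [Dec.evs_mul hr (units_lin_dec z) (units_lin_dec w) hz, units_lin_evs,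
        inv_mul_cancel₀ hz0, sub_self, zero_mul]
    · intro φ hφ hre h0
      obtain ⟨φ₁, hφ₁, h1⟩ := Dec.divide hr hφ hz0 hz h0
      have h2 : evs w φ = 0 := by
        rw [hw, units_evs_conj φ hre z, h0, map_zero]
      rw [h1, Dec.evs_mul hr (units_lin_dec z) hφ₁ hwn, units_lin_evs] at h2
      have h3 : (1 - z⁻¹ * w) ≠ 0 := by
        intro h
        have h4 : w = z := by
          have h5 : z⁻¹ * w = 1 := by linear_combination -h
          calc w = z * (z⁻¹ * w) := by rw [← mul_assoc, mul_inv_cancel₀ hz0, one_mul]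
            _ = z := by rw [h5, mul_one]
        exact him (Complex.conj_eq_iff_im.1 h4)
      have h6 : evs w φ₁ = 0 := (mul_eq_zero.1 h2).resolve_left h3
      obtain ⟨φ₂, hφ₂, h7⟩ := Dec.divide hr hφ₁ hw0 hwn h6
      exact ⟨φ₂, hφ₂, by rw [h1, h7, mul_assoc]⟩

/-- The atomic element at `z`. -/
theorem units_atom (S : Subring ℝ) (r σ : ℝ) (hr : 0 < r) (hσ : 0 < σ) (hσr : σ * r < 1)
    (hS : ∀ k : ℕ, 1 ≤ k → ∀ x : ℝ, ∃ s ∈ S, x ≤ s ∧ s ≤ x + σ ^ k)
    (z : ℂ) (hz0 : z ≠ 0) (hz : ‖z‖ ≤ r) :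
    ∃ b : BS S r hr, unitsC0 b = 1 ∧ unitsEv z hz b = 0 ∧
      ∀ y : BS S r hr, unitsEv z hz y = 0 → ∃ c : BS S r hr, y = b * c := by
  obtain ⟨g, hg0, hgd, hgz, hgdiv⟩ := units_real_factor hr z hz0 hz
  obtain ⟨ω, hω1, hω2, hω3, hω4⟩ := units_round S r σ hr hσ hσr hS g hg0
  obtain ⟨b, hb⟩ := units_lift (g * ω) hω4
  have hbB : b ∈ BS S r hr := by
    change Dec r _
    rw [hb, map_mul]; exact (decRing r hr).mul_mem hgd hω1
  have hb0 : PowerSeries.constantCoeff b = 1 := by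
    apply units_toC_injective S
    have h1 : PowerSeries.coeff 0 (b.map (toC S)) = PowerSeries.coeff 0 (unitsRC (g * ω)) := by
      rw [hb]
    rw [PowerSeries.coeff_map, coeff_unitsRC, units_coeff_zero_mul, hg0, hω2, one_mul] at h1
    rw [← PowerSeries.coeff_zero_eq_constantCoeff_apply, h1]
    simp
  refine ⟨⟨b, hbB⟩, hb0, ?_, ?_⟩
  · change evs z (b.map (toC S)) = 0
    rw [hb, map_mul, Dec.evs_mul hr hgd hω1 hz, hgz, zero_mul]
  · intro y hy
    have hy' : evs z ((y : PowerSeries S).map (toC S)) = 0 := hy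
    obtain ⟨ψ, hψ, h1⟩ := hgdiv _ y.2 (units_toC_im _) hy'
    obtain ⟨ω', hω', h2⟩ := Dec.inverse hr hω1 hω3
    have hu : IsUnit b := by
      rw [PowerSeries.isUnit_iff_constantCoeff, hb0]; exact isUnit_one
    obtain ⟨b', hb'⟩ := hu.exists_right_inv
    have e1 : (y : PowerSeries S).map (toC S) = b.map (toC S) * (ω' * ψ) := by
      rw [h1, hb, map_mul]
      calc unitsRC g * ψ = unitsRC g * ψ * (unitsRC ω * ω') := by rw [h2, mul_one]
        _ = _ := by ring
    have e2 : (b' * (y : PowerSeries S)).map (toC S) = ω' * ψ := by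
      rw [map_mul, e1, ← mul_assoc, ← map_mul, mul_comm b' b, hb', map_one, one_mul]
    have hcB : b' * (y : PowerSeries S) ∈ BS S r hr := by
      change Dec r _
      rw [e2]; exact (decRing r hr).mul_mem hω' hψ
    refine ⟨⟨b' * (y : PowerSeries S), hcB⟩, ?_⟩
    apply Subtype.ext
    change (y : PowerSeries S) = b * (b' * (y : PowerSeries S))
    rw [← mul_assoc, hb', one_mul]

/-! ### Units with a prescribed value -/

/-- Expansion of small numbers in powers of `z` with coefficients in `S`. -/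
theorem units_expand (S : Subring ℝ) (r σ : ℝ) (hσ : 0 < σ) (hσr : σ * r < 1)
    (hS : ∀ k : ℕ, 1 ≤ k → ∀ x : ℝ, ∃ s ∈ S, x ≤ s ∧ s ≤ x + σ ^ k)
    (z : ℂ) (hz0 : z ≠ 0) (hz : ‖z‖ ≤ r) :
    ∃ (M D : ℝ), 0 ≤ M ∧ 0 < D ∧ ∀ k₀ : ℕ, 1 ≤ k₀ → ∀ w : ℂ, (z.im = 0 → w.im = 0) →
      ‖w‖ ≤ D * (σ * ‖z‖) ^ k₀ →
      ∃ c : ℕ → ℝ, c 0 = 1 ∧ (∀ k, 0 < k → k < k₀ → c k = 0) ∧
        (∀ k, k₀ ≤ k → |c k| ≤ M * σ ^ k) ∧ (∀ k, c k ∈ S) ∧
        Filter.Tendsto (fun i => ∑ k ∈ Finset.range (k₀ + 2 * i), (c k : ℂ) * z ^ k)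
          Filter.atTop (nhds (1 + w)) := by
  set x : ℝ := σ * ‖z‖ with hx
  have hzn : 0 < ‖z‖ := norm_pos_iff.2 hz0
  have hx0 : 0 < x := mul_pos hσ hzn
  have hx1 : x < 1 := lt_of_le_of_lt (by rw [hx]; gcongr) hσr
  -- real coordinates with respect to `1, z`
  obtain ⟨K, hK, hdec⟩ : ∃ K : ℝ, 0 ≤ K ∧ ∀ w : ℂ, (z.im = 0 → w.im = 0) →
      ∃ a b : ℝ, w = a + b * z ∧ |a| ≤ K * ‖w‖ ∧ |b| ≤ K * ‖w‖ := by
    refine ⟨1 + (1 + |z.re|) / |z.im|, by positivity, ?_⟩
    intro w hw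
    by_cases him : z.im = 0
    · refine ⟨w.re, 0, ?_, ?_, ?_⟩
      · apply Complex.ext <;> simp [hw him]
      · rw [him]; simp; exact Complex.abs_re_le_norm w
      · simp; positivity
    · have hpos : 0 < |z.im| := abs_pos.2 him
      have hb : |w.im / z.im| ≤ ‖w‖ / |z.im| := by
        rw [abs_div]; gcongr; exact Complex.abs_im_le_norm w
      refine ⟨w.re - w.im / z.im * z.re, w.im / z.im, ?_, ?_, ?_⟩
      · apply Complex.ext
        · simp
        · simp; field_simp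
      · calc |w.re - w.im / z.im * z.re| ≤ |w.re| + |w.im / z.im * z.re| := abs_sub _ _
          _ = |w.re| + |w.im / z.im| * |z.re| := by rw [abs_mul]
          _ ≤ ‖w‖ + ‖w‖ / |z.im| * |z.re| := by
              gcongr
              exact Complex.abs_re_le_norm w
          _ ≤ (1 + (1 + |z.re|) / |z.im|) * ‖w‖ := by
              have : (1 + (1 + |z.re|) / |z.im|) * ‖w‖
                  = ‖w‖ + ‖w‖ / |z.im| * |z.re| + ‖w‖ / |z.im| := by ring
              rw [this]
              have : 0 ≤ ‖w‖ / |z.im| := by positivity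
              linarith
      · refine hb.trans ?_
        have h1 : (1 + (1 + |z.re|) / |z.im|) * ‖w‖
            = ‖w‖ / |z.im| + (‖w‖ + ‖w‖ / |z.im| * |z.re|) := by ring
        rw [h1]
        have : 0 ≤ ‖w‖ + ‖w‖ / |z.im| * |z.re| := by positivity
        linarith
  choose! ca cb hcd using hdec
  -- rounding
  have hS' : ∀ k : ℕ, ∀ y : ℝ, ∃ s : ℝ, 1 ≤ k → (s ∈ S ∧ |y - s| ≤ σ ^ k) := by
    intro k y
    by_cases hk : 1 ≤ k
    · obtain ⟨s, h1, h2, h3⟩ := hS k hk y
      refine ⟨s, fun _ => ⟨h1, ?_⟩⟩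
      rw [abs_le]; constructor <;> linarith
    · exact ⟨0, fun h => absurd h hk⟩
  choose s hs using hS'
  refine ⟨max (K * (2 / x ^ 2) + 1) (K * (2 / x ^ 2) / σ + 1), 2 / x ^ 2, by positivity,
    by positivity, ?_⟩
  intro k₀ hk₀ w hw hwn
  -- remainders
  let A : ℕ → ℂ → ℝ := fun i v => s (k₀ + 2 * i) (ca (v / z ^ (k₀ + 2 * i)))
  let B : ℕ → ℂ → ℝ := fun i v => s (k₀ + 2 * i + 1) (cb (v / z ^ (k₀ + 2 * i)))
  let R : ℕ → ℂ := fun i => Nat.rec w (fun i v => v - (A i v + B i v * z) * z ^ (k₀ + 2 * i)) i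
  have hR0 : R 0 = w := rfl
  have hR1 : ∀ i, R (i + 1) = R i - (A i (R i) + B i (R i) * z) * z ^ (k₀ + 2 * i) :=
    fun i => rfl
  have hzpow : ∀ k : ℕ, z.im = 0 → (z ^ k).im = 0 := by
    intro k h
    have h1 : (z.re : ℂ) = z := by apply Complex.ext <;> simp [h]
    rw [← h1, ← Complex.ofReal_pow]; exact Complex.ofReal_im _
  have hRim : ∀ i, z.im = 0 → (R i).im = 0 := by
    intro i h
    induction i with
    | zero => exact hw h
    | succ i ih =>
      rw [hR1]
      simp only [Complex.sub_im, Complex.mul_im, Complex.add_im, Complex.ofReal_im,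
        Complex.add_re, Complex.ofReal_re, ih, hzpow _ h, h]
      simp
  have hRim' : ∀ i, z.im = 0 → (R i / z ^ (k₀ + 2 * i)).im = 0 := by
    intro i h
    rw [Complex.div_im, hRim i h, hzpow _ h]
    simp
  have hstep : ∀ i, ‖R i‖ ≤ 2 / x ^ 2 * x ^ (k₀ + 2 * i) := by
    intro i
    induction i with
    | zero => simpa [hR0] using hwn
    | succ i ih =>
      obtain ⟨e, _, _⟩ := hcd _ (hRim' i)
      have hzk : z ^ (k₀ + 2 * i) ≠ 0 := pow_ne_zero _ hz0
      set a := ca (R i / z ^ (k₀ + 2 * i)) with ha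
      set b := cb (R i / z ^ (k₀ + 2 * i)) with hb
      have e1 : R (i + 1) = ((a - A i (R i) : ℝ) : ℂ) * z ^ (k₀ + 2 * i)
          + ((b - B i (R i) : ℝ) : ℂ) * z ^ (k₀ + 2 * i + 1) := by
        have e2 : R i = (a + b * z) * z ^ (k₀ + 2 * i) := by
          rw [← e, div_mul_cancel₀ _ hzk]
        have e3 := congrArg
          (fun t => t - (A i (R i) + B i (R i) * z) * z ^ (k₀ + 2 * i)) e2
        calc R (i + 1) = R i - (A i (R i) + B i (R i) * z) * z ^ (k₀ + 2 * i) := hR1 i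
          _ = (a + b * z) * z ^ (k₀ + 2 * i)
              - (A i (R i) + B i (R i) * z) * z ^ (k₀ + 2 * i) := e3
          _ = _ := by push_cast; ring
      have h1 := (hs (k₀ + 2 * i) a (by omega)).2
      have h2 := (hs (k₀ + 2 * i + 1) b (by omega)).2
      calc ‖R (i + 1)‖ ≤ |a - A i (R i)| * ‖z‖ ^ (k₀ + 2 * i)
            + |b - B i (R i)| * ‖z‖ ^ (k₀ + 2 * i + 1) := by
            rw [e1]
            refine (norm_add_le _ _).trans ?_
            rw [norm_mul, norm_mul, norm_pow, norm_pow, Complex.norm_real, Complex.norm_real,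
              Real.norm_eq_abs, Real.norm_eq_abs]
        _ ≤ σ ^ (k₀ + 2 * i) * ‖z‖ ^ (k₀ + 2 * i)
            + σ ^ (k₀ + 2 * i + 1) * ‖z‖ ^ (k₀ + 2 * i + 1) := by
            gcongr
        _ = x ^ (k₀ + 2 * i) + x ^ (k₀ + 2 * i + 1) := by rw [hx, mul_pow, mul_pow]
        _ ≤ 2 * x ^ (k₀ + 2 * i) := by
            rw [pow_succ]
            have : 0 < x ^ (k₀ + 2 * i) := pow_pos hx0 _
            nlinarith
        _ = 2 / x ^ 2 * x ^ (k₀ + 2 * (i + 1)) := by
            have : k₀ + 2 * (i + 1) = (k₀ + 2 * i) + 2 := by ring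
            rw [this, pow_add x (k₀ + 2 * i) 2]
            generalize x ^ (k₀ + 2 * i) = p
            field_simp
  have hAbound : ∀ i, |A i (R i)| ≤ (K * (2 / x ^ 2) + 1) * σ ^ (k₀ + 2 * i) ∧
      |B i (R i)| ≤ (K * (2 / x ^ 2) / σ + 1) * σ ^ (k₀ + 2 * i + 1) := by
    intro i
    obtain ⟨_, e2, e3⟩ := hcd _ (hRim' i)
    have h1 := (hs (k₀ + 2 * i) (ca (R i / z ^ (k₀ + 2 * i))) (by omega)).2
    have h2 := (hs (k₀ + 2 * i + 1) (cb (R i / z ^ (k₀ + 2 * i))) (by omega)).2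
    have h3 : ‖R i / z ^ (k₀ + 2 * i)‖ ≤ 2 / x ^ 2 * σ ^ (k₀ + 2 * i) := by
      rw [norm_div, norm_pow, div_le_iff₀ (pow_pos hzn _)]
      refine (hstep i).trans (le_of_eq ?_)
      rw [hx, mul_pow σ ‖z‖ (k₀ + 2 * i)]; ring
    have h4 : K * ‖R i / z ^ (k₀ + 2 * i)‖ ≤ K * (2 / x ^ 2 * σ ^ (k₀ + 2 * i)) := by gcongr
    constructor
    · have : |A i (R i)| ≤ |ca (R i / z ^ (k₀ + 2 * i))|
          + |ca (R i / z ^ (k₀ + 2 * i)) - A i (R i)| := by
        have := abs_sub_abs_le_abs_sub (A i (R i)) (ca (R i / z ^ (k₀ + 2 * i)))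
        rw [abs_sub_comm] at this
        linarith
      have h5 : |ca (R i / z ^ (k₀ + 2 * i)) - A i (R i)| ≤ σ ^ (k₀ + 2 * i) := h1
      nlinarith
    · have : |B i (R i)| ≤ |cb (R i / z ^ (k₀ + 2 * i))|
          + |cb (R i / z ^ (k₀ + 2 * i)) - B i (R i)| := by
        have := abs_sub_abs_le_abs_sub (B i (R i)) (cb (R i / z ^ (k₀ + 2 * i)))
        rw [abs_sub_comm] at this
        linarith
      have h5 : |cb (R i / z ^ (k₀ + 2 * i)) - B i (R i)| ≤ σ ^ (k₀ + 2 * i + 1) := h2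
      have h6 : K * (2 / x ^ 2 * σ ^ (k₀ + 2 * i))
          = K * (2 / x ^ 2) / σ * σ ^ (k₀ + 2 * i + 1) := by
        rw [pow_succ σ (k₀ + 2 * i)]
        generalize σ ^ (k₀ + 2 * i) = p
        field_simp
      nlinarith
  let c : ℕ → ℝ := fun k => if k = 0 then 1 else if k < k₀ then 0 else
    if (k - k₀) % 2 = 0 then A ((k - k₀) / 2) (R ((k - k₀) / 2))
      else B ((k - k₀) / 2) (R ((k - k₀) / 2))
  have hcA : ∀ i, c (k₀ + 2 * i) = A i (R i) := by
    intro i
    simp only [c]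
    rw [if_neg (by omega), if_neg (by omega), if_pos (by omega)]
    have : (k₀ + 2 * i - k₀) / 2 = i := by omega
    rw [this]
  have hcB : ∀ i, c (k₀ + 2 * i + 1) = B i (R i) := by
    intro i
    simp only [c]
    rw [if_neg (by omega), if_neg (by omega), if_neg (by omega)]
    have : (k₀ + 2 * i + 1 - k₀) / 2 = i := by omega
    rw [this]
  have hcases : ∀ k, k₀ ≤ k → ∃ i, k = k₀ + 2 * i ∨ k = k₀ + 2 * i + 1 := by
    intro k hk
    exact ⟨(k - k₀) / 2, by omega⟩
  refine ⟨c, by simp [c], ?_, ?_, ?_, ?_⟩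
  · intro k h1 h2
    simp only [c]
    rw [if_neg (by omega), if_pos h2]
  · intro k hk
    obtain ⟨i, rfl | rfl⟩ := hcases k hk
    · rw [hcA]
      refine (hAbound i).1.trans ?_
      gcongr
      exact le_max_left _ _
    · rw [hcB]
      refine (hAbound i).2.trans ?_
      gcongr
      exact le_max_right _ _
  · intro k
    by_cases h0 : k = 0
    · subst h0
      have : c 0 = 1 := by simp [c]
      rw [this]; exact S.one_mem
    · by_cases h1 : k < k₀
      · simp only [c]; rw [if_neg h0, if_pos h1]; exact S.zero_mem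
      · obtain ⟨i, hi | hi⟩ := hcases k (by omega)
        · rw [hi, hcA]; exact (hs _ _ (by omega)).1
        · rw [hi, hcB]; exact (hs _ _ (by omega)).1
  · have hpart : ∀ i, ∑ k ∈ Finset.range (k₀ + 2 * i), (c k : ℂ) * z ^ k = 1 + w - R i := by
      intro i
      induction i with
      | zero =>
        rw [hR0, Finset.sum_eq_single_of_mem 0 (Finset.mem_range.2 (by omega))]
        · simp [c]
        · intro b hb hb0
          rw [Finset.mem_range] at hb
          have : c b = 0 := by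
            simp only [c]
            rw [if_neg hb0, if_pos (by omega)]
          rw [this]; simp
      | succ i ih =>
        have : k₀ + 2 * (i + 1) = k₀ + 2 * i + 1 + 1 := by ring
        rw [this, Finset.sum_range_succ, Finset.sum_range_succ, ih, hcA, hcB, hR1]
        ring
    have hRlim : Filter.Tendsto R Filter.atTop (nhds 0) := by
      rw [tendsto_zero_iff_norm_tendsto_zero]
      have h1 : Filter.Tendsto (fun i : ℕ => 2 / x ^ 2 * x ^ k₀ * (x ^ 2) ^ i) Filter.atTop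
          (nhds (2 / x ^ 2 * x ^ k₀ * 0)) := by
        refine Filter.Tendsto.const_mul _ ?_
        exact tendsto_pow_atTop_nhds_zero_of_lt_one (by positivity)
          (pow_lt_one₀ hx0.le hx1 (by norm_num))
      rw [mul_zero] at h1
      refine squeeze_zero (fun i => norm_nonneg _) (fun i => ?_) h1
      refine (hstep i).trans (le_of_eq ?_)
      rw [pow_add, pow_mul]; ring
    have h2 : Filter.Tendsto (fun i => 1 + w - R i) Filter.atTop (nhds (1 + w - 0)) :=
      tendsto_const_nhds.sub hRlim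
    rw [sub_zero] at h2
    exact h2.congr fun i => (hpart i).symm

/-- Every admissible nonzero value at `z` is the value of a unit. -/
theorem units_value (S : Subring ℝ) (r σ : ℝ) (hr : 0 < r) (hσ : 0 < σ) (hσr : σ * r < 1)
    (hS : ∀ k : ℕ, 1 ≤ k → ∀ x : ℝ, ∃ s ∈ S, x ≤ s ∧ s ≤ x + σ ^ k)
    (z : ℂ) (hz0 : z ≠ 0) (hz : ‖z‖ ≤ r) (α : ℂ) (hα : α ≠ 0) (him : z.im = 0 → α.im = 0) :
    ∃ u : BS S r hr, IsUnit u ∧ unitsEv z hz u = α := by
  obtain ⟨M, D, hM, hD, hexp⟩ := units_expand S r σ hσ hσr hS z hz0 hz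
  have hx0 : 0 < σ * r := by positivity
  -- choice of `k₀`
  obtain ⟨k₀, hk₀, hlt⟩ : ∃ k₀ : ℕ, 1 ≤ k₀ ∧ M * (σ * r) ^ k₀ / (1 - σ * r) < 1 := by
    have h1 : Filter.Tendsto (fun k : ℕ => M * (σ * r) ^ k / (1 - σ * r)) Filter.atTop
        (nhds (M * 0 / (1 - σ * r))) :=
      ((tendsto_pow_atTop_nhds_zero_of_lt_one hx0.le hσr).const_mul M).div_const _
    rw [mul_zero, zero_div] at h1
    have h2 := h1.eventually (gt_mem_nhds (zero_lt_one))
    obtain ⟨k, hk, hk1⟩ := (h2.and (Filter.eventually_ge_atTop 1)).exists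
    exact ⟨k, hk1, hk⟩
  -- values near `1`
  have hnear : ∀ w : ℂ, (z.im = 0 → w.im = 0) → ‖w‖ ≤ D * (σ * ‖z‖) ^ k₀ →
      ∃ u : BS S r hr, IsUnit u ∧ unitsEv z hz u = 1 + w := by
    intro w hw hwn
    obtain ⟨c, hc0, hc1, hc2, hc3, hc4⟩ := hexp k₀ hk₀ w hw hwn
    obtain ⟨hd, hev⟩ := units_tail hr hσ hσr hM hk₀ hlt c hc0 hc1 hc2
    obtain ⟨b, hb⟩ := units_lift (S := S) (PowerSeries.mk c)
      (fun k => by rw [PowerSeries.coeff_mk]; exact hc3 k)
    have hbB : b ∈ BS S r hr := by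
      change Dec r _
      rw [hb]; exact hd
    refine ⟨⟨b, hbB⟩, units_isUnit _ ?_ ?_, ?_⟩
    · apply units_toC_injective S
      change toC S (PowerSeries.constantCoeff b) = _
      rw [← PowerSeries.coeff_zero_eq_constantCoeff_apply, ← PowerSeries.coeff_map, hb,
        coeff_unitsRC, PowerSeries.coeff_mk, hc0]
      simp
    · intro ζ hζ
      change evs ζ (b.map (toC S)) ≠ 0
      rw [hb]; exact (hev ζ hζ).2
    · change evs z (b.map (toC S)) = 1 + w
      rw [hb]
      have e : evs z (unitsRC (PowerSeries.mk c)) = ∑' k, (c k : ℂ) * z ^ k := by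
        unfold evs
        congr 1
        ext k
        rw [coeff_unitsRC, PowerSeries.coeff_mk]
      rw [e]
      have h1 := (hev z hz).1.hasSum.tendsto_sum_nat
      have h2 : Filter.Tendsto (fun i : ℕ => k₀ + 2 * i) Filter.atTop Filter.atTop := by
        refine Filter.tendsto_atTop_mono (fun i => ?_) Filter.tendsto_id
        simp only [id]; omega
      exact tendsto_nhds_unique (h1.comp h2) hc4
  -- exponentials
  have hexp' : ∀ l : ℂ, (z.im = 0 → l.im = 0) →
      ∃ u : BS S r hr, IsUnit u ∧ unitsEv z hz u = Complex.exp l := by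
    intro l hl
    have hpos : 0 < D * (σ * ‖z‖) ^ k₀ := by
      have : 0 < ‖z‖ := norm_pos_iff.2 hz0
      positivity
    have h1 : Filter.Tendsto (fun n : ℕ => Complex.exp (l / (n : ℂ)) - 1) Filter.atTop
        (nhds 0) := by
      have h2 : Filter.Tendsto (fun n : ℕ => l / (n : ℂ)) Filter.atTop (nhds 0) :=
        tendsto_const_div_atTop_nhds_zero_nat l
      have h3 := (Complex.continuous_exp.tendsto 0).comp h2
      rw [Complex.exp_zero] at h3
      have h4 := h3.sub_const (1 : ℂ)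
      rw [sub_self] at h4
      exact h4
    have h5 : ∀ᶠ n : ℕ in Filter.atTop, ‖Complex.exp (l / (n : ℂ)) - 1‖ ≤ D * (σ * ‖z‖) ^ k₀ := by
      have h6 := (tendsto_zero_iff_norm_tendsto_zero.1 h1).eventually (gt_mem_nhds hpos)
      exact h6.mono fun n hn => le_of_lt hn
    obtain ⟨n, hn, hn1⟩ := (h5.and (Filter.eventually_ge_atTop 1)).exists
    obtain ⟨u, hu1, hu2⟩ := hnear (Complex.exp (l / (n : ℂ)) - 1) (by
      intro h
      have hl' := hl h
      have h7 : (l.re : ℂ) = l := by apply Complex.ext <;> simp [hl']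
      have h8 : Complex.exp (l / (n : ℂ)) = ((Real.exp (l.re / n) : ℝ) : ℂ) := by
        rw [← h7]; push_cast; simp
      rw [h8]; simp [-Complex.ofReal_exp]) hn
    refine ⟨u ^ n, hu1.pow n, ?_⟩
    rw [map_pow, hu2]
    have h9 : (1 : ℂ) + (Complex.exp (l / (n : ℂ)) - 1) = Complex.exp (l / (n : ℂ)) := by ring
    rw [h9, ← Complex.exp_nat_mul]
    congr 1
    have : (n : ℂ) ≠ 0 := by exact_mod_cast (by omega : n ≠ 0)
    field_simp
  by_cases hz1 : z.im = 0
  · have h1 : (α.re : ℂ) = α := by apply Complex.ext <;> simp [him hz1]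
    have h2 : α.re ≠ 0 := by
      intro h; rw [h] at h1; exact hα (by rw [← h1]; simp)
    rcases lt_or_gt_of_ne h2 with h3 | h3
    · obtain ⟨u, hu1, hu2⟩ := hexp' ((Real.log (-α.re) : ℝ) : ℂ) (fun _ => Complex.ofReal_im _)
      refine ⟨-u, hu1.neg, ?_⟩
      rw [map_neg, hu2, ← Complex.ofReal_exp, Real.exp_log (by linarith)]
      rw [← h1]; simp
    · obtain ⟨u, hu1, hu2⟩ := hexp' ((Real.log (α.re) : ℝ) : ℂ) (fun _ => Complex.ofReal_im _)
      refine ⟨u, hu1, ?_⟩
      rw [hu2, ← Complex.ofReal_exp, Real.exp_log h3, h1]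
  · obtain ⟨u, hu1, hu2⟩ := hexp' (Complex.log α) (fun h => absurd h hz1)
    exact ⟨u, hu1, by rw [hu2, Complex.exp_log hα]⟩

/-! ### The factorization -/

theorem units_factor_aux (S : Subring ℝ) (r σ : ℝ) (hr : 0 < r) (hσ : 0 < σ)
    (hσr : σ * r < 1)
    (hS : ∀ k : ℕ, 1 ≤ k → ∀ x : ℝ, ∃ s ∈ S, x ≤ s ∧ s ≤ x + σ ^ k) (n : ℕ) :
    ∀ a : BS S r hr, unitsC0 a = 1 →
      (∀ (l : List ℂ), (∀ z ∈ l, z ≠ 0 ∧ ‖z‖ ≤ r) → ∀ ψ : PowerSeries ℂ, Dec r ψ →
        (a : PowerSeries S).map (toC S)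
          = (l.map fun z => 1 - PowerSeries.C z⁻¹ * PowerSeries.X).prod * ψ → l.length < n) →
    ∃ (v : BS S r hr) (l : List (BS S r hr)), IsUnit v ∧ a = v * l.prod ∧
      ∀ x ∈ l, ∃ z : ℂ, ‖z‖ ≤ r ∧ evs z ((x : PowerSeries S).map (toC S)) = 0 ∧
        ∀ y : BS S r hr, evs z ((y : PowerSeries S).map (toC S)) ≠ 0 →
          ∃ c : BS S r hr, IsUnit (y + c * x) := by
  induction n with
  | zero =>
    intro a _ hl
    exact absurd (hl [] (by simp) _ a.2 (by simp)) (by simp)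
  | succ n ih =>
    intro a ha hl
    by_cases hzero : ∃ z : ℂ, ‖z‖ ≤ r ∧ evs z ((a : PowerSeries S).map (toC S)) = 0
    · obtain ⟨z, hz, hz1⟩ := hzero
      have hz0 : z ≠ 0 := by
        intro h
        rw [h] at hz1
        have h1 : evs 0 ((a : PowerSeries S).map (toC S)) = 1 := by
          unfold evs
          rw [tsum_eq_single 0]
          · rw [PowerSeries.coeff_map, PowerSeries.coeff_zero_eq_constantCoeff_apply,
              ← unitsC0_apply, ha]
            simp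
          · intro b hb; rw [zero_pow hb, mul_zero]
        rw [h1] at hz1
        exact one_ne_zero hz1
      obtain ⟨b, hb0, hbz, hbdiv⟩ := units_atom S r σ hr hσ hσr hS z hz0 hz
      obtain ⟨c, hc⟩ := hbdiv a hz1
      have hc0 : unitsC0 c = 1 := by
        have := congrArg unitsC0 hc
        rw [map_mul, ha, hb0, one_mul] at this
        exact this.symm
      obtain ⟨q, hq, hbq⟩ := Dec.divide hr b.2 hz0 hz hbz
      obtain ⟨v, l, hv, hvl, hlx⟩ := ih c hc0 (by
        intro l hl1 ψ hψ hcl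
        have h1 := hl (z :: l) (by
          intro w hw
          rcases List.mem_cons.1 hw with h | h
          · rw [h]; exact ⟨hz0, hz⟩
          · exact hl1 w h) (q * ψ) ((decRing r hr).mul_mem hq hψ) (by
          have e : (a : PowerSeries S).map (toC S)
              = (b : PowerSeries S).map (toC S) * (c : PowerSeries S).map (toC S) := by
            rw [← map_mul]; rw [hc]; rfl
          rw [e, hcl, hbq, List.map_cons, List.prod_cons]
          ring)
        simp only [List.length_cons] at h1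
        omega)
      refine ⟨v, b :: l, hv, ?_, ?_⟩
      · rw [hc, hvl, List.prod_cons]; ring
      · intro x hx
        rcases List.mem_cons.1 hx with h | h
        · rw [h]
          refine ⟨z, hz, hbz, ?_⟩
          intro y hy
          obtain ⟨u, hu1, hu2⟩ := units_value S r σ hr hσ hσr hS z hz0 hz
            (unitsEv z hz y) hy (fun him => units_ev_im _ z him)
          obtain ⟨c', hc'⟩ := hbdiv (u - y) (by rw [map_sub, hu2, sub_self])
          refine ⟨c', ?_⟩
          have : y + c' * b = u := by rw [mul_comm, ← hc']; ring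
          rw [this]; exact hu1
        · exact hlx x h
    · refine ⟨a, [], units_isUnit a ha ?_, by simp, by simp⟩
      intro z hz h
      exact hzero ⟨z, hz, h⟩

theorem BS_factor (S : Subring ℝ) (r σ : ℝ) (hr : 0 < r) (hσ : 0 < σ) (hσr : σ * r < 1)
    (hS : ∀ k : ℕ, 1 ≤ k → ∀ x : ℝ, ∃ s ∈ S, x ≤ s ∧ s ≤ x + σ ^ k)
    (a : BS S r hr) (ha : PowerSeries.constantCoeff (a : PowerSeries S) = 1) :
    ∃ (v : BS S r hr) (l : List (BS S r hr)), IsUnit v ∧ a = v * l.prod ∧
      ∀ x ∈ l, ∃ z : ℂ, ‖z‖ ≤ r ∧ evs z ((x : PowerSeries S).map (toC S)) = 0 ∧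
        ∀ y : BS S r hr, evs z ((y : PowerSeries S).map (toC S)) ≠ 0 →
          ∃ c : BS S r hr, IsUnit (y + c * x) := by
  have h0 : PowerSeries.constantCoeff ((a : PowerSeries S).map (toC S)) ≠ 0 := by
    rw [← PowerSeries.coeff_zero_eq_constantCoeff_apply, PowerSeries.coeff_map,
      PowerSeries.coeff_zero_eq_constantCoeff_apply, ha, map_one]
    exact one_ne_zero
  obtain ⟨B, hB⟩ := Dec.zeros_le hr a.2 h0
  exact units_factor_aux S r σ hr hσ hσr hS (B + 1) a ha
    (fun l hl ψ hψ h => Nat.lt_succ_of_le (hB l hl ψ hψ h))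

theorem units_det_mem {R : Type} [CommRing R] (T : Subring R) {n : Type} [Fintype n]
    [DecidableEq n] (A : Matrix n n R) (h : ∀ i j, A i j ∈ T) : A.det ∈ T := by
  rw [Matrix.det_apply']
  refine T.sum_mem fun p _ => T.mul_mem (intCast_mem T _) (T.prod_mem fun i _ => h _ _)

theorem BS_row (S : Subring ℝ) (r : ℝ) (hr : 0 < r) (f : BS S r hr) (z₀ : ℂ) (hz₀ : z₀ ≠ 0)
    (hz₀r : ‖z₀‖ ≤ r) (g : PowerSeries ℂ) (hg : Dec r g)
    (hfg : (f : PowerSeries S).map (toC S) = (1 - PowerSeries.C z₀⁻¹ * PowerSeries.X) * g)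
    (hg0 : ∀ z : ℂ, ‖z‖ ≤ r → evs z g ≠ 0)
    (n : Type) [Fintype n] [DecidableEq n] (M : Matrix n n (BS S r hr))
    (hn : 2 ≤ Fintype.card n) (hM : M.det = f) :
    ∃ i, ∀ z : ℂ, ‖z‖ ≤ r → ∃ j, evs z ((M i j : PowerSeries S).map (toC S)) ≠ 0 := by
  by_contra hcon
  push Not at hcon
  -- all the rows vanish at `z₀`
  have hrow : ∀ i, ∀ j, evs z₀ ((M i j : PowerSeries S).map (toC S)) = 0 := by
    intro i
    obtain ⟨z, hz, hzj⟩ := hcon i
    have h1 : unitsEv z hz f = 0 := by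
      rw [← hM, RingHom.map_det]
      exact Matrix.det_eq_zero_of_row_eq_zero i (fun j => hzj j)
    rw [unitsEv_apply, hfg, Dec.evs_mul hr (units_lin_dec z₀) hg hz, units_lin_evs] at h1
    have h2 : 1 - z₀⁻¹ * z = 0 := (mul_eq_zero.1 h1).resolve_right (hg0 z hz)
    have h3 : z = z₀ := by
      have h5 : z₀⁻¹ * z = 1 := by linear_combination -h2
      calc z = z₀ * (z₀⁻¹ * z) := by rw [← mul_assoc, mul_inv_cancel₀ hz₀, one_mul]
        _ = z₀ := by rw [h5, mul_one]
    rw [← h3]; exact hzj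
  obtain ⟨i, i', hii⟩ : ∃ i i' : n, i ≠ i' := by
    have : Nontrivial n := Fintype.one_lt_card_iff_nontrivial.1 (by omega)
    exact exists_pair_ne n
  have hdiv : ∀ k j, ∃ ψ : PowerSeries ℂ, Dec r ψ ∧
      (M k j : PowerSeries S).map (toC S) = (1 - PowerSeries.C z₀⁻¹ * PowerSeries.X) * ψ :=
    fun k j => Dec.divide hr (M k j).2 hz₀ hz₀r (hrow k j)
  choose N hN1 hN2 using hdiv
  let φ : BS S r hr →+* PowerSeries ℂ :=
    (PowerSeries.map (toC S)).comp (BS S r hr).subtype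
  set ℓ : PowerSeries ℂ := 1 - PowerSeries.C z₀⁻¹ * PowerSeries.X with hℓ
  have hφ : ∀ k j, φ (M k j) = ℓ * N k j := fun k j => hN2 k j
  set A : Matrix n n (PowerSeries ℂ) := M.map φ with hA
  have hdet : A.det = φ f := by
    rw [hA, ← hM, RingHom.map_det]; rfl
  have e1 : A = A.updateRow i (ℓ • N i) := by
    refine Matrix.ext fun a b => ?_
    by_cases ha : a = i
    · subst ha; rw [Matrix.updateRow_self]; exact hφ _ _
    · rw [Matrix.updateRow_ne ha]
  set A1 := A.updateRow i (N i) with hA1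
  have e2 : A.det = ℓ * A1.det := by
    conv_lhs => rw [e1]
    rw [Matrix.det_updateRow_smul]
  have e3 : A1 = A1.updateRow i' (ℓ • N i') := by
    refine Matrix.ext fun a b => ?_
    by_cases ha : a = i'
    · subst ha
      rw [Matrix.updateRow_self, hA1, Matrix.updateRow_ne hii.symm]; exact hφ _ _
    · rw [Matrix.updateRow_ne ha]
  set A2 := A1.updateRow i' (N i') with hA2
  have e4 : A1.det = ℓ * A2.det := by
    conv_lhs => rw [e3]
    rw [Matrix.det_updateRow_smul]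
  have hA2m : Dec r A2.det := by
    refine units_det_mem (decRing r hr) A2 ?_
    intro a b
    change Dec r _
    by_cases h1 : a = i'
    · subst h1; rw [hA2, Matrix.updateRow_self]; exact hN1 _ _
    · rw [hA2, Matrix.updateRow_ne h1]
      by_cases h2 : a = i
      · subst h2; rw [hA1, Matrix.updateRow_self]; exact hN1 _ _
      · rw [hA1, Matrix.updateRow_ne h2]
        exact (M a b).2
  have hℓ0 : ℓ ≠ 0 := by
    intro h
    have := congrArg (PowerSeries.coeff 0) h
    rw [hℓ] at this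
    simp at this
  have e5 : g = ℓ * A2.det := by
    apply mul_left_cancel₀ hℓ0
    rw [← e4, ← e2, hdet]
    exact hfg.symm
  refine hg0 z₀ hz₀r ?_
  rw [e5, Dec.evs_mul hr (units_lin_dec z₀) hA2m hz₀r, units_lin_evs, inv_mul_cancel₀ hz₀,
    sub_self, zero_mul]

end Pool.Agent.Lib.MP_49224a_al
end
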